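import Mathlib
import Pool.Agent.SLG.Defs

/-! Definitions for the assembly block of the disproof for MP_73203d_an: a strip carries a
compactly supported (in the second variable) stationary map of a perturbed integrand. -/

namespace Pool.Agent.SLG.Sn

open MeasureTheory

/-- `f` is strongly polyconvex: for some `γ > 0`, `f X - γ |X|²` is a convex function of `X`
and its `2 × 2` minors. -/
def StronglyPolyconvex {n : ℕ} (f : Mat n → ℝ) : Prop :=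
  ∃ γ : ℝ, 0 < γ ∧ ∃ g : Mat n × (Fin n → Fin n → ℝ) → ℝ,
    ConvexOn ℝ Set.univ g ∧ ∀ X : Mat n, f X - γ * sq X = g (X, minor X)

/-- A strip with centre line `z 1 = a`, half width `r`, smallness `δ` up to order `K`: a map `v` with matrix field
`Y` and function `F` (all supported in `|z 1 - a| ≤ r / 2`), solving the two stationarity
identities, and a small corrector `γ` such that `f0 + γ` has value `F` and gradient `(0, Y)`
along the graph of `Jac v`. -/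
structure IsStrip {n : ℕ} (f0 : Mat n → ℝ) (K : ℕ) (L c0 a r δ : ℝ) (v : E2 → Fin n → ℝ)
    (Y : E2 → Mat n) (F : E2 → ℝ) (γ : E2 × Mat n → ℝ) : Prop where
  smv : ContDiff ℝ 2 v
  smY : ContDiff ℝ 1 Y
  smF : ContDiff ℝ 1 F
  divY : ∀ z i, ∑ j, fderiv ℝ Y z (ee j) i j = 0
  dF : ∀ z k, fderiv ℝ F z (ee k) = ∑ i, ∑ j, Y z i j * fderiv ℝ (Jac v) z (ee k) i j
  suppv : ∀ z, r / 2 ≤ |z 1 - a| → v z = 0
  suppY : ∀ z, r / 2 ≤ |z 1 - a| → Y z = 0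
  suppF : ∀ z, r / 2 ≤ |z 1 - a| → F z = 0
  suppγ : ∀ z X, r / 2 ≤ |z 1 - a| → γ (z, X) = 0
  bv : ∀ z, ‖v z‖ ≤ δ * r
  bJ : ∀ z, ‖Jac v z‖ ≤ L
  bY : ∀ z, ‖Y z‖ ≤ L
  bF : ∀ z, |F z| ≤ L
  low : ∀ z : E2, z 1 = a → c0 ≤ ‖Jac v z‖
  smγ : ContDiff ℝ ((⊤ : ℕ∞) : WithTop ℕ∞) γ
  bγ : ∀ k : ℕ, k ≤ K → ∀ p, ‖iteratedFDeriv ℝ k γ p‖ ≤ δ
  val : ∀ z, γ (z, Jac v z) = F z - f0 (Jac v z)
  der : ∀ z dz dX, fderiv ℝ γ (z, Jac v z) (dz, dX)
    = ∑ i, ∑ j, (Y z i j - Grd f0 (Jac v z) i j) * dX i j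

/-- A sequence of disjoint strips with summable defects. -/
structure IsFam {n : ℕ} (f0 : Mat n → ℝ) (L c0 : ℝ) (a r δ : ℕ → ℝ) (v : ℕ → E2 → Fin n → ℝ)
    (Y : ℕ → E2 → Mat n) (F : ℕ → E2 → ℝ) (γ : ℕ → E2 × Mat n → ℝ) : Prop where
  rpos : ∀ i, 0 < r i
  dpos : ∀ i, 0 < δ i
  disj : ∀ i j, i ≠ j → r i + r j < |a i - a j|
  sumd : Summable δ
  strip : ∀ i, IsStrip f0 (i + 2) L c0 (a i) (r i) (δ i) (v i) (Y i) (F i) (γ i)

/-- Upper two rows. -/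
def top {n : ℕ} (X : Mat (2 + n)) : Mat 2 := fun i => X (Fin.castAdd n i)

/-- Lower rows. -/
def bot {n : ℕ} (X : Mat (2 + n)) : Mat n := fun i => X (Fin.natAdd 2 i)

/-- The point encoded in the first column of the upper two rows, and the lower rows. -/
noncomputable def rd {n : ℕ} (X : Mat (2 + n)) : E2 × Mat n :=
  (!₂[X (Fin.castAdd n 0) 0, X (Fin.castAdd n 1) 0], bot X)

/-- The integrand of the example. -/
noncomputable def fF {n : ℕ} (f0 : Mat n → ℝ) (γ : ℕ → E2 × Mat n → ℝ) (X : Mat (2 + n)) : ℝ :=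
  1 / 2 * sq (top X) + f0 (bot X) + ∑' i, γ i (rd X)

/-- The sum of the strips. -/
noncomputable def Vs {n : ℕ} (v : ℕ → E2 → Fin n → ℝ) (z : E2) : Fin n → ℝ := ∑' i, v i z

/-- The conformal clock `z ^ 2 / 2`. -/
noncomputable def ww (z : E2) : Fin 2 → ℝ := ![(z 0 ^ 2 - z 1 ^ 2) / 2, z 0 * z 1]

/-- The map of the example. -/
noncomputable def uU {n : ℕ} (v : ℕ → E2 → Fin n → ℝ) (z : E2) : Fin (2 + n) → ℝ :=
  Fin.append (ww z) (Vs v z)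

/-- The open unit square. -/
def Sq : Set E2 := {z | 0 < z 0 ∧ z 0 < 1 ∧ 0 < z 1 ∧ z 1 < 1}

end Pool.Agent.SLG.Sn
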