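import Mathlib
import Pool.Agent.SLN.Defs

/-! Disjoint closed intervals in `(0,1)` of small total length with dense union. -/

namespace Pool.Agent.SLG.Sn

open MeasureTheory Filter Topology

/-- validity up to `n` -/
structure a1_V (q : ℕ → ℝ) (n : ℕ) (g : ℕ → ℝ × ℝ) : Prop where
  pos : ∀ i, i < n → 0 < (g i).2
  small : ∀ i, i < n → (g i).2 ≤ 1 / 8 ^ (i + 1)
  left : ∀ i, i < n → 0 < (g i).1 - (g i).2
  right : ∀ i, i < n → (g i).1 + (g i).2 < 1
  disj : ∀ i j, i < n → j < n → i ≠ j → (g i).2 + (g j).2 < |(g i).1 - (g j).1|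
  cov : ∀ k, k < n → 0 < q k → q k < 1 → ∃ i, i ≤ k ∧ |q k - (g i).1| ≤ (g i).2

theorem a1_geo (n : ℕ) : ∑ i ∈ Finset.range n, (1 : ℝ) / 8 ^ (i + 1) < 1 / 7 := by
  have h : ∀ n : ℕ, ∑ i ∈ Finset.range n, (1 : ℝ) / 8 ^ (i + 1) = 1 / 7 - 1 / 7 * (1 / 8 ^ n) := by
    intro n
    induction n with
    | zero => simp
    | succ n ih =>
      rw [Finset.sum_range_succ, ih, pow_succ]
      field_simp
      ring
  rw [h n]
  have : (0 : ℝ) < 1 / 7 * (1 / 8 ^ n) := by positivity
  linarith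

theorem a1_point (q : ℕ → ℝ) (n : ℕ) (g : ℕ → ℝ × ℝ) (hg : a1_V q n g) :
    ∃ c : ℝ, 0 < c ∧ c < 1 ∧ ∀ i, i < n → (g i).2 < |c - (g i).1| := by
  by_contra hcon
  push Not at hcon
  have h1 : Set.Ioo (0 : ℝ) 1 ⊆ ⋃ i ∈ Finset.range n,
      Set.Icc ((g i).1 - (g i).2) ((g i).1 + (g i).2) := by
    intro c hc
    obtain ⟨i, hi, hci⟩ := hcon c hc.1 hc.2
    rw [Set.mem_iUnion₂]
    refine ⟨i, Finset.mem_range.2 hi, ?_⟩
    rw [abs_le] at hci
    constructor <;> linarith [hci.1, hci.2]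
  have h2 := measure_mono (μ := (volume : Measure ℝ)) h1
  have h3 : (volume : Measure ℝ) (⋃ i ∈ Finset.range n,
      Set.Icc ((g i).1 - (g i).2) ((g i).1 + (g i).2)) ≤
      ∑ i ∈ Finset.range n, ENNReal.ofReal (2 * (g i).2) := by
    refine (measure_biUnion_finset_le _ _).trans (Finset.sum_le_sum fun i _ => ?_)
    rw [Real.volume_Icc]
    apply ENNReal.ofReal_le_ofReal
    linarith
  have h4 : ∑ i ∈ Finset.range n, ENNReal.ofReal (2 * (g i).2) =
      ENNReal.ofReal (∑ i ∈ Finset.range n, 2 * (g i).2) := by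
    rw [ENNReal.ofReal_sum_of_nonneg]
    intro i hi
    have := hg.pos i (Finset.mem_range.1 hi)
    linarith
  rw [Real.volume_Ioo] at h2
  have h5 := h2.trans (h3.trans h4.le)
  rw [sub_zero] at h5
  have h6 : ∑ i ∈ Finset.range n, 2 * (g i).2 ≤ ∑ i ∈ Finset.range n, 2 * ((1 : ℝ) / 8 ^ (i + 1)) := by
    apply Finset.sum_le_sum
    intro i hi
    have := hg.small i (Finset.mem_range.1 hi)
    linarith
  have h7 := a1_geo n
  have h7b : ∑ i ∈ Finset.range n, 2 * ((1 : ℝ) / 8 ^ (i + 1)) =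
      2 * ∑ i ∈ Finset.range n, (1 : ℝ) / 8 ^ (i + 1) := (Finset.mul_sum _ _ _).symm
  have h8 : ∑ i ∈ Finset.range n, 2 * (g i).2 < 1 := by linarith
  have h9 := (ENNReal.ofReal_le_ofReal_iff' (p := 1) (q := ∑ i ∈ Finset.range n, 2 * (g i).2)).1 h5
  rcases h9 with h9 | h9
  · linarith
  · linarith

theorem a1_step (q : ℕ → ℝ) (n : ℕ) (g : ℕ → ℝ × ℝ) (hg : a1_V q n g) :
    ∃ g' : ℕ → ℝ × ℝ, a1_V q (n + 1) g' ∧ ∀ i, i < n → g' i = g i := by
  -- the centre
  obtain ⟨c, hc0, hc1, hc, hcov⟩ : ∃ c : ℝ, 0 < c ∧ c < 1 ∧ (∀ i, i < n → (g i).2 < |c - (g i).1|) ∧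
      (0 < q n → q n < 1 → (q n = c ∨ ∃ i, i < n ∧ |q n - (g i).1| ≤ (g i).2)) := by
    by_cases hq : (0 < q n ∧ q n < 1) ∧ ∀ i, i < n → (g i).2 < |q n - (g i).1|
    · exact ⟨q n, hq.1.1, hq.1.2, hq.2, fun _ _ => Or.inl rfl⟩
    · obtain ⟨c, h1, h2, h3⟩ := a1_point q n g hg
      refine ⟨c, h1, h2, h3, fun h4 h5 => Or.inr ?_⟩
      by_contra h6
      push Not at h6
      exact hq ⟨⟨h4, h5⟩, h6⟩
  -- the radius
  have hlt : ∀ C : ℝ, 0 < C → ∀ᶠ ρ in 𝓝[>] (0 : ℝ), ρ < C := fun C hC =>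
    (eventually_lt_nhds hC).filter_mono nhdsWithin_le_nhds
  have hall : ∀ᶠ ρ in 𝓝[>] (0 : ℝ), ∀ i ∈ Finset.range n, ρ < |c - (g i).1| - (g i).2 := by
    rw [Filter.eventually_all_finset]
    intro i hi
    exact hlt _ (sub_pos.2 (hc i (Finset.mem_range.1 hi)))
  have hpos : ∀ᶠ ρ in 𝓝[>] (0 : ℝ), 0 < ρ := eventually_mem_nhdsWithin
  obtain ⟨ρ, ⟨⟨⟨⟨h1, h2⟩, h3⟩, h4⟩, h5⟩⟩ :=
    ((((hlt c hc0).and (hlt (1 - c) (by linarith))).and
      (hlt (1 / 8 ^ (n + 1)) (by positivity))).and hall).and hpos |>.exists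
  refine ⟨Function.update g n (c, ρ), ?_, ?_⟩
  · have hn : Function.update g n (c, ρ) n = (c, ρ) := Function.update_self _ _ _
    have hi : ∀ i, i < n → Function.update g n (c, ρ) i = g i := fun i hi =>
      Function.update_of_ne hi.ne _ _
    have hsplit : ∀ i, i < n + 1 → i < n ∨ i = n := fun i hi => by omega
    refine ⟨?_, ?_, ?_, ?_, ?_, ?_⟩
    · intro i hin
      rcases hsplit i hin with h | rfl
      · rw [hi i h]; exact hg.pos i h
      · rw [hn]; exact h5
    · intro i hin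
      rcases hsplit i hin with h | rfl
      · rw [hi i h]; exact hg.small i h
      · rw [hn]; exact h3.le
    · intro i hin
      rcases hsplit i hin with h | rfl
      · rw [hi i h]; exact hg.left i h
      · rw [hn]; change 0 < c - ρ; linarith
    · intro i hin
      rcases hsplit i hin with h | rfl
      · rw [hi i h]; exact hg.right i h
      · rw [hn]; change c + ρ < 1; linarith
    · intro i j hin hjn hij
      rcases hsplit i hin with h | rfl <;> rcases hsplit j hjn with h' | rfl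
      · rw [hi i h, hi j h']; exact hg.disj i j h h' hij
      · rw [hi i h, hn]
        have := h4 i (Finset.mem_range.2 h)
        change (g i).2 + ρ < |(g i).1 - c|
        rw [abs_sub_comm]
        linarith
      · rw [hi j h', hn]
        have := h4 j (Finset.mem_range.2 h')
        change ρ + (g j).2 < |c - (g j).1|
        linarith
      · exact absurd rfl hij
    · intro k hkn h6 h7
      rcases hsplit k hkn with h | rfl
      · obtain ⟨i, hik, hiq⟩ := hg.cov k h h6 h7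
        refine ⟨i, hik, ?_⟩
        rw [hi i (by omega)]
        exact hiq
      · rcases hcov h6 h7 with h8 | ⟨i, hin, hiq⟩
        · refine ⟨k, le_rfl, ?_⟩
          rw [hn]
          change |q k - c| ≤ ρ
          rw [h8, sub_self, abs_zero]
          exact h5.le
        · refine ⟨i, hin.le, ?_⟩
          rw [hi i hin]
          exact hiq
  · intro i hin
    exact Function.update_of_ne hin.ne _ _

/-- [SLN-A1] Proof: enumerate the rationals, `q : ℕ → ℚ` surjective. Recursion: at step `n` the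
closed intervals `i < n` (radius `r i ≤ 1 / 8 ^ (i + 1)`, disjoint, inside `(0,1)`) do not cover
`(0,1)` (total length `≤ 2 * (1/7)`). If `q n ∈ (0,1)` lies in none of them put `a n = q n`,
otherwise take for `a n` any point of `(0,1)` in none of them; then `r n > 0` so small that the
closed interval is inside `(0,1)`, `r i + r n < |a i - a n|` for `i < n` and
`r n ≤ 1 / 8 ^ (n + 1)`.
Last claim: let `x` be in no closed interval, `ε > 0`. Take `N` with `r i < ε / 4` for `i ≥ N`,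
`d = min_{i < N} (|x - a i| - r i) > 0` and a rational `q n ∈ (0,1)` with
`|q n - x| < min (ε / 2) d`. If `a n = q n` we are done; otherwise `|q n - a i| ≤ r i` for some
`i < n`, by the choice of `d` we have `i ≥ N`, so `|a i - x| ≤ r i + ε / 2 < ε`. -/
theorem exists_intervals : ∃ a r : ℕ → ℝ, (∀ i, 0 < r i) ∧
    (∀ i j, i ≠ j → r i + r j < |a i - a j|) ∧
    (∀ i, 0 < a i - r i ∧ a i + r i < 1) ∧
    Summable r ∧ ∑' i, 2 * r i < 1 ∧
    (∀ x ∈ Set.Ioo (0 : ℝ) 1, (∀ i, r i < |x - a i|) → ∀ ε : ℝ, 0 < ε → ∃ i, |a i - x| < ε) := by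
  classical
  obtain ⟨q0, hq0⟩ := exists_surjective_nat ℚ
  let q : ℕ → ℝ := fun n => (q0 n : ℝ)
  let G : ℕ → (ℕ → ℝ × ℝ) := fun n => Nat.rec (fun _ => (0, 0))
    (fun n g => if hg : a1_V q n g then (a1_step q n g hg).choose else g) n
  have hG0 : a1_V q 0 (G 0) := by
    refine ⟨?_, ?_, ?_, ?_, ?_, ?_⟩
    · intro i hi; omega
    · intro i hi; omega
    · intro i hi; omega
    · intro i hi; omega
    · intro i j hi; omega
    · intro i hi; omega
  have hGs : ∀ n, G (n + 1) = if hg : a1_V q n (G n) then (a1_step q n (G n) hg).choose else G n :=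
    fun n => rfl
  have hGV : ∀ n, a1_V q n (G n) := by
    intro n
    induction n with
    | zero => exact hG0
    | succ n ih =>
      rw [hGs n, dif_pos ih]
      exact (a1_step q n (G n) ih).choose_spec.1
  have hGc : ∀ n i, i < n → G (n + 1) i = G n i := by
    intro n i hi
    rw [hGs n, dif_pos (hGV n)]
    exact (a1_step q n (G n) (hGV n)).choose_spec.2 i hi
  have hGd : ∀ i k, G (i + 1 + k) i = G (i + 1) i := by
    intro i k
    induction k with
    | zero => rfl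
    | succ k ih =>
      rw [← ih]
      exact hGc (i + 1 + k) i (by omega)
  let f : ℕ → ℝ × ℝ := fun i => G (i + 1) i
  have hf : ∀ n i, i < n → G n i = f i := by
    intro n i hi
    obtain ⟨k, rfl⟩ := Nat.exists_eq_add_of_le (show i + 1 ≤ n by omega)
    exact hGd i k
  have hpos : ∀ i, 0 < (f i).2 := fun i => (hGV (i + 1)).pos i (by omega)
  have hsmall : ∀ i, (f i).2 ≤ 1 / 8 ^ (i + 1) := fun i => (hGV (i + 1)).small i (by omega)
  have hleft : ∀ i, 0 < (f i).1 - (f i).2 := fun i => (hGV (i + 1)).left i (by omega)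
  have hright : ∀ i, (f i).1 + (f i).2 < 1 := fun i => (hGV (i + 1)).right i (by omega)
  have hdisj : ∀ i j, i ≠ j → (f i).2 + (f j).2 < |(f i).1 - (f j).1| := by
    intro i j hij
    have := (hGV (i + j + 1)).disj i j (by omega) (by omega) hij
    rw [hf (i + j + 1) i (by omega), hf (i + j + 1) j (by omega)] at this
    exact this
  have hcov : ∀ k, 0 < q k → q k < 1 → ∃ i, |q k - (f i).1| ≤ (f i).2 := by
    intro k h1 h2
    obtain ⟨i, hik, hi⟩ := (hGV (k + 1)).cov k (by omega) h1 h2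
    rw [hf (k + 1) i (by omega)] at hi
    exact ⟨i, hi⟩
  have hgs : HasSum (fun i : ℕ => (1 : ℝ) / 8 ^ (i + 1)) (1 / 7) := by
    have h1 := (hasSum_geometric_of_lt_one (r := (1 : ℝ) / 8) (by norm_num) (by norm_num)).mul_left
      ((1 : ℝ) / 8)
    have h2 : (fun i : ℕ => (1 : ℝ) / 8 ^ (i + 1)) = fun i : ℕ => (1 : ℝ) / 8 * (1 / 8) ^ i := by
      funext i
      rw [one_div_pow, pow_succ]
      field_simp
    have h3 : (1 : ℝ) / 8 * (1 - 1 / 8)⁻¹ = 1 / 7 := by norm_num
    rw [h2]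
    rw [h3] at h1
    exact h1
  have hsum : Summable fun i => (f i).2 :=
    Summable.of_nonneg_of_le (fun i => (hpos i).le) hsmall hgs.summable
  refine ⟨fun i => (f i).1, fun i => (f i).2, hpos, hdisj, fun i => ⟨hleft i, hright i⟩, hsum, ?_, ?_⟩
  · rw [tsum_mul_left]
    have h1 : ∑' i, (f i).2 ≤ 1 / 7 := by
      rw [← hgs.tsum_eq]
      exact hsum.tsum_le_tsum hsmall hgs.summable
    linarith
  · intro x hx hout ε hε
    have h1 : ∀ᶠ i in atTop, (f i).2 < ε / 4 :=
      hsum.tendsto_atTop_zero.eventually_lt_const (by positivity)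
    obtain ⟨N, hN⟩ := eventually_atTop.1 h1
    have hlt : ∀ C : ℝ, 0 < C → ∀ᶠ ρ in 𝓝[>] (0 : ℝ), ρ < C := fun C hC =>
      (eventually_lt_nhds hC).filter_mono nhdsWithin_le_nhds
    have hall : ∀ᶠ ρ in 𝓝[>] (0 : ℝ), ∀ i ∈ Finset.range N, ρ < |x - (f i).1| - (f i).2 := by
      rw [Filter.eventually_all_finset]
      intro i _
      exact hlt _ (sub_pos.2 (hout i))
    have hposρ : ∀ᶠ ρ in 𝓝[>] (0 : ℝ), 0 < ρ := eventually_mem_nhdsWithin
    obtain ⟨d, ⟨⟨h2, h3⟩, h4⟩⟩ := (((hlt (ε / 2) (by positivity)).and hall).and hposρ).exists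
    obtain ⟨y, hy1, hy2⟩ := exists_rat_btwn (show max 0 (x - d) < min 1 (x + d) from by
      rw [max_lt_iff, lt_min_iff, lt_min_iff]
      refine ⟨⟨by norm_num, by linarith [hx.1]⟩, by linarith [hx.2], by linarith⟩)
    rw [max_lt_iff] at hy1
    rw [lt_min_iff] at hy2
    obtain ⟨k, hk⟩ := hq0 y
    have hqk : q k = (y : ℝ) := by
      change ((q0 k : ℚ) : ℝ) = (y : ℝ)
      rw [hk]
    obtain ⟨i, hi⟩ := hcov k (by rw [hqk]; exact hy1.1) (by rw [hqk]; exact hy2.1)
    rw [hqk] at hi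
    have h5 : |x - (y : ℝ)| < d := by
      rw [abs_lt]
      constructor <;> linarith [hy1.2, hy2.2]
    refine ⟨i, ?_⟩
    have h6 : |(f i).1 - x| ≤ |(y : ℝ) - (f i).1| + |x - (y : ℝ)| := by
      have h7 : (f i).1 - x = -((y : ℝ) - (f i).1) - (x - (y : ℝ)) := by ring
      rw [h7]
      refine (abs_sub _ _).trans ?_
      rw [abs_neg]
    by_cases hiN : N ≤ i
    · have h8 := hN i hiN
      change |(f i).1 - x| < ε
      linarith
    · push Not at hiN
      have h8 := h3 i (Finset.mem_range.2 hiN)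
      rw [abs_sub_comm x] at h8
      exfalso
      linarith

end Pool.Agent.SLG.Sn
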