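import Mathlib
import Pool.Agent.SLN.Defs

/-! Sums with one term. -/

namespace Pool.Agent.SLG.Sn

open MeasureTheory Filter Topology

variable {n : ℕ} {f0 : Mat n → ℝ} {L c0 : ℝ} {a r δ : ℕ → ℝ} {v : ℕ → E2 → Fin n → ℝ}
  {Y : ℕ → E2 → Mat n} {F : ℕ → E2 → ℝ} {γ : ℕ → E2 × Mat n → ℝ}

/-- [SLN-A2a] triangle inequality and `h.disj`. -/
theorem far (h : IsFam f0 L c0 a r δ v Y F γ) {z : E2} {i j : ℕ} (hij : i ≠ j)
    (hz : |z 1 - a i| ≤ r i) : r j < |z 1 - a j| := by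
  have h1 := h.disj i j hij
  have h2 : |a i - a j| ≤ |z 1 - a j| + |z 1 - a i| := by
    have h3 : a i - a j = (z 1 - a j) - (z 1 - a i) := by ring
    rw [h3]
    exact abs_sub _ _
  linarith

/-- [SLN-A2a] A sum of functions supported in the strips `|z 1 - a i| < r i / 2` has one term:
`tsum_eq_single`. -/
theorem tsum_mem (h : IsFam f0 L c0 a r δ v Y F γ) {E : Type*} [NormedAddCommGroup E]
    (g : ℕ → E2 → E) (hg : ∀ i z, r i / 2 ≤ |z 1 - a i| → g i z = 0) {z : E2} {i : ℕ}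
    (hz : |z 1 - a i| ≤ r i) : ∑' j, g j z = g i z := by
  apply tsum_eq_single
  intro j hji
  apply hg
  have h1 := far h (Ne.symm hji) hz
  have h2 := h.rpos j
  linarith

/-- [SLN-A2a] -/
theorem tsum_out (h : IsFam f0 L c0 a r δ v Y F γ) {E : Type*} [NormedAddCommGroup E]
    (g : ℕ → E2 → E) (hg : ∀ i z, r i / 2 ≤ |z 1 - a i| → g i z = 0) {z : E2}
    (hz : ∀ i, r i / 2 ≤ |z 1 - a i|) : ∑' j, g j z = 0 := by
  have h1 : ∀ j, g j z = 0 := fun j => hg j z (hz j)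
  rw [tsum_congr h1, tsum_zero]

end Pool.Agent.SLG.Sn
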