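import Mathlib
import Pool.Agent.SLN.A2a

/-! The sum of the strips is Lipschitz. -/

namespace Pool.Agent.SLG.Sn

open MeasureTheory Filter Topology

variable {n : ℕ} {f0 : Mat n → ℝ} {L c0 : ℝ} {a r δ : ℕ → ℝ} {v : ℕ → E2 → Fin n → ℝ}
  {Y : ℕ → E2 → Mat n} {F : ℕ → E2 → ℝ} {γ : ℕ → E2 × Mat n → ℝ}

theorem a2b_L (h : IsFam f0 L c0 a r δ v Y F γ) : 0 ≤ L :=
  (norm_nonneg _).trans ((h.strip 0).bJ 0)

theorem a2b_ee (w : E2) : w = ∑ j, w j • ee j := by
  ext k
  fin_cases k <;> simp [ee, Fin.sum_univ_two]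

theorem a2b_fderiv (h : IsFam f0 L c0 a r δ v Y F γ) (i : ℕ) (z : E2) :
    ‖fderiv ℝ (v i) z‖ ≤ 2 * L := by
  have hL := a2b_L h
  apply ContinuousLinearMap.opNorm_le_bound _ (by linarith)
  intro w
  have h1 : fderiv ℝ (v i) z w = ∑ j, w j • fderiv ℝ (v i) z (ee j) := by
    conv_lhs => rw [a2b_ee w]
    rw [map_sum]
    refine Finset.sum_congr rfl fun j _ => ?_
    rw [map_smul]
  rw [h1]
  have h2 : ∀ j : Fin 2, ‖fderiv ℝ (v i) z (ee j)‖ ≤ L := by
    intro j
    rw [pi_norm_le_iff_of_nonneg hL]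
    intro k
    have h3 : fderiv ℝ (v i) z (ee j) k = Jac (v i) z k j := rfl
    rw [h3]
    exact ((norm_le_pi_norm (Jac (v i) z k) j).trans (norm_le_pi_norm (Jac (v i) z) k)).trans
      ((h.strip i).bJ z)
  have h4 : ∀ j : Fin 2, ‖w j • fderiv ℝ (v i) z (ee j)‖ ≤ ‖w‖ * L := by
    intro j
    rw [norm_smul]
    exact mul_le_mul (PiLp.norm_apply_le w j) (h2 j) (norm_nonneg _) (norm_nonneg _)
  calc ‖∑ j, w j • fderiv ℝ (v i) z (ee j)‖ ≤ ∑ j, ‖w j • fderiv ℝ (v i) z (ee j)‖ :=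
        norm_sum_le _ _
    _ ≤ ∑ _j : Fin 2, ‖w‖ * L := Finset.sum_le_sum fun j _ => h4 j
    _ = 2 * L * ‖w‖ := by rw [Fin.sum_univ_two]; ring

theorem a2b_lip (h : IsFam f0 L c0 a r δ v Y F γ) (i : ℕ) (p q : E2) :
    ‖v i p - v i q‖ ≤ 2 * L * ‖p - q‖ := by
  have hL := a2b_L h
  have h1 : LipschitzWith (2 * L).toNNReal (v i) := by
    apply lipschitzWith_of_nnnorm_fderiv_le ((h.strip i).smv.differentiable (by norm_num))
    intro z
    rw [← NNReal.coe_le_coe, coe_nnnorm, Real.coe_toNNReal _ (by linarith)]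
    exact a2b_fderiv h i z
  have h2 := h1.dist_le_mul p q
  rw [dist_eq_norm, dist_eq_norm, Real.coe_toNNReal _ (by linarith)] at h2
  exact h2

theorem a2b_far (h : IsFam f0 L c0 a r δ v Y F γ) {z : E2} {i : ℕ} (hz : r i < |z 1 - a i|) :
    v i z = 0 := by
  apply (h.strip i).suppv
  have := h.rpos i
  linarith

/-- [SLN-A2b] `‖fderiv (v i) z‖ ≤ 2 L` uniformly (from `bJ`: for `w : E2`,
`fderiv (v i) z w = ∑ j, w j • fderiv (v i) z (ee j)`), so `v i` is `2 L`-Lipschitz
(`lipschitzWith_of_nnnorm_fderiv_le`), and for `p` in strip `i`, `q` in strip `j ≠ i`: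
`V p - V q = (v i p - v i q) + (v j p - v j q)`, so `V` is `4 L`-Lipschitz. (All cases, also
points in no strip, by `tsum_mem`, `tsum_out`.) -/
theorem Vs_lip (h : IsFam f0 L c0 a r δ v Y F γ) : ∃ K : NNReal, LipschitzWith K (Vs v) := by
  have hL := a2b_L h
  have hs : ∀ i z, r i / 2 ≤ |z 1 - a i| → v i z = 0 := fun i z hz => (h.strip i).suppv z hz
  have hin : ∀ {z : E2} {i : ℕ}, |z 1 - a i| ≤ r i → Vs v z = v i z :=
    fun {z i} hz => tsum_mem h v hs hz
  have hout : ∀ {z : E2}, (∀ i, r i < |z 1 - a i|) → Vs v z = 0 := by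
    intro z hz
    apply tsum_out h v hs
    intro i
    have h1 := hz i
    have h2 := h.rpos i
    linarith
  refine ⟨(4 * L).toNNReal, LipschitzWith.of_dist_le_mul fun p q => ?_⟩
  rw [dist_eq_norm, dist_eq_norm, Real.coe_toNNReal _ (by linarith)]
  have hpq : 0 ≤ L * ‖p - q‖ := mul_nonneg hL (norm_nonneg _)
  by_cases hp : ∃ i, |p 1 - a i| ≤ r i
  · obtain ⟨i, hi⟩ := hp
    rw [hin hi]
    by_cases hq : ∃ j, |q 1 - a j| ≤ r j
    · obtain ⟨j, hj⟩ := hq
      rw [hin hj]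
      by_cases hij : i = j
      · subst hij
        have := a2b_lip h i p q
        linarith
      · have h1 : v i q = 0 := a2b_far h (far h (Ne.symm hij) hj)
        have h2 : v j p = 0 := a2b_far h (far h hij hi)
        have h3 : v i p - v j q = (v i p - v i q) + (v j p - v j q) := by
          rw [h1, h2]
          simp [sub_eq_add_neg]
        rw [h3]
        have h4 := norm_add_le (v i p - v i q) (v j p - v j q)
        have h5 := a2b_lip h i p q
        have h6 := a2b_lip h j p q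
        linarith
    · push Not at hq
      rw [hout hq]
      have h1 : v i q = 0 := a2b_far h (hq i)
      have h2 := a2b_lip h i p q
      rw [h1] at h2
      linarith
  · push Not at hp
    rw [hout hp]
    by_cases hq : ∃ j, |q 1 - a j| ≤ r j
    · obtain ⟨j, hj⟩ := hq
      rw [hin hj]
      have h1 : v j p = 0 := a2b_far h (hp j)
      have h2 := a2b_lip h j p q
      rw [h1] at h2
      linarith
    · push Not at hq
      rw [hout hq, sub_zero, norm_zero]
      linarith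

end Pool.Agent.SLG.Sn
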