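import Mathlib
import Pool.Agent.SLN.A2a

/-! Derivative of the sum of the strips. -/

namespace Pool.Agent.SLG.Sn

open MeasureTheory Filter Topology

variable {n : ℕ} {f0 : Mat n → ℝ} {L c0 : ℝ} {a r δ : ℕ → ℝ} {v : ℕ → E2 → Fin n → ℝ}
  {Y : ℕ → E2 → Mat n} {F : ℕ → E2 → ℝ} {γ : ℕ → E2 × Mat n → ℝ}

/-- [SLN-A2c] In the open strip `i` the sum is `v i`. -/
theorem Vs_fderiv_mem (h : IsFam f0 L c0 a r δ v Y F γ) {z : E2} {i : ℕ}
    (hz : |z 1 - a i| < r i) : HasFDerivAt (Vs v) (fderiv ℝ (v i) z) z := by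
  have hs : ∀ i z, r i / 2 ≤ |z 1 - a i| → v i z = 0 := fun i z hz => (h.strip i).suppv z hz
  have h1 : HasFDerivAt (v i) (fderiv ℝ (v i) z) z :=
    (((h.strip i).smv.differentiable (by norm_num)) z).hasFDerivAt
  apply h1.congr_of_eventuallyEq
  have hc : Continuous fun q : E2 => |q 1 - a i| := by fun_prop
  have h2 : ∀ᶠ q in 𝓝 z, |q 1 - a i| < r i := hc.continuousAt.eventually_lt continuousAt_const hz
  filter_upwards [h2] with q hq
  exact tsum_mem h v hs hq.le

/-- [SLN-A2c] Outside all open strips the sum is differentiable with derivative `0`: if `q` is a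
point with `V q ≠ 0`, then `|q 1 - a j| < r j / 2` for some `j`, `‖V q‖ ≤ δ j * r j` (`bv`) and
`‖q - z‖ ≥ |q 1 - z 1| ≥ r j / 2`, so `‖V q‖ ≤ 2 * δ j * ‖q - z‖`. As `δ j → 0`
(`h.sumd`), for given `ε` only finitely many `j` have `2 * δ j > ε`, and these do not occur if
`‖q - z‖ < min r j / 2` over them. Here `V z = 0`. -/
theorem Vs_fderiv_out (h : IsFam f0 L c0 a r δ v Y F γ) {z : E2}
    (hz : ∀ i, r i ≤ |z 1 - a i|) : HasFDerivAt (Vs v) (0 : E2 →L[ℝ] (Fin n → ℝ)) z := by
  have hs : ∀ i z, r i / 2 ≤ |z 1 - a i| → v i z = 0 := fun i z hz => (h.strip i).suppv z hz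
  have hz0 : Vs v z = 0 := by
    apply tsum_out h v hs
    intro i
    have h1 := hz i
    have h2 := h.rpos i
    linarith
  rw [hasFDerivAt_iff_isLittleO, Asymptotics.isLittleO_iff]
  intro c hc
  have hδ : ∀ᶠ j in atTop, δ j < c / 2 :=
    h.sumd.tendsto_atTop_zero.eventually_lt_const (by positivity)
  obtain ⟨N, hN⟩ := eventually_atTop.1 hδ
  have h1 : ∀ᶠ q in 𝓝 z, ∀ j ∈ Finset.range N, ‖q - z‖ < r j / 2 := by
    rw [Filter.eventually_all_finset]
    intro j _
    have hc : Continuous fun q : E2 => ‖q - z‖ := by fun_prop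
    have := hc.continuousAt.eventually_lt (f := fun q : E2 => ‖q - z‖)
      (g := fun _ => r j / 2) (x₀ := z) continuousAt_const (by
        have := h.rpos j
        simp only [sub_self, norm_zero]
        linarith)
    exact this
  filter_upwards [h1] with q hq
  rw [hz0, sub_zero, ContinuousLinearMap.zero_apply, sub_zero]
  by_cases hj : ∃ j, |q 1 - a j| < r j / 2
  · obtain ⟨j, hj⟩ := hj
    have hrj := h.rpos j
    have h2 : Vs v q = v j q := tsum_mem h v hs (by linarith)
    rw [h2]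
    have h3 : |q 1 - z 1| ≤ ‖q - z‖ := by
      have := PiLp.norm_apply_le (q - z) 1
      rw [Real.norm_eq_abs] at this
      exact this
    have h4 : |z 1 - a j| ≤ |q 1 - a j| + |q 1 - z 1| := by
      have h5 : z 1 - a j = (q 1 - a j) - (q 1 - z 1) := by ring
      rw [h5]
      exact abs_sub _ _
    have h6 := hz j
    have h7 : r j / 2 < ‖q - z‖ := by linarith
    have h8 : N ≤ j := by
      by_contra hlt
      push Not at hlt
      have := hq j (Finset.mem_range.2 hlt)
      linarith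
    have h9 := hN j h8
    have h10 := (h.strip j).bv q
    have h11 := h.dpos j
    have h12 : δ j * r j ≤ δ j * (2 * ‖q - z‖) :=
      mul_le_mul_of_nonneg_left (by linarith) h11.le
    have h13 : δ j * (2 * ‖q - z‖) ≤ c / 2 * (2 * ‖q - z‖) :=
      mul_le_mul_of_nonneg_right h9.le (by positivity)
    linarith
  · push Not at hj
    have h14 : Vs v q = 0 := tsum_out h v hs hj
    rw [h14, norm_zero]
    positivity

end Pool.Agent.SLG.Sn
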