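import Mathlib
import Pool.Agent.SLN.A2b
import Pool.Agent.SLN.A2c

/-! The Jacobian of the example. -/

namespace Pool.Agent.SLG.Sn

open MeasureTheory Filter Topology

variable {n : ℕ} {f0 : Mat n → ℝ} {L c0 : ℝ} {a r δ : ℕ → ℝ} {v : ℕ → E2 → Fin n → ℝ}
  {Y : ℕ → E2 → Mat n} {F : ℕ → E2 → ℝ} {γ : ℕ → E2 × Mat n → ℝ}

theorem a2d_apply {m : ℕ} {u : E2 → Fin m → ℝ} {z : E2} (hu : DifferentiableAt ℝ u z) (w : E2)
    (i : Fin m) : fderiv ℝ u z w i = fderiv ℝ (fun y => u y i) z w := by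
  rw [((hasFDerivAt_pi'.1 hu.hasFDerivAt) i).fderiv]
  rfl

theorem a2d_coord (j : Fin 2) (z : E2) :
    HasFDerivAt (fun y : E2 => y j) (EuclideanSpace.proj j : E2 →L[ℝ] ℝ) z :=
  (EuclideanSpace.proj j : E2 →L[ℝ] ℝ).hasFDerivAt

theorem a2d_ww0 (z : E2) : HasFDerivAt (fun y : E2 => ww y 0)
    ((z 0) • (EuclideanSpace.proj 0 : E2 →L[ℝ] ℝ) - (z 1) • (EuclideanSpace.proj 1 : E2 →L[ℝ] ℝ)) z := by
  have h := (((a2d_coord 0 z).pow 2).sub ((a2d_coord 1 z).pow 2)).mul_const (1 / 2 : ℝ)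
  have e : (fun y : E2 => ww y 0) = fun y : E2 => (y 0 ^ 2 - y 1 ^ 2) * (1 / 2) := by
    funext y
    show (y 0 ^ 2 - y 1 ^ 2) / 2 = _
    ring
  rw [e]
  refine h.congr_fderiv ?_
  ext w
  simp
  ring

theorem a2d_ww1 (z : E2) : HasFDerivAt (fun y : E2 => ww y 1)
    ((z 0) • (EuclideanSpace.proj 1 : E2 →L[ℝ] ℝ) + (z 1) • (EuclideanSpace.proj 0 : E2 →L[ℝ] ℝ)) z :=
  (a2d_coord 0 z).mul (a2d_coord 1 z)

/-- [SLN-A2d] -/
theorem Vs_diff (h : IsFam f0 L c0 a r δ v Y F γ) : Differentiable ℝ (Vs v) := by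
  intro z
  by_cases hz : ∃ i, |z 1 - a i| < r i
  · obtain ⟨i, hi⟩ := hz
    exact (Vs_fderiv_mem h hi).differentiableAt
  · push Not at hz
    exact (Vs_fderiv_out h hz).differentiableAt

/-- [SLN-A2d] -/
theorem Jac_Vs_mem (h : IsFam f0 L c0 a r δ v Y F γ) {z : E2} {i : ℕ}
    (hz : |z 1 - a i| < r i) : Jac (Vs v) z = Jac (v i) z := by
  funext k j
  rw [Jac, (Vs_fderiv_mem h hz).fderiv]
  rfl

/-- [SLN-A2d] -/
theorem Jac_Vs_out (h : IsFam f0 L c0 a r δ v Y F γ) {z : E2}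
    (hz : ∀ i, r i ≤ |z 1 - a i|) : Jac (Vs v) z = 0 := by
  funext k j
  rw [Jac, (Vs_fderiv_out h hz).fderiv]
  rfl

/-- [SLN-A2d] -/
theorem ww_contDiff : ContDiff ℝ ((⊤ : ℕ∞) : WithTop ℕ∞) ww := by
  have h0 : ContDiff ℝ ((⊤ : ℕ∞) : WithTop ℕ∞) (fun y : E2 => y 0) :=
    (EuclideanSpace.proj 0 : E2 →L[ℝ] ℝ).contDiff
  have h1 : ContDiff ℝ ((⊤ : ℕ∞) : WithTop ℕ∞) (fun y : E2 => y 1) :=
    (EuclideanSpace.proj 1 : E2 →L[ℝ] ℝ).contDiff
  rw [contDiff_pi]
  intro i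
  fin_cases i
  · exact ((h0.pow 2).sub (h1.pow 2)).div_const 2
  · exact h0.mul h1

/-- [SLN-A2d] -/
theorem Jac_ww (z : E2) : Jac ww z = ![![z 0, -z 1], ![z 1, z 0]] := by
  have hd : DifferentiableAt ℝ ww z := (ww_contDiff.differentiable (by simp)) z
  funext i j
  rw [Jac, a2d_apply hd]
  fin_cases i
  · show fderiv ℝ (fun y : E2 => ww y 0) z (ee j) = _
    rw [(a2d_ww0 z).fderiv]
    fin_cases j <;> simp [ee]
  · show fderiv ℝ (fun y : E2 => ww y 1) z (ee j) = _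
    rw [(a2d_ww1 z).fderiv]
    fin_cases j <;> simp [ee]

/-- [SLN-A2d] -/
theorem uU_diff (h : IsFam f0 L c0 a r δ v Y F γ) : Differentiable ℝ (uU v) := by
  rw [differentiable_pi]
  intro i
  refine Fin.addCases (fun i => ?_) (fun i => ?_) i
  · have e : (fun z => uU v z (Fin.castAdd n i)) = fun z => ww z i := by
      funext z
      exact Fin.append_left _ _ _
    rw [e]
    exact (differentiable_pi.1 (ww_contDiff.differentiable (by simp))) i
  · have e : (fun z => uU v z (Fin.natAdd 2 i)) = fun z => Vs v z i := by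
      funext z
      exact Fin.append_right _ _ _
    rw [e]
    exact (differentiable_pi.1 (Vs_diff h)) i

/-- [SLN-A2d] -/
theorem top_Jac (h : IsFam f0 L c0 a r δ v Y F γ) (z : E2) : top (Jac (uU v) z) = Jac ww z := by
  funext i j
  show fderiv ℝ (uU v) z (ee j) (Fin.castAdd n i) = fderiv ℝ ww z (ee j) i
  rw [a2d_apply (uU_diff h z), a2d_apply ((ww_contDiff.differentiable (by simp)) z)]
  have e : (fun z => uU v z (Fin.castAdd n i)) = fun z => ww z i := by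
    funext z
    exact Fin.append_left _ _ _
  rw [e]

/-- [SLN-A2d] -/
theorem bot_Jac (h : IsFam f0 L c0 a r δ v Y F γ) (z : E2) :
    bot (Jac (uU v) z) = Jac (Vs v) z := by
  funext i j
  show fderiv ℝ (uU v) z (ee j) (Fin.natAdd 2 i) = fderiv ℝ (Vs v) z (ee j) i
  rw [a2d_apply (uU_diff h z), a2d_apply (Vs_diff h z)]
  have e : (fun z => uU v z (Fin.natAdd 2 i)) = fun z => Vs v z i := by
    funext z
    exact Fin.append_right _ _ _
  rw [e]

/-- [SLN-A2d] `rd` reads the point. -/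
theorem rd_Jac (h : IsFam f0 L c0 a r δ v Y F γ) (z : E2) :
    rd (Jac (uU v) z) = (z, Jac (Vs v) z) := by
  have h0 : Jac (uU v) z (Fin.castAdd n 0) 0 = z 0 := by
    have h1 : top (Jac (uU v) z) 0 0 = z 0 := by
      rw [top_Jac h, Jac_ww]
      rfl
    exact h1
  have h0' : Jac (uU v) z (Fin.castAdd n 1) 0 = z 1 := by
    have h1 : top (Jac (uU v) z) 1 0 = z 1 := by
      rw [top_Jac h, Jac_ww]
      rfl
    exact h1
  rw [rd, bot_Jac h, h0, h0']
  refine Prod.ext ?_ rfl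
  ext i
  fin_cases i <;> rfl

/-- [SLN-A2d] `ww` is Lipschitz on the unit square, `Vs` everywhere. -/
theorem uU_lip (h : IsFam f0 L c0 a r δ v Y F γ) : ∃ K : NNReal, LipschitzOnWith K (uU v) Sq := by
  obtain ⟨K, hK⟩ := Vs_lip h
  refine ⟨2 + K, LipschitzOnWith.of_dist_le_mul ?_⟩
  intro x hx y hy
  have hco : ∀ j : Fin 2, |x j - y j| ≤ dist x y := by
    intro j
    rw [dist_eq_norm]
    have h1 := PiLp.norm_apply_le (x - y) j
    rwa [PiLp.sub_apply, Real.norm_eq_abs] at h1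
  have hd : 0 ≤ dist x y := dist_nonneg
  have hK0 : (0 : ℝ) ≤ K := K.2
  rw [dist_pi_le_iff (by positivity)]
  intro i
  obtain ⟨x0, x0', x1, x1'⟩ := hx
  obtain ⟨y0, y0', y1, y1'⟩ := hy
  have a0 := hco 0
  have a1 := hco 1
  push_cast
  refine Fin.addCases (fun i => ?_) (fun i => ?_) i
  · have e : ∀ z, uU v z (Fin.castAdd n i) = ww z i := fun z => Fin.append_left _ _ _
    rw [e, e, Real.dist_eq]
    have hle : |ww x i - ww y i| ≤ 2 * dist x y := by
      fin_cases i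
      · show |(x 0 ^ 2 - x 1 ^ 2) / 2 - (y 0 ^ 2 - y 1 ^ 2) / 2| ≤ 2 * dist x y
        have e1 : (x 0 ^ 2 - x 1 ^ 2) / 2 - (y 0 ^ 2 - y 1 ^ 2) / 2 =
          (x 0 - y 0) * ((x 0 + y 0) / 2) - (x 1 - y 1) * ((x 1 + y 1) / 2) := by ring
        rw [e1]
        have b0 : |(x 0 - y 0) * ((x 0 + y 0) / 2)| ≤ dist x y := by
          rw [abs_mul, abs_of_pos (show (0 : ℝ) < (x 0 + y 0) / 2 by linarith)]
          have : |x 0 - y 0| * ((x 0 + y 0) / 2) ≤ |x 0 - y 0| * 1 :=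
            mul_le_mul_of_nonneg_left (by linarith) (abs_nonneg _)
          linarith
        have b1 : |(x 1 - y 1) * ((x 1 + y 1) / 2)| ≤ dist x y := by
          rw [abs_mul, abs_of_pos (show (0 : ℝ) < (x 1 + y 1) / 2 by linarith)]
          have : |x 1 - y 1| * ((x 1 + y 1) / 2) ≤ |x 1 - y 1| * 1 :=
            mul_le_mul_of_nonneg_left (by linarith) (abs_nonneg _)
          linarith
        have := abs_sub ((x 0 - y 0) * ((x 0 + y 0) / 2)) ((x 1 - y 1) * ((x 1 + y 1) / 2))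
        linarith
      · show |x 0 * x 1 - y 0 * y 1| ≤ 2 * dist x y
        have e1 : x 0 * x 1 - y 0 * y 1 = (x 0 - y 0) * x 1 + (x 1 - y 1) * y 0 := by ring
        rw [e1]
        have b0 : |(x 0 - y 0) * x 1| ≤ dist x y := by
          rw [abs_mul, abs_of_pos x1]
          have : |x 0 - y 0| * x 1 ≤ |x 0 - y 0| * 1 :=
            mul_le_mul_of_nonneg_left (by linarith) (abs_nonneg _)
          linarith
        have b1 : |(x 1 - y 1) * y 0| ≤ dist x y := by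
          rw [abs_mul, abs_of_pos y0]
          have : |x 1 - y 1| * y 0 ≤ |x 1 - y 1| * 1 :=
            mul_le_mul_of_nonneg_left (by linarith) (abs_nonneg _)
          linarith
        have := abs_add_le ((x 0 - y 0) * x 1) ((x 1 - y 1) * y 0)
        linarith
    nlinarith
  · have e : ∀ z, uU v z (Fin.natAdd 2 i) = Vs v z i := fun z => Fin.append_right _ _ _
    rw [e, e]
    have h1 := (dist_le_pi_dist (Vs v x) (Vs v y) i).trans (hK.dist_le_mul x y)
    nlinarith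

end Pool.Agent.SLG.Sn
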