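import Mathlib
import Pool.Agent.SLN.Defs

/-! `rd` is continuous linear. -/

namespace Pool.Agent.SLG.Sn

open MeasureTheory Filter Topology

/-- [SLN-A3a] `rd` is a continuous linear map of norm at most `2`. -/
theorem exists_rdL (n : ℕ) : ∃ P : Mat (2 + n) →L[ℝ] E2 × Mat n, (∀ X, P X = rd X) ∧ ‖P‖ ≤ 2 := by
  let Pl : Mat (2 + n) →ₗ[ℝ] E2 × Mat n :=
    { toFun := rd
      map_add' := by
        intro X X'
        refine Prod.ext ?_ rfl
        ext i
        fin_cases i <;> rfl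
      map_smul' := by
        intro c X
        refine Prod.ext ?_ rfl
        ext i
        fin_cases i <;> rfl }
  have hb : ∀ X, ‖Pl X‖ ≤ 2 * ‖X‖ := by
    intro X
    have hX := norm_nonneg X
    have hent : ∀ (i : Fin (2 + n)) (j : Fin 2), |X i j| ≤ ‖X‖ := by
      intro i j
      rw [← Real.norm_eq_abs]
      exact (norm_le_pi_norm (X i) j).trans (norm_le_pi_norm X i)
    have h1 : ‖(!₂[X (Fin.castAdd n 0) 0, X (Fin.castAdd n 1) 0] : E2)‖ ≤ 2 * ‖X‖ := by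
      rw [EuclideanSpace.norm_eq, Fin.sum_univ_two, Real.sqrt_le_iff]
      refine ⟨by positivity, ?_⟩
      have a1 : ‖(!₂[X (Fin.castAdd n 0) 0, X (Fin.castAdd n 1) 0] : E2) 0‖ ≤ ‖X‖ := hent _ _
      have a2 : ‖(!₂[X (Fin.castAdd n 0) 0, X (Fin.castAdd n 1) 0] : E2) 1‖ ≤ ‖X‖ := hent _ _
      have b1 := pow_le_pow_left₀ (norm_nonneg _) a1 2
      have b2 := pow_le_pow_left₀ (norm_nonneg _) a2 2
      nlinarith
    have h2 : ‖bot X‖ ≤ 2 * ‖X‖ := by
      have h3 : ‖bot X‖ ≤ ‖X‖ := (pi_norm_le_iff_of_nonneg hX).2 fun i => norm_le_pi_norm X _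
      linarith
    exact max_le h1 h2
  exact ⟨Pl.mkContinuous 2 hb, fun X => rfl, LinearMap.mkContinuous_norm_le _ (by norm_num) _⟩

end Pool.Agent.SLG.Sn
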