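import Mathlib
import Pool.Agent.SLN.A3a

/-! Smoothness of the integrand. -/

namespace Pool.Agent.SLG.Sn

open MeasureTheory Filter Topology

variable {n : ℕ} {f0 : Mat n → ℝ} {L c0 : ℝ} {a r δ : ℕ → ℝ} {v : ℕ → E2 → Fin n → ℝ}
  {Y : ℕ → E2 → Mat n} {F : ℕ → E2 → ℝ} {γ : ℕ → E2 × Mat n → ℝ}

/-- [SLN-A3b] `γ i ∘ rd` has derivatives of order `k ≤ i + 2` bounded by `2 ^ k * δ i`
(`ContinuousLinearMap.iteratedFDeriv_comp_right`, `norm_compContinuousLinearMap_le`). -/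
theorem bd_comp (h : IsFam f0 L c0 a r δ v Y F γ) (i k : ℕ) (hk : k ≤ i + 2) (X : Mat (2 + n)) :
    ‖iteratedFDeriv ℝ k (fun X => γ i (rd X)) X‖ ≤ 2 ^ k * δ i := by
  obtain ⟨P, hP, hP2⟩ := exists_rdL n
  have h1 : (fun X : Mat (2 + n) => γ i (rd X)) = γ i ∘ P := by
    funext X
    rw [Function.comp_apply, hP]
  rw [h1, ContinuousLinearMap.iteratedFDeriv_comp_right P (h.strip i).smγ X (i := k) (by
    exact_mod_cast le_top)]
  refine (ContinuousMultilinearMap.norm_compContinuousLinearMap_le _ _).trans ?_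
  rw [Finset.prod_const, Finset.card_univ, Fintype.card_fin, mul_comm]
  refine mul_le_mul (pow_le_pow_left₀ (norm_nonneg _) hP2 k) ((h.strip i).bγ k hk _) (norm_nonneg _)
    (by positivity)

theorem a3b_cd (h : IsFam f0 L c0 a r δ v Y F γ) (i : ℕ) :
    ContDiff ℝ ((⊤ : ℕ∞) : WithTop ℕ∞) (fun X : Mat (2 + n) => γ i (rd X)) := by
  obtain ⟨P, hP, -⟩ := exists_rdL n
  have h1 : (fun X : Mat (2 + n) => γ i (rd X)) = γ i ∘ P := by
    funext X
    rw [Function.comp_apply, hP]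
  rw [h1]
  exact (h.strip i).smγ.comp P.contDiff

/-- [SLN-A3b] `contDiff_tsum_of_eventually` with `v k i = 2 ^ k * δ i` (the bound holds for
`k ≤ i + 2`). -/
theorem sum_contDiff (h : IsFam f0 L c0 a r δ v Y F γ) :
    ContDiff ℝ ((⊤ : ℕ∞) : WithTop ℕ∞) (fun X : Mat (2 + n) => ∑' i, γ i (rd X)) := by
  refine contDiff_tsum_of_eventually (v := fun k i => 2 ^ k * δ i) (fun i => a3b_cd h i)
    (fun k _ => h.sumd.mul_left _) ?_
  intro k _
  rw [Nat.cofinite_eq_atTop]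
  filter_upwards [eventually_ge_atTop k] with i hi X
  exact bd_comp h i k (by omega) X

/-- [SLN-A3b] -/
theorem fF_contDiff (hf : ContDiff ℝ ((⊤ : ℕ∞) : WithTop ℕ∞) f0)
    (h : IsFam f0 L c0 a r δ v Y F γ) :
    ContDiff ℝ ((⊤ : ℕ∞) : WithTop ℕ∞) (fF f0 γ) := by
  have h1 : ContDiff ℝ ((⊤ : ℕ∞) : WithTop ℕ∞) (fun X : Mat (2 + n) => 1 / 2 * sq (top X)) := by
    unfold sq top
    fun_prop
  have h2 : ContDiff ℝ ((⊤ : ℕ∞) : WithTop ℕ∞) (fun X : Mat (2 + n) => f0 (bot X)) := by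
    refine hf.comp ?_
    unfold bot
    fun_prop
  exact (h1.add h2).add (sum_contDiff h)

/-- [SLN-A3b] `fderiv_tsum` (with `‖fderiv‖ = ‖iteratedFDeriv 1‖ ≤ 2 * δ i`) and the chain rule. -/
theorem sum_fderiv (h : IsFam f0 L c0 a r δ v Y F γ) (X H : Mat (2 + n)) :
    fderiv ℝ (fun X : Mat (2 + n) => ∑' i, γ i (rd X)) X H
      = ∑' i, fderiv ℝ (γ i) (rd X) (rd H) := by
  have hb1 : ∀ i X, ‖fderiv ℝ (fun X : Mat (2 + n) => γ i (rd X)) X‖ ≤ 2 * δ i := by
    intro i X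
    have h1 := bd_comp h i 1 (by omega) X
    rwa [norm_iteratedFDeriv_one, pow_one] at h1
  have hs0 : Summable (fun i => γ i (rd (0 : Mat (2 + n)))) := by
    refine Summable.of_norm_bounded h.sumd fun i => ?_
    have h1 := bd_comp h i 0 (by omega) (0 : Mat (2 + n))
    rwa [norm_iteratedFDeriv_zero, pow_zero, one_mul] at h1
  have h2 := fderiv_tsum (𝕜 := ℝ) (h.sumd.mul_left 2) (fun i => (a3b_cd h i).differentiable (by simp))
    (fun i X => hb1 i X) hs0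
  rw [h2]
  have hs1 : Summable (fun i => fderiv ℝ (fun X : Mat (2 + n) => γ i (rd X)) X) :=
    Summable.of_norm_bounded (h.sumd.mul_left 2) fun i => hb1 i X
  have h3 := (hs1.hasSum.mapL (ContinuousLinearMap.apply ℝ ℝ H)).tsum_eq
  rw [ContinuousLinearMap.apply_apply] at h3
  rw [← h3]
  refine tsum_congr fun i => ?_
  rw [ContinuousLinearMap.apply_apply]
  obtain ⟨P, hP, -⟩ := exists_rdL n
  have h1 : (fun X : Mat (2 + n) => γ i (rd X)) = γ i ∘ P := by
    funext X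
    rw [Function.comp_apply, hP]
  rw [h1, fderiv_comp X ((h.strip i).smγ.differentiable (by simp) _) P.differentiableAt, P.fderiv,
    ContinuousLinearMap.comp_apply, hP, hP]

end Pool.Agent.SLG.Sn
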