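import Mathlib
import Pool.Agent.SLN.A2d
import Pool.Agent.SLN.A3b

/-! Gradient and values of the integrand on the graph. -/

namespace Pool.Agent.SLG.Sn

open MeasureTheory Filter Topology

variable {n : ℕ} {f0 : Mat n → ℝ} {L c0 : ℝ} {a r δ : ℕ → ℝ} {v : ℕ → E2 → Fin n → ℝ}
  {Y : ℕ → E2 → Mat n} {F : ℕ → E2 → ℝ} {γ : ℕ → E2 × Mat n → ℝ}

theorem a3c_ray {E : Type*} [NormedAddCommGroup E] [NormedSpace ℝ E] {g : E → ℝ} {x u : E}
    (hg : DifferentiableAt ℝ g x) (h : ∀ t : ℝ, 0 ≤ t → g (x + t • u) = 0) :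
    fderiv ℝ g x u = 0 := by
  have hl : HasDerivAt (fun t : ℝ => x + t • u) u 0 := by
    have h1 := ((hasDerivAt_id (0 : ℝ)).smul_const u).const_add x
    simpa using h1
  have hx : x + (0 : ℝ) • u = x := by rw [zero_smul, add_zero]
  have hg' : HasFDerivAt g (fderiv ℝ g x) (x + (0 : ℝ) • u) := by
    rw [hx]
    exact hg.hasFDerivAt
  have h2 : HasDerivAt (fun t : ℝ => g (x + t • u)) (fderiv ℝ g x u) 0 := hg'.comp_hasDerivAt 0 hl
  have h3 : HasDerivWithinAt (fun t : ℝ => g (x + t • u)) (fderiv ℝ g x u) (Set.Ici 0) 0 :=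
    h2.hasDerivWithinAt
  have h4 : HasDerivWithinAt (fun t : ℝ => g (x + t • u)) 0 (Set.Ici 0) 0 :=
    (hasDerivWithinAt_const (0 : ℝ) (Set.Ici 0) (0 : ℝ)).congr (fun t ht => h t ht) (h 0 le_rfl)
  exact (uniqueDiffWithinAt_Ici (0 : ℝ)).eq_deriv _ h3 h4

theorem a3c_abs {c u : ℝ} (h : 0 ≤ c * u) {t : ℝ} (ht : 0 ≤ t) : |c| ≤ |c + t * u| := by
  rw [← sq_le_sq]
  nlinarith [mul_nonneg ht h, sq_nonneg (t * u)]

theorem a3c_dec {n : ℕ} (A : Mat n →L[ℝ] ℝ) (H : Mat n) :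
    A H = ∑ i, ∑ j, A (Pi.single i (Pi.single j 1)) * H i j := by
  have h1 : H = ∑ i, ∑ j, H i j • (Pi.single i (Pi.single j (1 : ℝ)) : Mat n) := by
    funext a b
    simp only [Finset.sum_apply, Pi.smul_apply, smul_eq_mul]
    rw [Finset.sum_eq_single a, Finset.sum_eq_single b]
    · rw [Pi.single_eq_same, Pi.single_eq_same, mul_one]
    · intro j _ hj
      rw [Pi.single_eq_same, Pi.single_eq_of_ne hj.symm, mul_zero]
    · intro hb
      exact absurd (Finset.mem_univ b) hb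
    · intro i _ hi
      refine Finset.sum_eq_zero fun j _ => ?_
      rw [Pi.single_eq_of_ne hi.symm, Pi.zero_apply, mul_zero]
    · intro ha
      exact absurd (Finset.mem_univ a) ha
  conv_lhs => rw [h1]
  rw [map_sum]
  refine Finset.sum_congr rfl fun i _ => ?_
  rw [map_sum]
  refine Finset.sum_congr rfl fun j _ => ?_
  rw [map_smul, smul_eq_mul, mul_comm]

theorem a3c_sum_single {n : ℕ} (A : Mat n) (i : Fin n) (j : Fin 2) :
    ∑ a, ∑ b, A a b * (Pi.single i (Pi.single j (1 : ℝ)) : Mat n) a b = A i j := by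
  rw [Finset.sum_eq_single i, Finset.sum_eq_single j]
  · rw [Pi.single_eq_same, Pi.single_eq_same, mul_one]
  · intro b _ hb
    rw [Pi.single_eq_same, Pi.single_eq_of_ne hb, mul_zero]
  · intro hb
    exact absurd (Finset.mem_univ j) hb
  · intro a _ ha
    refine Finset.sum_eq_zero fun b _ => ?_
    rw [Pi.single_eq_of_ne ha, Pi.zero_apply, mul_zero]
  · intro ha
    exact absurd (Finset.mem_univ i) ha

/-- one entry -/
noncomputable def a3c_pr {m : ℕ} (a : Fin m) (j : Fin 2) : Mat m →L[ℝ] ℝ :=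
  (ContinuousLinearMap.proj (R := ℝ) (φ := fun _ : Fin 2 => ℝ) j).comp
    (ContinuousLinearMap.proj (R := ℝ) (φ := fun _ : Fin m => Fin 2 → ℝ) a)

theorem a3c_pr_apply {m : ℕ} (a : Fin m) (j : Fin 2) (X : Mat m) : a3c_pr a j X = X a j := rfl

theorem a3c_top {n : ℕ} (X : Mat (2 + n)) :
    HasFDerivAt (fun X : Mat (2 + n) => 1 / 2 * sq (top X))
      (∑ i : Fin 2, ∑ j : Fin 2, X (Fin.castAdd n i) j • a3c_pr (Fin.castAdd n i) j) X := by
  have h1 : (fun X : Mat (2 + n) => 1 / 2 * sq (top X)) =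
      fun X : Mat (2 + n) => ∑ i : Fin 2, ∑ j : Fin 2,
        1 / 2 * (a3c_pr (Fin.castAdd n i) j X * a3c_pr (Fin.castAdd n i) j X) := by
    funext X
    unfold sq top
    rw [Finset.mul_sum]
    refine Finset.sum_congr rfl fun i _ => ?_
    rw [Finset.mul_sum]
    refine Finset.sum_congr rfl fun j _ => ?_
    rw [a3c_pr_apply, pow_two]
  rw [h1]
  refine HasFDerivAt.fun_sum fun i _ => HasFDerivAt.fun_sum fun j _ => ?_
  have h2 := ((a3c_pr (Fin.castAdd n i) j).hasFDerivAt (x := X)).mul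
    ((a3c_pr (Fin.castAdd n i) j).hasFDerivAt (x := X))
  have h3 := h2.const_mul (1 / 2 : ℝ)
  refine h3.congr_fderiv ?_
  ext H
  simp only [smul_apply, add_apply, a3c_pr_apply, smul_eq_mul]
  ring

/-- the lower rows as a linear map -/
noncomputable def a3c_bot (n : ℕ) : Mat (2 + n) →L[ℝ] Mat n :=
  ContinuousLinearMap.pi fun i =>
    ContinuousLinearMap.proj (R := ℝ) (φ := fun _ : Fin (2 + n) => Fin 2 → ℝ) (Fin.natAdd 2 i)

theorem a3c_bot_apply {n : ℕ} (X : Mat (2 + n)) : a3c_bot n X = bot X := rfl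

theorem a3c_top_top {n : ℕ} (i j : Fin 2) :
    top (Pi.single (Fin.castAdd n i) (Pi.single j (1 : ℝ)) : Mat (2 + n)) =
      (Pi.single i (Pi.single j 1) : Mat 2) := by
  funext a
  unfold top
  by_cases h : a = i
  · rw [h, Pi.single_eq_same, Pi.single_eq_same]
  · rw [Pi.single_eq_of_ne h, Pi.single_eq_of_ne]
    intro h2
    exact h (Fin.castAdd_injective 2 n h2)

theorem a3c_bot_top {n : ℕ} (i j : Fin 2) :
    bot (Pi.single (Fin.castAdd n i) (Pi.single j (1 : ℝ)) : Mat (2 + n)) = 0 := by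
  funext a
  unfold bot
  rw [Pi.single_eq_of_ne]
  · rfl
  · intro h2
    have := congrArg Fin.val h2
    simp only [Fin.val_natAdd, Fin.val_castAdd] at this
    have := i.isLt
    omega

theorem a3c_top_bot {n : ℕ} (i : Fin n) (j : Fin 2) :
    top (Pi.single (Fin.natAdd 2 i) (Pi.single j (1 : ℝ)) : Mat (2 + n)) = 0 := by
  funext a
  unfold top
  rw [Pi.single_eq_of_ne]
  · rfl
  · intro h2
    have := congrArg Fin.val h2
    simp only [Fin.val_natAdd, Fin.val_castAdd] at this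
    have := a.isLt
    omega

theorem a3c_bot_bot {n : ℕ} (i : Fin n) (j : Fin 2) :
    bot (Pi.single (Fin.natAdd 2 i) (Pi.single j (1 : ℝ)) : Mat (2 + n)) =
      (Pi.single i (Pi.single j 1) : Mat n) := by
  funext a
  unfold bot
  by_cases h : a = i
  · rw [h, Pi.single_eq_same, Pi.single_eq_same]
  · rw [Pi.single_eq_of_ne h, Pi.single_eq_of_ne]
    intro h2
    exact h (Fin.natAdd_injective n 2 h2)

theorem a3c_rd_bot {n : ℕ} (i : Fin n) (j : Fin 2) :
    rd (Pi.single (Fin.natAdd 2 i) (Pi.single j (1 : ℝ)) : Mat (2 + n)) =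
      (0, (Pi.single i (Pi.single j 1) : Mat n)) := by
  have h0 := a3c_top_bot (n := n) i j
  have h1 : ∀ a : Fin 2, (Pi.single (Fin.natAdd 2 i) (Pi.single j (1 : ℝ)) : Mat (2 + n))
      (Fin.castAdd n a) 0 = 0 := fun a => congrFun (congrFun h0 a) 0
  unfold rd
  rw [a3c_bot_bot, h1, h1]
  congr 1
  ext a
  fin_cases a <;> rfl

/-- [SLN-A3c] Outside the strip `i` the derivative of `γ i` vanishes. -/
theorem gam_fderiv_zero (h : IsFam f0 L c0 a r δ v Y F γ) (i : ℕ) {z : E2} (X : Mat n)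
    (hz : r i / 2 ≤ |z 1 - a i|) : fderiv ℝ (γ i) (z, X) = 0 := by
  have hd : DifferentiableAt ℝ (γ i) (z, X) := ((h.strip i).smγ.differentiable (by simp)) (z, X)
  have key : ∀ u : E2 × Mat n, 0 ≤ (z 1 - a i) * u.1 1 → fderiv ℝ (γ i) (z, X) u = 0 := by
    intro u hu
    refine a3c_ray hd (fun t ht => ?_)
    have h1 : (z, X) + t • u = (z + t • u.1, X + t • u.2) := rfl
    rw [h1]
    refine (h.strip i).suppγ _ _ ?_
    have h2 : (z + t • u.1) 1 - a i = (z 1 - a i) + t * u.1 1 := by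
      show z 1 + t * u.1 1 - a i = _
      ring
    rw [h2]
    exact hz.trans (a3c_abs hu ht)
  refine ContinuousLinearMap.ext fun u => ?_
  show fderiv ℝ (γ i) (z, X) u = 0
  rcases le_total 0 ((z 1 - a i) * u.1 1) with hu | hu
  · exact key _ hu
  · have h3 := key (-u) (by
      show 0 ≤ (z 1 - a i) * (-(u.1 1))
      linarith)
    rw [map_neg, neg_eq_zero] at h3
    exact h3

theorem a3c_der_zero (h : IsFam f0 L c0 a r δ v Y F γ) (k : ℕ) (z : E2) (dz : E2) :
    fderiv ℝ (γ k) (z, Jac (Vs v) z) (dz, 0) = 0 := by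
  by_cases hk : |z 1 - a k| < r k
  · rw [Jac_Vs_mem h hk, (h.strip k).der]
    refine Finset.sum_eq_zero fun i _ => Finset.sum_eq_zero fun j _ => ?_
    rw [Pi.zero_apply, Pi.zero_apply, mul_zero]
  · push Not at hk
    have hr := h.rpos k
    rw [gam_fderiv_zero h k _ (by linarith)]
    rfl

/-- [SLN-A3c] Gradient of `fF`. -/
theorem fF_fderiv (hf : ContDiff ℝ ((⊤ : ℕ∞) : WithTop ℕ∞) f0)
    (h : IsFam f0 L c0 a r δ v Y F γ) (X H : Mat (2 + n)) :
    fderiv ℝ (fF f0 γ) X H = ∑ i, ∑ j, top X i j * top H i j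
      + ∑ i, ∑ j, Grd f0 (bot X) i j * bot H i j + ∑' i, fderiv ℝ (γ i) (rd X) (rd H) := by
  have h1 := a3c_top X
  have hfd : DifferentiableAt ℝ f0 (bot X) := hf.differentiable (by simp) _
  have h2 : HasFDerivAt (fun X : Mat (2 + n) => f0 (bot X)) ((fderiv ℝ f0 (bot X)).comp (a3c_bot n)) X :=
    HasFDerivAt.comp (g := f0) X hfd.hasFDerivAt (a3c_bot n).hasFDerivAt
  have h3 : DifferentiableAt ℝ (fun X : Mat (2 + n) => ∑' i, γ i (rd X)) X :=
    (sum_contDiff h).differentiable (by simp) X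
  have h4 := (h1.add h2).add h3.hasFDerivAt
  have h5 : fderiv ℝ (fF f0 γ) X = _ := h4.fderiv
  rw [h5, add_apply, add_apply, sum_fderiv h]
  have e2 : ((fderiv ℝ f0 (bot X)).comp (a3c_bot n)) H = ∑ i, ∑ j, Grd f0 (bot X) i j * bot H i j := by
    show fderiv ℝ f0 (bot X) (bot H) = _
    rw [a3c_dec]
    rfl
  rw [e2]
  congr 1

/-- [SLN-A3c] `f0 0 = 0` and `Grd f0 0 = 0` (from `val`, `der` at a point outside a strip). -/
theorem f0_zero (h : IsFam f0 L c0 a r δ v Y F γ) : f0 0 = 0 ∧ Grd f0 0 = 0 := by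
  have hs := h.strip 0
  have hr := h.rpos 0
  let z : E2 := !₂[0, a 0 + r 0]
  have hz1 : z 1 - a 0 = r 0 := by
    show a 0 + r 0 - a 0 = r 0
    ring
  have hz : r 0 / 2 ≤ |z 1 - a 0| := by
    rw [hz1, abs_of_pos hr]
    linarith
  have hJ : Jac (v 0) z = 0 := by
    have hev : v 0 =ᶠ[𝓝 z] fun _ => 0 := by
      have hcont : Continuous fun q : E2 => |q 1 - a 0| := by fun_prop
      have hopen : IsOpen {q : E2 | r 0 / 2 < |q 1 - a 0|} := isOpen_lt continuous_const hcont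
      have hmem : z ∈ {q : E2 | r 0 / 2 < |q 1 - a 0|} := by
        show r 0 / 2 < |z 1 - a 0|
        rw [hz1, abs_of_pos hr]
        linarith
      filter_upwards [hopen.mem_nhds hmem] with q hq
      exact hs.suppv q (le_of_lt hq)
    funext i j
    unfold Jac
    rw [hev.fderiv_eq]
    simp
  have hv := hs.val z
  rw [hJ, hs.suppγ z 0 hz, hs.suppF z hz] at hv
  refine ⟨by linarith, ?_⟩
  funext i j
  have hd := hs.der z 0 (Pi.single i (Pi.single j 1))
  rw [hJ, gam_fderiv_zero h 0 _ hz, hs.suppY z hz] at hd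
  rw [a3c_sum_single (fun i j => (0 : Mat n) i j - Grd f0 0 i j)] at hd
  have h0 : (0 : ℝ) = 0 - Grd f0 0 i j := hd
  show Grd f0 0 i j = 0
  linarith

/-- [SLN-A3c] Value on the graph. -/
theorem fF_val (h : IsFam f0 L c0 a r δ v Y F γ) (z : E2) :
    fF f0 γ (Jac (uU v) z) = z 0 ^ 2 + z 1 ^ 2 + ∑' i, F i z := by
  unfold fF
  rw [rd_Jac h, top_Jac h, bot_Jac h, Jac_ww]
  have h1 : 1 / 2 * sq (![![z 0, -z 1], ![z 1, z 0]] : Mat 2) = z 0 ^ 2 + z 1 ^ 2 := by
    unfold sq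
    simp only [Fin.sum_univ_two, Matrix.cons_val_zero, Matrix.cons_val_one]
    ring
  rw [h1, add_assoc]
  congr 1
  by_cases hex : ∃ i, |z 1 - a i| < r i
  · obtain ⟨i, hi⟩ := hex
    rw [tsum_mem h (fun j q => γ j (q, Jac (Vs v) z)) (fun j q hq => (h.strip j).suppγ q _ hq) hi.le,
      tsum_mem h F (fun j q hq => (h.strip j).suppF q hq) hi.le, Jac_Vs_mem h hi, (h.strip i).val]
    ring
  · push Not at hex
    have hex2 : ∀ i, r i / 2 ≤ |z 1 - a i| := fun i => by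
      have := h.rpos i
      linarith [hex i]
    rw [tsum_out h (fun j q => γ j (q, Jac (Vs v) z)) (fun j q hq => (h.strip j).suppγ q _ hq) hex2,
      tsum_out h F (fun j q hq => (h.strip j).suppF q hq) hex2, Jac_Vs_out h hex, (f0_zero h).1]
    ring

/-- [SLN-A3c] Gradient on the graph, upper rows. -/
theorem fF_Grd_top (hf : ContDiff ℝ ((⊤ : ℕ∞) : WithTop ℕ∞) f0)
    (h : IsFam f0 L c0 a r δ v Y F γ) (z : E2) (i j : Fin 2) :
    Grd (fF f0 γ) (Jac (uU v) z) (Fin.castAdd n i) j = Jac ww z i j := by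
  unfold Grd
  rw [fF_fderiv hf h, top_Jac h, a3c_top_top, a3c_bot_top, rd_Jac h, a3c_sum_single]
  have h1 : ∑ i, ∑ j, Grd f0 (bot (Jac (uU v) z)) i j * (0 : Mat n) i j = 0 := by
    refine Finset.sum_eq_zero fun i _ => Finset.sum_eq_zero fun j _ => ?_
    rw [Pi.zero_apply, Pi.zero_apply, mul_zero]
  have h2 : ∀ k, fderiv ℝ (γ k) (z, Jac (Vs v) z)
      (rd (Pi.single (Fin.castAdd n i) (Pi.single j (1 : ℝ)) : Mat (2 + n))) = 0 := by
    intro k
    have h3 : rd (Pi.single (Fin.castAdd n i) (Pi.single j (1 : ℝ)) : Mat (2 + n)) =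
        ((rd (Pi.single (Fin.castAdd n i) (Pi.single j (1 : ℝ)) : Mat (2 + n))).1, 0) := by
      unfold rd
      rw [a3c_bot_top]
    rw [h3]
    exact a3c_der_zero h k z _
  have h4 : ∑' k, fderiv ℝ (γ k) (z, Jac (Vs v) z)
      (rd (Pi.single (Fin.castAdd n i) (Pi.single j (1 : ℝ)) : Mat (2 + n))) = 0 := by
    simp only [h2, tsum_zero]
  rw [h4]
  linarith

/-- [SLN-A3c] Gradient on the graph, lower rows. -/
theorem fF_Grd_bot (hf : ContDiff ℝ ((⊤ : ℕ∞) : WithTop ℕ∞) f0)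
    (h : IsFam f0 L c0 a r δ v Y F γ) (z : E2) (i : Fin n)
    (j : Fin 2) :
    Grd (fF f0 γ) (Jac (uU v) z) (Fin.natAdd 2 i) j = (∑' k, Y k z) i j := by
  unfold Grd
  rw [fF_fderiv hf h, a3c_top_bot, a3c_bot_bot, rd_Jac h, a3c_rd_bot, a3c_sum_single, bot_Jac h]
  have h1 : ∑ i, ∑ j, top (Jac (uU v) z) i j * (0 : Mat 2) i j = 0 := by
    refine Finset.sum_eq_zero fun i _ => Finset.sum_eq_zero fun j _ => ?_
    rw [Pi.zero_apply, Pi.zero_apply, mul_zero]
  rw [h1, zero_add]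
  by_cases hex : ∃ k, |z 1 - a k| < r k
  · obtain ⟨k, hk⟩ := hex
    rw [tsum_mem h (fun l q => fderiv ℝ (γ l) (q, Jac (Vs v) z) (0, (Pi.single i (Pi.single j 1) : Mat n)))
      (fun l q hq => by rw [gam_fderiv_zero h l _ hq]; rfl) hk.le,
      tsum_mem h Y (fun l q hq => (h.strip l).suppY q hq) hk.le, Jac_Vs_mem h hk, (h.strip k).der,
      a3c_sum_single (fun i j => Y k z i j - Grd f0 (Jac (v k) z) i j)]
    ring
  · push Not at hex
    have hex2 : ∀ i, r i / 2 ≤ |z 1 - a i| := fun i => by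
      have := h.rpos i
      linarith [hex i]
    rw [tsum_out h (fun l q => fderiv ℝ (γ l) (q, Jac (Vs v) z) (0, (Pi.single i (Pi.single j 1) : Mat n)))
      (fun l q hq => by rw [gam_fderiv_zero h l _ hq]; rfl) hex2,
      tsum_out h Y (fun l q hq => (h.strip l).suppY q hq) hex2, Jac_Vs_out h hex, (f0_zero h).2]
    show (0 : ℝ) + 0 = 0
    ring

end Pool.Agent.SLG.Sn
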