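import Mathlib
import Pool.Agent.SLN.Defs

/-! Small perturbations of sums of squares are convex. -/

namespace Pool.Agent.SLG.Sn

open MeasureTheory Filter Topology

/-- [SLN-A4a] `‖X‖ ^ 2 ≤ sq X` (sup norm against the sum of squares). -/
theorem norm_sq_le {n : ℕ} (X : Mat n) : ‖X‖ ^ 2 ≤ sq X := by
  have h0 : 0 ≤ sq X := by
    unfold sq
    positivity
  have h1 : ‖X‖ ≤ Real.sqrt (sq X) := by
    rw [pi_norm_le_iff_of_nonneg (Real.sqrt_nonneg _)]
    intro i
    rw [pi_norm_le_iff_of_nonneg (Real.sqrt_nonneg _)]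
    intro j
    rw [Real.norm_eq_abs]
    apply Real.abs_le_sqrt
    unfold sq
    calc (X i j) ^ 2 ≤ ∑ j, (X i j) ^ 2 :=
          Finset.single_le_sum (f := fun j => (X i j) ^ 2) (fun _ _ => sq_nonneg _) (Finset.mem_univ j)
      _ ≤ ∑ i, ∑ j, (X i j) ^ 2 :=
          Finset.single_le_sum (f := fun i => ∑ j, (X i j) ^ 2)
            (fun _ _ => Finset.sum_nonneg fun _ _ => sq_nonneg _) (Finset.mem_univ i)
  calc ‖X‖ ^ 2 ≤ Real.sqrt (sq X) ^ 2 := pow_le_pow_left₀ (norm_nonneg _) h1 2
    _ = sq X := Real.sq_sqrt h0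

/-- [SLN-A4a] A function with second derivative bounded by `δ` is convex after adding
`δ / 2 * sq`: on a segment `t ↦ X + t • H` the second derivative of the sum is
`δ * sq H + D²g(H, H) ≥ δ * (sq H - ‖H‖²) ≥ 0` (`convexOn_of_deriv2_nonneg` or
`MonotoneOn.convexOn_of_deriv`; `iteratedFDeriv 2` applied to `(H, H)` is at most
`δ * ‖H‖ ^ 2`). -/
theorem conv_of_bd {n : ℕ} (g : Mat n → ℝ) (hg : ContDiff ℝ 2 g) (δ : ℝ)
    (h : ∀ X, ‖iteratedFDeriv ℝ 2 g X‖ ≤ δ) :
    ConvexOn ℝ Set.univ (fun X => δ / 2 * sq X + g X) := by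
  refine ⟨convex_univ, fun X _ Z _ a b ha hb hab => ?_⟩
  obtain ⟨H, hH⟩ : ∃ H : Mat n, H = Z - X := ⟨_, rfl⟩
  have hδ : 0 ≤ δ := (norm_nonneg _).trans (h X)
  have hgd : Differentiable ℝ g := hg.differentiable (by norm_num)
  have hgd2 : Differentiable ℝ (fderiv ℝ g) :=
    (hg.fderiv_right (m := 1) (by norm_num)).differentiable (by norm_num)
  have hl : ∀ t : ℝ, HasDerivAt (fun t : ℝ => X + t • H) H t := by
    intro t
    simpa using ((hasDerivAt_id t).smul_const H).const_add X
  have h1 : ∀ t : ℝ, HasDerivAt (fun t : ℝ => δ / 2 * sq (X + t • H) + g (X + t • H))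
      (δ * (∑ i, ∑ j, (X i j + t * H i j) * H i j) + fderiv ℝ g (X + t • H) H) t := by
    intro t
    have e1 : HasDerivAt (fun t : ℝ => sq (X + t • H)) (∑ i, ∑ j, 2 * ((X i j + t * H i j) * H i j)) t := by
      unfold sq
      refine HasDerivAt.fun_sum fun i _ => HasDerivAt.fun_sum fun j _ => ?_
      have e2 : HasDerivAt (fun t : ℝ => X i j + t * H i j) (H i j) t := by
        simpa using ((hasDerivAt_id t).mul_const (H i j)).const_add (X i j)
      have e3 := e2.pow 2
      have e4 : (fun t : ℝ => (X i j + t * H i j) ^ 2) = fun t : ℝ => ((X + t • H) i j) ^ 2 := by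
        funext t
        simp
      rw [← e4]
      refine e3.congr_deriv ?_
      push_cast
      ring
    have e5 := (e1.const_mul (δ / 2)).add ((hgd (X + t • H)).hasFDerivAt.comp_hasDerivAt t (hl t))
    refine e5.congr_deriv ?_
    congr 1
    rw [Finset.mul_sum, Finset.mul_sum]
    refine Finset.sum_congr rfl fun i _ => ?_
    rw [Finset.mul_sum, Finset.mul_sum]
    refine Finset.sum_congr rfl fun j _ => ?_
    ring
  have h2 : ∀ t : ℝ, HasDerivAt (fun t : ℝ => δ * (∑ i, ∑ j, (X i j + t * H i j) * H i j) +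
      fderiv ℝ g (X + t • H) H) (δ * sq H + fderiv ℝ (fderiv ℝ g) (X + t • H) H H) t := by
    intro t
    have e1 : HasDerivAt (fun t : ℝ => ∑ i, ∑ j, (X i j + t * H i j) * H i j) (sq H) t := by
      unfold sq
      refine HasDerivAt.fun_sum fun i _ => HasDerivAt.fun_sum fun j _ => ?_
      have e2 : HasDerivAt (fun t : ℝ => X i j + t * H i j) (H i j) t := by
        simpa using ((hasDerivAt_id t).mul_const (H i j)).const_add (X i j)
      refine (e2.mul_const (H i j)).congr_deriv ?_
      ring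
    have e2 : HasDerivAt (fun t : ℝ => fderiv ℝ g (X + t • H) H)
        (fderiv ℝ (fderiv ℝ g) (X + t • H) H H) t := by
      have e3 := (hgd2 (X + t • H)).hasFDerivAt.comp_hasDerivAt t (hl t)
      have e4 := e3.clm_apply (hasDerivAt_const t H)
      simpa using e4
    exact (e1.const_mul δ).add e2
  have hd1 : deriv (fun t : ℝ => δ / 2 * sq (X + t • H) + g (X + t • H)) =
      fun t => δ * (∑ i, ∑ j, (X i j + t * H i j) * H i j) + fderiv ℝ g (X + t • H) H :=
    funext fun t => (h1 t).deriv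
  have hc : ConvexOn ℝ Set.univ (fun t : ℝ => δ / 2 * sq (X + t • H) + g (X + t • H)) := by
    apply convexOn_univ_of_deriv2_nonneg
    · exact fun t => (h1 t).differentiableAt
    · rw [hd1]
      exact fun t => (h2 t).differentiableAt
    · intro t
      rw [Function.iterate_succ, Function.iterate_one, Function.comp_apply, hd1, (h2 t).deriv]
      have e1 : |fderiv ℝ (fderiv ℝ g) (X + t • H) H H| ≤ δ * ‖H‖ ^ 2 := by
        have e2 := (iteratedFDeriv ℝ 2 g (X + t • H)).le_opNorm ![H, H]
        rw [iteratedFDeriv_two_apply] at e2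
        simp only [Matrix.cons_val_zero, Matrix.cons_val_one, Fin.prod_univ_two, Real.norm_eq_abs] at e2
        calc _ ≤ _ := e2
          _ ≤ δ * (‖H‖ * ‖H‖) := by
              apply mul_le_mul_of_nonneg_right (h _)
              positivity
          _ = δ * ‖H‖ ^ 2 := by ring
      have e3 := norm_sq_le H
      have e4 := (abs_le.1 e1).1
      nlinarith [mul_le_mul_of_nonneg_left e3 hδ]
  have hf := hc.2 (Set.mem_univ (0 : ℝ)) (Set.mem_univ (1 : ℝ)) ha hb hab
  have e1 : a • (0 : ℝ) + b • (1 : ℝ) = b := by simp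
  rw [e1] at hf
  have e2 : X + b • H = a • X + b • Z := by
    rw [hH]
    have : a = 1 - b := by linarith
    rw [this, smul_sub, sub_smul, one_smul]
    abel
  have e3 : X + (0 : ℝ) • H = X := by simp
  have e4 : X + (1 : ℝ) • H = Z := by rw [hH]; simp
  simp only [e2, e3, e4] at hf
  exact hf

/-- [SLN-A4a] Sums of squares are convex. -/
theorem sq_convex {n : ℕ} : ConvexOn ℝ Set.univ (fun X : Mat n => sq X) := by
  have h := conv_of_bd (n := n) (fun _ => 0) contDiff_const 2 (fun X => by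
    have : iteratedFDeriv ℝ 2 (fun _ : Mat n => (0 : ℝ)) X = 0 := by
      rw [iteratedFDeriv_const_of_ne (by norm_num)]
      rfl
    rw [this, norm_zero]
    norm_num)
  have e : (fun X : Mat n => (2 : ℝ) / 2 * sq X + (fun _ => (0 : ℝ)) X) = fun X => sq X := by
    funext X
    simp
  rwa [e] at h

end Pool.Agent.SLG.Sn
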