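import Mathlib
import Pool.Agent.SLN.A4a
import Pool.Agent.SLN.A3b

/-! The integrand `fF` is strongly polyconvex. -/

namespace Pool.Agent.SLG.Sn

open MeasureTheory Filter Topology

theorem a4b_sq {n : ℕ} (X : Mat (2 + n)) : sq X = sq (top X) + sq (bot X) := by
  unfold sq top bot
  rw [Fin.sum_univ_add]

/-- [SLN-A4b] `f0 - g0 * sq` is a convex function of `bot X` and its minors, which are among the
minors of `X`; with `∑' i, 4 * δ i ≤ min 1 g0 / 4` the rest
`1 / 2 * sq (top X) + g0 * sq (bot X) + ∑' i, γ i (rd X) - min 1 g0 / 4 * sq X` is convex: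
it is `∑' i, (4 * δ i / 2 * sq X + γ i (rd X))` (each summand convex by `conv_of_bd` and
`bd_comp`) plus nonnegative multiples of `sq (top X)` and `sq (bot X)`
(`sq X = sq (top X) + sq (bot X)`, `Fin.sum_univ_add`). -/
theorem spc_fF {n : ℕ} {f0 : Mat n → ℝ} (hp : StronglyPolyconvex f0) : ∃ η : ℝ, 0 < η ∧
    ∀ (L c0 : ℝ) (a r δ : ℕ → ℝ) (v : ℕ → E2 → Fin n → ℝ) (Y : ℕ → E2 → Mat n)
      (F : ℕ → E2 → ℝ) (γ : ℕ → E2 × Mat n → ℝ), IsFam f0 L c0 a r δ v Y F γ →
      ∑' i, δ i ≤ η → StronglyPolyconvex (fF f0 γ) := by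
  obtain ⟨g0, hg0, G, hG, hfG⟩ := hp
  obtain ⟨m, hm⟩ : ∃ m, m = min 1 g0 / 4 := ⟨_, rfl⟩
  have hm0 : 0 < m := by rw [hm]; positivity
  have hm1 : m ≤ 1 / 4 := by rw [hm]; linarith [min_le_left 1 g0]
  have hm2 : m ≤ g0 / 4 := by rw [hm]; linarith [min_le_right 1 g0]
  refine ⟨m / 4, by positivity, ?_⟩
  intro L c0 a r δ v Y F γ h hη
  -- the summands
  have hbd : ∀ i (X : Mat (2 + n)), |γ i (rd X)| ≤ δ i := by
    intro i X
    have h1 := bd_comp h i 0 (by omega) X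
    rw [norm_iteratedFDeriv_zero, pow_zero, one_mul, Real.norm_eq_abs] at h1
    exact h1
  have hsm : ∀ X : Mat (2 + n), Summable (fun i => γ i (rd X)) := fun X =>
    Summable.of_norm_bounded h.sumd (fun i => by rw [Real.norm_eq_abs]; exact hbd i X)
  have hs2 : ∀ X : Mat (2 + n), Summable (fun i => 4 * δ i / 2 * sq X) := by
    intro X
    have : (fun i => 4 * δ i / 2 * sq X) = fun i => (2 * sq X) * δ i := by
      funext i; ring
    rw [this]
    exact h.sumd.mul_left _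
  have hs3 : ∀ X : Mat (2 + n), Summable (fun i => 4 * δ i / 2 * sq X + γ i (rd X)) := fun X => (hs2 X).add (hsm X)
  have hci : ∀ i, ConvexOn ℝ Set.univ (fun X : Mat (2 + n) => 4 * δ i / 2 * sq X + γ i (rd X)) := by
    intro i
    refine conv_of_bd (fun X => γ i (rd X)) ?_ (4 * δ i) ?_
    · have h1 : ContDiff ℝ 2 (γ i) := (h.strip i).smγ.of_le (by
        have : ((2 : ℕ∞) : WithTop ℕ∞) ≤ ((⊤ : ℕ∞) : WithTop ℕ∞) := WithTop.coe_le_coe.2 le_top
        exact this)
      have h2 : ContDiff ℝ 2 (fun X : Mat (2 + n) => rd X) := by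
        unfold rd bot
        refine ContDiff.prodMk ?_ ?_
        · have h3 : ContDiff ℝ 2 (fun X : Mat (2 + n) => (![X (Fin.castAdd n 0) 0, X (Fin.castAdd n 1) 0] : Fin 2 → ℝ)) := by
            rw [contDiff_pi]
            intro j
            fin_cases j
            · exact (contDiff_apply_apply ℝ ℝ (Fin.castAdd n 0) (0 : Fin 2))
            · exact (contDiff_apply_apply ℝ ℝ (Fin.castAdd n 1) (0 : Fin 2))
          exact (EuclideanSpace.equiv (Fin 2) ℝ).symm.contDiff.comp h3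
        · rw [contDiff_pi]
          intro j
          exact contDiff_apply ℝ (Fin 2 → ℝ) (Fin.natAdd 2 j)
      exact h1.comp h2
    · intro X
      have h1 := bd_comp h i 2 (by omega) X
      calc _ ≤ _ := h1
        _ = 4 * δ i := by norm_num
  have hct : ConvexOn ℝ Set.univ (fun X : Mat (2 + n) => ∑' i, (4 * δ i / 2 * sq X + γ i (rd X))) := by
    refine ⟨convex_univ, fun X _ Z _ s t hs ht hst => ?_⟩
    have h1 : ∀ i, 4 * δ i / 2 * sq (s • X + t • Z) + γ i (rd (s • X + t • Z)) ≤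
        s * (4 * δ i / 2 * sq X + γ i (rd X)) + t * (4 * δ i / 2 * sq Z + γ i (rd Z)) := by
      intro i
      have := (hci i).2 (Set.mem_univ X) (Set.mem_univ Z) hs ht hst
      simpa only [smul_eq_mul] using this
    have h2 : Summable (fun i => s * (4 * δ i / 2 * sq X + γ i (rd X)) + t * (4 * δ i / 2 * sq Z + γ i (rd Z))) :=
      ((hs3 X).mul_left s).add ((hs3 Z).mul_left t)
    calc ∑' i, (4 * δ i / 2 * sq (s • X + t • Z) + γ i (rd (s • X + t • Z)))
        ≤ ∑' i, (s * (4 * δ i / 2 * sq X + γ i (rd X)) + t * (4 * δ i / 2 * sq Z + γ i (rd Z))) :=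
          (hs3 _).tsum_le_tsum h1 h2
      _ = _ := by
          rw [((hs3 X).mul_left s).tsum_add ((hs3 Z).mul_left t), tsum_mul_left, tsum_mul_left, smul_eq_mul, smul_eq_mul]
  have hD : ∑' i, δ i ≤ m / 4 := hη
  obtain ⟨D, hDD⟩ : ∃ D, D = ∑' i, δ i := ⟨_, rfl⟩
  rw [← hDD] at hD
  have htop : ConvexOn ℝ Set.univ (fun X : Mat (2 + n) => sq (top X)) := by
    refine ⟨convex_univ, fun X _ Z _ s t hs ht hst => ?_⟩
    exact (sq_convex (n := 2)).2 (Set.mem_univ (top X)) (Set.mem_univ (top Z)) hs ht hst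
  have hbot : ConvexOn ℝ Set.univ (fun X : Mat (2 + n) => sq (bot X)) := by
    refine ⟨convex_univ, fun X _ Z _ s t hs ht hst => ?_⟩
    exact (sq_convex (n := n)).2 (Set.mem_univ (bot X)) (Set.mem_univ (bot Z)) hs ht hst
  refine ⟨m, hm0, fun p => G (bot p.1, fun i j => p.2 (Fin.natAdd 2 i) (Fin.natAdd 2 j)) +
    ∑' i, (4 * δ i / 2 * sq p.1 + γ i (rd p.1)) + (1 / 2 - 2 * D - m) * sq (top p.1) +
    (g0 - 2 * D - m) * sq (bot p.1), ?_, ?_⟩
  · have c1 : ConvexOn ℝ Set.univ (fun p : Mat (2 + n) × (Fin (2 + n) → Fin (2 + n) → ℝ) =>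
        G (bot p.1, fun i j => p.2 (Fin.natAdd 2 i) (Fin.natAdd 2 j))) := by
      refine ⟨convex_univ, fun X _ Z _ s t hs ht hst => ?_⟩
      exact hG.2 (Set.mem_univ (bot X.1, fun i j => X.2 (Fin.natAdd 2 i) (Fin.natAdd 2 j)))
        (Set.mem_univ (bot Z.1, fun i j => Z.2 (Fin.natAdd 2 i) (Fin.natAdd 2 j))) hs ht hst
    have c2 : ConvexOn ℝ Set.univ (fun p : Mat (2 + n) × (Fin (2 + n) → Fin (2 + n) → ℝ) =>
        ∑' i, (4 * δ i / 2 * sq p.1 + γ i (rd p.1))) := by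
      refine ⟨convex_univ, fun X _ Z _ s t hs ht hst => ?_⟩
      exact hct.2 (Set.mem_univ X.1) (Set.mem_univ Z.1) hs ht hst
    have c3 : ConvexOn ℝ Set.univ (fun p : Mat (2 + n) × (Fin (2 + n) → Fin (2 + n) → ℝ) => sq (top p.1)) := by
      refine ⟨convex_univ, fun X _ Z _ s t hs ht hst => ?_⟩
      exact htop.2 (Set.mem_univ X.1) (Set.mem_univ Z.1) hs ht hst
    have c4 : ConvexOn ℝ Set.univ (fun p : Mat (2 + n) × (Fin (2 + n) → Fin (2 + n) → ℝ) => sq (bot p.1)) := by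
      refine ⟨convex_univ, fun X _ Z _ s t hs ht hst => ?_⟩
      exact hbot.2 (Set.mem_univ X.1) (Set.mem_univ Z.1) hs ht hst
    have c3' := c3.smul (c := 1 / 2 - 2 * D - m) (by linarith)
    have c4' := c4.smul (c := g0 - 2 * D - m) (by linarith)
    exact ((c1.add c2).add c3').add c4'
  · intro X
    have e1 := hfG (bot X)
    have e2 := a4b_sq X
    have e3 : ∑' i, (4 * δ i / 2 * sq X + γ i (rd X)) = 2 * D * sq X + ∑' i, γ i (rd X) := by
      rw [(hs2 X).tsum_add (hsm X)]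
      congr 1
      have : (fun i => 4 * δ i / 2 * sq X) = fun i => (2 * sq X) * δ i := by
        funext i; ring
      rw [this, tsum_mul_left, ← hDD]
      ring
    have e4 : (fun i j => minor X (Fin.natAdd 2 i) (Fin.natAdd 2 j)) = minor (bot X) := by
      funext i j
      rfl
    show fF f0 γ X - m * sq X = G (bot X, fun i j => minor X (Fin.natAdd 2 i) (Fin.natAdd 2 j)) +
      ∑' i, (4 * δ i / 2 * sq X + γ i (rd X)) + (1 / 2 - 2 * D - m) * sq (top X) +
      (g0 - 2 * D - m) * sq (bot X)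
    rw [e3, e4, ← e1]
    unfold fF
    rw [e2]
    ring

end Pool.Agent.SLG.Sn
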