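import Mathlib
import Pool.Agent.SLN.Defs

/-! Integration by parts for divergence free fields. -/

namespace Pool.Agent.SLG.Sn

open MeasureTheory Filter Topology

/-- [SLN-A5a] `integral_mul_fderiv_eq_neg_fderiv_mul_of_integrable` (or
`integral_fderiv_eq_zero`-type lemma for the compactly supported `C¹` functions
`A · j * φ`): everything is continuous with compact support, so integrable. -/
theorem ibp (A : E2 → Fin 2 → ℝ) (hA : ContDiff ℝ 1 A)
    (hdiv : ∀ z, ∑ j, fderiv ℝ A z (ee j) j = 0) (φ : E2 → ℝ) (hφ : ContDiff ℝ 1 φ)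
    (hc : HasCompactSupport φ) : ∫ z, ∑ j, A z j * fderiv ℝ φ z (ee j) = 0 := by
  have hAj : ∀ j, ContDiff ℝ 1 (fun z => A z j) := fun j => contDiff_pi.1 hA j
  have hfd : ∀ j z, fderiv ℝ (fun z => A z j) z (ee j) = fderiv ℝ A z (ee j) j := by
    intro j z
    have h1 := (hA.differentiable one_ne_zero z).hasFDerivAt
    have h2 := (hasFDerivAt_pi'.1 h1 j).fderiv
    rw [h2]
    rfl
  have hI1 : ∀ j, Integrable (fun z => A z j * fderiv ℝ φ z (ee j)) := by
    intro j
    refine Continuous.integrable_of_hasCompactSupport ?_ ?_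
    · exact (hAj j).continuous.mul ((hφ.continuous_fderiv one_ne_zero).clm_apply continuous_const)
    · have h1 : HasCompactSupport (fun z => fderiv ℝ φ z (ee j)) := hc.fderiv_apply (𝕜 := ℝ) (ee j)
      exact h1.mul_left
  have hI2 : ∀ j, Integrable (fun z => fderiv ℝ (fun z => A z j) z (ee j) * φ z) := by
    intro j
    refine Continuous.integrable_of_hasCompactSupport ?_ hc.mul_left
    exact (((hAj j).continuous_fderiv one_ne_zero).clm_apply continuous_const).mul hφ.continuous
  have hI3 : ∀ j, Integrable (fun z => A z j * φ z) := by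
    intro j
    exact Continuous.integrable_of_hasCompactSupport ((hAj j).continuous.mul hφ.continuous) hc.mul_left
  have h1 : ∀ j, ∫ z, A z j * fderiv ℝ φ z (ee j) = -∫ z, fderiv ℝ (fun z => A z j) z (ee j) * φ z := by
    intro j
    exact integral_mul_fderiv_eq_neg_fderiv_mul_of_integrable (hI2 j) (hI1 j) (hI3 j)
      (fun z _ => (hAj j).differentiable one_ne_zero z) (fun z _ => hφ.differentiable one_ne_zero z)
  rw [integral_finsetSum _ (fun j _ => hI1 j), Finset.sum_congr rfl (fun j _ => h1 j), Finset.sum_neg_distrib,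
    ← integral_finsetSum _ (fun j _ => hI2 j), neg_eq_zero]
  have h2 : (fun z => ∑ j, fderiv ℝ (fun z => A z j) z (ee j) * φ z) = fun _ => 0 := by
    funext z
    rw [← Finset.sum_mul, Finset.sum_congr rfl (fun j _ => hfd j z), hdiv z, zero_mul]
  rw [h2, integral_zero]

/-- [SLN-A5a] Outer identity for one strip: `ibp` for the rows of `Y` and the components of
`φ`. -/
theorem outer_one {n : ℕ} (Y : E2 → Mat n) (hY : ContDiff ℝ 1 Y)
    (hdiv : ∀ z i, ∑ j, fderiv ℝ Y z (ee j) i j = 0) (φ : E2 → Fin n → ℝ)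
    (hφ : ContDiff ℝ 1 φ) (hc : HasCompactSupport φ) :
    ∫ z, ∑ i, ∑ j, Y z i j * Jac φ z i j = 0 := by
  have hφi : ∀ i, ContDiff ℝ 1 (fun z => φ z i) := fun i => contDiff_pi.1 hφ i
  have hYi : ∀ i, ContDiff ℝ 1 (fun z => Y z i) := fun i => contDiff_pi.1 hY i
  have hci : ∀ i, HasCompactSupport (fun z => φ z i) := by
    intro i
    exact hc.comp_left (g := fun v : Fin n → ℝ => v i) rfl
  have hJ : ∀ z i j, Jac φ z i j = fderiv ℝ (fun z => φ z i) z (ee j) := by
    intro z i j
    have h1 := (hφ.differentiable one_ne_zero z).hasFDerivAt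
    have h2 := (hasFDerivAt_pi'.1 h1 i).fderiv
    rw [h2]
    rfl
  have hdi : ∀ i z, ∑ j, fderiv ℝ (fun z => Y z i) z (ee j) j = 0 := by
    intro i z
    rw [← hdiv z i]
    refine Finset.sum_congr rfl fun j _ => ?_
    have h1 := (hY.differentiable one_ne_zero z).hasFDerivAt
    have h2 := (hasFDerivAt_pi'.1 h1 i).fderiv
    rw [h2]
    rfl
  have hI : ∀ i, Integrable (fun z => ∑ j, Y z i j * Jac φ z i j) := by
    intro i
    refine integrable_finsetSum _ fun j _ => ?_
    have h1 : (fun z => Y z i j * Jac φ z i j) = fun z => Y z i j * fderiv ℝ (fun z => φ z i) z (ee j) := by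
      funext z
      rw [hJ]
    rw [h1]
    refine Continuous.integrable_of_hasCompactSupport ?_ ?_
    · exact ((contDiff_pi.1 (hYi i) j).continuous).mul
        (((hφi i).continuous_fderiv one_ne_zero).clm_apply continuous_const)
    · have h2 : HasCompactSupport (fun z => fderiv ℝ (fun z => φ z i) z (ee j)) :=
        (hci i).fderiv_apply (𝕜 := ℝ) (ee j)
      exact h2.mul_left
  rw [integral_finsetSum _ (fun i _ => hI i)]
  refine Finset.sum_eq_zero fun i _ => ?_
  have h3 := ibp (fun z => Y z i) (hYi i) (hdi i) (fun z => φ z i) (hφi i) (hci i)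
  rw [← h3]
  refine integral_congr_ae (Eventually.of_forall fun z => ?_)
  exact Finset.sum_congr rfl fun j _ => by rw [hJ]

end Pool.Agent.SLG.Sn
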