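import Mathlib
import Pool.Agent.SLN.A5a

/-! Inner identity for one strip. -/

namespace Pool.Agent.SLG.Sn

open MeasureTheory Filter Topology

theorem a5b_comp {m : ℕ} {f : E2 → Fin m → ℝ} {z : E2} (hf : DifferentiableAt ℝ f z) (i : Fin m) (w : E2) :
    fderiv ℝ (fun z => f z i) z w = fderiv ℝ f z w i := by
  have h1 : HasFDerivAt (fun z => f z i) ((ContinuousLinearMap.proj i : (Fin m → ℝ) →L[ℝ] ℝ).comp (fderiv ℝ f z)) z :=
    (ContinuousLinearMap.proj (R := ℝ) (φ := fun _ : Fin m => ℝ) i).hasFDerivAt.comp z hf.hasFDerivAt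
  rw [h1.fderiv]
  rfl

theorem a5b_comp2 {n : ℕ} {f : E2 → Mat n} {z : E2} (hf : DifferentiableAt ℝ f z) (i : Fin n) (j : Fin 2) (w : E2) :
    fderiv ℝ (fun z => f z i j) z w = fderiv ℝ f z w i j := by
  have h1 : HasFDerivAt (fun z => f z i j) ((ContinuousLinearMap.proj j : (Fin 2 → ℝ) →L[ℝ] ℝ).comp
      ((ContinuousLinearMap.proj i : (Fin n → Fin 2 → ℝ) →L[ℝ] (Fin 2 → ℝ)).comp (fderiv ℝ f z))) z :=
    (ContinuousLinearMap.proj (R := ℝ) (φ := fun _ : Fin 2 => ℝ) j).hasFDerivAt.comp z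
      ((ContinuousLinearMap.proj (R := ℝ) (φ := fun _ : Fin n => Fin 2 → ℝ) i).hasFDerivAt.comp z hf.hasFDerivAt)
  rw [h1.fderiv]
  rfl

theorem a5b_jac {n : ℕ} {v : E2 → Fin n → ℝ} {m : WithTop ℕ∞} (hv : ContDiff ℝ (m + 1) v) (i : Fin n) (k : Fin 2) :
    ContDiff ℝ m fun z => Jac v z i k := by
  have h1 : ContDiff ℝ m (fderiv ℝ v) := hv.fderiv_right le_rfl
  have h2 : ContDiff ℝ m fun z => fderiv ℝ v z (ee k) := h1.clm_apply contDiff_const
  exact contDiff_pi.1 h2 i

theorem a5b_symm {n : ℕ} {v : E2 → Fin n → ℝ} (hv : ContDiff ℝ 2 v) (z : E2) (i : Fin n) (j k : Fin 2) :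
    fderiv ℝ (fun z => Jac v z i k) z (ee j) = fderiv ℝ (fun z => Jac v z i j) z (ee k) := by
  have h1 : ContDiff ℝ 1 (fderiv ℝ v) := hv.fderiv_right le_rfl
  have hd : Differentiable ℝ (fderiv ℝ v) := h1.differentiable one_ne_zero
  have key : ∀ j k, fderiv ℝ (fun z => Jac v z i k) z (ee j) = fderiv ℝ (fderiv ℝ v) z (ee j) (ee k) i := by
    intro j k
    have h2 : HasFDerivAt (fun z => fderiv ℝ v z (ee k))
        ((ContinuousLinearMap.apply ℝ (Fin n → ℝ) (ee k)).comp (fderiv ℝ (fderiv ℝ v) z)) z :=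
      (ContinuousLinearMap.apply ℝ (Fin n → ℝ) (ee k)).hasFDerivAt.comp z (hd z).hasFDerivAt
    have h3 := a5b_comp h2.differentiableAt i (ee j)
    rw [h2.fderiv] at h3
    exact h3
  rw [key, key]
  have hs : IsSymmSndFDerivAt ℝ v z := hv.contDiffAt.isSymmSndFDerivAt (by simp)
  rw [hs.eq (ee j) (ee k)]

/-- [SLN-A5b] Inner identity for one strip: for fixed `k` the field
`T k j = (if k = j then F else 0) - ∑ i, Y i j * Jac v i k` is `C¹` and divergence free:
`∂_k F - ∑ i j, (∂_j Y i j * X i k + Y i j * ∂_j X i k)`, and `∂_j X i k = ∂_k X i j` by symmetry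
of second derivatives (`second_derivative_symmetric`, `ContDiffAt.isSymmSndFDerivAt`). Then `ibp`
with `φ = Φ · k` and sum over `k`. -/
theorem inner_one {n : ℕ} (v : E2 → Fin n → ℝ) (Y : E2 → Mat n) (F : E2 → ℝ)
    (hv : ContDiff ℝ 2 v) (hY : ContDiff ℝ 1 Y) (hF : ContDiff ℝ 1 F)
    (hdiv : ∀ z i, ∑ j, fderiv ℝ Y z (ee j) i j = 0)
    (hdF : ∀ z k, fderiv ℝ F z (ee k) = ∑ i, ∑ j, Y z i j * fderiv ℝ (Jac v) z (ee k) i j)
    (Φ : E2 → Fin 2 → ℝ) (hΦ : ContDiff ℝ 1 Φ) (hc : HasCompactSupport Φ) :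
    ∫ z, (F z * (∑ k, Jac Φ z k k)
      - ∑ i, ∑ j, Y z i j * ∑ k, Jac v z i k * Jac Φ z k j) = 0 := by
  have hJ : ∀ i k, ContDiff ℝ 1 fun z => Jac v z i k := fun i k => a5b_jac (m := 1) hv i k
  have hYc : ∀ i j, ContDiff ℝ 1 fun z => Y z i j := fun i j =>
    contDiff_pi.1 (contDiff_pi.1 hY i) j
  have hFd : Differentiable ℝ F := hF.differentiable one_ne_zero
  have hJd : ∀ i k, Differentiable ℝ fun z => Jac v z i k := fun i k => (hJ i k).differentiable one_ne_zero
  have hYd : ∀ i j, Differentiable ℝ fun z => Y z i j := fun i j => (hYc i j).differentiable one_ne_zero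
  have hJmat : ContDiff ℝ 1 (Jac v) := contDiff_pi.2 fun i => contDiff_pi.2 fun k => hJ i k
  let T : Fin 2 → E2 → Fin 2 → ℝ := fun k z j => (if k = j then F z else 0) - ∑ i, Y z i j * Jac v z i k
  have hT : ∀ k, ContDiff ℝ 1 (T k) := by
    intro k
    refine contDiff_pi.2 fun j => ?_
    refine ContDiff.sub ?_ (ContDiff.sum fun i _ => (hYc i j).mul (hJ i k))
    split_ifs
    · exact hF
    · exact contDiff_const
  have hTdiv : ∀ k z, ∑ j, fderiv ℝ (T k) z (ee j) j = 0 := by
    intro k z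
    have h1 : ∀ j, fderiv ℝ (T k) z (ee j) j = (if k = j then fderiv ℝ F z (ee j) else 0) -
        ∑ i, (fderiv ℝ (fun z => Y z i j) z (ee j) * Jac v z i k +
          Y z i j * fderiv ℝ (fun z => Jac v z i k) z (ee j)) := by
      intro j
      rw [← a5b_comp ((hT k).differentiable one_ne_zero z)]
      have e1 : HasFDerivAt (fun z => if k = j then F z else 0) (if k = j then fderiv ℝ F z else 0) z := by
        split_ifs
        · exact (hFd z).hasFDerivAt
        · exact hasFDerivAt_const _ _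
      have e2 : HasFDerivAt (fun z => ∑ i, Y z i j * Jac v z i k)
          (∑ i, (Y z i j • fderiv ℝ (fun z => Jac v z i k) z + Jac v z i k • fderiv ℝ (fun z => Y z i j) z)) z :=
        HasFDerivAt.fun_sum fun i _ => (hYd i j z).hasFDerivAt.mul (hJd i k z).hasFDerivAt
      have e3 := e1.sub e2
      have e4 : fderiv ℝ (fun z => T k z j) z = (if k = j then fderiv ℝ F z else 0) -
          ∑ i, (Y z i j • fderiv ℝ (fun z => Jac v z i k) z + Jac v z i k • fderiv ℝ (fun z => Y z i j) z) :=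
        e3.fderiv
      rw [e4, sub_apply]
      congr 1
      · split_ifs
        · rfl
        · rfl
      · rw [ContinuousLinearMap.sum_apply]
        apply Finset.sum_congr rfl
        intro i _
        rw [add_apply, smul_apply, smul_apply, smul_eq_mul, smul_eq_mul]
        ring
    rw [Finset.sum_congr rfl fun j _ => h1 j, Finset.sum_sub_distrib, Finset.sum_ite_eq, if_pos (Finset.mem_univ k),
      hdF z k]
    have h2 : ∑ j, ∑ i, (fderiv ℝ (fun z => Y z i j) z (ee j) * Jac v z i k +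
          Y z i j * fderiv ℝ (fun z => Jac v z i k) z (ee j)) =
        ∑ i, ∑ j, Y z i j * fderiv ℝ (Jac v) z (ee k) i j := by
      rw [Finset.sum_comm]
      apply Finset.sum_congr rfl
      intro i _
      rw [Finset.sum_add_distrib, ← Finset.sum_mul]
      have h3 : ∑ j, fderiv ℝ (fun z => Y z i j) z (ee j) = 0 := by
        rw [← hdiv z i]
        apply Finset.sum_congr rfl
        intro j _
        exact a5b_comp2 (hY.differentiable one_ne_zero z) i j (ee j)
      rw [h3, zero_mul, zero_add]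
      apply Finset.sum_congr rfl
      intro j _
      rw [a5b_symm hv, a5b_comp2 (hJmat.differentiable one_ne_zero z)]
    rw [h2, sub_self]
  have hΦd : Differentiable ℝ Φ := hΦ.differentiable one_ne_zero
  have hI : ∀ k, ∫ z, ∑ j, T k z j * Jac Φ z k j = 0 := by
    intro k
    have h1 := ibp (T k) (hT k) (hTdiv k) (fun z => Φ z k) (contDiff_pi.1 hΦ k)
      (hc.comp_left (g := fun w : Fin 2 → ℝ => w k) rfl)
    rw [← h1]
    congr 1
    funext z
    apply Finset.sum_congr rfl
    intro j _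
    rw [a5b_comp (hΦd z)]
    rfl
  have hJΦ : ∀ k j, Continuous fun z => Jac Φ z k j := fun k j => (a5b_jac (m := 0) (by simpa using hΦ) k j).continuous
  have hJc : ∀ k j, HasCompactSupport fun z => Jac Φ z k j := by
    intro k j
    have h1 : HasCompactSupport (fderiv ℝ Φ) := hc.fderiv (𝕜 := ℝ)
    exact h1.comp_left (g := fun L : E2 →L[ℝ] (Fin 2 → ℝ) => L (ee j) k) rfl
  have hint : ∀ k, Integrable fun z => ∑ j, T k z j * Jac Φ z k j := by
    intro k
    apply integrable_finset_sum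
    intro j _
    apply Continuous.integrable_of_hasCompactSupport
    · exact ((contDiff_pi.1 (hT k) j).continuous).mul (hJΦ k j)
    · exact (hJc k j).mul_left
  have hsum : ∀ z, F z * (∑ k, Jac Φ z k k) - ∑ i, ∑ j, Y z i j * ∑ k, Jac v z i k * Jac Φ z k j =
      ∑ k, ∑ j, T k z j * Jac Φ z k j := by
    intro z
    have h1 : ∀ k, ∑ j, T k z j * Jac Φ z k j = F z * Jac Φ z k k - ∑ j, ∑ i, Y z i j * (Jac v z i k * Jac Φ z k j) := by
      intro k
      simp only [T, sub_mul, ite_mul, zero_mul]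
      rw [Finset.sum_sub_distrib, Finset.sum_ite_eq, if_pos (Finset.mem_univ k)]
      congr 1
      apply Finset.sum_congr rfl
      intro j _
      rw [Finset.sum_mul]
      apply Finset.sum_congr rfl
      intro i _
      ring
    rw [Finset.sum_congr rfl fun k _ => h1 k, Finset.sum_sub_distrib, ← Finset.mul_sum]
    congr 1
    have h2 : ∀ i j, Y z i j * ∑ k, Jac v z i k * Jac Φ z k j = ∑ k, Y z i j * (Jac v z i k * Jac Φ z k j) :=
      fun i j => Finset.mul_sum _ _ _
    simp only [h2]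
    rw [Finset.sum_comm]
    have h3 : ∀ j, ∑ i, ∑ k, Y z i j * (Jac v z i k * Jac Φ z k j) = ∑ k, ∑ i, Y z i j * (Jac v z i k * Jac Φ z k j) :=
      fun j => Finset.sum_comm
    rw [Finset.sum_congr rfl fun j _ => h3 j, Finset.sum_comm]
  rw [integral_congr_ae (Filter.Eventually.of_forall hsum), integral_finset_sum _ fun k _ => hint k]
  exact Finset.sum_eq_zero fun k _ => hI k

end Pool.Agent.SLG.Sn
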