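import Mathlib
import Pool.Agent.SLN.Defs

/-! Sums of integrals over strips. -/

namespace Pool.Agent.SLG.Sn

open MeasureTheory Filter Topology

/-- [SLN-A5c] Sum over the strips of integrals that vanish: `integral_tsum`; the functions have
disjoint supports, are bounded by `M` and vanish outside the compact `K`, so
`∑' ∫⁻ ‖G i‖ = ∫⁻ ∑' ‖G i‖ ≤ M * volume K < ∞` (`lintegral_tsum`). -/
theorem int_strips (a r : ℕ → ℝ) (hdisj : ∀ i j, i ≠ j → r i + r j < |a i - a j|)
    (G : ℕ → E2 → ℝ) (hcont : ∀ i, Continuous (G i)) (K : Set E2) (hK : IsCompact K)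
    (hGK : ∀ i z, z ∉ K → G i z = 0) (M : ℝ) (hM : ∀ i z, |G i z| ≤ M)
    (hsupp : ∀ i z, r i / 2 ≤ |z 1 - a i| → G i z = 0) (h0 : ∀ i, ∫ z, G i z = 0) :
    ∫ z, ∑' i, G i z = 0 := by
  have huniq : ∀ z i j, G i z ≠ 0 → G j z ≠ 0 → i = j := by
    intro z i j hi hj
    by_contra hij
    have h1 : |z 1 - a i| < r i / 2 := by
      by_contra hc
      exact hi (hsupp i z (not_lt.1 hc))
    have h2 : |z 1 - a j| < r j / 2 := by
      by_contra hc
      exact hj (hsupp j z (not_lt.1 hc))
    have h3 := hdisj i j hij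
    have h4 : |a i - a j| ≤ |z 1 - a i| + |z 1 - a j| := by
      have : a i - a j = -(z 1 - a i) + (z 1 - a j) := by ring
      rw [this]
      calc _ ≤ |-(z 1 - a i)| + |z 1 - a j| := abs_add_le _ _
        _ = _ := by rw [abs_neg]
    have h5 := abs_nonneg (z 1 - a i)
    have h6 := abs_nonneg (z 1 - a j)
    linarith
  have hsum : ∀ z, ∑' i, ‖G i z‖ₑ ≤ K.indicator (fun _ => ENNReal.ofReal M) z := by
    intro z
    by_cases hz : z ∈ K
    · rw [Set.indicator_of_mem hz]
      by_cases he : ∃ i, G i z ≠ 0
      · obtain ⟨i, hi⟩ := he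
        rw [tsum_eq_single i (fun j hj => by
          have : G j z = 0 := by
            by_contra hc
            exact hj (huniq z j i hc hi)
          rw [this, enorm_zero])]
        rw [← ofReal_norm_eq_enorm, Real.norm_eq_abs]
        exact ENNReal.ofReal_le_ofReal (hM i z)
      · push Not at he
        have : (fun i => ‖G i z‖ₑ) = fun _ => 0 := by
          funext i
          rw [he i, enorm_zero]
        rw [this, tsum_zero]
        exact zero_le
    · rw [Set.indicator_of_notMem hz]
      have : (fun i => ‖G i z‖ₑ) = fun _ => 0 := by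
        funext i
        rw [hGK i z hz, enorm_zero]
      rw [this, tsum_zero]
  rw [integral_tsum (fun i => (hcont i).aestronglyMeasurable)]
  · simp [h0]
  · rw [← lintegral_tsum (fun i => (hcont i).measurable.enorm.aemeasurable)]
    refine ne_of_lt ?_
    calc _ ≤ ∫⁻ z, K.indicator (fun _ => ENNReal.ofReal M) z := lintegral_mono hsum
      _ = ENNReal.ofReal M * volume K := by
          rw [lintegral_indicator hK.measurableSet, setLIntegral_const]
      _ < ⊤ := ENNReal.mul_lt_top ENNReal.ofReal_lt_top hK.measure_lt_top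

end Pool.Agent.SLG.Sn
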