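import Mathlib
import Pool.Agent.SLN.A2d
import Pool.Agent.SLN.A5a

/-! The clock is stationary. -/

namespace Pool.Agent.SLG.Sn

open MeasureTheory Filter Topology

/-- the Jacobian matrix of the clock as a linear map -/
noncomputable def a6a_M : E2 →L[ℝ] Mat 2 :=
  ContinuousLinearMap.pi ![ContinuousLinearMap.pi ![EuclideanSpace.proj 0, -EuclideanSpace.proj 1],
    ContinuousLinearMap.pi ![EuclideanSpace.proj 1, EuclideanSpace.proj 0]]

theorem a6a_Jac : Jac ww = a6a_M := by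
  funext z
  rw [Jac_ww]
  funext i j
  fin_cases i <;> fin_cases j <;> rfl

/-- [SLN-A6a] Outer identity of the clock (`outer_one` with `Y = Jac ww`). -/
theorem outer_ww (φ : E2 → Fin 2 → ℝ) (hφ : ContDiff ℝ 1 φ) (hc : HasCompactSupport φ) :
    ∫ z, ∑ i, ∑ j, Jac ww z i j * Jac φ z i j = 0 := by
  refine outer_one (Jac ww) ?_ ?_ φ hφ hc
  · rw [a6a_Jac]
    exact a6a_M.contDiff
  · intro z i
    rw [a6a_Jac, ContinuousLinearMap.fderiv]
    have h : ∀ w : E2, a6a_M w = ![![w 0, -w 1], ![w 1, w 0]] := by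
      intro w
      rw [← Jac_ww, a6a_Jac]
    simp only [h, Fin.sum_univ_two]
    fin_cases i
    · simp [ee]
    · simp [ee]

/-- [SLN-A6a] Inner identity of the clock, pointwise: `(Jac ww)ᵀ Jac ww = (z 0 ^ 2 + z 1 ^ 2) I`. -/
theorem inner_ww (z : E2) (P : Fin 2 → Fin 2 → ℝ) :
    (z 0 ^ 2 + z 1 ^ 2) * (∑ k, P k k)
      - ∑ i, ∑ j, Jac ww z i j * ∑ k, Jac ww z i k * P k j = 0 := by
  rw [Jac_ww]
  simp only [Fin.sum_univ_two, Matrix.cons_val_zero, Matrix.cons_val_one]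
  ring

end Pool.Agent.SLG.Sn
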