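import Mathlib
import Pool.Agent.SLN.A2d
import Pool.Agent.SLN.A5b
import Pool.Agent.SLN.A5c

/-! The sum of the strips is stationary. -/

namespace Pool.Agent.SLG.Sn

open MeasureTheory Filter Topology

variable {n : ℕ} {f0 : Mat n → ℝ} {L c0 : ℝ} {a r δ : ℕ → ℝ} {v : ℕ → E2 → Fin n → ℝ}
  {Y : ℕ → E2 → Mat n} {F : ℕ → E2 → ℝ} {γ : ℕ → E2 × Mat n → ℝ}

/-- auxiliary: sums with at most one term are integrable -/
theorem a6b_integrable (G : ℕ → E2 → ℝ) (hcont : ∀ i, Continuous (G i)) (K : Set E2)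
    (hK : IsCompact K) (hGK : ∀ i z, z ∉ K → G i z = 0) (M : ℝ) (hM : ∀ i z, |G i z| ≤ M)
    (one : ∀ z, ∃ i, ∀ j, j ≠ i → G j z = 0) : Integrable (fun z => ∑' i, G i z) := by
  have hmeas : Measurable (fun z => ∑' i, G i z) := by
    refine measurable_of_tendsto_metrizable (f := fun N z => ∑ i ∈ Finset.range N, G i z)
      (fun N => (continuous_finsetSum _ fun i _ => hcont i).measurable) ?_
    rw [tendsto_pi_nhds]
    intro z
    obtain ⟨i, hi⟩ := one z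
    have hs : Summable fun j => G j z := by
      refine summable_of_ne_finset_zero (s := {i}) fun j hj => hi j ?_
      simpa using hj
    exact hs.hasSum.tendsto_sum_nat
  have hval : ∀ z, ∃ i, ∑' j, G j z = G i z := by
    intro z
    obtain ⟨i, hi⟩ := one z
    exact ⟨i, tsum_eq_single i hi⟩
  have hon : IntegrableOn (fun z => ∑' i, G i z) K := by
    refine Measure.integrableOn_of_bounded (M := M) hK.measure_lt_top.ne
      hmeas.aestronglyMeasurable ?_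
    refine Eventually.of_forall fun z => ?_
    obtain ⟨i, hi⟩ := hval z
    rw [Real.norm_eq_abs, hi]
    exact hM i z
  refine (integrableOn_iff_integrable_of_support_subset ?_).1 hon
  intro z hz
  by_contra hzK
  apply hz
  show ∑' i, G i z = 0
  have : (fun i => G i z) = fun _ => 0 := by
    funext i
    exact hGK i z hzK
  rw [this, tsum_zero]

theorem a6b_jac_cont {m : ℕ} (φ : E2 → Fin m → ℝ) (hφ : ContDiff ℝ 1 φ) (i : Fin m) (j : Fin 2) :
    Continuous fun z => Jac φ z i j := by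
  have h1 : Continuous fun z => fderiv ℝ φ z (ee j) :=
    (hφ.continuous_fderiv (by norm_num)).clm_apply continuous_const
  exact (continuous_apply i).comp h1

theorem a6b_jac_zero {m : ℕ} (φ : E2 → Fin m → ℝ) {z : E2} (hz : z ∉ tsupport φ) (i : Fin m)
    (j : Fin 2) : Jac φ z i j = 0 := by
  show fderiv ℝ φ z (ee j) i = 0
  rw [fderiv_of_notMem_tsupport ℝ hz]
  rfl

theorem a6b_bound {m : ℕ} (φ : E2 → Fin m → ℝ) (hφ : ContDiff ℝ 1 φ)
    (hc : HasCompactSupport φ) : ∃ C : ℝ, 0 ≤ C ∧ ∀ z, ∑ i, ∑ j, |Jac φ z i j| ≤ C := by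
  have hcont : Continuous fun z => ∑ i, ∑ j, |Jac φ z i j| :=
    continuous_finsetSum _ fun i _ => continuous_finsetSum _ fun j _ =>
      (a6b_jac_cont φ hφ i j).abs
  have hcs : HasCompactSupport fun z => ∑ i, ∑ j, |Jac φ z i j| := by
    refine HasCompactSupport.intro hc fun z hz => ?_
    refine Finset.sum_eq_zero fun i _ => Finset.sum_eq_zero fun j _ => ?_
    rw [a6b_jac_zero φ hz, abs_zero]
  obtain ⟨C, hC⟩ := hcs.exists_bound_of_continuous hcont
  refine ⟨C, (norm_nonneg _).trans (hC 0), fun z => ?_⟩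
  exact (le_abs_self _).trans (hC z)

theorem a6b_entry (X : Mat n) (i : Fin n) (j : Fin 2) : |X i j| ≤ ‖X‖ :=
  (norm_le_pi_norm (X i) j).trans (norm_le_pi_norm X i)

theorem a6b_one (h : IsFam f0 L c0 a r δ v Y F γ) (G : ℕ → E2 → ℝ)
    (hg : ∀ i z, r i / 2 ≤ |z 1 - a i| → G i z = 0) (z : E2) :
    ∃ i, ∀ j, j ≠ i → G j z = 0 := by
  by_cases hz : ∃ i, |z 1 - a i| < r i
  · obtain ⟨i, hi⟩ := hz
    refine ⟨i, fun j hj => hg j z ?_⟩
    have h1 := far h (Ne.symm hj) hi.le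
    have h2 := h.rpos j
    linarith
  · push Not at hz
    refine ⟨0, fun j _ => hg j z ?_⟩
    have h1 := hz j
    have h2 := h.rpos j
    linarith

theorem a6b_Lnn (h : IsFam f0 L c0 a r δ v Y F γ) : 0 ≤ L :=
  (norm_nonneg _).trans ((h.strip 0).bY 0)

/-- outer summand -/
noncomputable def a6b_G (Y : ℕ → E2 → Mat n) (φ : E2 → Fin n → ℝ) (k : ℕ) (z : E2) : ℝ :=
  ∑ i, ∑ j, Y k z i j * Jac φ z i j

theorem a6b_outer_eq (h : IsFam f0 L c0 a r δ v Y F γ) (φ : E2 → Fin n → ℝ) :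
    (fun z => ∑ i, ∑ j, (∑' k, Y k z) i j * Jac φ z i j) = fun z => ∑' k, a6b_G Y φ k z := by
  funext z
  have hY : ∀ i z, r i / 2 ≤ |z 1 - a i| → Y i z = 0 := fun i z => (h.strip i).suppY z
  have hG : ∀ i z, r i / 2 ≤ |z 1 - a i| → a6b_G Y φ i z = 0 := by
    intro k z hz
    unfold a6b_G
    rw [hY k z hz]
    simp
  by_cases hz : ∃ i, |z 1 - a i| < r i
  · obtain ⟨i, hi⟩ := hz
    rw [tsum_mem h (fun k z => Y k z) hY hi.le, tsum_mem h (fun k z => a6b_G Y φ k z) hG hi.le]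
    rfl
  · push Not at hz
    have hz' : ∀ i, r i / 2 ≤ |z 1 - a i| := fun i => by
      have h1 := hz i
      have h2 := h.rpos i
      linarith
    rw [tsum_out h (fun k z => Y k z) hY hz', tsum_out h (fun k z => a6b_G Y φ k z) hG hz']
    simp

theorem a6b_G_cont (h : IsFam f0 L c0 a r δ v Y F γ) (φ : E2 → Fin n → ℝ) (hφ : ContDiff ℝ 1 φ)
    (k : ℕ) : Continuous (a6b_G Y φ k) := by
  unfold a6b_G
  refine continuous_finsetSum _ fun i _ => continuous_finsetSum _ fun j _ => ?_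
  refine Continuous.mul ?_ (a6b_jac_cont φ hφ i j)
  have h1 : Continuous (Y k) := (h.strip k).smY.continuous
  exact (continuous_apply j).comp ((continuous_apply i).comp h1)

theorem a6b_G_zero (φ : E2 → Fin n → ℝ) (k : ℕ) (z : E2) (hz : z ∉ tsupport φ) :
    a6b_G Y φ k z = 0 := by
  unfold a6b_G
  refine Finset.sum_eq_zero fun i _ => Finset.sum_eq_zero fun j _ => ?_
  rw [a6b_jac_zero φ hz, mul_zero]

theorem a6b_G_supp (h : IsFam f0 L c0 a r δ v Y F γ) (φ : E2 → Fin n → ℝ) (k : ℕ) (z : E2)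
    (hz : r k / 2 ≤ |z 1 - a k|) : a6b_G Y φ k z = 0 := by
  unfold a6b_G
  rw [(h.strip k).suppY z hz]
  simp

theorem a6b_G_bound (h : IsFam f0 L c0 a r δ v Y F γ) (φ : E2 → Fin n → ℝ) {C : ℝ}
    (hC : ∀ z, ∑ i, ∑ j, |Jac φ z i j| ≤ C) (k : ℕ) (z : E2) : |a6b_G Y φ k z| ≤ L * C := by
  have hL := a6b_Lnn h
  unfold a6b_G
  calc |∑ i, ∑ j, Y k z i j * Jac φ z i j| ≤ ∑ i, ∑ j, |Y k z i j * Jac φ z i j| := by
        refine (Finset.abs_sum_le_sum_abs _ _).trans (Finset.sum_le_sum fun i _ => ?_)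
        exact Finset.abs_sum_le_sum_abs _ _
    _ ≤ ∑ i, ∑ j, L * |Jac φ z i j| := by
        refine Finset.sum_le_sum fun i _ => Finset.sum_le_sum fun j _ => ?_
        rw [abs_mul]
        exact mul_le_mul_of_nonneg_right ((a6b_entry _ i j).trans ((h.strip k).bY z))
          (abs_nonneg _)
    _ = L * ∑ i, ∑ j, |Jac φ z i j| := by
        rw [Finset.mul_sum]
        refine Finset.sum_congr rfl fun i _ => ?_
        rw [Finset.mul_sum]
    _ ≤ L * C := mul_le_mul_of_nonneg_left (hC z) hL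

/-- inner summand -/
noncomputable def a6b_H (v : ℕ → E2 → Fin n → ℝ) (Y : ℕ → E2 → Mat n) (F : ℕ → E2 → ℝ)
    (Φ : E2 → Fin 2 → ℝ) (k : ℕ) (z : E2) : ℝ :=
  F k z * (∑ l, Jac Φ z l l) - ∑ i, ∑ j, Y k z i j * ∑ l, Jac (v k) z i l * Jac Φ z l j

theorem a6b_H_supp (h : IsFam f0 L c0 a r δ v Y F γ) (Φ : E2 → Fin 2 → ℝ) (k : ℕ) (z : E2)
    (hz : r k / 2 ≤ |z 1 - a k|) : a6b_H v Y F Φ k z = 0 := by
  unfold a6b_H
  rw [(h.strip k).suppY z hz, (h.strip k).suppF z hz]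
  simp

theorem a6b_inner_eq (h : IsFam f0 L c0 a r δ v Y F γ) (Φ : E2 → Fin 2 → ℝ) :
    (fun z => (∑' k, F k z) * (∑ k, Jac Φ z k k)
      - ∑ i, ∑ j, (∑' k, Y k z) i j * ∑ k, Jac (Vs v) z i k * Jac Φ z k j) =
    fun z => ∑' k, a6b_H v Y F Φ k z := by
  funext z
  have hY : ∀ i z, r i / 2 ≤ |z 1 - a i| → Y i z = 0 := fun i z => (h.strip i).suppY z
  have hF : ∀ i z, r i / 2 ≤ |z 1 - a i| → F i z = 0 := fun i z => (h.strip i).suppF z
  have hH : ∀ i z, r i / 2 ≤ |z 1 - a i| → a6b_H v Y F Φ i z = 0 := a6b_H_supp h Φ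
  by_cases hz : ∃ i, |z 1 - a i| < r i
  · obtain ⟨i, hi⟩ := hz
    rw [tsum_mem h (fun k z => Y k z) hY hi.le, tsum_mem h (fun k z => F k z) hF hi.le,
      tsum_mem h (fun k z => a6b_H v Y F Φ k z) hH hi.le, Jac_Vs_mem h hi]
    rfl
  · push Not at hz
    have hz' : ∀ i, r i / 2 ≤ |z 1 - a i| := fun i => by
      have h1 := hz i
      have h2 := h.rpos i
      linarith
    rw [tsum_out h (fun k z => Y k z) hY hz', tsum_out h (fun k z => F k z) hF hz',
      tsum_out h (fun k z => a6b_H v Y F Φ k z) hH hz']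
    simp

theorem a6b_H_cont (h : IsFam f0 L c0 a r δ v Y F γ) (Φ : E2 → Fin 2 → ℝ) (hΦ : ContDiff ℝ 1 Φ)
    (k : ℕ) : Continuous (a6b_H v Y F Φ k) := by
  unfold a6b_H
  have h1 : Continuous (Y k) := (h.strip k).smY.continuous
  have h2 : Continuous (F k) := (h.strip k).smF.continuous
  have h3 : ContDiff ℝ 1 (v k) := (h.strip k).smv.of_le (by norm_num)
  refine Continuous.sub (h2.mul (continuous_finsetSum _ fun l _ => a6b_jac_cont Φ hΦ l l)) ?_
  refine continuous_finsetSum _ fun i _ => continuous_finsetSum _ fun j _ => ?_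
  refine Continuous.mul ((continuous_apply j).comp ((continuous_apply i).comp h1)) ?_
  exact continuous_finsetSum _ fun l _ =>
    (a6b_jac_cont (v k) h3 i l).mul (a6b_jac_cont Φ hΦ l j)

theorem a6b_H_zero (Φ : E2 → Fin 2 → ℝ) (k : ℕ) (z : E2) (hz : z ∉ tsupport Φ) :
    a6b_H v Y F Φ k z = 0 := by
  unfold a6b_H
  have h1 : ∑ l, Jac Φ z l l = 0 := Finset.sum_eq_zero fun l _ => a6b_jac_zero Φ hz l l
  rw [h1, mul_zero, zero_sub, neg_eq_zero]
  refine Finset.sum_eq_zero fun i _ => Finset.sum_eq_zero fun j _ => ?_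
  have h2 : ∑ l, Jac (v k) z i l * Jac Φ z l j = 0 :=
    Finset.sum_eq_zero fun l _ => by rw [a6b_jac_zero Φ hz l j, mul_zero]
  rw [h2, mul_zero]

theorem a6b_H_bound (h : IsFam f0 L c0 a r δ v Y F γ) (Φ : E2 → Fin 2 → ℝ) {C : ℝ}
    (hC : ∀ z, ∑ i, ∑ j, |Jac Φ z i j| ≤ C) (k : ℕ) (z : E2) :
    |a6b_H v Y F Φ k z| ≤ L * C + ∑ _i : Fin n, ∑ _j : Fin 2, L * (L * C) := by
  have hL := a6b_Lnn h
  have hJ : ∀ l j, |Jac Φ z l j| ≤ ∑ j, |Jac Φ z l j| := fun l j =>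
    Finset.single_le_sum (f := fun j => |Jac Φ z l j|) (fun j _ => abs_nonneg _)
      (Finset.mem_univ j)
  unfold a6b_H
  refine (abs_sub _ _).trans (add_le_add ?_ ?_)
  · rw [abs_mul]
    refine mul_le_mul ((h.strip k).bF z) ?_ (abs_nonneg _) hL
    refine (Finset.abs_sum_le_sum_abs _ _).trans (le_trans ?_ (hC z))
    exact Finset.sum_le_sum fun l _ => hJ l l
  · refine (Finset.abs_sum_le_sum_abs _ _).trans (Finset.sum_le_sum fun i _ => ?_)
    refine (Finset.abs_sum_le_sum_abs _ _).trans (Finset.sum_le_sum fun j _ => ?_)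
    rw [abs_mul]
    refine mul_le_mul ((a6b_entry _ i j).trans ((h.strip k).bY z)) ?_ (abs_nonneg _) hL
    calc |∑ l, Jac (v k) z i l * Jac Φ z l j| ≤ ∑ l, |Jac (v k) z i l * Jac Φ z l j| :=
          Finset.abs_sum_le_sum_abs _ _
      _ ≤ ∑ l, L * |Jac Φ z l j| := by
          refine Finset.sum_le_sum fun l _ => ?_
          rw [abs_mul]
          exact mul_le_mul_of_nonneg_right ((a6b_entry _ i l).trans ((h.strip k).bJ z))
            (abs_nonneg _)
      _ = L * ∑ l, |Jac Φ z l j| := by rw [Finset.mul_sum]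
      _ ≤ L * C := by
          refine mul_le_mul_of_nonneg_left (le_trans ?_ (hC z)) hL
          exact Finset.sum_le_sum fun l _ => hJ l j

/-- [SLN-A6b] Outer identity for the sum of the strips (`int_strips` with
`G i z = ∑ k j, Y i z k j * Jac φ z k j`, bounded by `2 * n * L * sup ‖Jac φ‖`, and
`outer_one`). -/
theorem outer_Vs (h : IsFam f0 L c0 a r δ v Y F γ) (φ : E2 → Fin n → ℝ) (hφ : ContDiff ℝ 1 φ)
    (hc : HasCompactSupport φ) : ∫ z, ∑ i, ∑ j, (∑' k, Y k z) i j * Jac φ z i j = 0 := by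
  rw [a6b_outer_eq h φ]
  obtain ⟨C, -, hC⟩ := a6b_bound φ hφ hc
  refine int_strips a r h.disj (a6b_G Y φ) (a6b_G_cont h φ hφ) (tsupport φ) hc
    (fun k z hz => a6b_G_zero φ k z hz) (L * C) (a6b_G_bound h φ hC) (a6b_G_supp h φ) fun k => ?_
  exact outer_one (Y k) (h.strip k).smY (h.strip k).divY φ hφ hc

/-- [SLN-A6b] Inner identity for the sum of the strips (`int_strips`, `inner_one`,
`Jac_Vs_mem`, `Jac_Vs_out`). -/
theorem inner_Vs (h : IsFam f0 L c0 a r δ v Y F γ) (Φ : E2 → Fin 2 → ℝ) (hΦ : ContDiff ℝ 1 Φ)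
    (hc : HasCompactSupport Φ) :
    ∫ z, ((∑' k, F k z) * (∑ k, Jac Φ z k k)
      - ∑ i, ∑ j, (∑' k, Y k z) i j * ∑ k, Jac (Vs v) z i k * Jac Φ z k j) = 0 := by
  rw [a6b_inner_eq h Φ]
  obtain ⟨C, -, hC⟩ := a6b_bound Φ hΦ hc
  refine int_strips a r h.disj (a6b_H v Y F Φ) (a6b_H_cont h Φ hΦ) (tsupport Φ) hc
    (fun k z hz => a6b_H_zero Φ k z hz) _ (a6b_H_bound h Φ hC) (a6b_H_supp h Φ) fun k => ?_
  exact inner_one (v k) (Y k) (F k) (h.strip k).smv (h.strip k).smY (h.strip k).smF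
    (h.strip k).divY (h.strip k).dF Φ hΦ hc

/-- [SLN-A6b] Integrability of the integrands of `outer_Vs` and `inner_Vs` (measurable as
`tsum` of continuous functions, or as an a.e. limit; bounded; compact support). -/
theorem integrable_outer (h : IsFam f0 L c0 a r δ v Y F γ) (φ : E2 → Fin n → ℝ)
    (hφ : ContDiff ℝ 1 φ) (hc : HasCompactSupport φ) :
    Integrable (fun z => ∑ i, ∑ j, (∑' k, Y k z) i j * Jac φ z i j) := by
  rw [a6b_outer_eq h φ]
  obtain ⟨C, -, hC⟩ := a6b_bound φ hφ hc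
  exact a6b_integrable (a6b_G Y φ) (a6b_G_cont h φ hφ) (tsupport φ) hc
    (fun k z hz => a6b_G_zero φ k z hz) (L * C) (a6b_G_bound h φ hC)
    (a6b_one h (a6b_G Y φ) (a6b_G_supp h φ))

/-- [SLN-A6b] -/
theorem integrable_inner (h : IsFam f0 L c0 a r δ v Y F γ) (Φ : E2 → Fin 2 → ℝ)
    (hΦ : ContDiff ℝ 1 Φ) (hc : HasCompactSupport Φ) :
    Integrable (fun z => (∑' k, F k z) * (∑ k, Jac Φ z k k)
      - ∑ i, ∑ j, (∑' k, Y k z) i j * ∑ k, Jac (Vs v) z i k * Jac Φ z k j) := by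
  rw [a6b_inner_eq h Φ]
  obtain ⟨C, -, hC⟩ := a6b_bound Φ hΦ hc
  exact a6b_integrable (a6b_H v Y F Φ) (a6b_H_cont h Φ hΦ) (tsupport Φ) hc
    (fun k z hz => a6b_H_zero Φ k z hz) _ (a6b_H_bound h Φ hC)
    (a6b_one h (a6b_H v Y F Φ) (a6b_H_supp h Φ))

end Pool.Agent.SLG.Sn
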