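import Mathlib
import Pool.Agent.SLN.A3c
import Pool.Agent.SLN.A6a
import Pool.Agent.SLN.A6b

/-! Stationarity of `uU` for `fF`. -/

namespace Pool.Agent.SLG.Sn

open MeasureTheory Filter Topology

variable {n : ℕ} {f0 : Mat n → ℝ} {L c0 : ℝ} {a r δ : ℕ → ℝ} {v : ℕ → E2 → Fin n → ℝ}
  {Y : ℕ → E2 → Mat n} {F : ℕ → E2 → ℝ} {γ : ℕ → E2 × Mat n → ℝ}

/-- The Jacobian of a test function vanishes off its support. -/
theorem a6c_jac_zero {m : ℕ} (φ : E2 → Fin m → ℝ) {z : E2} (hz : z ∉ tsupport φ) :
    Jac φ z = 0 := by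
  have h : fderiv ℝ φ z = 0 := by
    by_contra hne
    exact hz (support_fderiv_subset ℝ (by simpa using hne))
  funext i j
  simp [Jac, h]

theorem a6c_setInt (G : E2 → ℝ) (h : ∀ z, z ∉ Sq → G z = 0) : ∫ z in Sq, G z = ∫ z, G z := by
  apply setIntegral_eq_integral_of_forall_compl_eq_zero
  intro z hz
  exact h z hz

/-- Components of a test map. -/
theorem a6c_top_test (φ : E2 → Fin (2 + n) → ℝ) (hφ : ContDiff ℝ 1 φ)
    (hc : HasCompactSupport φ) :
    ContDiff ℝ 1 (fun z => (fun i : Fin 2 => φ z (Fin.castAdd n i))) ∧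
    HasCompactSupport (fun z => (fun i : Fin 2 => φ z (Fin.castAdd n i))) ∧
    ∀ z i j, Jac (fun z => (fun i : Fin 2 => φ z (Fin.castAdd n i))) z i j
      = Jac φ z (Fin.castAdd n i) j := by
  have h1 : ContDiff ℝ 1 (fun z => (fun i : Fin 2 => φ z (Fin.castAdd n i))) := by
    rw [contDiff_pi]
    intro i
    exact (contDiff_pi.1 hφ) (Fin.castAdd n i)
  refine ⟨h1, ?_, ?_⟩
  · refine hc.mono' ?_
    intro z hz
    apply subset_tsupport
    intro h0
    apply hz
    funext i
    simp [h0]
  · intro z i j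
    have hd : DifferentiableAt ℝ φ z := (hφ.differentiable (by norm_num)) z
    have hd1 : DifferentiableAt ℝ (fun z => (fun i : Fin 2 => φ z (Fin.castAdd n i))) z :=
      (h1.differentiable (by norm_num)) z
    simp only [Jac]
    have e1 := hasFDerivAt_pi'.1 hd.hasFDerivAt (Fin.castAdd n i)
    have e2 := hasFDerivAt_pi'.1 hd1.hasFDerivAt i
    have e3 := e2.unique e1
    have e4 := congrArg (fun T : E2 →L[ℝ] ℝ => T (ee j)) e3
    simpa using e4

theorem a6c_bot_test (φ : E2 → Fin (2 + n) → ℝ) (hφ : ContDiff ℝ 1 φ)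
    (hc : HasCompactSupport φ) :
    ContDiff ℝ 1 (fun z => (fun i : Fin n => φ z (Fin.natAdd 2 i))) ∧
    HasCompactSupport (fun z => (fun i : Fin n => φ z (Fin.natAdd 2 i))) ∧
    ∀ z i j, Jac (fun z => (fun i : Fin n => φ z (Fin.natAdd 2 i))) z i j
      = Jac φ z (Fin.natAdd 2 i) j := by
  have h1 : ContDiff ℝ 1 (fun z => (fun i : Fin n => φ z (Fin.natAdd 2 i))) := by
    rw [contDiff_pi]
    intro i
    exact (contDiff_pi.1 hφ) (Fin.natAdd 2 i)
  refine ⟨h1, ?_, ?_⟩
  · refine hc.mono' ?_
    intro z hz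
    apply subset_tsupport
    intro h0
    apply hz
    funext i
    simp [h0]
  · intro z i j
    have hd : DifferentiableAt ℝ φ z := (hφ.differentiable (by norm_num)) z
    have hd1 : DifferentiableAt ℝ (fun z => (fun i : Fin n => φ z (Fin.natAdd 2 i))) z :=
      (h1.differentiable (by norm_num)) z
    simp only [Jac]
    have e1 := hasFDerivAt_pi'.1 hd.hasFDerivAt (Fin.natAdd 2 i)
    have e2 := hasFDerivAt_pi'.1 hd1.hasFDerivAt i
    have e3 := e2.unique e1
    have e4 := congrArg (fun T : E2 →L[ℝ] ℝ => T (ee j)) e3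
    simpa using e4

/-- [SLN-A6c] `fF_Grd_top`, `fF_Grd_bot`, `fF_val`, `top_Jac`, `bot_Jac`, `Fin.sum_univ_add`;
the integrals over `Sq` are integrals over the plane because `Jac φ = 0` off `tsupport φ`. -/
theorem stat_uU (hf : ContDiff ℝ ((⊤ : ℕ∞) : WithTop ℕ∞) f0) (h : IsFam f0 L c0 a r δ v Y F γ) :
    Stationary (fF f0 γ) Sq (uU v) := by
  have htop : ∀ z i j, Jac (uU v) z (Fin.castAdd n i) j = Jac ww z i j := by
    intro z i j
    have := congrFun (congrFun (top_Jac h z) i) j
    simpa [top] using this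
  have hbot : ∀ z i j, Jac (uU v) z (Fin.natAdd 2 i) j = Jac (Vs v) z i j := by
    intro z i j
    have := congrFun (congrFun (bot_Jac h z) i) j
    simpa [bot] using this
  constructor
  · intro φ hφ hc hs
    have hφ1 : ContDiff ℝ 1 φ := hφ.of_le (by exact_mod_cast le_top)
    rw [a6c_setInt]
    · obtain ⟨t1, t2, t3⟩ := a6c_top_test φ hφ1 hc
      obtain ⟨b1, b2, b3⟩ := a6c_bot_test φ hφ1 hc
      have e : ∀ z, (∑ i, ∑ j, Grd (fF f0 γ) (Jac (uU v) z) i j * Jac φ z i j)
          = (∑ i, ∑ j, Jac ww z i j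
              * Jac (fun z => (fun i : Fin 2 => φ z (Fin.castAdd n i))) z i j)
            + ∑ i, ∑ j, (∑' k, Y k z) i j
              * Jac (fun z => (fun i : Fin n => φ z (Fin.natAdd 2 i))) z i j := by
        intro z
        rw [Fin.sum_univ_add]
        congr 1
        · refine Finset.sum_congr rfl fun i _ => Finset.sum_congr rfl fun j _ => ?_
          rw [fF_Grd_top hf h, t3]
        · refine Finset.sum_congr rfl fun i _ => Finset.sum_congr rfl fun j _ => ?_
          rw [fF_Grd_bot hf h, b3]
      simp_rw [e]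
      rw [integral_add]
      · rw [outer_ww _ t1 t2, outer_Vs h _ b1 b2, add_zero]
      · have hcont : Continuous (fun z => ∑ i, ∑ j, Jac ww z i j
              * Jac (fun z => (fun i : Fin 2 => φ z (Fin.castAdd n i))) z i j) := by
          refine continuous_finsetSum _ fun i _ => continuous_finsetSum _ fun j _ => ?_
          refine Continuous.mul ?_ ?_
          · have := (ww_contDiff.continuous_fderiv (by norm_num)).clm_apply
              (continuous_const (y := ee j))
            exact (continuous_apply i).comp this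
          · have := (t1.continuous_fderiv (by norm_num)).clm_apply
              (continuous_const (y := ee j))
            exact (continuous_apply i).comp this
        refine hcont.integrable_of_hasCompactSupport ?_
        refine t2.mono' ?_
        intro z hz
        by_contra hzn
        apply hz
        simp [a6c_jac_zero _ hzn]
      · exact integrable_outer h _ b1 b2
    · intro z hz
      have : Jac φ z = 0 := a6c_jac_zero φ (fun hzz => hz (hs hzz))
      simp [this]
  · intro Φ hΦ hc hs
    have hΦ1 : ContDiff ℝ 1 Φ := hΦ.of_le (by exact_mod_cast le_top)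
    rw [a6c_setInt]
    · have e : ∀ z, (fF f0 γ (Jac (uU v) z) * (∑ k, Jac Φ z k k)
          - ∑ i, ∑ j, Grd (fF f0 γ) (Jac (uU v) z) i j
            * ∑ k, Jac (uU v) z i k * Jac Φ z k j)
          = (∑' k, F k z) * (∑ k, Jac Φ z k k)
            - ∑ i, ∑ j, (∑' k, Y k z) i j * ∑ k, Jac (Vs v) z i k * Jac Φ z k j := by
        intro z
        have h0 := inner_ww z (Jac Φ z)
        rw [Fin.sum_univ_add]
        have e1 : (∑ i : Fin 2, ∑ j, Grd (fF f0 γ) (Jac (uU v) z) (Fin.castAdd n i) j
            * ∑ k, Jac (uU v) z (Fin.castAdd n i) k * Jac Φ z k j)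
            = ∑ i, ∑ j, Jac ww z i j * ∑ k, Jac ww z i k * Jac Φ z k j := by
          refine Finset.sum_congr rfl fun i _ => Finset.sum_congr rfl fun j _ => ?_
          rw [fF_Grd_top hf h]
          congr 1
          refine Finset.sum_congr rfl fun k _ => ?_
          rw [htop]
        have e2 : (∑ i : Fin n, ∑ j, Grd (fF f0 γ) (Jac (uU v) z) (Fin.natAdd 2 i) j
            * ∑ k, Jac (uU v) z (Fin.natAdd 2 i) k * Jac Φ z k j)
            = ∑ i, ∑ j, (∑' k, Y k z) i j * ∑ k, Jac (Vs v) z i k * Jac Φ z k j := by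
          refine Finset.sum_congr rfl fun i _ => Finset.sum_congr rfl fun j _ => ?_
          rw [fF_Grd_bot hf h]
          congr 1
          refine Finset.sum_congr rfl fun k _ => ?_
          rw [hbot]
        rw [e1, e2, fF_val h]
        linarith
      simp_rw [e]
      exact inner_Vs h Φ hΦ1 hc
    · intro z hz
      have : Jac Φ z = 0 := a6c_jac_zero Φ (fun hzz => hz (hs hzz))
      simp [this]

end Pool.Agent.SLG.Sn
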