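import Mathlib
import Pool.Agent.SLN.Defs

/-! The square and the measure of the Cantor part. -/

namespace Pool.Agent.SLG.Sn

open MeasureTheory Filter Topology

theorem a7a_vol (A B : Set ℝ) (hA : MeasurableSet A) (hB : MeasurableSet B) :
    volume {z : E2 | z 0 ∈ A ∧ z 1 ∈ B} = volume A * volume B := by
  have h1 : {z : E2 | z 0 ∈ A ∧ z 1 ∈ B} = (@WithLp.ofLp 2 (Fin 2 → ℝ)) ⁻¹' (Set.pi Set.univ ![A, B]) := by
    ext z
    simp only [Set.mem_setOf_eq, Set.mem_preimage, Set.mem_univ_pi, Fin.forall_fin_two]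
    exact Iff.rfl
  have h2 : MeasurableSet (Set.pi Set.univ ![A, B]) := by
    apply MeasurableSet.univ_pi
    rw [Fin.forall_fin_two]
    exact ⟨hA, hB⟩
  rw [h1, (PiLp.volume_preserving_ofLp (Fin 2)).measure_preimage h2.nullMeasurableSet, volume_pi_pi,
    Fin.prod_univ_two]
  rfl

/-- [SLN-A7a] `Sq` is open and bounded. -/
theorem Sq_open : IsOpen Sq := by
  have h0 : Continuous fun z : E2 => z 0 := by fun_prop
  have h1 : Continuous fun z : E2 => z 1 := by fun_prop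
  exact (isOpen_lt continuous_const h0).inter ((isOpen_lt h0 continuous_const).inter
    ((isOpen_lt continuous_const h1).inter (isOpen_lt h1 continuous_const)))

/-- [SLN-A7a] -/
theorem Sq_bdd : Bornology.IsBounded Sq := by
  refine isBounded_iff_forall_norm_le.2 ⟨2, ?_⟩
  rintro z ⟨h1, h2, h3, h4⟩
  rw [EuclideanSpace.norm_eq, Fin.sum_univ_two, Real.norm_eq_abs, Real.norm_eq_abs, sq_abs, sq_abs]
  apply Real.sqrt_le_iff.2
  constructor
  · norm_num
  · nlinarith

/-- [SLN-A7a] The points of the square in no closed strip have positive measure: the square has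
measure `1`, the part in the closed strips at most `∑' 2 * r i < 1`
(`EuclideanSpace.volume_preserving_measurableEquiv` / `volume_preserving_symm_measurableEquiv_toLp`
and `Measure.pi_pi`, or `MeasureTheory.volume_preserving_finTwoArrow`). -/
theorem pos_measure (a r : ℕ → ℝ) (hr : ∀ i, 0 < r i) (hs : Summable r)
    (h1 : ∑' i, 2 * r i < 1) : volume {z : E2 | z ∈ Sq ∧ ∀ i, r i < |z 1 - a i|} ≠ 0 := by
  intro h0
  have hmI : MeasurableSet (Set.Ioo (0 : ℝ) 1) := measurableSet_Ioo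
  have hSq : Sq = {z : E2 | z 0 ∈ Set.Ioo (0 : ℝ) 1 ∧ z 1 ∈ Set.Ioo (0 : ℝ) 1} := by
    ext z
    simp only [Sq, Set.mem_setOf_eq, Set.mem_Ioo]
    tauto
  have hvol : volume Sq = 1 := by
    rw [hSq, a7a_vol _ _ hmI hmI, Real.volume_Ioo]
    norm_num
  have hcov : Sq ⊆ {z : E2 | z ∈ Sq ∧ ∀ i, r i < |z 1 - a i|} ∪
      ⋃ i, {z : E2 | z 0 ∈ Set.Ioo (0 : ℝ) 1 ∧ z 1 ∈ Set.Icc (a i - r i) (a i + r i)} := by
    intro z hz
    by_cases h : ∀ i, r i < |z 1 - a i|
    · exact Or.inl ⟨hz, h⟩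
    · push Not at h
      obtain ⟨i, hi⟩ := h
      right
      rw [Set.mem_iUnion]
      rw [abs_le] at hi
      exact ⟨i, ⟨hz.1, hz.2.1⟩, by linarith [hi.1], by linarith [hi.2]⟩
  have hstrip : ∀ i, volume {z : E2 | z 0 ∈ Set.Ioo (0 : ℝ) 1 ∧ z 1 ∈ Set.Icc (a i - r i) (a i + r i)} =
      ENNReal.ofReal (2 * r i) := by
    intro i
    rw [a7a_vol _ _ hmI measurableSet_Icc, Real.volume_Ioo, Real.volume_Icc]
    rw [show (1 : ℝ) - 0 = 1 by ring, ENNReal.ofReal_one, one_mul]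
    congr 1
    ring
  have h2 : (1 : ENNReal) ≤ ∑' i, ENNReal.ofReal (2 * r i) := by
    calc (1 : ENNReal) = volume Sq := hvol.symm
      _ ≤ _ := measure_mono hcov
      _ ≤ _ := measure_union_le _ _
      _ = volume (⋃ i, {z : E2 | z 0 ∈ Set.Ioo (0 : ℝ) 1 ∧ z 1 ∈ Set.Icc (a i - r i) (a i + r i)}) := by
          rw [h0, zero_add]
      _ ≤ ∑' i, volume {z : E2 | z 0 ∈ Set.Ioo (0 : ℝ) 1 ∧ z 1 ∈ Set.Icc (a i - r i) (a i + r i)} :=
          measure_iUnion_le _
      _ = ∑' i, ENNReal.ofReal (2 * r i) := by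
          congr 1
          funext i
          exact hstrip i
  rw [← ENNReal.ofReal_tsum_of_nonneg (fun i => by have := hr i; positivity) (hs.mul_left 2)] at h2
  have h3 : ENNReal.ofReal (∑' i, 2 * r i) < 1 := by
    rw [← ENNReal.ofReal_one]
    exact (ENNReal.ofReal_lt_ofReal_iff one_pos).2 h1
  exact absurd h2 (not_le.2 h3)

end Pool.Agent.SLG.Sn
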