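import Mathlib
import Pool.Agent.SLN.A2d
import Pool.Agent.SLN.A7a

/-! `uU` is not partially regular. -/

namespace Pool.Agent.SLG.Sn

open MeasureTheory Filter Topology

variable {n : ℕ} {f0 : Mat n → ℝ} {L c0 : ℝ} {a r δ : ℕ → ℝ} {v : ℕ → E2 → Fin n → ℝ}
  {Y : ℕ → E2 → Mat n} {F : ℕ → E2 → ℝ} {γ : ℕ → E2 × Mat n → ℝ}

/-- The Jacobian of the example is continuous where the example is `C¹`. -/
theorem a7b_cont {m : ℕ} (u : E2 → Fin m → ℝ) (U : Set E2) (hU : IsOpen U) {z : E2} (hz : z ∈ U)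
    (hu : ContDiffOn ℝ 1 u U) : ContinuousAt (Jac u) z := by
  have h1 : ContinuousOn (fderiv ℝ u) U := hu.continuousOn_fderiv_of_isOpen hU (by norm_num)
  have h2 : ContinuousAt (fderiv ℝ u) z := h1.continuousAt (hU.mem_nhds hz)
  unfold Jac
  refine continuousAt_pi.2 fun i => continuousAt_pi.2 fun j => ?_
  have h3 : ContinuousAt (fun x => fderiv ℝ u x (ee j)) z := h2.clm_apply continuousAt_const
  exact (continuous_apply i).continuousAt.comp h3

/-- [SLN-A7b] At a point `z` of the square in no closed strip, `fderiv (Vs v)` is `0`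
(`Vs_fderiv_out`) but arbitrarily near there are points `q = (z 0, a i)` with
`‖Jac (Vs v) q‖ ≥ c0` (`Jac_Vs_mem`, `low`), so `Vs v` is not `C¹` on any neighbourhood. -/
theorem not_C1_near (h : IsFam f0 L c0 a r δ v Y F γ) (hc0 : 0 < c0)
    (hd : ∀ x ∈ Set.Ioo (0 : ℝ) 1, (∀ i, r i < |x - a i|) → ∀ ε : ℝ, 0 < ε → ∃ i, |a i - x| < ε)
    {z : E2} (hz : z ∈ Sq) (hz2 : ∀ i, r i < |z 1 - a i|) (U : Set E2) (hU : IsOpen U)
    (hzU : z ∈ U) : ¬ ContDiffOn ℝ 1 (uU v) U := by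
  intro hC
  have h1 := a7b_cont (uU v) U hU hzU hC
  have h2 : ContinuousAt (fun y => bot (Jac (uU v) y)) z := by
    have hb : Continuous (bot : Mat (2 + n) → Mat n) := by
      unfold bot
      exact continuous_pi fun i => continuous_apply _
    exact hb.continuousAt.comp h1
  have h3 : ContinuousAt (Jac (Vs v)) z := by
    have e : (fun y => bot (Jac (uU v) y)) = Jac (Vs v) := by
      funext y; exact bot_Jac h y
    rw [e] at h2
    exact h2
  have h0 : Jac (Vs v) z = 0 := Jac_Vs_out h (fun i => (hz2 i).le)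
  rw [Metric.continuousAt_iff] at h3
  obtain ⟨ε, hε, h4⟩ := h3 c0 hc0
  obtain ⟨i, hi⟩ := hd (z 1) ⟨hz.2.2.1, hz.2.2.2⟩ hz2 ε hε
  set q : E2 := z + (a i - z 1) • ee 1 with hq
  have hq1 : q 1 = a i := by
    simp [hq, ee]
  have hqd : dist q z < ε := by
    rw [hq, dist_eq_norm, add_sub_cancel_left, norm_smul, Real.norm_eq_abs]
    simpa [ee] using hi
  have h5 := h4 hqd
  rw [h0, dist_zero_right] at h5
  have h6 : Jac (Vs v) q = Jac (v i) q := Jac_Vs_mem h (by rw [hq1]; simpa using h.rpos i)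
  rw [h6] at h5
  have h7 := (h.strip i).low q hq1
  linarith

/-- [SLN-A7b] -/
theorem not_pr (h : IsFam f0 L c0 a r δ v Y F γ) (hc0 : 0 < c0) (h1 : ∑' i, 2 * r i < 1)
    (hs : Summable r)
    (hd : ∀ x ∈ Set.Ioo (0 : ℝ) 1, (∀ i, r i < |x - a i|) → ∀ ε : ℝ, 0 < ε → ∃ i, |a i - x| < ε) :
    ¬ PartiallyRegular Sq (uU v) := by
  rintro ⟨Ω₀, hO, hsub, hvol, hC⟩
  have hp := pos_measure a r h.rpos hs h1
  have hne : ∃ z, z ∈ Ω₀ ∧ z ∈ {z : E2 | z ∈ Sq ∧ ∀ i, r i < |z 1 - a i|} := by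
    by_contra hcon
    push Not at hcon
    apply hp
    refine measure_mono_null ?_ hvol
    intro z hz
    exact ⟨hz.1, fun hz0 => hcon z hz0 hz⟩
  obtain ⟨z, hz0, hz1, hz2⟩ := hne
  exact not_C1_near h hc0 hd hz1 hz2 Ω₀ hO hz0 hC

end Pool.Agent.SLG.Sn
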