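import Mathlib
import Pool.Agent.SLN.A1
import Pool.Agent.SLN.A4b
import Pool.Agent.SLN.A6c
import Pool.Agent.SLN.A7b

/-! The assembly. -/

namespace Pool.Agent.SLG.Sn

open MeasureTheory Filter Topology

/-- [SLN-A8] From arbitrarily thin and small strips to the counterexample:
`exists_intervals`, `δ i = η / 2 ^ (i + 2)`, and all the blocks. -/
theorem assembly {n : ℕ} (f0 : Mat n → ℝ) (hf0 : ContDiff ℝ ((⊤ : ℕ∞) : WithTop ℕ∞) f0)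
    (hp : StronglyPolyconvex f0) (L c0 : ℝ) (hc0 : 0 < c0)
    (hstrip : ∀ (K : ℕ) (a r δ : ℝ), 0 < r → 0 < δ → ∃ (v : E2 → Fin n → ℝ) (Y : E2 → Mat n) (F : E2 → ℝ)
      (γ : E2 × Mat n → ℝ), IsStrip f0 K L c0 a r δ v Y F γ) :
    ∃ (f : Mat (2 + n) → ℝ) (Ω : Set E2) (u : E2 → Fin (2 + n) → ℝ),
      ContDiff ℝ ((⊤ : ℕ∞) : WithTop ℕ∞) f ∧ StronglyPolyconvex f ∧ IsOpen Ω ∧ Bornology.IsBounded Ω ∧
      (∃ K : NNReal, LipschitzOnWith K u Ω) ∧ Stationary f Ω u ∧ ¬ PartiallyRegular Ω u := by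
  obtain ⟨a, r, hr, hdisj, hin, hsum, hsum1, hdense⟩ := exists_intervals
  obtain ⟨η, hη, hspc⟩ := spc_fF hp
  have hδ : ∀ i : ℕ, 0 < η / 2 * (1 / 2 : ℝ) ^ (i + 1) := fun i => by positivity
  choose v Y F γ hS using fun i : ℕ =>
    hstrip (i + 2) (a i) (r i) (η / 2 * (1 / 2 : ℝ) ^ (i + 1)) (hr i) (hδ i)
  have hsd : HasSum (fun i : ℕ => η / 2 * (1 / 2 : ℝ) ^ (i + 1)) (η / 2) := by
    have h1 : HasSum (fun i : ℕ => (1 / 2 : ℝ) ^ i) (1 - 1 / 2)⁻¹ :=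
      hasSum_geometric_of_lt_one (by norm_num) (by norm_num)
    have h2 := h1.mul_left (η / 2 * (1 / 2))
    have e : (fun i : ℕ => η / 2 * (1 / 2) * (1 / 2 : ℝ) ^ i)
        = fun i : ℕ => η / 2 * (1 / 2 : ℝ) ^ (i + 1) := by
      funext i; ring
    rw [e] at h2
    have e2 : η / 2 * (1 / 2) * (1 - 1 / 2 : ℝ)⁻¹ = η / 2 := by
      norm_num; ring
    rw [e2] at h2
    exact h2
  have hfam : IsFam f0 L c0 a r (fun i => η / 2 * (1 / 2 : ℝ) ^ (i + 1)) v Y F γ :=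
    ⟨hr, hδ, hdisj, hsd.summable, hS⟩
  refine ⟨fF f0 γ, Sq, uU v, fF_contDiff hf0 hfam, hspc _ _ _ _ _ _ _ _ _ hfam ?_, Sq_open, Sq_bdd,
    uU_lip hfam, stat_uU hf0 hfam, not_pr hfam hc0 hsum1 hsum hdense⟩
  rw [hsd.tsum_eq]
  linarith

end Pool.Agent.SLG.Sn
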