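import Pool.Agent.SLG.Defs

/-! # EXT-C, part 1: rotations, inner products, the chart, the functions `T` and `W` -/

namespace Pool.Agent.SLG.Ec

open Filter Topology
open scoped ContDiff

/-- matrices with rows indexed by `Fin m × Fin 2` -/
abbrev MM (m : ℕ) := (Fin m × Fin 2) → Fin 2 → ℝ

variable {m : ℕ}

/-- the matrix `(i e a, e b)`, `e = c + i s` -/
def rot (c s : ℝ) (a b : Fin m → ℝ) : MM m := fun kl j =>
  if j = 0 then (if kl.2 = 0 then -s else c) * a kl.1 else (if kl.2 = 0 then c else s) * b kl.1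

/-- Euclidean inner product -/
def ip (X Y : MM m) : ℝ := ∑ kl, ∑ j, X kl j * Y kl j

theorem ip_eq (X Y : MM m) : ip X Y = ∑ k, (X (k, 0) 0 * Y (k, 0) 0 + X (k, 0) 1 * Y (k, 0) 1 +
    (X (k, 1) 0 * Y (k, 1) 0 + X (k, 1) 1 * Y (k, 1) 1)) := by
  unfold ip
  rw [Fintype.sum_prod_type]
  simp only [Fin.sum_univ_two]

theorem sq_eq_ip (X : MM m) : sq X = ip X X := by
  unfold sq ip
  refine Finset.sum_congr rfl fun i _ => Finset.sum_congr rfl fun j _ => by ring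

theorem sq_nonneg' (X : MM m) : 0 ≤ sq X := by
  unfold sq; positivity

theorem ip_rot_rot (c s c' s' : ℝ) (a b a' b' : Fin m → ℝ) :
    ip (rot c s a b) (rot c' s' a' b') = (c * c' + s * s') * ∑ k, (a k * a' k + b k * b' k) := by
  rw [ip_eq, Finset.mul_sum]
  refine Finset.sum_congr rfl fun k _ => ?_
  simp [rot]
  ring

theorem sq_rot {c s : ℝ} (h : c ^ 2 + s ^ 2 = 1) (a b : Fin m → ℝ) :
    sq (rot c s a b) = ∑ k, (a k ^ 2 + b k ^ 2) := by
  rw [sq_eq_ip, ip_rot_rot, show c * c + s * s = 1 by linarith, one_mul]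
  refine Finset.sum_congr rfl fun k _ => by ring

/-- the completed square -/
theorem ip_lower (X Y : MM m) {A : ℝ} (hA : 0 < A) : -(sq X / (4 * A)) ≤ ip X Y + A * sq Y := by
  have h : 0 ≤ ∑ kl, ∑ j, (2 * A * Y kl j + X kl j) ^ 2 := by positivity
  have h2 : ∑ kl, ∑ j, (2 * A * Y kl j + X kl j) ^ 2
      = 4 * A ^ 2 * sq Y + 4 * A * ip X Y + sq X := by
    unfold sq ip
    simp only [Finset.mul_sum, ← Finset.sum_add_distrib]
    refine Finset.sum_congr rfl fun i _ => Finset.sum_congr rfl fun j _ => by ring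
  rw [h2] at h
  have h3 : ip X Y + A * sq Y + sq X / (4 * A)
      = (4 * A ^ 2 * sq Y + 4 * A * ip X Y + sq X) / (4 * A) := by
    field_simp
    ring
  have h4 : 0 ≤ ip X Y + A * sq Y + sq X / (4 * A) := by
    rw [h3]; positivity
  linarith

/-! ### the chart -/

/-- `|q_i|^2` -/
def nq (i : Fin m) (X : MM m) : ℝ := X (i, 0) 0 ^ 2 + X (i, 1) 0 ^ 2

/-- `|q_{iL}|^2 |q_{iR}|^2` -/
def nn (iL iR : Fin m) (X : MM m) : ℝ := nq iL X * nq iR X

/-- the cosine of the phase -/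
noncomputable def cX (i : Fin m) (X : MM m) : ℝ := X (i, 1) 0 / √(nq i X)

/-- the sine of the phase -/
noncomputable def sX (i : Fin m) (X : MM m) : ℝ := -X (i, 0) 0 / √(nq i X)

/-- `log |q_i|` -/
noncomputable def lg (i : Fin m) (X : MM m) : ℝ := Real.log (nq i X) / 2

/-- the transition -/
noncomputable def eta (r : ℝ) : ℝ := Real.smoothTransition ((r + 1) / 2)

/-- the second coordinate -/
noncomputable def yX (iL iR : Fin m) (X : MM m) : ℝ :=
  (1 - eta (lg iL X - lg iR X)) * lg iL X - eta (lg iL X - lg iR X) * lg iR X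

theorem nq_nonneg (i : Fin m) (X : MM m) : 0 ≤ nq i X := by unfold nq; positivity

theorem nn_nonneg (iL iR : Fin m) (X : MM m) : 0 ≤ nn iL iR X :=
  mul_nonneg (nq_nonneg _ _) (nq_nonneg _ _)

theorem contDiff_entry (kl : Fin m × Fin 2) (j : Fin 2) {n : WithTop ℕ∞} :
    ContDiff ℝ n (fun X : MM m => X kl j) := by
  fun_prop

theorem contDiff_nq (i : Fin m) {n : WithTop ℕ∞} : ContDiff ℝ n (nq i : MM m → ℝ) := by
  unfold nq; fun_prop

theorem contDiff_nn (iL iR : Fin m) {n : WithTop ℕ∞} : ContDiff ℝ n (nn iL iR : MM m → ℝ) := by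
  unfold nn; exact (contDiff_nq iL).mul (contDiff_nq iR)

theorem contDiffAt_cX {i : Fin m} {X : MM m} (h : nq i X ≠ 0) {n : WithTop ℕ∞} :
    ContDiffAt ℝ n (cX i : MM m → ℝ) X := by
  unfold cX
  refine ContDiffAt.div (contDiff_entry _ _).contDiffAt ((contDiff_nq i).contDiffAt.sqrt h) ?_
  exact (Real.sqrt_pos.mpr (lt_of_le_of_ne (nq_nonneg i X) (Ne.symm h))).ne'

theorem contDiffAt_sX {i : Fin m} {X : MM m} (h : nq i X ≠ 0) {n : WithTop ℕ∞} :
    ContDiffAt ℝ n (sX i : MM m → ℝ) X := by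
  unfold sX
  refine ContDiffAt.div (contDiff_entry _ _).neg.contDiffAt
    ((contDiff_nq i).contDiffAt.sqrt h) ?_
  exact (Real.sqrt_pos.mpr (lt_of_le_of_ne (nq_nonneg i X) (Ne.symm h))).ne'

theorem contDiffAt_lg {i : Fin m} {X : MM m} (h : nq i X ≠ 0) {n : WithTop ℕ∞} :
    ContDiffAt ℝ n (lg i : MM m → ℝ) X := by
  unfold lg
  exact ((contDiff_nq i).contDiffAt.log h).div_const 2

theorem eta_contDiff {n : ℕ∞} : ContDiff ℝ n eta := by
  unfold eta
  refine Real.smoothTransition.contDiff.comp ?_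
  fun_prop

theorem eta_zero {r : ℝ} (h : r ≤ -1) : eta r = 0 := by
  rw [eta, Real.smoothTransition.zero_of_nonpos]; linarith

theorem eta_one {r : ℝ} (h : 1 ≤ r) : eta r = 1 := by
  rw [eta, Real.smoothTransition.one_of_one_le]; linarith

theorem contDiffAt_yX {iL iR : Fin m} {X : MM m} (hL : nq iL X ≠ 0) (hR : nq iR X ≠ 0) {n : ℕ∞} :
    ContDiffAt ℝ n (yX iL iR : MM m → ℝ) X := by
  unfold yX
  have h1 := contDiffAt_lg hL (n := n)
  have h2 := contDiffAt_lg hR (n := n)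
  have h3 : ContDiffAt ℝ n (fun X : MM m => eta (lg iL X - lg iR X)) X :=
    eta_contDiff.contDiffAt.comp X (h1.sub h2)
  exact ((contDiffAt_const.sub h3).mul h1).sub (h3.mul h2)

theorem cX_sX {i : Fin m} {X : MM m} (h : nq i X ≠ 0) : cX i X ^ 2 + sX i X ^ 2 = 1 := by
  unfold cX sX
  have h1 : √(nq i X) ^ 2 = nq i X := Real.sq_sqrt (nq_nonneg i X)
  rw [div_pow, div_pow, h1, ← add_div, div_eq_one_iff_eq h]
  unfold nq; ring

/-- the curve `X_0(y) = (i a(y), b(y))` evaluated at the chart coordinates, `e X_0(y)` -/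
noncomputable def prj (iL iR : Fin m) (a b : ℝ → Fin m → ℝ) (X : MM m) : MM m :=
  rot (cX iL X) (sX iL X) (a (yX iL iR X)) (b (yX iL iR X))

variable {i iL iR : Fin m}

theorem nq_rot {c s : ℝ} (h : c ^ 2 + s ^ 2 = 1) (a b : Fin m → ℝ) :
    nq i (rot c s a b) = a i ^ 2 := by
  simp only [nq, rot, Fin.isValue, if_true, one_ne_zero, if_false]
  linear_combination (a i ^ 2) * h

theorem cX_rot {c s : ℝ} (h : c ^ 2 + s ^ 2 = 1) {a b : Fin m → ℝ} (ha : 0 < a i) :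
    cX i (rot c s a b) = c := by
  rw [cX, nq_rot h, Real.sqrt_sq ha.le]
  simp only [rot, Fin.isValue, if_true, one_ne_zero, if_false]
  field_simp

theorem sX_rot {c s : ℝ} (h : c ^ 2 + s ^ 2 = 1) {a b : Fin m → ℝ} (ha : 0 < a i) :
    sX i (rot c s a b) = s := by
  rw [sX, nq_rot h, Real.sqrt_sq ha.le]
  simp only [rot, Fin.isValue, if_true]
  field_simp

theorem lg_rot {c s : ℝ} (h : c ^ 2 + s ^ 2 = 1) {a b : Fin m → ℝ} :
    lg i (rot c s a b) = Real.log (a i) := by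
  rw [lg, nq_rot h, Real.log_pow]
  push_cast; ring

/-- the chart components -/
structure IsChart (g : ℝ → Fin m → ℝ) (iL iR : Fin m) : Prop where
  Lpos : ∀ t, 0 < g t iL
  Lexp : ∀ t, t ≤ 1 → g t iL = Real.exp t
  Lbd : ∀ t, 1 ≤ t → Real.exp (2 - t) ≤ g t iL
  Rpos : ∀ t, 0 < g t iR
  Rexp : ∀ t, -1 ≤ t → g t iR = Real.exp (-t)
  Rbd : ∀ t, t ≤ -1 → Real.exp (2 + t) ≤ g t iR

theorem yX_rot {g : ℝ → Fin m → ℝ} (hg : IsChart g iL iR) {c s : ℝ} (h : c ^ 2 + s ^ 2 = 1)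
    (t : ℝ) (b : Fin m → ℝ) : yX iL iR (rot c s (g t) b) = t := by
  rw [yX, lg_rot h, lg_rot h]
  rcases le_total t 1 with h1 | h1
  · rcases le_total (-1) t with h2 | h2
    · rw [hg.Lexp t h1, hg.Rexp t h2, Real.log_exp, Real.log_exp]; ring
    · have h3 : 2 + t ≤ Real.log (g t iR) := by
        rw [Real.le_log_iff_exp_le (hg.Rpos t)]; exact hg.Rbd t h2
      rw [hg.Lexp t h1, Real.log_exp, eta_zero (by linarith)]; ring
  · have h3 : 2 - t ≤ Real.log (g t iL) := by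
      rw [Real.le_log_iff_exp_le (hg.Lpos t)]; exact hg.Lbd t h1
    rw [hg.Rexp t (by linarith), Real.log_exp, eta_one (by linarith)]; ring

/-- the projection fixes the curve -/
theorem prj_rot {g : ℝ → Fin m → ℝ} (hg : IsChart g iL iR) {c s : ℝ} (h : c ^ 2 + s ^ 2 = 1)
    (t : ℝ) (b : Fin m → ℝ) (a' b' : ℝ → Fin m → ℝ) :
    prj iL iR a' b' (rot c s (g t) b) = rot c s (a' t) (b' t) := by
  rw [prj, yX_rot hg h, cX_rot h (hg.Lpos t), sX_rot h (hg.Lpos t)]

theorem nn_rot {c s : ℝ} (h : c ^ 2 + s ^ 2 = 1) (a b : Fin m → ℝ) :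
    nn iL iR (rot c s a b) = (a iL * a iR) ^ 2 := by
  rw [nn, nq_rot h, nq_rot h]; ring

theorem nn_curve {g : ℝ → Fin m → ℝ} (hg : IsChart g iL iR) {c s : ℝ} (h : c ^ 2 + s ^ 2 = 1)
    {t M : ℝ} (ht : |t| ≤ M) (b : Fin m → ℝ) :
    Real.exp (-4 * M) ≤ nn iL iR (rot c s (g t) b) := by
  obtain ⟨ht1, ht2⟩ := abs_le.mp ht
  have hL : Real.exp (-M) ≤ g t iL := by
    rcases le_total t 1 with h1 | h1
    · rw [hg.Lexp t h1]; exact Real.exp_le_exp.mpr ht1
    · exact (Real.exp_le_exp.mpr (by linarith)).trans (hg.Lbd t h1)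
  have hR : Real.exp (-M) ≤ g t iR := by
    rcases le_total (-1) t with h1 | h1
    · rw [hg.Rexp t h1]; exact Real.exp_le_exp.mpr (by linarith)
    · exact (Real.exp_le_exp.mpr (by linarith)).trans (hg.Rbd t h1)
  rw [nn_rot h]
  have h1 : Real.exp (-M) * Real.exp (-M) ≤ g t iL * g t iR :=
    mul_le_mul hL hR (Real.exp_pos _).le (hg.Lpos t).le
  have h2 : Real.exp (-4 * M) = (Real.exp (-M) * Real.exp (-M)) ^ 2 := by
    rw [← Real.exp_add, ← Real.exp_nat_mul]; congr 1; push_cast; ring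
  rw [h2]
  exact pow_le_pow_left₀ (by positivity) h1 2

end Pool.Agent.SLG.Ec
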