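import Pool.Agent.SLN.Ec1

/-! # EXT-C, part 2: the functions `f` and `W`; smoothness and lower bound -/

namespace Pool.Agent.SLG.Ec

open Filter Topology
open scoped ContDiff

variable {m : ℕ}

/-- the cut-off -/
noncomputable def psi (ε n : ℝ) : ℝ := Real.smoothTransition (n / ε - 1)

theorem psi_contDiff {ε : ℝ} {n : ℕ∞} : ContDiff ℝ n (psi ε) := by
  unfold psi
  refine Real.smoothTransition.contDiff.comp ?_
  fun_prop

theorem psi_zero {ε n : ℝ} (hε : 0 < ε) (h : n ≤ ε) : psi ε n = 0 := by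
  rw [psi, Real.smoothTransition.zero_of_nonpos]
  rw [sub_nonpos, div_le_one hε]; exact h

theorem psi_one {ε n : ℝ} (hε : 0 < ε) (h : 2 * ε ≤ n) : psi ε n = 1 := by
  rw [psi, Real.smoothTransition.one_of_one_le]
  have : 2 ≤ n / ε := by rw [le_div_iff₀ hε]; exact h
  linarith

theorem psi_nonneg (ε n : ℝ) : 0 ≤ psi ε n := Real.smoothTransition.nonneg _

/-- the data of the construction -/
structure Dat (m : ℕ) where
  g : ℝ → Fin m → ℝ
  g' : ℝ → Fin m → ℝ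
  a2 : ℝ → Fin m → ℝ
  b2 : ℝ → Fin m → ℝ
  F2 : ℝ → ℝ
  iL : Fin m
  iR : Fin m
  ε : ℝ

namespace Dat

variable (D : Dat m)

/-- `N = X - e X_0(y)` -/
noncomputable def N (X : MM m) : MM m := X - prj D.iL D.iR D.g D.g' X

/-- `F_2(y) + <e Y_2(y), N>` -/
noncomputable def T (X : MM m) : ℝ :=
  D.F2 (yX D.iL D.iR X) + ip (prj D.iL D.iR D.a2 D.b2 X) (D.N X)

/-- the integrand -/
noncomputable def f (X : MM m) : ℝ := 1 / 2 * sq X + psi D.ε (nn D.iL D.iR X) * D.T X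

/-- the penalty -/
noncomputable def W (X : MM m) : ℝ := psi D.ε (nn D.iL D.iR X) * sq (D.N X)

/-- smoothness hypotheses -/
structure Smooth : Prop where
  g : ContDiff ℝ ∞ D.g
  g' : ContDiff ℝ ∞ D.g'
  a2 : ContDiff ℝ ∞ D.a2
  b2 : ContDiff ℝ ∞ D.b2
  F2 : ContDiff ℝ ∞ D.F2
  ε : 0 < D.ε

end Dat

theorem contDiff_sq {n : WithTop ℕ∞} : ContDiff ℝ n (fun X : MM m => sq X) := by
  unfold sq; fun_prop

theorem nq_ne {iL iR : Fin m} {X : MM m} (h : nn iL iR X ≠ 0) : nq iL X ≠ 0 ∧ nq iR X ≠ 0 :=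
  mul_ne_zero_iff.mp h

theorem contDiffAt_prj {iL iR : Fin m} {a b : ℝ → Fin m → ℝ} (ha : ContDiff ℝ ∞ a)
    (hb : ContDiff ℝ ∞ b) {X : MM m} (h : nn iL iR X ≠ 0) :
    ContDiffAt ℝ ∞ (fun X => prj iL iR a b X) X := by
  obtain ⟨hL, hR⟩ := nq_ne h
  rw [contDiffAt_pi]
  intro kl
  rw [contDiffAt_pi]
  intro j
  unfold prj rot
  have hc := contDiffAt_cX (m := m) hL (n := ∞)
  have hs := contDiffAt_sX (m := m) hL (n := ∞)
  have hy := contDiffAt_yX (m := m) hL hR (n := ⊤)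
  have ha' : ContDiffAt ℝ ∞ (fun X : MM m => a (yX iL iR X) kl.1) X :=
    (contDiff_pi.mp ha kl.1).contDiffAt.comp X hy
  have hb' : ContDiffAt ℝ ∞ (fun X : MM m => b (yX iL iR X) kl.1) X :=
    (contDiff_pi.mp hb kl.1).contDiffAt.comp X hy
  by_cases hj : j = 0
  · by_cases hl : kl.2 = 0
    · simp only [hj, hl, if_true]; exact hs.neg.mul ha'
    · simp only [hj, hl, if_true, if_false]; exact hc.mul ha'
  · by_cases hl : kl.2 = 0
    · simp only [hj, hl, if_true, if_false]; exact hc.mul hb'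
    · simp only [hj, hl, if_false]; exact hs.mul hb'

theorem contDiffAt_N (D : Dat m) (hD : D.Smooth) {X : MM m} (h : nn D.iL D.iR X ≠ 0) :
    ContDiffAt ℝ ∞ (fun X => D.N X) X :=
  contDiffAt_id.sub (contDiffAt_prj hD.g hD.g' h)

theorem contDiffAt_ip {Y Z : MM m → MM m} {X : MM m} (hY : ContDiffAt ℝ ∞ Y X)
    (hZ : ContDiffAt ℝ ∞ Z X) : ContDiffAt ℝ ∞ (fun X => ip (Y X) (Z X)) X := by
  unfold ip
  refine ContDiffAt.sum fun kl _ => ContDiffAt.sum fun j _ => ?_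
  have h1 := contDiffAt_pi.mp (contDiffAt_pi.mp hY kl) j
  have h2 := contDiffAt_pi.mp (contDiffAt_pi.mp hZ kl) j
  exact h1.mul h2

theorem contDiffAt_T (D : Dat m) (hD : D.Smooth) {X : MM m} (h : nn D.iL D.iR X ≠ 0) :
    ContDiffAt ℝ ∞ (fun X => D.T X) X := by
  obtain ⟨hL, hR⟩ := nq_ne h
  unfold Dat.T
  refine ContDiffAt.add ?_ (contDiffAt_ip (contDiffAt_prj hD.a2 hD.b2 h)
    (contDiffAt_N D hD h))
  exact hD.F2.contDiffAt.comp X (contDiffAt_yX (m := m) hL hR (n := ⊤))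

/-- smoothness of `psi(nn) * G` -/
theorem contDiff_cut {iL iR : Fin m} {ε : ℝ} (hε : 0 < ε) {G : MM m → ℝ}
    (hG : ∀ X, nn iL iR X ≠ 0 → ContDiffAt ℝ ∞ G X) :
    ContDiff ℝ ∞ (fun X => psi ε (nn iL iR X) * G X) := by
  rw [contDiff_iff_contDiffAt]
  intro X
  by_cases h : nn iL iR X < ε
  · have h1 : (fun X => psi ε (nn iL iR X) * G X) =ᶠ[𝓝 X] fun _ => 0 := by
      have h2 : ∀ᶠ X' in 𝓝 X, nn iL iR X' < ε :=
        (contDiff_nn (n := 1) iL iR).continuous.continuousAt.eventually_lt_const h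
      filter_upwards [h2] with X' hX'
      rw [psi_zero hε hX'.le, zero_mul]
    exact contDiffAt_const.congr_of_eventuallyEq h1
  · have h0 : nn iL iR X ≠ 0 := by
      intro h'; rw [h'] at h; exact h hε
    refine ContDiffAt.mul ?_ (hG X h0)
    exact psi_contDiff.contDiffAt.comp X (contDiff_nn iL iR).contDiffAt

theorem contDiff_f (D : Dat m) (hD : D.Smooth) : ContDiff ℝ ∞ D.f := by
  unfold Dat.f
  refine ContDiff.add (contDiff_const.mul contDiff_sq) ?_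
  exact contDiff_cut hD.ε fun X h => contDiffAt_T D hD h

theorem contDiff_W (D : Dat m) (hD : D.Smooth) : ContDiff ℝ ∞ D.W := by
  unfold Dat.W
  refine contDiff_cut hD.ε fun X h => ?_
  exact contDiff_sq.contDiffAt.comp X (contDiffAt_N D hD h)

theorem W_nonneg (D : Dat m) (X : MM m) : 0 ≤ D.W X := by
  unfold Dat.W
  exact mul_nonneg (psi_nonneg _ _) (sq_nonneg' _)

/-- `f + A W ≥ |X|²/2` for large `A` -/
theorem f_lower (D : Dat m) (hε : 0 < D.ε) (hF : ∀ y, 0 ≤ D.F2 y) {C : ℝ} (hC : 0 < C)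
    (hY : ∀ y, ∑ k, (D.a2 y k ^ 2 + D.b2 y k ^ 2) ≤ C * D.F2 y) {A : ℝ} (hA : C ≤ 4 * A) (X : MM m) :
    1 / 2 * sq X ≤ D.f X + A * D.W X := by
  have hA0 : 0 < A := by linarith
  by_cases h : nn D.iL D.iR X ≤ D.ε
  · rw [Dat.f, Dat.W, psi_zero hε h]; simp
  have h0 : nn D.iL D.iR X ≠ 0 := by
    intro h'; rw [h'] at h; exact h hε.le
  have hcs := cX_sX (nq_ne h0).1
  have hT : 0 ≤ D.T X + A * sq (D.N X) := by
    have h1 := ip_lower (prj D.iL D.iR D.a2 D.b2 X) (D.N X) hA0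
    have h2 : sq (prj D.iL D.iR D.a2 D.b2 X) ≤ C * D.F2 (yX D.iL D.iR X) := by
      rw [prj, sq_rot hcs]; exact hY _
    have h3 : sq (prj D.iL D.iR D.a2 D.b2 X) / (4 * A) ≤ D.F2 (yX D.iL D.iR X) := by
      rw [div_le_iff₀ (by positivity)]
      nlinarith [hF (yX D.iL D.iR X)]
    rw [Dat.T]
    linarith
  have hW : D.f X + A * D.W X = 1 / 2 * sq X + psi D.ε (nn D.iL D.iR X) *
      (D.T X + A * sq (D.N X)) := by
    unfold Dat.f Dat.W; ring
  rw [hW]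
  have := mul_nonneg (psi_nonneg D.ε (nn D.iL D.iR X)) hT
  linarith

/-- near `0`, `f = |X|²/2` and `W = 0` -/
theorem f_near_zero (D : Dat m) (hε : 0 < D.ε) :
    ∀ᶠ X in 𝓝 (0 : MM m), D.f X = 1 / 2 * sq X ∧ D.W X = 0 := by
  have h0 : nn D.iL D.iR (0 : MM m) = 0 := by simp [nn, nq]
  have h2 : ∀ᶠ X' in 𝓝 (0 : MM m), nn D.iL D.iR X' < D.ε :=
    (contDiff_nn (n := 1) D.iL D.iR).continuous.continuousAt.eventually_lt_const
      (by rw [h0]; exact hε)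
  filter_upwards [h2] with X hX
  rw [Dat.f, Dat.W, psi_zero hε hX.le]
  simp

/-- on the open set `2 ε < nn` the penalty is the squared distance to a point of the curve -/
theorem W_eq (D : Dat m) (hε : 0 < D.ε) {X : MM m} (hX : 2 * D.ε < nn D.iL D.iR X) :
    D.W X = sq (X - rot (cX D.iL X) (sX D.iL X) (D.g (yX D.iL D.iR X)) (D.g' (yX D.iL D.iR X))) ∧
      cX D.iL X ^ 2 + sX D.iL X ^ 2 = 1 := by
  have h0 : nn D.iL D.iR X ≠ 0 := by
    intro h'; rw [h'] at hX; linarith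
  refine ⟨?_, cX_sX (nq_ne h0).1⟩
  rw [Dat.W, psi_one hε hX.le, one_mul]
  rfl

end Pool.Agent.SLG.Ec
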