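import Pool.Agent.SLN.Ec2

/-! # EXT-C, part 3: value and derivative of `f` on the curve -/

namespace Pool.Agent.SLG.Ec

open Filter Topology
open scoped ContDiff

variable {m : ℕ}

theorem hasDerivAt_ip {P N : ℝ → MM m} {P' N' : MM m} {r : ℝ} (hP : HasDerivAt P P' r)
    (hN : HasDerivAt N N' r) :
    HasDerivAt (fun r => ip (P r) (N r)) (ip P' (N r) + ip (P r) N') r := by
  have h : HasDerivAt (fun r => ip (P r) (N r))
      (∑ kl, ∑ j, (P' kl j * N r kl j + P r kl j * N' kl j)) r := by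
    unfold ip
    refine HasDerivAt.fun_sum fun kl _ => HasDerivAt.fun_sum fun j _ => ?_
    have h1 := hasDerivAt_pi.mp (hasDerivAt_pi.mp hP kl) j
    have h2 := hasDerivAt_pi.mp (hasDerivAt_pi.mp hN kl) j
    exact h1.mul h2
  convert h using 1
  unfold ip
  simp only [Finset.sum_add_distrib]

theorem hasDerivAt_rot {c s : ℝ → ℝ} {a b : ℝ → Fin m → ℝ} {c' s' r : ℝ} {a' b' : Fin m → ℝ}
    (hc : HasDerivAt c c' r) (hs : HasDerivAt s s' r)
    (ha : ∀ k, HasDerivAt (fun r => a r k) (a' k) r)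
    (hb : ∀ k, HasDerivAt (fun r => b r k) (b' k) r) :
    HasDerivAt (fun r => rot (c r) (s r) (a r) (b r))
      (rot c' s' (a r) (b r) + rot (c r) (s r) a' b') r := by
  rw [hasDerivAt_pi]
  intro kl
  rw [hasDerivAt_pi]
  intro j
  obtain ⟨k, l⟩ := kl
  simp only [Pi.add_apply]
  unfold rot
  by_cases hj : j = 0
  · by_cases hl : l = 0
    · simp only [hj, hl, if_true]; exact hs.neg.mul (ha k)
    · simp only [hj, hl, if_true, if_false]; exact hc.mul (ha k)
  · by_cases hl : l = 0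
    · simp only [hj, hl, if_true, if_false]; exact hc.mul (hb k)
    · simp only [hj, hl, if_false]; exact hs.mul (hb k)

theorem ip_add_right (X Y Z : MM m) : ip X (Y + Z) = ip X Y + ip X Z := by
  unfold ip
  simp only [Pi.add_apply, mul_add, Finset.sum_add_distrib]

theorem ip_add_left (X Y Z : MM m) : ip (X + Y) Z = ip X Z + ip Y Z := by
  unfold ip
  simp only [Pi.add_apply, add_mul, Finset.sum_add_distrib]

theorem ip_sub_right (X Y Z : MM m) : ip X (Y - Z) = ip X Y - ip X Z := by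
  unfold ip
  simp only [Pi.sub_apply, mul_sub, Finset.sum_sub_distrib]

theorem ip_zero_right (X : MM m) : ip X 0 = 0 := by simp [ip]

theorem ip_comm (X Y : MM m) : ip X Y = ip Y X := by
  unfold ip
  refine Finset.sum_congr rfl fun i _ => Finset.sum_congr rfl fun j _ => by ring

/-- the line -/
theorem hasDerivAt_line (X V : MM m) : HasDerivAt (fun r : ℝ => X + r • V) V 0 := by
  have h := ((hasDerivAt_id (0 : ℝ)).smul_const V).const_add X
  simpa using h

/-- compatibility of the data -/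
structure Dat.Comp (D : Dat m) (g'' : ℝ → Fin m → ℝ) : Prop where
  dg : ∀ y k, HasDerivAt (fun y => D.g y k) (D.g' y k) y
  dg' : ∀ y k, HasDerivAt (fun y => D.g' y k) (g'' y k) y
  dF : ∀ y, HasDerivAt D.F2 (∑ k, (D.a2 y k * D.g' y k + D.b2 y k * g'' y k)) y

theorem N_curve (D : Dat m) (hg : IsChart D.g D.iL D.iR) {c s : ℝ} (h : c ^ 2 + s ^ 2 = 1) (t : ℝ) :
    D.N (rot c s (D.g t) (D.g' t)) = 0 := by
  rw [Dat.N, prj_rot hg h, sub_self]

theorem T_curve (D : Dat m) (hg : IsChart D.g D.iL D.iR) {c s : ℝ} (h : c ^ 2 + s ^ 2 = 1) (t : ℝ) :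
    D.T (rot c s (D.g t) (D.g' t)) = D.F2 t := by
  rw [Dat.T, N_curve D hg h, ip_zero_right, yX_rot hg h, add_zero]

theorem W_curve (D : Dat m) (hg : IsChart D.g D.iL D.iR) {c s : ℝ} (h : c ^ 2 + s ^ 2 = 1) (t : ℝ) :
    D.W (rot c s (D.g t) (D.g' t)) = 0 := by
  rw [Dat.W, N_curve D hg h]
  simp [sq]

theorem T_deriv (D : Dat m) (hD : D.Smooth) (hg : IsChart D.g D.iL D.iR) {g'' : ℝ → Fin m → ℝ}
    (hc : D.Comp g'') {c s : ℝ} (h : c ^ 2 + s ^ 2 = 1) (t : ℝ) (V : MM m) :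
    HasDerivAt (fun r : ℝ => D.T (rot c s (D.g t) (D.g' t) + r • V))
      (ip (rot c s (D.a2 t) (D.b2 t)) V) 0 := by
  set X0 : MM m := rot c s (D.g t) (D.g' t) with hX0
  have hnn : nn D.iL D.iR X0 ≠ 0 := by
    rw [hX0, nn_rot h]
    have := hg.Lpos t
    have := hg.Rpos t
    positivity
  obtain ⟨hL, hR⟩ := nq_ne hnn
  set γ : ℝ → MM m := fun r => X0 + r • V with hγ
  have hγ0 : γ 0 = X0 := by simp [hγ]
  have hγd : HasDerivAt γ V 0 := hasDerivAt_line X0 V
  -- chart functions along the line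
  have comp : ∀ {φ : MM m → ℝ}, ContDiffAt ℝ 1 φ X0 →
      HasDerivAt (fun r => φ (γ r)) (fderiv ℝ φ X0 V) 0 := by
    intro φ hφ
    have h1 : HasFDerivAt φ (fderiv ℝ φ X0) (γ 0) := by
      rw [hγ0]; exact (hφ.differentiableAt (by norm_num)).hasFDerivAt
    exact h1.comp_hasDerivAt 0 hγd
  have hc1 := comp (contDiffAt_cX (m := m) hL (n := 1))
  have hs1 := comp (contDiffAt_sX (m := m) hL (n := 1))
  have hy1 := comp (contDiffAt_yX (m := m) hL hR (n := 1))
  set c' := fderiv ℝ (cX D.iL) X0 V with hc'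
  set s' := fderiv ℝ (sX D.iL) X0 V with hs'
  set y' := fderiv ℝ (yX D.iL D.iR) X0 V with hy'
  have hcv : cX D.iL (γ 0) = c := by rw [hγ0, hX0]; exact cX_rot h (hg.Lpos t)
  have hsv : sX D.iL (γ 0) = s := by rw [hγ0, hX0]; exact sX_rot h (hg.Lpos t)
  have hyv : yX D.iL D.iR (γ 0) = t := by rw [hγ0, hX0]; exact yX_rot hg h t _
  -- c c' + s s' = 0
  have hcs : c * c' + s * s' = 0 := by
    have h1 : HasDerivAt (fun r => cX D.iL (γ r) ^ 2 + sX D.iL (γ r) ^ 2)
        (2 * c * c' + 2 * s * s') 0 := by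
      have h0 := (hc1.fun_pow 2).fun_add (hs1.fun_pow 2)
      refine h0.congr_deriv ?_
      rw [hcv, hsv]; push_cast; ring
    have h2 : (fun r => cX D.iL (γ r) ^ 2 + sX D.iL (γ r) ^ 2) =ᶠ[𝓝 0] fun _ => (1 : ℝ) := by
      have h3 : ∀ᶠ r in 𝓝 (0 : ℝ), nq D.iL (γ r) ≠ 0 := by
        have h4 : ContinuousAt (fun r => nq D.iL (γ r)) 0 :=
          ((contDiff_nq (n := 1) D.iL).continuous.continuousAt).comp hγd.continuousAt
        exact h4.eventually_ne (by rw [hγ0]; exact hL)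
      filter_upwards [h3] with r hr
      exact cX_sX hr
    have h3 : HasDerivAt (fun r => cX D.iL (γ r) ^ 2 + sX D.iL (γ r) ^ 2) 0 0 :=
      (hasDerivAt_const (0 : ℝ) (1 : ℝ)).congr_of_eventuallyEq h2
    have := h1.unique h3
    linarith
  -- derivative of N
  have hN : HasDerivAt (fun r => D.N (γ r)) (V - (rot c' s' (D.g t) (D.g' t) +
      rot c s (fun k => D.g' t k * y') (fun k => g'' t k * y'))) 0 := by
    unfold Dat.N
    refine hγd.sub ?_
    unfold prj
    have h1 := hasDerivAt_rot (a := fun r => D.g (yX D.iL D.iR (γ r)))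
      (b := fun r => D.g' (yX D.iL D.iR (γ r))) (a' := fun k => D.g' t k * y')
      (b' := fun k => g'' t k * y') hc1 hs1
      (fun k => by
        have h2 : HasDerivAt (fun y => D.g y k) (D.g' t k) (yX D.iL D.iR (γ 0)) := by
          rw [hyv]; exact hc.dg t k
        exact h2.comp 0 hy1)
      (fun k => by
        have h2 : HasDerivAt (fun y => D.g' y k) (g'' t k) (yX D.iL D.iR (γ 0)) := by
          rw [hyv]; exact hc.dg' t k
        exact h2.comp 0 hy1)
    simp only [hcv, hsv, hyv] at h1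
    exact h1
  -- derivative of P
  have hP : ∃ P', HasDerivAt (fun r => prj D.iL D.iR D.a2 D.b2 (γ r)) P' 0 := by
    have h1 : DifferentiableAt ℝ (fun X => prj D.iL D.iR D.a2 D.b2 X) (γ 0) := by
      rw [hγ0]
      exact (contDiffAt_prj hD.a2 hD.b2 hnn).differentiableAt (by simp)
    exact ⟨_, h1.hasFDerivAt.comp_hasDerivAt 0 hγd⟩
  obtain ⟨P', hP⟩ := hP
  have hip := hasDerivAt_ip hP hN
  have hF : HasDerivAt (fun r => D.F2 (yX D.iL D.iR (γ r)))
      ((∑ k, (D.a2 t k * D.g' t k + D.b2 t k * g'' t k)) * y') 0 := by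
    have h2 : HasDerivAt D.F2 (∑ k, (D.a2 t k * D.g' t k + D.b2 t k * g'' t k))
        (yX D.iL D.iR (γ 0)) := by
      rw [hyv]; exact hc.dF t
    exact h2.comp 0 hy1
  have htot := hF.add hip
  have hN0 : D.N (γ 0) = 0 := by rw [hγ0, hX0]; exact N_curve D hg h t
  have hP0 : prj D.iL D.iR D.a2 D.b2 (γ 0) = rot c s (D.a2 t) (D.b2 t) := by
    rw [hγ0, hX0]; exact prj_rot hg h t _ _ _
  rw [hN0, hP0, ip_zero_right, ip_sub_right, ip_add_right, ip_rot_rot, ip_rot_rot, hcs,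
    show c * c + s * s = 1 by linarith] at htot
  refine htot.congr_deriv ?_
  rw [Finset.sum_mul]
  have h5 : ∑ k, (D.a2 t k * (D.g' t k * y') + D.b2 t k * (g'' t k * y'))
      = ∑ k, (D.a2 t k * D.g' t k + D.b2 t k * g'' t k) * y' :=
    Finset.sum_congr rfl fun k _ => by ring
  rw [h5]; ring

/-- derivative of `f` at points of the curve -/
theorem f_fderiv (D : Dat m) (hD : D.Smooth) (hg : IsChart D.g D.iL D.iR) {g'' : ℝ → Fin m → ℝ}
    (hc : D.Comp g'') {M : ℝ} (hε : 2 * D.ε < Real.exp (-4 * M)) {M' : ℝ} (hM : M' < M)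
    (hz : ∀ y, M' ≤ |y| → D.a2 y = 0 ∧ D.b2 y = 0 ∧ D.F2 y = 0)
    {c s : ℝ} (h : c ^ 2 + s ^ 2 = 1) (t : ℝ) (V : MM m) :
    fderiv ℝ D.f (rot c s (D.g t) (D.g' t)) V = ip (rot c s (D.g t) (D.g' t)) V +
      ip (rot c s (D.a2 t) (D.b2 t)) V := by
  set X0 : MM m := rot c s (D.g t) (D.g' t) with hX0
  have hγd : HasDerivAt (fun r : ℝ => X0 + r • V) V 0 := hasDerivAt_line X0 V
  have h1 : HasDerivAt (fun r : ℝ => D.f (X0 + r • V)) (fderiv ℝ D.f X0 V) 0 := by
    have h2 : HasFDerivAt D.f (fderiv ℝ D.f X0) (X0 + (0 : ℝ) • V) := by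
      rw [zero_smul, add_zero]
      exact ((contDiff_f D hD).differentiable (by simp) X0).hasFDerivAt
    exact h2.comp_hasDerivAt 0 hγd
  have hsq : HasDerivAt (fun r : ℝ => 1 / 2 * sq (X0 + r • V)) (ip X0 V) 0 := by
    have h2 := (hasDerivAt_ip hγd hγd).const_mul (1 / 2 : ℝ)
    simp only [zero_smul, add_zero] at h2
    rw [ip_comm V X0] at h2
    have h3 : (fun r : ℝ => 1 / 2 * sq (X0 + r • V))
        = fun r : ℝ => 1 / 2 * ip (X0 + r • V) (X0 + r • V) := by
      funext r; rw [sq_eq_ip]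
    rw [h3]
    exact h2.congr_deriv (by ring)
  rcases le_or_gt |t| M with ht | ht
  · -- psi = 1 near X0
    have hn : 2 * D.ε < nn D.iL D.iR X0 := lt_of_lt_of_le hε (nn_curve hg h ht _)
    have hev : (fun r : ℝ => D.f (X0 + r • V)) =ᶠ[𝓝 0]
        fun r => 1 / 2 * sq (X0 + r • V) + D.T (X0 + r • V) := by
      have h4 : ContinuousAt (fun r : ℝ => nn D.iL D.iR (X0 + r • V)) 0 :=
        ((contDiff_nn (n := 1) D.iL D.iR).continuous.continuousAt).comp hγd.continuousAt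
      have h5 : ∀ᶠ r in 𝓝 (0 : ℝ), 2 * D.ε < nn D.iL D.iR (X0 + r • V) :=
        h4.eventually_const_lt (by simpa using hn)
      filter_upwards [h5] with r hr
      rw [Dat.f, psi_one hD.ε hr.le, one_mul]
    have h6 := (hsq.add (T_deriv D hD hg hc h t V)).congr_of_eventuallyEq hev
    exact h1.unique h6
  · -- T = 0 near X0
    have hnn : nn D.iL D.iR X0 ≠ 0 := by
      rw [hX0, nn_rot h]
      have := hg.Lpos t
      have := hg.Rpos t
      positivity
    obtain ⟨hL, hR⟩ := nq_ne hnn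
    obtain ⟨ha, hb, _⟩ := hz t (by linarith)
    have hev : (fun r : ℝ => D.f (X0 + r • V)) =ᶠ[𝓝 0] fun r => 1 / 2 * sq (X0 + r • V) := by
      have h4 : ContinuousAt (fun r : ℝ => |yX D.iL D.iR (X0 + r • V)|) 0 := by
        have h5 : ContinuousAt (yX D.iL D.iR) (X0 + (0 : ℝ) • V) := by
          rw [zero_smul, add_zero]
          exact (contDiffAt_yX (m := m) hL hR (n := 1)).continuousAt
        exact (ContinuousAt.comp (f := fun r : ℝ => X0 + r • V) h5 hγd.continuousAt).abs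
      have h5 : ∀ᶠ r in 𝓝 (0 : ℝ), M' < |yX D.iL D.iR (X0 + r • V)| := by
        refine h4.eventually_const_lt ?_
        show M' < |yX D.iL D.iR (X0 + (0 : ℝ) • V)|
        rw [zero_smul, add_zero, hX0, yX_rot hg h]
        linarith
      filter_upwards [h5] with r hr
      obtain ⟨ha, hb, hF⟩ := hz _ hr.le
      have h7 : prj D.iL D.iR D.a2 D.b2 (X0 + r • V) = 0 := by
        unfold prj rot
        rw [ha, hb]
        funext kl j
        simp
      rw [Dat.f, Dat.T, h7, hF]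
      simp [ip]
    have h6 := hsq.congr_of_eventuallyEq hev
    rw [h1.unique h6, ha, hb]
    have h7 : rot c s (0 : Fin m → ℝ) 0 = 0 := by
      unfold rot; funext kl j; simp
    rw [h7]
    simp [ip]

/-- value of `f` at points of the curve -/
theorem f_curve (D : Dat m) (hD : D.Smooth) (hg : IsChart D.g D.iL D.iR) {M : ℝ}
    (hε : 2 * D.ε < Real.exp (-4 * M)) {M' : ℝ} (hM : M' < M)
    (hz : ∀ y, M' ≤ |y| → D.F2 y = 0)
    {c s : ℝ} (h : c ^ 2 + s ^ 2 = 1) (t : ℝ) :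
    D.f (rot c s (D.g t) (D.g' t)) = 1 / 2 * ∑ k, (D.g t k ^ 2 + D.g' t k ^ 2) + D.F2 t := by
  rw [Dat.f, T_curve D hg h, sq_rot h]
  rcases le_or_gt |t| M with ht | ht
  · rw [psi_one hD.ε (le_trans hε.le (nn_curve hg h ht _)), one_mul]
  · rw [hz t (by linarith)]; ring

end Pool.Agent.SLG.Ec
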