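import Pool.Agent.SLN.Ec3

/-! # EXT-C, part 4: the stress `p`, the energy `F_2`, and their bounds -/

namespace Pool.Agent.SLG.Ec

open Filter Topology
open scoped ContDiff

variable {m : ℕ}

/-- the cut-off of the left half -/
noncomputable def thL (L y : ℝ) : ℝ :=
  Real.smoothTransition (2 * (y + L + 1 / 2)) * Real.smoothTransition (1 - y)

/-- the cut-off of the right half -/
noncomputable def thR (L y : ℝ) : ℝ := thL L (-y)

theorem thL_contDiff {L : ℝ} : ContDiff ℝ ∞ (thL L) := by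
  unfold thL
  refine ContDiff.mul (Real.smoothTransition.contDiff.comp ?_)
    (Real.smoothTransition.contDiff.comp ?_) <;> fun_prop

theorem thR_contDiff {L : ℝ} : ContDiff ℝ ∞ (thR L) := by
  unfold thR
  exact thL_contDiff.comp contDiff_neg

theorem thL_one {L y : ℝ} (h1 : -L ≤ y) (h2 : y ≤ 0) : thL L y = 1 := by
  rw [thL, Real.smoothTransition.one_of_one_le (by linarith),
    Real.smoothTransition.one_of_one_le (by linarith), one_mul]

theorem thL_zero_left {L y : ℝ} (h : y ≤ -L - 1 / 2) : thL L y = 0 := by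
  rw [thL, Real.smoothTransition.zero_of_nonpos (by linarith), zero_mul]

theorem thL_zero_right {L y : ℝ} (h : 1 ≤ y) : thL L y = 0 := by
  rw [thL, Real.smoothTransition.zero_of_nonpos (x := 1 - y) (by linarith), mul_zero]

theorem thR_one {L y : ℝ} (h1 : 0 ≤ y) (h2 : y ≤ L) : thR L y = 1 :=
  thL_one (by linarith) (by linarith)

theorem thR_zero_right {L y : ℝ} (h : L + 1 / 2 ≤ y) : thR L y = 0 :=
  thL_zero_left (by linarith)

theorem thR_zero_left {L y : ℝ} (h : y ≤ -1) : thR L y = 0 :=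
  thL_zero_right (by linarith)

/-- the weight -/
noncomputable def S2 (L y : ℝ) : ℝ := thL L y ^ 2 + thR L y ^ 2

theorem S2_nonneg (L y : ℝ) : 0 ≤ S2 L y := by unfold S2; positivity

theorem S2_one_le {L y : ℝ} (h : |y| ≤ L) : 1 ≤ S2 L y := by
  obtain ⟨h1, h2⟩ := abs_le.mp h
  unfold S2
  rcases le_total y 0 with h0 | h0
  · rw [thL_one h1 h0]; nlinarith [sq_nonneg (thR L y)]
  · rw [thR_one h0 h2]; nlinarith [sq_nonneg (thL L y)]

theorem thL_zero {L y : ℝ} (hL : 1 ≤ L) (h : L + 1 / 2 ≤ |y|) : thL L y = 0 := by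
  rcases le_abs.mp h with h | h
  · exact thL_zero_right (by linarith)
  · exact thL_zero_left (by linarith)

theorem thR_zero {L y : ℝ} (hL : 1 ≤ L) (h : L + 1 / 2 ≤ |y|) : thR L y = 0 := by
  rcases le_abs.mp h with h | h
  · exact thR_zero_right (by linarith)
  · exact thR_zero_left (by linarith)

/-- the curve: hypotheses of the concrete block -/
structure Crv (g : ℝ → Fin m → ℝ) (L : ℝ) (vm vp : Fin m → ℝ) (iL iR : Fin m) : Prop where
  L2 : 2 ≤ L
  sm : ContDiff ℝ ∞ g
  left : ∀ t, t ≤ -L → ∀ j, g t j = Real.exp t * vm j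
  right : ∀ t, L ≤ t → ∀ j, g t j = Real.exp (-t) * vp j
  chart : IsChart g iL iR

section

variable {g : ℝ → Fin m → ℝ} {L : ℝ} {vm vp : Fin m → ℝ} {iL iR : Fin m}

theorem contDiff_deriv {f : ℝ → Fin m → ℝ} (h : ContDiff ℝ ∞ f) : ContDiff ℝ ∞ (deriv f) :=
  (contDiff_infty_iff_deriv.mp h).2

theorem hasDerivAt_expneg (y : ℝ) : HasDerivAt (fun y : ℝ => Real.exp (-y)) (-Real.exp (-y)) y := by
  have h : HasDerivAt (fun y : ℝ => Real.exp (-y)) (Real.exp (-y) * -1) y :=
    (hasDerivAt_neg y).exp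
  exact h.congr_deriv (by ring)

theorem hasDerivAt_comp {f : ℝ → Fin m → ℝ} (h : ContDiff ℝ ∞ f) (y : ℝ) (k : Fin m) :
    HasDerivAt (fun y => f y k) (deriv f y k) y := by
  have h1 : HasDerivAt f (deriv f y) y := (h.differentiable (by simp) y).hasDerivAt
  exact hasDerivAt_pi.mp h1 k

/-- `g'` on the right leg -/
theorem Crv.deriv_right (h : Crv g L vm vp iL iR) {y : ℝ} (hy : L < y) (k : Fin m) :
    deriv g y k = -g y k := by
  have h1 := hasDerivAt_comp h.sm y k
  have h2 : HasDerivAt (fun y => g y k) (-Real.exp (-y) * vp k) y := by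
    have h3 : HasDerivAt (fun y : ℝ => Real.exp (-y) * vp k) (-Real.exp (-y) * vp k) y :=
      (hasDerivAt_expneg y).mul_const (vp k)
    refine h3.congr_of_eventuallyEq ?_
    filter_upwards [lt_mem_nhds hy] with z hz
    exact h.right z hz.le k
  rw [h1.unique h2, h.right y hy.le k]; ring

theorem Crv.deriv_left (h : Crv g L vm vp iL iR) {y : ℝ} (hy : y < -L) (k : Fin m) :
    deriv g y k = g y k := by
  have h1 := hasDerivAt_comp h.sm y k
  have h2 : HasDerivAt (fun y => g y k) (Real.exp y * vm k) y := by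
    have h3 : HasDerivAt (fun y : ℝ => Real.exp y * vm k) (Real.exp y * vm k) y :=
      (Real.hasDerivAt_exp y).mul_const (vm k)
    refine h3.congr_of_eventuallyEq ?_
    filter_upwards [gt_mem_nhds hy] with z hz
    exact h.left z (le_of_lt hz) k
  rw [h1.unique h2, h.left y hy.le k]

/-- `g'' = g` on the legs -/
theorem Crv.deriv2 (h : Crv g L vm vp iL iR) {y : ℝ} (hy : L < |y|) (k : Fin m) :
    deriv (deriv g) y k = g y k := by
  have h1 := hasDerivAt_comp (contDiff_deriv h.sm) y k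
  rcases lt_abs.mp hy with hy | hy
  · have h2 : HasDerivAt (fun y => deriv g y k) (-deriv g y k) y := by
      refine (hasDerivAt_comp h.sm y k).neg.congr_of_eventuallyEq ?_
      filter_upwards [lt_mem_nhds hy] with z hz
      exact h.deriv_right hz k
    rw [h1.unique h2, h.deriv_right hy k, neg_neg]
  · have hy' : y < -L := by linarith
    have h2 : HasDerivAt (fun y => deriv g y k) (deriv g y k) y := by
      refine (hasDerivAt_comp h.sm y k).congr_of_eventuallyEq ?_
      filter_upwards [gt_mem_nhds hy'] with z hz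
      exact h.deriv_left hz k
    rw [h1.unique h2, h.deriv_left hy' k]

theorem Crv.sq_deriv (h : Crv g L vm vp iL iR) {y : ℝ} (hy : L < |y|) (k : Fin m) :
    deriv g y k ^ 2 = g y k ^ 2 := by
  rcases lt_abs.mp hy with hy | hy
  · rw [h.deriv_right hy k]; ring
  · rw [h.deriv_left (by linarith) k]

theorem Crv.deriv_iL (h : Crv g L vm vp iL iR) {y : ℝ} (hy : y < 1) :
    deriv g y iL = Real.exp y := by
  have h1 := hasDerivAt_comp h.sm y iL
  have h2 : HasDerivAt (fun y => g y iL) (Real.exp y) y := by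
    refine (Real.hasDerivAt_exp y).congr_of_eventuallyEq ?_
    filter_upwards [gt_mem_nhds hy] with z hz
    exact h.chart.Lexp z (le_of_lt hz)
  exact h1.unique h2

theorem Crv.deriv_iR (h : Crv g L vm vp iL iR) {y : ℝ} (hy : -1 < y) :
    deriv g y iR = -Real.exp (-y) := by
  have h1 := hasDerivAt_comp h.sm y iR
  have h2 : HasDerivAt (fun y => g y iR) (-Real.exp (-y)) y := by
    refine (hasDerivAt_expneg y).congr_of_eventuallyEq ?_
    filter_upwards [lt_mem_nhds hy] with z hz
    exact h.chart.Rexp z (le_of_lt hz)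
  exact h1.unique h2

/-! ### the stress -/

/-- `p - g'` -/
noncomputable def bb (κ L : ℝ) (iL iR : Fin m) (y : ℝ) (k : Fin m) : ℝ :=
  (if k = iL then κ * thL L y ^ 2 * Real.exp (-y) else 0) -
    (if k = iR then κ * thR L y ^ 2 * Real.exp y else 0)

/-- the derivative of `bb` -/
noncomputable def bb' (κ L : ℝ) (iL iR : Fin m) (y : ℝ) (k : Fin m) : ℝ :=
  (if k = iL then thL L y * (κ * (2 * deriv (thL L) y - thL L y) * Real.exp (-y)) else 0) -
    (if k = iR then thR L y * (κ * (2 * deriv (thR L) y + thR L y) * Real.exp y) else 0)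

theorem hasDerivAt_bb (κ L : ℝ) (iL iR : Fin m) (y : ℝ) (k : Fin m) :
    HasDerivAt (fun y => bb κ L iL iR y k) (bb' κ L iL iR y k) y := by
  unfold bb bb'
  have hL : HasDerivAt (thL L) (deriv (thL L) y) y :=
    (thL_contDiff.differentiable (by simp) y).hasDerivAt
  have hR : HasDerivAt (thR L) (deriv (thR L) y) y :=
    (thR_contDiff.differentiable (by simp) y).hasDerivAt
  have he := hasDerivAt_expneg y
  refine HasDerivAt.fun_sub ?_ ?_
  · by_cases hk : k = iL
    · simp only [hk, if_true]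
      refine (((hL.fun_pow 2).const_mul κ).fun_mul he).congr_deriv ?_
      push_cast; ring
    · simp only [hk, if_false]; exact hasDerivAt_const y 0
  · by_cases hk : k = iR
    · simp only [hk, if_true]
      refine (((hR.fun_pow 2).const_mul κ).fun_mul (Real.hasDerivAt_exp y)).congr_deriv ?_
      push_cast; ring
    · simp only [hk, if_false]; exact hasDerivAt_const y 0

theorem contDiff_bb (κ L : ℝ) (iL iR : Fin m) : ContDiff ℝ ∞ (bb κ L iL iR) := by
  rw [contDiff_pi]
  intro k
  unfold bb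
  have hL := thL_contDiff (L := L)
  have hR := thR_contDiff (L := L)
  refine ContDiff.sub ?_ ?_
  · by_cases hk : k = iL
    · simp only [hk, if_true]
      exact (contDiff_const.mul (hL.pow 2)).mul (Real.contDiff_exp.comp contDiff_neg)
    · simp only [hk, if_false]; exact contDiff_const
  · by_cases hk : k = iR
    · simp only [hk, if_true]
      exact (contDiff_const.mul (hR.pow 2)).mul Real.contDiff_exp
    · simp only [hk, if_false]; exact contDiff_const

/-- the stress -/
noncomputable def pp (g : ℝ → Fin m → ℝ) (κ L : ℝ) (iL iR : Fin m) (y : ℝ) : Fin m → ℝ :=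
  fun k => deriv g y k + bb κ L iL iR y k

theorem contDiff_pp (h : Crv g L vm vp iL iR) (κ : ℝ) : ContDiff ℝ ∞ (pp g κ L iL iR) := by
  rw [contDiff_pi]
  intro k
  exact (contDiff_pi.mp (contDiff_deriv h.sm) k).add (contDiff_pi.mp (contDiff_bb κ L iL iR) k)

theorem deriv_pp (h : Crv g L vm vp iL iR) (κ y : ℝ) (k : Fin m) :
    deriv (pp g κ L iL iR) y k = deriv (deriv g) y k + bb' κ L iL iR y k := by
  have h1 := hasDerivAt_comp (contDiff_pp h κ) y k
  have h2 := (hasDerivAt_comp (contDiff_deriv h.sm) y k).add (hasDerivAt_bb κ L iL iR y k)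
  exact h1.unique h2

/-- the data -/
noncomputable def dat (g : ℝ → Fin m → ℝ) (κ L : ℝ) (iL iR : Fin m) : Dat m where
  g := g
  g' := deriv g
  a2 := fun y k => deriv (pp g κ L iL iR) y k - g y k
  b2 := bb κ L iL iR
  F2 := fun y => (∑ k, pp g κ L iL iR y k * deriv g y k) -
    1 / 2 * ∑ k, (g y k ^ 2 + deriv g y k ^ 2)
  iL := iL
  iR := iR
  ε := Real.exp (-4 * (L + 1)) / 4

theorem dat_smooth (h : Crv g L vm vp iL iR) (κ : ℝ) : (dat g κ L iL iR).Smooth where
  g := h.sm
  g' := contDiff_deriv h.sm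
  a2 := by
    have h1 := contDiff_deriv (contDiff_pp h κ)
    rw [contDiff_pi] at h1 ⊢
    intro k
    exact (h1 k).sub (contDiff_pi.mp h.sm k)
  b2 := contDiff_bb κ L iL iR
  F2 := by
    have hp := contDiff_pi.mp (contDiff_pp h κ)
    have hg := contDiff_pi.mp h.sm
    have hg' := contDiff_pi.mp (contDiff_deriv h.sm)
    refine ContDiff.sub (ContDiff.sum fun k _ => (hp k).mul (hg' k))
      (contDiff_const.mul (ContDiff.sum fun k _ => ((hg k).pow 2).add ((hg' k).pow 2)))
  ε := by show 0 < Real.exp (-4 * (L + 1)) / 4; positivity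

theorem dat_comp (h : Crv g L vm vp iL iR) (κ : ℝ) :
    (dat g κ L iL iR).Comp (deriv (deriv g)) where
  dg := fun y k => hasDerivAt_comp h.sm y k
  dg' := fun y k => hasDerivAt_comp (contDiff_deriv h.sm) y k
  dF := fun y => by
    have h1 : ∀ k, HasDerivAt (fun y => pp g κ L iL iR y k * deriv g y k)
        (deriv (pp g κ L iL iR) y k * deriv g y k + pp g κ L iL iR y k * deriv (deriv g) y k) y :=
      fun k => (hasDerivAt_comp (contDiff_pp h κ) y k).mul
        (hasDerivAt_comp (contDiff_deriv h.sm) y k)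
    have h2 : ∀ k, HasDerivAt (fun y => g y k ^ 2 + deriv g y k ^ 2)
        (2 * (g y k * deriv g y k + deriv g y k * deriv (deriv g) y k)) y := fun k => by
      have := ((hasDerivAt_comp h.sm y k).fun_pow 2).fun_add
        ((hasDerivAt_comp (contDiff_deriv h.sm) y k).fun_pow 2)
      refine this.congr_deriv ?_
      push_cast; ring
    have h3 := (HasDerivAt.fun_sum fun k (_ : k ∈ Finset.univ) => h1 k).fun_sub
      ((HasDerivAt.fun_sum fun k (_ : k ∈ Finset.univ) => h2 k).const_mul (1 / 2 : ℝ))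
    refine h3.congr_deriv ?_
    rw [Finset.mul_sum, ← Finset.sum_sub_distrib]
    refine Finset.sum_congr rfl fun k _ => ?_
    have h4 : bb κ L iL iR y k = pp g κ L iL iR y k - deriv g y k := by
      unfold pp; ring
    show _ = (deriv (pp g κ L iL iR) y k - g y k) * deriv g y k +
      bb κ L iL iR y k * deriv (deriv g) y k
    rw [h4]; ring

/-- formula for `F_2` -/
theorem dat_F2 (h : Crv g L vm vp iL iR) (κ y : ℝ) :
    (dat g κ L iL iR).F2 y = κ * S2 L y + 1 / 2 * ∑ k, (deriv g y k ^ 2 - g y k ^ 2) := by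
  show (∑ k, pp g κ L iL iR y k * deriv g y k) - 1 / 2 * ∑ k, (g y k ^ 2 + deriv g y k ^ 2) = _
  have h1 : ∑ k, bb κ L iL iR y k * deriv g y k = κ * S2 L y := by
    unfold bb
    simp only [sub_mul, ite_mul, zero_mul, Finset.sum_sub_distrib, Finset.sum_ite_eq',
      Finset.mem_univ, if_true]
    have hL : κ * thL L y ^ 2 * Real.exp (-y) * deriv g y iL = κ * thL L y ^ 2 := by
      rcases lt_or_ge y 1 with hy | hy
      · rw [h.deriv_iL hy, mul_assoc, ← Real.exp_add]; simp
      · rw [thL_zero_right hy]; ring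
    have hR : κ * thR L y ^ 2 * Real.exp y * deriv g y iR = -(κ * thR L y ^ 2) := by
      rcases lt_or_ge (-1) y with hy | hy
      · rw [h.deriv_iR hy, mul_neg, mul_assoc, ← Real.exp_add]; simp
      · rw [thR_zero_left hy]; ring
    rw [hL, hR]; unfold S2; ring
  have h2 : ∑ k, pp g κ L iL iR y k * deriv g y k
      = ∑ k, deriv g y k ^ 2 + ∑ k, bb κ L iL iR y k * deriv g y k := by
    rw [← Finset.sum_add_distrib]
    refine Finset.sum_congr rfl fun k _ => ?_
    unfold pp; ring
  rw [h2, h1, Finset.sum_add_distrib, Finset.sum_sub_distrib]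
  ring

theorem dat_zero (h : Crv g L vm vp iL iR) (κ : ℝ) (y : ℝ) (hy : L + 1 / 2 ≤ |y|) :
    (dat g κ L iL iR).a2 y = 0 ∧ (dat g κ L iL iR).b2 y = 0 ∧ (dat g κ L iL iR).F2 y = 0 := by
  have hL := h.L2
  have h1 : thL L y = 0 := thL_zero (by linarith) hy
  have h2 : thR L y = 0 := thR_zero (by linarith) hy
  have hy' : L < |y| := by linarith
  refine ⟨?_, ?_, ?_⟩
  · funext k
    show deriv (pp g κ L iL iR) y k - g y k = 0
    rw [deriv_pp h, h.deriv2 hy' k, bb', h1, h2]
    simp
  · funext k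
    show bb κ L iL iR y k = 0
    rw [bb, h1, h2]
    simp
  · rw [dat_F2 h, S2, h1, h2]
    have : ∑ k, (deriv g y k ^ 2 - g y k ^ 2) = 0 :=
      Finset.sum_eq_zero fun k _ => by rw [h.sq_deriv hy' k, sub_self]
    rw [this]; ring

/-- continuous functions are bounded on the relevant interval -/
theorem exists_bd {c : ℝ → ℝ} (hc : Continuous c) (L : ℝ) :
    ∃ M, 0 ≤ M ∧ ∀ y, |y| ≤ L + 1 → |c y| ≤ M := by
  obtain ⟨M, hM⟩ := (isCompact_Icc (a := -(L + 1)) (b := L + 1)).exists_bound_of_continuousOn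
    hc.continuousOn
  refine ⟨max M 0, le_max_right _ _, fun y hy => ?_⟩
  exact (hM y (abs_le.mp hy)).trans (le_max_left _ _)

/-- the choice of `κ` and the bounds -/
theorem exists_kappa (h : Crv g L vm vp iL iR) : ∃ κ C : ℝ, 0 < C ∧
    (∀ y, 0 ≤ (dat g κ L iL iR).F2 y) ∧
    ∀ y, ∑ k, ((dat g κ L iL iR).a2 y k ^ 2 + (dat g κ L iL iR).b2 y k ^ 2)
      ≤ C * (dat g κ L iL iR).F2 y := by
  have hL2 := h.L2
  have hg := contDiff_pi.mp h.sm
  have hg' := contDiff_pi.mp (contDiff_deriv h.sm)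
  have hg'' := contDiff_pi.mp (contDiff_deriv (contDiff_deriv h.sm))
  have cg : ∀ k, Continuous fun y => g y k := fun k => (hg k).continuous
  have cg' : ∀ k, Continuous fun y => deriv g y k := fun k => (hg' k).continuous
  have cg'' : ∀ k, Continuous fun y => deriv (deriv g) y k := fun k => (hg'' k).continuous
  have cL : Continuous (thL L) := thL_contDiff.continuous
  have cR : Continuous (thR L) := thR_contDiff.continuous
  have cL' : Continuous (deriv (thL L)) := (contDiff_infty_iff_deriv.mp thL_contDiff).2.continuous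
  have cR' : Continuous (deriv (thR L)) := (contDiff_infty_iff_deriv.mp thR_contDiff).2.continuous
  obtain ⟨M0, hM0, hb0⟩ := exists_bd (c := fun y => ∑ k, (deriv g y k ^ 2 - g y k ^ 2))
    (continuous_finsetSum _ fun k _ => ((cg' k).pow 2).sub ((cg k).pow 2)) L
  obtain ⟨M1, hM1, hb1⟩ := exists_bd (c := fun y => ∑ k, (deriv (deriv g) y k - g y k) ^ 2)
    (continuous_finsetSum _ fun k _ => ((cg'' k).sub (cg k)).pow 2) L
  set κ : ℝ := M0 + 1 with hκ
  obtain ⟨M2, hM2, hb2⟩ := exists_bd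
    (c := fun y => (κ * (2 * deriv (thL L) y - thL L y) * Real.exp (-y)) ^ 2) (by fun_prop) L
  obtain ⟨M3, hM3, hb3⟩ := exists_bd
    (c := fun y => (κ * (2 * deriv (thR L) y + thR L y) * Real.exp y) ^ 2) (by fun_prop) L
  obtain ⟨M4, hM4, hb4⟩ := exists_bd
    (c := fun y => (κ * thL L y * Real.exp (-y)) ^ 2) (by fun_prop) L
  obtain ⟨M5, hM5, hb5⟩ := exists_bd
    (c := fun y => (κ * thR L y * Real.exp y) ^ 2) (by fun_prop) L
  have hFlow : ∀ y, κ / 2 * S2 L y ≤ (dat g κ L iL iR).F2 y := by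
    intro y
    rw [dat_F2 h]
    rcases le_or_gt |y| L with hy | hy
    · have h1 := S2_one_le hy
      have h2 := (abs_le.mp (hb0 y (by linarith))).1
      nlinarith
    · have : ∑ k, (deriv g y k ^ 2 - g y k ^ 2) = 0 :=
        Finset.sum_eq_zero fun k _ => by rw [h.sq_deriv hy k, sub_self]
      rw [this]
      have := S2_nonneg L y
      nlinarith
  have hF0 : ∀ y, 0 ≤ (dat g κ L iL iR).F2 y := fun y =>
    le_trans (mul_nonneg (by positivity) (S2_nonneg L y)) (hFlow y)
  -- bound of the stress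
  have hbound : ∀ y, ∑ k, ((dat g κ L iL iR).a2 y k ^ 2 + (dat g κ L iL iR).b2 y k ^ 2)
      ≤ (3 * M1 + 3 * M2 + 3 * M3 + 2 * M4 + 2 * M5) * S2 L y := by
    intro y
    rcases le_or_gt (L + 1 / 2) |y| with hy | hy
    · obtain ⟨h1, h2, _⟩ := dat_zero h κ y hy
      rw [h1, h2]
      simp only [Pi.zero_apply]
      have := S2_nonneg L y
      have h3 : ∑ k : Fin m, ((0 : ℝ) ^ 2 + (0 : ℝ) ^ 2) = 0 := by simp
      rw [h3]
      positivity
    have hy1 : |y| ≤ L + 1 := by linarith
    have e2 := (abs_le.mp (hb2 y hy1)).2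
    have e3 := (abs_le.mp (hb3 y hy1)).2
    have e4 := (abs_le.mp (hb4 y hy1)).2
    have e5 := (abs_le.mp (hb5 y hy1)).2
    have hEy : ∑ k, (deriv (deriv g) y k - g y k) ^ 2 ≤ M1 * S2 L y := by
      rcases le_or_gt |y| L with hyL | hyL
      · have h1 := S2_one_le hyL
        have h2 := (abs_le.mp (hb1 y hy1)).2
        exact h2.trans (le_mul_of_one_le_right hM1 h1)
      · have : ∑ k, (deriv (deriv g) y k - g y k) ^ 2 = 0 :=
          Finset.sum_eq_zero fun k _ => by rw [h.deriv2 hyL k]; ring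
        rw [this]
        exact mul_nonneg hM1 (S2_nonneg L y)
    -- pointwise bounds
    set uL := κ * (2 * deriv (thL L) y - thL L y) * Real.exp (-y) with huL
    set uR := κ * (2 * deriv (thR L) y + thR L y) * Real.exp y with huR
    have ha : ∀ k, (dat g κ L iL iR).a2 y k ^ 2 ≤ 3 * (deriv (deriv g) y k - g y k) ^ 2 +
        (if k = iL then 3 * (thL L y * uL) ^ 2 else 0) +
        (if k = iR then 3 * (thR L y * uR) ^ 2 else 0) := by
      intro k
      show (deriv (pp g κ L iL iR) y k - g y k) ^ 2 ≤ _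
      rw [deriv_pp h, bb']
      set w := deriv (deriv g) y k - g y k with hw
      have key : ∀ A B : ℝ, (w + (A - B)) ^ 2 ≤ 3 * w ^ 2 + 3 * A ^ 2 + 3 * B ^ 2 := fun A B => by
        nlinarith [sq_nonneg (w - A), sq_nonneg (w + B), sq_nonneg (A + B)]
      have e : deriv (deriv g) y k + ((if k = iL then thL L y * uL else 0) -
          (if k = iR then thR L y * uR else 0)) - g y k
          = w + ((if k = iL then thL L y * uL else 0) - (if k = iR then thR L y * uR else 0)) := by
        rw [hw]; ring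
      rw [e]
      refine (key _ _).trans (le_of_eq ?_)
      split_ifs <;> ring
    have hb : ∀ k, (dat g κ L iL iR).b2 y k ^ 2 ≤
        (if k = iL then 2 * (thL L y * (κ * thL L y * Real.exp (-y))) ^ 2 else 0) +
        (if k = iR then 2 * (thR L y * (κ * thR L y * Real.exp y)) ^ 2 else 0) := by
      intro k
      show bb κ L iL iR y k ^ 2 ≤ _
      unfold bb
      have key : ∀ A B : ℝ, (A - B) ^ 2 ≤ 2 * A ^ 2 + 2 * B ^ 2 := fun A B => by
        nlinarith [sq_nonneg (A + B)]
      refine (key _ _).trans (le_of_eq ?_)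
      split_ifs <;> ring
    have hsum : ∑ k, ((dat g κ L iL iR).a2 y k ^ 2 + (dat g κ L iL iR).b2 y k ^ 2) ≤
        3 * ∑ k, (deriv (deriv g) y k - g y k) ^ 2 + 3 * (thL L y * uL) ^ 2 +
        3 * (thR L y * uR) ^ 2 + 2 * (thL L y * (κ * thL L y * Real.exp (-y))) ^ 2 +
        2 * (thR L y * (κ * thR L y * Real.exp y)) ^ 2 := by
      refine (Finset.sum_le_sum fun k _ => add_le_add (ha k) (hb k)).trans (le_of_eq ?_)
      simp only [Finset.sum_add_distrib, Finset.sum_ite_eq', Finset.mem_univ, if_true,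
        Finset.mul_sum]
      ring
    refine hsum.trans ?_
    have hS : S2 L y = thL L y ^ 2 + thR L y ^ 2 := rfl
    have t1 := sq_nonneg (thL L y)
    have t2 := sq_nonneg (thR L y)
    have aux1 : ∀ {u M : ℝ}, 0 ≤ M → u ^ 2 ≤ M → (thL L y * u) ^ 2 ≤ M * S2 L y := by
      intro u M hM hu
      calc (thL L y * u) ^ 2 = thL L y ^ 2 * u ^ 2 := mul_pow _ _ _
        _ ≤ thL L y ^ 2 * M := mul_le_mul_of_nonneg_left hu t1
        _ ≤ thL L y ^ 2 * M + thR L y ^ 2 * M := le_add_of_nonneg_right (mul_nonneg t2 hM)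
        _ = M * S2 L y := by rw [hS]; ring
    have aux2 : ∀ {u M : ℝ}, 0 ≤ M → u ^ 2 ≤ M → (thR L y * u) ^ 2 ≤ M * S2 L y := by
      intro u M hM hu
      calc (thR L y * u) ^ 2 = thR L y ^ 2 * u ^ 2 := mul_pow _ _ _
        _ ≤ thR L y ^ 2 * M := mul_le_mul_of_nonneg_left hu t2
        _ ≤ thL L y ^ 2 * M + thR L y ^ 2 * M := le_add_of_nonneg_left (mul_nonneg t1 hM)
        _ = M * S2 L y := by rw [hS]; ring
    have f2 := aux1 hM2 e2
    have f3 := aux2 hM3 e3
    have f4 := aux1 hM4 e4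
    have f5 := aux2 hM5 e5
    linarith
  set C0 := 3 * M1 + 3 * M2 + 3 * M3 + 2 * M4 + 2 * M5 with hC0
  have hC0n : 0 ≤ C0 := by positivity
  have hκ0 : 0 < κ := by positivity
  refine ⟨κ, 2 * C0 / κ + 1, by positivity, hF0, fun y => (hbound y).trans ?_⟩
  have h1 := hFlow y
  have h2 : C0 * S2 L y = 2 * C0 / κ * (κ / 2 * S2 L y) := by field_simp
  rw [h2]
  have h3 : 2 * C0 / κ * (κ / 2 * S2 L y) ≤ 2 * C0 / κ * (dat g κ L iL iR).F2 y :=
    mul_le_mul_of_nonneg_left h1 (by positivity)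
  nlinarith [hF0 y]

end

end Pool.Agent.SLG.Ec
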