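import Mathlib
import Pool.Agent.SLG.Defs

/-! The strip soliton with its integrand (`MP_73203d_an`): interface between the extension block
and the clock block. Rows are indexed by `Fin m × Fin 2`: `(k, 0)` is the real part and `(k, 1)`
the imaginary part of the `k`-th complex row. -/

namespace Pool.Agent.SLG.Sn

open MeasureTheory Topology

/-- Matrices with rows indexed by `I` and two columns. -/
abbrev MI (I : Type) := I → Fin 2 → ℝ

/-- The matrix of partial derivatives of `f` at `X`. -/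
noncomputable def GrdI {I : Type} [Fintype I] [DecidableEq I] (f : MI I → ℝ) (X : MI I) : MI I :=
  fun i j => fderiv ℝ f X (Pi.single i (Pi.single j 1))

/-- Strong polyconvexity, rows indexed by `I`: for some `γ > 0`, `f X - γ |X|²` is a convex
function of `X` and its `2 × 2` minors. -/
def SPC {I : Type} [Fintype I] (f : MI I → ℝ) : Prop :=
  ∃ γ : ℝ, 0 < γ ∧ ∃ g : MI I × (I → I → ℝ) → ℝ,
    ConvexOn ℝ Set.univ g ∧ ∀ X : MI I, f X - γ * sq X = g (X, minor X)

/-- `cos, sin`. -/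
noncomputable def cs (l : Fin 2) (x : ℝ) : ℝ := if l = 0 then Real.cos x else Real.sin x

/-- The derivatives of `cs`. -/
noncomputable def sn (l : Fin 2) (x : ℝ) : ℝ := if l = 0 then -Real.sin x else Real.cos x

/-- The state `(i e^{ix} a, e^{ix} b)`. -/
noncomputable def St {m : ℕ} (a b : Fin m → ℝ) (x : ℝ) : MI (Fin m × Fin 2) :=
  fun kl j => if j = 0 then sn kl.2 x * a kl.1 else cs kl.2 x * b kl.1

/-- Strip soliton `e^{ix} g(y)` with its integrand `f`: the stress is `(i p' e^{ix}, p e^{ix})`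
and the energy is `p · g'`. -/
structure Sol {m : ℕ} (f : MI (Fin m × Fin 2) → ℝ) (g p : ℝ → Fin m → ℝ) (vl vr : Fin m → ℝ)
    (Y0 : ℝ) : Prop where
  smf : ContDiff ℝ ((⊤ : ℕ∞) : WithTop ℕ∞) f
  spc : SPC f
  smg : ContDiff ℝ ((⊤ : ℕ∞) : WithTop ℕ∞) g
  smp : ContDiff ℝ ((⊤ : ℕ∞) : WithTop ℕ∞) p
  left : ∀ y, y ≤ -Y0 → g y = Real.exp y • vl
  right : ∀ y, Y0 ≤ y → g y = Real.exp (-y) • vr
  pout : ∀ y, Y0 ≤ |y| → p y = deriv g y
  near : ∀ᶠ X in 𝓝 (0 : MI (Fin m × Fin 2)), f X = 1 / 2 * sq X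
  val : ∀ x y, f (St (g y) (deriv g y) x) = ∑ k, p y k * deriv g y k
  grd : ∀ x y, GrdI f (St (g y) (deriv g y) x) = St (deriv p y) (p y) x
  nz : ∃ y, g y ≠ 0

end Pool.Agent.SLG.Sn
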