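import Pool.Agent.SLN.Ec4
import Pool.Agent.SLN.SolDefs
import Pool.Agent.SLX.A7
import Pool.Agent.SLX.B1

/-! # EXT-C, part 5: the bilinear maps, and the compact set -/

namespace Pool.Agent.SLG.Ec

open Filter Topology Set
open Pool.Agent.SLX Pool.Agent.SLG.Sn
open scoped ContDiff

variable {m : ℕ}

/-- index type of the rows -/
abbrev RI (m : ℕ) := Fin m × Fin 2

/-- the space of the minors -/
abbrev VV (m : ℕ) := RI m → RI m → ℝ

/-- the polarised minors -/
def Bl (m : ℕ) : MM m →ₗ[ℝ] MM m →ₗ[ℝ] VV m :=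
  LinearMap.mk₂ ℝ (fun X Y p q => X p 0 * Y q 1 - X p 1 * Y q 0)
    (fun X X' Y => by funext p q; simp only [Pi.add_apply]; ring)
    (fun c X Y => by funext p q; simp only [Pi.smul_apply, smul_eq_mul]; ring)
    (fun X Y Y' => by funext p q; simp only [Pi.add_apply]; ring)
    (fun c X Y => by funext p q; simp only [Pi.smul_apply, smul_eq_mul]; ring)

/-- the Euclidean form -/
def bl (m : ℕ) : MM m →ₗ[ℝ] MM m →ₗ[ℝ] ℝ :=
  LinearMap.mk₂ ℝ ip
    (fun X X' Y => ip_add_left X X' Y)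
    (fun c X Y => by
      simp only [ip, Pi.smul_apply, smul_eq_mul, Finset.mul_sum]
      refine Finset.sum_congr rfl fun i _ => Finset.sum_congr rfl fun j _ => by ring)
    (fun X Y Y' => ip_add_right X Y Y')
    (fun c X Y => by
      simp only [ip, Pi.smul_apply, smul_eq_mul, Finset.mul_sum]
      refine Finset.sum_congr rfl fun i _ => Finset.sum_congr rfl fun j _ => by ring)

/-- the polarised minors -/
noncomputable def BB (m : ℕ) : MM m →L[ℝ] MM m →L[ℝ] VV m := toCB (Bl m)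

/-- the Euclidean form -/
noncomputable def bE (m : ℕ) : MM m →L[ℝ] MM m →L[ℝ] ℝ := toCB (bl m)

theorem BB_self (X : MM m) : BB m X X = minor X := by
  rw [BB, toCB_apply]
  funext p q
  rfl

theorem bE_apply (X Y : MM m) : bE m X Y = ip X Y := by
  rw [bE, toCB_apply]; rfl

theorem bE_self (X : MM m) : bE m X X = sq X := by rw [bE_apply, sq_eq_ip]

theorem norm_sq_le_sq (X : MM m) : ‖X‖ ^ 2 ≤ sq X := by
  have h0 : 0 ≤ sq X := sq_nonneg' X
  have h1 : ‖X‖ ≤ √(sq X) := by
    rw [pi_norm_le_iff_of_nonneg (Real.sqrt_nonneg _)]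
    intro i
    rw [pi_norm_le_iff_of_nonneg (Real.sqrt_nonneg _)]
    intro j
    rw [Real.norm_eq_abs]
    refine Real.abs_le_sqrt ?_
    unfold sq
    calc X i j ^ 2 ≤ ∑ j, X i j ^ 2 :=
          Finset.single_le_sum (f := fun j => X i j ^ 2) (fun _ _ => sq_nonneg _)
            (Finset.mem_univ j)
      _ ≤ ∑ i, ∑ j, X i j ^ 2 :=
          Finset.single_le_sum (f := fun i => ∑ j, X i j ^ 2)
            (fun _ _ => Finset.sum_nonneg fun _ _ => sq_nonneg _) (Finset.mem_univ i)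
  calc ‖X‖ ^ 2 ≤ √(sq X) ^ 2 := pow_le_pow_left₀ (norm_nonneg _) h1 2
    _ = sq X := Real.sq_sqrt h0

/-- states of the interface -/
theorem St_eq_rot (a b : Fin m → ℝ) (x : ℝ) : St a b x = rot (Real.cos x) (Real.sin x) a b := by
  funext kl j
  unfold St rot cs sn
  rfl

theorem exists_angle {c s : ℝ} (h : c ^ 2 + s ^ 2 = 1) :
    ∃ x ∈ Icc (-Real.pi) Real.pi, Real.cos x = c ∧ Real.sin x = s := by
  have hn : ‖(⟨c, s⟩ : ℂ)‖ = 1 := by
    have : ‖(⟨c, s⟩ : ℂ)‖ ^ 2 = 1 := by
      rw [← Complex.normSq_eq_norm_sq, Complex.normSq_apply]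
      show c * c + s * s = 1
      linarith
    nlinarith [norm_nonneg (⟨c, s⟩ : ℂ)]
  have h0 : (⟨c, s⟩ : ℂ) ≠ 0 := by
    intro h0; rw [h0] at hn; simp at hn
  refine ⟨Complex.arg ⟨c, s⟩, ⟨(Complex.neg_pi_lt_arg _).le, Complex.arg_le_pi _⟩, ?_, ?_⟩
  · rw [Complex.cos_arg h0, hn]; simp
  · rw [Complex.sin_arg, hn]; simp

/-- the parametrisation of the curve -/
noncomputable def cur (g : ℝ → Fin m → ℝ) (q : ℝ × ℝ) : MM m := St (g q.2) (deriv g q.2) q.1

theorem cur_continuous {g : ℝ → Fin m → ℝ} (h : ContDiff ℝ ∞ g) : Continuous (cur g) := by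
  have h1 : Continuous (deriv g) := (contDiff_deriv h).continuous
  have h0 : Continuous g := h.continuous
  unfold cur St cs sn
  refine continuous_pi fun kl => continuous_pi fun j => ?_
  by_cases hj : j = 0
  · by_cases hl : kl.2 = 0
    · simp only [hj, hl, if_true]
      exact (Real.continuous_sin.comp continuous_fst).neg.mul
        ((continuous_apply kl.1).comp (h0.comp continuous_snd))
    · simp only [hj, hl, if_true, if_false]
      exact (Real.continuous_cos.comp continuous_fst).mul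
        ((continuous_apply kl.1).comp (h0.comp continuous_snd))
  · by_cases hl : kl.2 = 0
    · simp only [hj, hl, if_true, if_false]
      exact (Real.continuous_cos.comp continuous_fst).mul
        ((continuous_apply kl.1).comp (h1.comp continuous_snd))
    · simp only [hj, hl, if_false]
      exact (Real.continuous_sin.comp continuous_fst).mul
        ((continuous_apply kl.1).comp (h1.comp continuous_snd))

/-- the core -/
def Sc (g : ℝ → Fin m → ℝ) (L : ℝ) : Set (MM m) :=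
  cur g '' (Icc (-Real.pi) Real.pi ×ˢ Icc (-(L + 1)) (L + 1))

/-- the closure of the curve -/
def SS (g : ℝ → Fin m → ℝ) : Set (MM m) := closure (range (cur g))

theorem Sc_compact {g : ℝ → Fin m → ℝ} (h : ContDiff ℝ ∞ g) (L : ℝ) : IsCompact (Sc g L) :=
  (isCompact_Icc.prod isCompact_Icc).image (cur_continuous h)

theorem Sc_subset (g : ℝ → Fin m → ℝ) (L : ℝ) : Sc g L ⊆ SS g :=
  (image_subset_range _ _).trans subset_closure

theorem cur_mem_Sc {g : ℝ → Fin m → ℝ} {L : ℝ} {q : ℝ × ℝ} (hq : |q.2| ≤ L + 1) :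
    cur g q ∈ Sc g L := by
  obtain ⟨x, hx, hc, hs⟩ := exists_angle (Real.cos_sq_add_sin_sq q.1)
  refine ⟨(x, q.2), ⟨hx, abs_le.mp hq⟩, ?_⟩
  unfold cur
  rw [St_eq_rot, St_eq_rot, hc, hs]

/-- points of `S` outside the core are limits of points of the legs -/
theorem mem_tail {g : ℝ → Fin m → ℝ} (h : ContDiff ℝ ∞ g) {L : ℝ} {A : MM m} (hA : A ∈ SS g)
    (hn : A ∉ Sc g L) : A ∈ closure (cur g '' {q | L + 1 < |q.2|}) := by
  have h1 : range (cur g) ⊆ Sc g L ∪ cur g '' {q | L + 1 < |q.2|} := by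
    rintro _ ⟨q, rfl⟩
    rcases le_or_gt |q.2| (L + 1) with hq | hq
    · exact Or.inl (cur_mem_Sc hq)
    · exact Or.inr ⟨q, hq, rfl⟩
  have h2 := closure_mono h1 hA
  rw [closure_union, (Sc_compact h L).isClosed.closure_eq] at h2
  exact h2.resolve_left hn

section

variable {g : ℝ → Fin m → ℝ} {L : ℝ} {vm vp : Fin m → ℝ} {iL iR : Fin m}

/-- `g` and `g'` are bounded -/
theorem Crv.bounded (h : Crv g L vm vp iL iR) : ∃ M, ∀ q, ‖cur g q‖ ≤ M := by
  have hL := h.L2
  -- bound on the core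
  obtain ⟨M1, hM1⟩ := (Sc_compact h.sm L).isBounded.exists_norm_le
  refine ⟨max M1 (‖vm‖ + ‖vp‖), fun q => ?_⟩
  rcases le_or_gt |q.2| (L + 1) with hq | hq
  · exact (hM1 _ (cur_mem_Sc hq)).trans (le_max_left _ _)
  · refine le_trans ?_ (le_max_right _ _)
    have hbd : ∀ k, |g q.2 k| ≤ ‖vm‖ + ‖vp‖ ∧ |deriv g q.2 k| ≤ ‖vm‖ + ‖vp‖ := by
      intro k
      have hg : |g q.2 k| ≤ ‖vm‖ + ‖vp‖ := by
        rcases lt_abs.mp hq with hq | hq
        · rw [h.right q.2 (by linarith) k, abs_mul, abs_of_pos (Real.exp_pos _)]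
          have h1 : Real.exp (-q.2) ≤ 1 := Real.exp_le_one_iff.mpr (by linarith)
          have h2 : |vp k| ≤ ‖vp‖ := norm_le_pi_norm vp k
          have h3 := norm_nonneg vm
          have h4 := norm_nonneg vp
          have h5 : Real.exp (-q.2) * |vp k| ≤ 1 * ‖vp‖ :=
            mul_le_mul h1 h2 (abs_nonneg _) zero_le_one
          linarith
        · rw [h.left q.2 (by linarith) k, abs_mul, abs_of_pos (Real.exp_pos _)]
          have h1 : Real.exp (q.2) ≤ 1 := Real.exp_le_one_iff.mpr (by linarith)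
          have h2 : |vm k| ≤ ‖vm‖ := norm_le_pi_norm vm k
          have h3 := norm_nonneg vm
          have h4 := norm_nonneg vp
          have h5 : Real.exp (q.2) * |vm k| ≤ 1 * ‖vm‖ :=
            mul_le_mul h1 h2 (abs_nonneg _) zero_le_one
          linarith
      refine ⟨hg, ?_⟩
      have h1 := h.sq_deriv (y := q.2) (by linarith) k
      rw [sq_eq_sq_iff_abs_eq_abs] at h1
      rw [h1]; exact hg
    have h0 : 0 ≤ ‖vm‖ + ‖vp‖ := by positivity
    rw [pi_norm_le_iff_of_nonneg h0]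
    intro kl
    rw [pi_norm_le_iff_of_nonneg h0]
    intro j
    obtain ⟨h1, h2⟩ := hbd kl.1
    rw [Real.norm_eq_abs]
    unfold cur St cs sn
    split_ifs
    · rw [abs_mul, abs_neg]
      calc |Real.sin q.1| * |g q.2 kl.1| ≤ 1 * (‖vm‖ + ‖vp‖) :=
            mul_le_mul (Real.abs_sin_le_one _) h1 (abs_nonneg _) zero_le_one
        _ = _ := one_mul _
    · rw [abs_mul]
      calc |Real.cos q.1| * |g q.2 kl.1| ≤ 1 * (‖vm‖ + ‖vp‖) :=
            mul_le_mul (Real.abs_cos_le_one _) h1 (abs_nonneg _) zero_le_one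
        _ = _ := one_mul _
    · rw [abs_mul]
      calc |Real.cos q.1| * |deriv g q.2 kl.1| ≤ 1 * (‖vm‖ + ‖vp‖) :=
            mul_le_mul (Real.abs_cos_le_one _) h2 (abs_nonneg _) zero_le_one
        _ = _ := one_mul _
    · rw [abs_mul]
      calc |Real.sin q.1| * |deriv g q.2 kl.1| ≤ 1 * (‖vm‖ + ‖vp‖) :=
            mul_le_mul (Real.abs_sin_le_one _) h2 (abs_nonneg _) zero_le_one
        _ = _ := one_mul _

theorem Crv.SS_compact (h : Crv g L vm vp iL iR) : IsCompact (SS g) := by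
  obtain ⟨M, hM⟩ := h.bounded
  refine Bornology.IsBounded.isCompact_closure ?_
  rw [isBounded_iff_forall_norm_le]
  refine ⟨M, ?_⟩
  rintro _ ⟨q, rfl⟩
  exact hM q

/-- `0` is a point of `S` -/
theorem Crv.zero_mem (h : Crv g L vm vp iL iR) : (0 : MM m) ∈ SS g := by
  -- the points `St (g y) (g' y) 0`, `y → ∞`
  have hL := h.L2
  have h1 : Tendsto (fun y : ℝ => Real.exp (-y) • St vp (-vp) 0) atTop (𝓝 ((0 : ℝ) • St vp (-vp) 0)) :=
    (Real.tendsto_exp_neg_atTop_nhds_zero).smul_const _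
  rw [zero_smul] at h1
  refine mem_closure_of_tendsto h1 ?_
  filter_upwards [eventually_gt_atTop L] with y hy
  refine ⟨(0, y), ?_⟩
  unfold cur St
  funext kl j
  simp only [Pi.smul_apply, smul_eq_mul, Pi.neg_apply]
  rw [h.deriv_right hy, h.right y hy.le]
  split_ifs <;> ring

end

end Pool.Agent.SLG.Ec
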