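import Pool.Agent.SLN.Ec5

/-! # EXT-C, part 6: the chord condition in coordinates, and the soliton -/

namespace Pool.Agent.SLG.Ec

open Filter Topology Set
open Pool.Agent.SLX Pool.Agent.SLG.Sn
open scoped ContDiff

variable {m : ℕ}

theorem re_form (a u v u' v' : ℝ) :
    ((starRingEnd ℂ (Complex.exp (a * Complex.I) * (u : ℂ) - (v : ℂ)))
      * (Complex.exp (a * Complex.I) * (u' : ℂ) - (v' : ℂ))).re
      = u * u' + v * v' - Real.cos a * (u * v' + v * u') := by
  rw [Complex.exp_mul_I, ← Complex.ofReal_cos, ← Complex.ofReal_sin]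
  simp only [map_sub, map_mul, map_add, Complex.conj_ofReal, Complex.conj_I, Complex.mul_re,
    Complex.sub_re, Complex.add_re, Complex.sub_im, Complex.mul_im, Complex.add_im,
    Complex.ofReal_re, Complex.ofReal_im, Complex.I_re, Complex.I_im, Complex.neg_re,
    Complex.neg_im]
  have := Real.cos_sq_add_sin_sq a
  linear_combination (u * u') * this

theorem normSq_form (a u v : ℝ) :
    Complex.normSq (Complex.exp (a * Complex.I) * (u : ℂ) - (v : ℂ))
      = u ^ 2 + v ^ 2 - 2 * Real.cos a * (u * v) := by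
  rw [Complex.exp_mul_I, ← Complex.ofReal_cos, ← Complex.ofReal_sin, Complex.normSq_apply]
  simp only [Complex.mul_re, Complex.sub_re, Complex.add_re, Complex.sub_im, Complex.mul_im,
    Complex.add_im, Complex.ofReal_re, Complex.ofReal_im, Complex.I_re, Complex.I_im]
  have := Real.cos_sq_add_sin_sq a
  linear_combination (u ^ 2) * this

/-- the functional -/
noncomputable def om (Z : Fin m → Fin m → ℝ) : VV m →L[ℝ] ℝ :=
  LinearMap.toContinuousLinearMap
    { toFun := fun v => ∑ j, ∑ k, Z j k * v (j, 1) (k, 0)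
      map_add' := fun v w => by
        simp only [Pi.add_apply, mul_add, Finset.sum_add_distrib]
      map_smul' := fun c v => by
        simp only [Pi.smul_apply, smul_eq_mul, RingHom.id_apply, Finset.mul_sum]
        refine Finset.sum_congr rfl fun i _ => Finset.sum_congr rfl fun j _ => by ring }

theorem om_apply (Z : Fin m → Fin m → ℝ) (v : VV m) :
    om Z v = ∑ j, ∑ k, Z j k * v (j, 1) (k, 0) := rfl

theorem om_norm (Z : Fin m → Fin m → ℝ) {C : ℝ} (hC : 0 ≤ C) (hZ : ∀ j k, |Z j k| ≤ C) :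
    ‖om Z‖ ≤ m * (m * C) := by
  refine ContinuousLinearMap.opNorm_le_bound _ (by positivity) fun v => ?_
  rw [om_apply, Real.norm_eq_abs]
  calc |∑ j, ∑ k, Z j k * v (j, 1) (k, 0)| ≤ ∑ j, |∑ k, Z j k * v (j, 1) (k, 0)| :=
        Finset.abs_sum_le_sum_abs _ _
    _ ≤ ∑ j : Fin m, ∑ k : Fin m, |Z j k * v (j, 1) (k, 0)| :=
        Finset.sum_le_sum fun j _ => Finset.abs_sum_le_sum_abs _ _
    _ ≤ ∑ j : Fin m, ∑ k : Fin m, C * ‖v‖ := by
        refine Finset.sum_le_sum fun j _ => Finset.sum_le_sum fun k _ => ?_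
        rw [abs_mul]
        refine mul_le_mul (hZ j k) ?_ (abs_nonneg _) hC
        exact (norm_le_pi_norm (v (j, 1)) (k, 0)).trans (norm_le_pi_norm v (j, 1))
    _ = m * (m * C) * ‖v‖ := by
        simp only [Finset.sum_const, Finset.card_univ, Fintype.card_fin, nsmul_eq_mul]; ring

theorem om_chord {g : ℝ → Fin m → ℝ} {Z : Fin m → Fin m → ℝ} (hZ : ∀ j k, Z j k = Z k j)
    (x y x₁ t : ℝ) :
    om Z (BB m (cur g (x₁, t) - cur g (x, y)) (cur g (x₁, t) - cur g (x, y))) =
      ∑ j, ∑ k, Z j k * (g t j * deriv g t k + g y j * deriv g y k -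
        Real.cos (x₁ - x) * (g t j * deriv g y k + g y j * deriv g t k)) := by
  rw [BB_self, om_apply]
  have h1 : ∀ j k, Z j k * minor (cur g (x₁, t) - cur g (x, y)) (j, 1) (k, 0) =
      Z j k * ((Real.cos x₁ * g t j - Real.cos x * g y j) *
        (Real.cos x₁ * deriv g t k - Real.cos x * deriv g y k)) +
      Z j k * ((Real.sin x₁ * deriv g t j - Real.sin x * deriv g y j) *
        (Real.sin x₁ * g t k - Real.sin x * g y k)) := by
    intro j k
    simp only [minor, cur, St, cs, sn, Pi.sub_apply, Fin.isValue, if_true, one_ne_zero, if_false]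
    ring
  simp only [h1, Finset.sum_add_distrib]
  have h2 : ∑ j, ∑ k, Z j k * ((Real.sin x₁ * deriv g t j - Real.sin x * deriv g y j) *
        (Real.sin x₁ * g t k - Real.sin x * g y k)) =
      ∑ j, ∑ k, Z j k * ((Real.sin x₁ * deriv g t k - Real.sin x * deriv g y k) *
        (Real.sin x₁ * g t j - Real.sin x * g y j)) := by
    rw [Finset.sum_comm]
    refine Finset.sum_congr rfl fun j _ => Finset.sum_congr rfl fun k _ => ?_
    rw [hZ k j]
  rw [h2, ← Finset.sum_add_distrib]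
  refine Finset.sum_congr rfl fun j _ => ?_
  rw [← Finset.sum_add_distrib]
  refine Finset.sum_congr rfl fun k _ => ?_
  rw [Real.cos_sub]
  have e1 := Real.cos_sq_add_sin_sq x₁
  have e2 := Real.cos_sq_add_sin_sq x
  linear_combination (Z j k * (g t j * deriv g t k)) * e1 + (Z j k * (g y j * deriv g y k)) * e2

theorem sq_chord {g : ℝ → Fin m → ℝ} (x y x₁ t : ℝ) :
    sq (cur g (x₁, t) - cur g (x, y)) =
      ∑ j, ((g t j ^ 2 + g y j ^ 2 - 2 * Real.cos (x₁ - x) * (g t j * g y j)) +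
        (deriv g t j ^ 2 + deriv g y j ^ 2 -
          2 * Real.cos (x₁ - x) * (deriv g t j * deriv g y j))) := by
  rw [sq_eq_ip, ip_eq]
  refine Finset.sum_congr rfl fun j _ => ?_
  simp only [cur, St, cs, sn, Pi.sub_apply, Fin.isValue, if_true, one_ne_zero, if_false]
  rw [Real.cos_sub]
  have e1 := Real.cos_sq_add_sin_sq x₁
  have e2 := Real.cos_sq_add_sin_sq x
  linear_combination (g t j ^ 2 + deriv g t j ^ 2) * e1 + (g y j ^ 2 + deriv g y j ^ 2) * e2

theorem ip_single (X : MM m) (i : RI m) (j : Fin 2) :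
    ip X (Pi.single i (Pi.single j 1)) = X i j := by
  unfold ip
  rw [Finset.sum_eq_single i]
  · rw [Finset.sum_eq_single j]
    · simp
    · intro j' _ hj'; simp [hj']
    · intro h; exact absurd (Finset.mem_univ _) h
  · intro i' _ hi'
    simp [hi']
  · intro h; exact absurd (Finset.mem_univ _) h

/-- the chord condition -/
def Chord (g : ℝ → Fin m → ℝ) (L c C : ℝ) : Prop :=
  ∀ y, -L - 1 ≤ y → y ≤ L + 1 → ∃ Z : Fin m → Fin m → ℝ,
      (∀ j k, Z j k = Z k j) ∧ (∀ j k, |Z j k| ≤ C) ∧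
      ∀ t a : ℝ, (∑ j, ∑ k, Z j k *
          ((starRingEnd ℂ (Complex.exp (a * Complex.I) * (g t j : ℂ) - (g y j : ℂ)))
            * (Complex.exp (a * Complex.I) * ((deriv g t k : ℝ) : ℂ) - ((deriv g y k : ℝ) : ℂ))).re) ≤
        -c * ∑ j, (Complex.normSq (Complex.exp (a * Complex.I) * (g t j : ℂ) - (g y j : ℂ))
          + Complex.normSq (Complex.exp (a * Complex.I) * ((deriv g t j : ℝ) : ℂ)
            - ((deriv g y j : ℝ) : ℂ)))

variable {g : ℝ → Fin m → ℝ} {L : ℝ} {vm vp : Fin m → ℝ} {iL iR : Fin m}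

/-- the functionals of the core bases -/
theorem exists_omega {c C : ℝ} (hc : 0 < c) (h : Chord g L c C) :
    ∃ om0 : MM m → VV m →L[ℝ] ℝ, (∀ A ∈ Sc g L, ‖om0 A‖ ≤ m * (m * max C 0)) ∧
      ∀ A ∈ Sc g L, ∀ X ∈ SS g, om0 A (BB m (X - A) (X - A)) ≤ -c * ‖X - A‖ ^ 2 := by
  have key : ∀ A ∈ Sc g L, ∃ w : VV m →L[ℝ] ℝ, ‖w‖ ≤ m * (m * max C 0) ∧
      ∀ X ∈ SS g, w (BB m (X - A) (X - A)) ≤ -c * ‖X - A‖ ^ 2 := by
    rintro _ ⟨⟨x, y⟩, ⟨_, hy1, hy2⟩, rfl⟩
    simp only at hy1 hy2
    obtain ⟨Z, hZs, hZC, hZ⟩ := h y (by linarith) hy2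
    refine ⟨om Z, om_norm Z (le_max_right _ _) (fun j k => (hZC j k).trans (le_max_left _ _)), ?_⟩
    intro X hX
    have hcl : IsClosed {X : MM m | om Z (BB m (X - cur g (x, y)) (X - cur g (x, y))) ≤
        -c * ‖X - cur g (x, y)‖ ^ 2} := by
      refine isClosed_le ?_ ?_
      · have h1 : Continuous fun X : MM m => X - cur g (x, y) := continuous_id.sub continuous_const
        exact (om Z).continuous.comp (((BB m).continuous.comp h1).clm_apply h1)
      · fun_prop
    refine closure_minimal ?_ hcl hX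
    rintro _ ⟨⟨x₁, t⟩, rfl⟩
    show om Z (BB m (cur g (x₁, t) - cur g (x, y)) (cur g (x₁, t) - cur g (x, y))) ≤ _
    rw [om_chord hZs]
    have h1 := hZ t (x₁ - x)
    simp only [re_form, normSq_form] at h1
    refine h1.trans ?_
    rw [← sq_chord]
    have := norm_sq_le_sq (cur g (x₁, t) - cur g (x, y))
    nlinarith
  choose! om0 h1 h2 using key
  exact ⟨om0, h1, h2⟩

end Pool.Agent.SLG.Ec
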