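import Pool.Agent.SLN.Ec6

/-! # EXT-C, part 7: the soliton with its strongly polyconvex integrand -/

namespace Pool.Agent.SLG.Ec

open Filter Topology Set
open Pool.Agent.SLX Pool.Agent.SLG.Sn


variable {m : ℕ} {g : ℝ → Fin m → ℝ} {L : ℝ} {vm vp : Fin m → ℝ} {iL iR : Fin m}

theorem cur_eq_rot (g : ℝ → Fin m → ℝ) (q : ℝ × ℝ) :
    cur g q = rot (Real.cos q.1) (Real.sin q.1) (g q.2) (deriv g q.2) := by
  unfold cur; rw [St_eq_rot]

/-- value of `f` on the curve -/
theorem f_cur (h : Crv g L vm vp iL iR) (κ : ℝ) (q : ℝ × ℝ) :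
    (dat g κ L iL iR).f (cur g q) = ∑ k, pp g κ L iL iR q.2 k * deriv g q.2 k := by
  have hε : 2 * (dat g κ L iL iR).ε < Real.exp (-4 * (L + 1)) := by
    show 2 * (Real.exp (-4 * (L + 1)) / 4) < _
    have := Real.exp_pos (-4 * (L + 1))
    linarith
  have h1 := f_curve (dat g κ L iL iR) (dat_smooth h κ) h.chart hε (M' := L + 1 / 2) (by linarith)
    (fun y hy => (dat_zero h κ y hy).2.2) (Real.cos_sq_add_sin_sq q.1) q.2
  rw [cur_eq_rot]
  refine h1.trans ?_
  show 1 / 2 * ∑ k, (g q.2 k ^ 2 + deriv g q.2 k ^ 2) +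
    ((∑ k, pp g κ L iL iR q.2 k * deriv g q.2 k) -
    1 / 2 * ∑ k, (g q.2 k ^ 2 + deriv g q.2 k ^ 2)) = _
  ring

/-- derivative of `f` on the curve -/
theorem f_cur_fderiv (h : Crv g L vm vp iL iR) (κ : ℝ) (q : ℝ × ℝ) (V : MM m) :
    fderiv ℝ (dat g κ L iL iR).f (cur g q) V =
      ip (St (deriv (pp g κ L iL iR) q.2) (pp g κ L iL iR q.2) q.1) V := by
  have hε : 2 * (dat g κ L iL iR).ε < Real.exp (-4 * (L + 1)) := by
    show 2 * (Real.exp (-4 * (L + 1)) / 4) < _
    have := Real.exp_pos (-4 * (L + 1))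
    linarith
  have h1 := f_fderiv (dat g κ L iL iR) (dat_smooth h κ) h.chart (dat_comp h κ) hε
    (M' := L + 1 / 2) (by linarith) (fun y hy => dat_zero h κ y hy)
    (Real.cos_sq_add_sin_sq q.1) q.2 V
  rw [cur_eq_rot]
  refine h1.trans ?_
  rw [← ip_add_left, St_eq_rot]
  congr 1
  funext kl j
  simp only [Pi.add_apply]
  unfold rot
  show (if j = 0 then (if kl.2 = 0 then -Real.sin q.1 else Real.cos q.1) * g q.2 kl.1
      else (if kl.2 = 0 then Real.cos q.1 else Real.sin q.1) * deriv g q.2 kl.1) +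
    (if j = 0 then (if kl.2 = 0 then -Real.sin q.1 else Real.cos q.1) *
        (deriv (pp g κ L iL iR) q.2 kl.1 - g q.2 kl.1)
      else (if kl.2 = 0 then Real.cos q.1 else Real.sin q.1) * bb κ L iL iR q.2 kl.1) = _
  unfold pp
  split_ifs <;> ring

theorem W_cur (h : Crv g L vm vp iL iR) (κ : ℝ) (q : ℝ × ℝ) :
    (dat g κ L iL iR).W (cur g q) = 0 := by
  rw [cur_eq_rot]
  exact W_curve (dat g κ L iL iR) h.chart (Real.cos_sq_add_sin_sq q.1) q.2

/-- on the legs -/
theorem pp_tail (h : Crv g L vm vp iL iR) (κ : ℝ) {y : ℝ} (hy : L + 1 / 2 ≤ |y|) :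
    pp g κ L iL iR y = deriv g y := by
  have h1 := (dat_zero h κ y hy).2.1
  funext k
  have h2 : bb κ L iL iR y k = 0 := congrFun h1 k
  show deriv g y k + bb κ L iL iR y k = deriv g y k
  rw [h2, add_zero]

theorem deriv_pp_tail (h : Crv g L vm vp iL iR) (κ : ℝ) {y : ℝ} (hy : L + 1 / 2 ≤ |y|) :
    deriv (pp g κ L iL iR) y = g y := by
  have h1 := (dat_zero h κ y hy).1
  funext k
  have h2 : deriv (pp g κ L iL iR) y k - g y k = 0 := congrFun h1 k
  linarith

/-- **The soliton.** -/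
theorem exists_sol_of_chord (h : Crv g L vm vp iL iR) {c C : ℝ} (hc : 0 < c)
    (hΩ : Chord g L c C) :
    ∃ (f : MI (Fin m × Fin 2) → ℝ) (p : ℝ → Fin m → ℝ), Sol f g p vm vp (L + 1) := by
  have hL2 := h.L2
  obtain ⟨κ, C0, hC0, hF0, hFY⟩ := exists_kappa h
  set D := dat g κ L iL iR with hD
  have hDs : D.Smooth := dat_smooth h κ
  have hεpos : 0 < D.ε := hDs.ε
  have hεval : D.ε = Real.exp (-4 * (L + 1)) / 4 := rfl
  have hf : ContDiff ℝ ((⊤ : ℕ∞) : WithTop ℕ∞) D.f := contDiff_f D hDs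
  have hW : ContDiff ℝ ((⊤ : ℕ∞) : WithTop ℕ∞) D.W := contDiff_W D hDs
  have hf2 : ContDiff ℝ 2 D.f := by exact_mod_cast contDiff_infty.mp hf 2
  have hW2 : ContDiff ℝ 2 D.W := by exact_mod_cast contDiff_infty.mp hW 2
  obtain ⟨om0, hom1, hom2⟩ := exists_omega hc hΩ
  have hb : ∀ X : MM m, ‖X‖ ^ 2 ≤ bE m X X := fun X => by rw [bE_self]; exact norm_sq_le_sq X
  have hWS : ∀ X ∈ SS g, D.W X = 0 := by
    intro X hX
    have hcl : IsClosed {X : MM m | D.W X = 0} := isClosed_eq hW.continuous continuous_const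
    refine closure_minimal ?_ hcl hX
    rintro _ ⟨q, rfl⟩
    exact W_cur h κ q
  -- the open set
  have hUo : IsOpen {X : MM m | 2 * D.ε < nn iL iR X} :=
    isOpen_lt continuous_const (contDiff_nn (n := 1) iL iR).continuous
  have hSU : Sc g L ⊆ {X : MM m | 2 * D.ε < nn iL iR X} := by
    rintro _ ⟨⟨x, y⟩, ⟨_, hy⟩, rfl⟩
    show 2 * D.ε < nn iL iR (cur g (x, y))
    rw [cur_eq_rot]
    have h1 := nn_curve h.chart (Real.cos_sq_add_sin_sq x) (t := y) (M := L + 1)
      (abs_le.mpr hy) (deriv g y)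
    have h2 := Real.exp_pos (-4 * (L + 1))
    rw [hεval]
    simp only
    linarith
  obtain ⟨r₀, hr₀, hthick⟩ := (Sc_compact h.sm L).exists_cthickening_subset_open hUo hSU
  have hWn : ∀ A ∈ Sc g L, ∀ X, ‖X - A‖ ≤ r₀ → ∃ A₀ ∈ SS g, 1 * ‖X - A₀‖ ^ 2 ≤ D.W X := by
    intro A hA X hX
    have hXU : X ∈ {X : MM m | 2 * D.ε < nn iL iR X} := by
      apply hthick
      refine Metric.mem_cthickening_of_dist_le X A r₀ _ hA ?_
      rw [dist_eq_norm]; exact hX
    obtain ⟨h1, h2⟩ := W_eq D hεpos hXU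
    obtain ⟨x, _, hx1, hx2⟩ := exists_angle h2
    refine ⟨cur g (x, yX D.iL D.iR X), subset_closure ⟨_, rfl⟩, ?_⟩
    rw [one_mul, h1, cur_eq_rot]
    simp only [hx1, hx2]
    exact norm_sq_le_sq _
  have hΛ₀ : ∀ X, bE m X X / 2 ≤ D.f X + (C0 / 4) * D.W X := by
    intro X
    have := f_lower D hεpos hF0 hC0 hFY (A := C0 / 4) (by linarith) X
    rw [bE_self]; linarith
  have hval : ∀ A ∈ SS g, A ∉ Sc g L →
      D.f A = bE m A A / 2 ∧ ∀ H, fderiv ℝ D.f A H = bE m A H := by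
    intro A hA hAn
    have hAt := mem_tail h.sm hA hAn
    have hcf : Continuous fun A : MM m => fderiv ℝ D.f A := hf.continuous_fderiv (by simp)
    constructor
    · have hcl : IsClosed {A : MM m | D.f A = bE m A A / 2} := by
        refine isClosed_eq hf.continuous ?_
        exact (((bE m).continuous).clm_apply continuous_id).div_const 2
      refine closure_minimal ?_ hcl hAt
      rintro _ ⟨q, hq, rfl⟩
      have hq' : L + 1 < |q.2| := hq
      show D.f (cur g q) = bE m (cur g q) (cur g q) / 2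
      rw [hD, f_cur h κ q, bE_self, pp_tail h κ (by linarith), cur_eq_rot,
        sq_rot (Real.cos_sq_add_sin_sq q.1), Finset.sum_div]
      refine Finset.sum_congr rfl fun k _ => ?_
      have := h.sq_deriv (y := q.2) (by linarith) k
      nlinarith
    · intro H
      have hcl : IsClosed {A : MM m | fderiv ℝ D.f A H = bE m A H} := by
        refine isClosed_eq (hcf.clm_apply continuous_const) ?_
        exact ((bE m).continuous).clm_apply continuous_const
      refine closure_minimal ?_ hcl hAt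
      rintro _ ⟨q, hq, rfl⟩
      have hq' : L + 1 < |q.2| := hq
      show fderiv ℝ D.f (cur g q) H = bE m (cur g q) H
      rw [hD, f_cur_fderiv h κ q, bE_apply, pp_tail h κ (by linarith),
        deriv_pp_tail h κ (by linarith)]
      rfl
  obtain ⟨Λ, ζ, Cζ, c', δ, hc', hδ, hζ, hmain⟩ := cond_c (BB m) (bE m) hb
    (fun X Y => by rw [bE_apply, bE_apply, ip_comm]) D.f D.W hf2 hW2 (W_nonneg D)
    (SS g) (Sc g L) h.SS_compact (Sc_subset g L) hWS om0 _ c hom1 hc hom2 1 r₀ one_pos hr₀ hWn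
    (C0 / 4) hΛ₀ hval
  have hf1 : ContDiff ℝ ((⊤ : ℕ∞) : WithTop ℕ∞) (fun Y => D.f Y + Λ * D.W Y) := hf.add (contDiff_const.mul hW)
  obtain ⟨F, hF, ⟨δ', hδ', hFeq⟩, γ, hγ, G, hG, hGF⟩ := extension (BB m) (bE m) hb
    (fun Y => D.f Y + Λ * D.W Y) hf1 (SS g) h.SS_compact ⟨0, h.zero_mem⟩ ζ Cζ hζ c' δ hc' hδ hmain
  have hmem : ∀ q, cur g q ∈ SS g := fun q => subset_closure ⟨q, rfl⟩
  refine ⟨F, pp g κ L iL iR, ?_⟩
  refine
    { smf := hF
      spc := ⟨γ, hγ, G, hG, fun X => by rw [← bE_self, ← BB_self]; exact hGF X⟩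
      smg := h.sm
      smp := contDiff_pp h κ
      left := ?_
      right := ?_
      pout := fun y hy => pp_tail h κ (by linarith)
      near := ?_
      val := ?_
      grd := ?_
      nz := ⟨0, fun h0 => ?_⟩ }
  · intro y hy
    funext k
    simp only [Pi.smul_apply, smul_eq_mul]
    exact h.left y (by linarith) k
  · intro y hy
    funext k
    simp only [Pi.smul_apply, smul_eq_mul]
    exact h.right y (by linarith) k
  · have h1 : ∀ᶠ X in 𝓝 (0 : MM m), ‖X - 0‖ < δ' := by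
      have : Tendsto (fun X : MM m => ‖X - 0‖) (𝓝 0) (𝓝 ‖(0 : MM m) - 0‖) :=
        (continuous_id.sub continuous_const).norm.tendsto 0
      refine this.eventually_lt_const ?_
      simpa using hδ'
    filter_upwards [h1, f_near_zero D hεpos] with X hX1 hX2
    rw [hFeq 0 h.zero_mem X hX1, hX2.1, hX2.2]
    ring
  · intro x y
    have h1 : St (g y) (deriv g y) x = cur g (x, y) := rfl
    rw [h1, hFeq _ (hmem (x, y)) _ (by simpa using hδ'), W_cur h κ (x, y), f_cur h κ (x, y)]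
    simp
  · intro x y
    have h1 : St (g y) (deriv g y) x = cur g (x, y) := rfl
    rw [h1]
    have h2 : F =ᶠ[𝓝 (cur g (x, y))] fun Y => D.f Y + Λ * D.W Y := by
      have h3 : ∀ᶠ X in 𝓝 (cur g (x, y)), ‖X - cur g (x, y)‖ < δ' := by
        have : Tendsto (fun X : MM m => ‖X - cur g (x, y)‖) (𝓝 (cur g (x, y)))
            (𝓝 ‖cur g (x, y) - cur g (x, y)‖) :=
          (continuous_id.sub continuous_const).norm.tendsto _
        refine this.eventually_lt_const ?_
        simpa using hδ'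
      filter_upwards [h3] with X hX
      exact hFeq _ (hmem _) X hX
    have h4 : fderiv ℝ D.W (cur g (x, y)) = 0 := by
      refine IsLocalMin.fderiv_eq_zero ?_
      refine Filter.Eventually.of_forall fun X => ?_
      rw [W_cur h κ (x, y)]
      exact W_nonneg D X
    have h5 : fderiv ℝ F (cur g (x, y)) = fderiv ℝ D.f (cur g (x, y)) := by
      rw [h2.fderiv_eq]
      have e1 : DifferentiableAt ℝ D.f (cur g (x, y)) := hf.differentiable (by simp) _
      have e2 : DifferentiableAt ℝ D.W (cur g (x, y)) := hW.differentiable (by simp) _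
      rw [fderiv_fun_add e1 (e2.const_mul Λ), fderiv_const_mul e2, h4, smul_zero, add_zero]
    funext i j
    show fderiv ℝ F (cur g (x, y)) (Pi.single i (Pi.single j 1)) = _
    rw [h5, hD, f_cur_fderiv h κ (x, y), ip_single]
  · have h1 := h.chart.Lpos 0
    rw [h0] at h1
    simp at h1

end Pool.Agent.SLG.Ec
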