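import Pool.Agent.SLN.Om3

/-!
# The soliton block, part 4: the theorem with complex phases
-/

open Real Set

noncomputable section

namespace SLN

lemma phase_eq (a p q : ℝ) :
    Complex.exp (a * Complex.I) * (p : ℂ) - (q : ℂ) = ⟨Real.cos a * p - q, Real.sin a * p⟩ := by
  apply Complex.ext
  · simp [Complex.exp_mul_I, Complex.cos_ofReal_re, Complex.sin_ofReal_re, Complex.cos_ofReal_im,
      Complex.sin_ofReal_im]
  · simp [Complex.exp_mul_I, Complex.cos_ofReal_re, Complex.sin_ofReal_re, Complex.cos_ofReal_im,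
      Complex.sin_ofReal_im]

lemma phase_form (a p q r s : ℝ) :
    ((starRingEnd ℂ (Complex.exp (a * Complex.I) * (p : ℂ) - (q : ℂ)))
      * (Complex.exp (a * Complex.I) * (r : ℂ) - (s : ℂ))).re =
      (1 + Real.cos a) / 2 * ((p - 1 * q) * (r - 1 * s))
        + (1 - Real.cos a) / 2 * ((p - (-1) * q) * (r - (-1) * s)) := by
  rw [phase_eq, phase_eq]
  simp only [Complex.mul_re, Complex.conj_re, Complex.conj_im]
  linear_combination (p * r) * (Real.sin_sq_add_cos_sq a)

lemma phase_normSq (a p q : ℝ) :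
    Complex.normSq (Complex.exp (a * Complex.I) * (p : ℂ) - (q : ℂ)) =
      (1 + Real.cos a) / 2 * (p - 1 * q) ^ 2 + (1 - Real.cos a) / 2 * (p - (-1) * q) ^ 2 := by
  rw [phase_eq, Complex.normSq_mk]
  linear_combination (p ^ 2) * (Real.sin_sq_add_cos_sq a)

/-- **The soliton block**: a smooth curve with exact exponential legs and the chord condition
`(Ω)` at all bases of the closed core and a little bit of the legs. -/
theorem omega_exists : ∃ (n : ℕ) (g : ℝ → Fin n → ℝ) (L : ℝ) (vm vp : Fin n → ℝ) (iL iR : Fin n)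
    (c C : ℝ),
    0 < c ∧ 2 ≤ L ∧ ContDiff ℝ ((⊤ : ℕ∞) : WithTop ℕ∞) g ∧
    (∀ t, t ≤ -L → ∀ j, g t j = Real.exp t * vm j) ∧
    (∀ t, L ≤ t → ∀ j, g t j = Real.exp (-t) * vp j) ∧
    (∀ t, 0 < g t iL) ∧ (∀ t, t ≤ 1 → g t iL = Real.exp t) ∧
    (∀ t, 1 ≤ t → Real.exp (2 - t) ≤ g t iL) ∧
    (∀ t, 0 < g t iR) ∧ (∀ t, -1 ≤ t → g t iR = Real.exp (-t)) ∧
    (∀ t, t ≤ -1 → Real.exp (2 + t) ≤ g t iR) ∧
    ∀ y, -L - 1 ≤ y → y ≤ L + 1 → ∃ Z : Fin n → Fin n → ℝ,
      (∀ j k, Z j k = Z k j) ∧ (∀ j k, |Z j k| ≤ C) ∧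
      ∀ t a : ℝ, (∑ j, ∑ k, Z j k *
          ((starRingEnd ℂ (Complex.exp (a * Complex.I) * (g t j : ℂ) - (g y j : ℂ)))
            * (Complex.exp (a * Complex.I) * ((deriv g t k : ℝ) : ℂ) - ((deriv g y k : ℝ) : ℂ))).re) ≤
        -c * ∑ j, (Complex.normSq (Complex.exp (a * Complex.I) * (g t j : ℂ) - (g y j : ℂ))
          + Complex.normSq (Complex.exp (a * Complex.I) * ((deriv g t j : ℝ) : ℂ)
            - ((deriv g y j : ℝ) : ℂ))) := by
  obtain ⟨N, G, L, c, hc, hL, hsm, htl, hkL, hkR, hcert⟩ := omega_real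
  choose A B hAB using htl
  let e := Fintype.equivFin (((Fin N ⊕ Bool) × Fin 3) ⊕ Bool)
  set n := Fintype.card (((Fin N ⊕ Bool) × Fin 3) ⊕ Bool) with hn
  set g : ℝ → Fin n → ℝ := fun t j => G (e.symm j) t with hg
  have hgd : ∀ t k, deriv g t k = deriv (G (e.symm k)) t := by
    intro t k
    have : HasDerivAt g (fun k => deriv (G (e.symm k)) t) t := by
      rw [hasDerivAt_pi]
      intro i
      exact ((hsm (e.symm i)).differentiable (by simp) t).hasDerivAt
    rw [this.deriv]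
  have gL : ∀ t, g t (e (Sum.inr false)) = kL t := by
    intro t; simp [hg, hkL]
  have gR : ∀ t, g t (e (Sum.inr true)) = kL (-t) := by
    intro t; simp [hg, hkR]
  refine ⟨n, g, L, fun j => A (e.symm j), fun j => B (e.symm j), e (Sum.inr false),
    e (Sum.inr true), c, 1, hc, hL, ?_, ?_, ?_, ?_, ?_, ?_, ?_, ?_, ?_, ?_⟩
  · rw [contDiff_pi]
    intro i
    exact hsm (e.symm i)
  · intro t ht j
    simp only [hg]
    rw [(hAB (e.symm j)).1 t ht, mul_comm]
  · intro t ht j
    simp only [hg]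
    rw [(hAB (e.symm j)).2 t ht, mul_comm]
  · intro t; rw [gL]; exact kL_pos t
  · intro t ht; rw [gL]; exact kL_left ht
  · intro t ht; rw [gL]; exact kL_ge ht
  · intro t; rw [gR]; exact kL_pos _
  · intro t ht; rw [gR]; exact kL_left (by linarith)
  · intro t ht
    rw [gR]
    have := kL_ge (show 1 ≤ -t by linarith)
    rwa [sub_neg_eq_add] at this
  · intro y hy1 hy2
    obtain ⟨k, σ, hσ, hk⟩ := hcert y hy1 hy2
    refine ⟨fun i j => Zm k σ (e.symm i) (e.symm j), fun i j => Zm_symm k σ _ _,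
      fun i j => Zm_le k hσ _ _, fun t a => ?_⟩
    have h1 := hk t 1 (Or.inl rfl)
    have h2 := hk t (-1) (Or.inr rfl)
    have l1 : 0 ≤ (1 + Real.cos a) / 2 := by linarith [Real.neg_one_le_cos a]
    have l2 : 0 ≤ (1 - Real.cos a) / 2 := by linarith [Real.cos_le_one a]
    have h3 := add_le_add (mul_le_mul_of_nonneg_left h1 l1) (mul_le_mul_of_nonneg_left h2 l2)
    simp only [hgd, phase_form, phase_normSq]
    simp only [hg]
    have e1 : (∑ j : Fin n, ∑ i : Fin n, Zm k σ (e.symm j) (e.symm i) *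
        ((1 + Real.cos a) / 2 * ((G (e.symm j) t - 1 * G (e.symm j) y) *
            (deriv (G (e.symm i)) t - 1 * deriv (G (e.symm i)) y))
          + (1 - Real.cos a) / 2 * ((G (e.symm j) t - (-1) * G (e.symm j) y) *
            (deriv (G (e.symm i)) t - (-1) * deriv (G (e.symm i)) y)))) =
        (1 + Real.cos a) / 2 * (∑ j, ∑ i, Zm k σ j i * ((G j t - 1 * G j y) *
            (deriv (G i) t - 1 * deriv (G i) y)))
          + (1 - Real.cos a) / 2 * (∑ j, ∑ i, Zm k σ j i * ((G j t - (-1) * G j y) *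
            (deriv (G i) t - (-1) * deriv (G i) y))) := by
      rw [Finset.mul_sum, Finset.mul_sum, ← Finset.sum_add_distrib]
      rw [← Equiv.sum_comp e.symm (fun j => (1 + Real.cos a) / 2 * (∑ i, Zm k σ j i *
        ((G j t - 1 * G j y) * (deriv (G i) t - 1 * deriv (G i) y)))
          + (1 - Real.cos a) / 2 * (∑ i, Zm k σ j i * ((G j t - (-1) * G j y) *
            (deriv (G i) t - (-1) * deriv (G i) y))))]
      refine Finset.sum_congr rfl fun j _ => ?_
      rw [Finset.mul_sum, Finset.mul_sum, ← Finset.sum_add_distrib]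
      rw [← Equiv.sum_comp e.symm (fun i => (1 + Real.cos a) / 2 * (Zm k σ (e.symm j) i *
        ((G (e.symm j) t - 1 * G (e.symm j) y) * (deriv (G i) t - 1 * deriv (G i) y)))
          + (1 - Real.cos a) / 2 * (Zm k σ (e.symm j) i * ((G (e.symm j) t - (-1) * G (e.symm j) y) *
            (deriv (G i) t - (-1) * deriv (G i) y))))]
      refine Finset.sum_congr rfl fun i _ => ?_
      ring
    have e2 : (∑ j : Fin n, ((1 + Real.cos a) / 2 * (G (e.symm j) t - 1 * G (e.symm j) y) ^ 2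
          + (1 - Real.cos a) / 2 * (G (e.symm j) t - (-1) * G (e.symm j) y) ^ 2
        + ((1 + Real.cos a) / 2 * (deriv (G (e.symm j)) t - 1 * deriv (G (e.symm j)) y) ^ 2
          + (1 - Real.cos a) / 2 * (deriv (G (e.symm j)) t - (-1) * deriv (G (e.symm j)) y) ^ 2))) =
        (1 + Real.cos a) / 2 * (∑ i, ((G i t - 1 * G i y) ^ 2
            + (deriv (G i) t - 1 * deriv (G i) y) ^ 2))
          + (1 - Real.cos a) / 2 * (∑ i, ((G i t - (-1) * G i y) ^ 2
            + (deriv (G i) t - (-1) * deriv (G i) y) ^ 2)) := by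
      rw [Finset.mul_sum, Finset.mul_sum, ← Finset.sum_add_distrib]
      rw [← Equiv.sum_comp e.symm (fun i => (1 + Real.cos a) / 2 * ((G i t - 1 * G i y) ^ 2
            + (deriv (G i) t - 1 * deriv (G i) y) ^ 2)
          + (1 - Real.cos a) / 2 * ((G i t - (-1) * G i y) ^ 2
            + (deriv (G i) t - (-1) * deriv (G i) y) ^ 2))]
      refine Finset.sum_congr rfl fun i _ => ?_
      ring
    rw [e1, e2]
    refine h3.trans (le_of_eq ?_)
    ring

end SLN
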