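import Pool.Agent.SLN.Ec7
import Pool.Agent.SLN.Om4

/-! # The soliton exists -/

namespace Pool.Agent.SLG.Ec

open Pool.Agent.SLG.Sn

/-- **EXT-C.** There is a strip soliton with a strongly polyconvex integrand. -/
theorem exists_sol : ∃ (m : ℕ) (f : MI (Fin m × Fin 2) → ℝ) (g p : ℝ → Fin m → ℝ)
    (vl vr : Fin m → ℝ) (Y0 : ℝ), Sol f g p vl vr Y0 := by
  obtain ⟨m, g, L, vm, vp, iL, iR, c, C, hc, hL, hg, hl, hr, h1, h2, h3, h4, h5, h6, hΩ⟩ :=
    SLN.omega_exists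
  have hC : Crv g L vm vp iL iR :=
    { L2 := hL, sm := hg, left := hl, right := hr
      chart := { Lpos := h1, Lexp := h2, Lbd := h3, Rpos := h4, Rexp := h5, Rbd := h6 } }
  obtain ⟨f, p, hS⟩ := exists_sol_of_chord hC hc hΩ
  exact ⟨m, f, g, p, vm, vp, L + 1, hS⟩

end Pool.Agent.SLG.Ec
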