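import Mathlib

/-! Smooth functions with explicit bounds for all derivatives. -/

namespace Pool.Agent.SLG.Sn

open Set

/-- `f` is smooth and its `k`-th derivative is bounded by `C k`. -/
def DB {V : Type*} [NormedAddCommGroup V] [NormedSpace ℝ V] (f : V → ℝ) (C : ℕ → ℝ) : Prop :=
  ContDiff ℝ ((⊤ : ℕ∞) : WithTop ℕ∞) f ∧ ∀ (k : ℕ) (x : V), ‖iteratedFDeriv ℝ k f x‖ ≤ C k

section

variable {V W : Type*} [NormedAddCommGroup V] [NormedSpace ℝ V] [NormedAddCommGroup W]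
  [NormedSpace ℝ W]

theorem natCast_le_top (k : ℕ) : ((k : ℕ∞) : WithTop ℕ∞) ≤ ((⊤ : ℕ∞) : WithTop ℕ∞) := by
  exact_mod_cast le_top

theorem DB.add {f g : V → ℝ} {C D : ℕ → ℝ} (hf : DB f C) (hg : DB g D) :
    DB (fun x => f x + g x) (fun k => C k + D k) := by
  refine ⟨hf.1.add hg.1, fun k x => ?_⟩
  have h := iteratedFDeriv_add_apply (𝕜 := ℝ) (i := k) (x := x)
    ((hf.1.of_le (natCast_le_top k)).contDiffAt) ((hg.1.of_le (natCast_le_top k)).contDiffAt)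
  have h' : iteratedFDeriv ℝ k (fun x => f x + g x) x
      = iteratedFDeriv ℝ k f x + iteratedFDeriv ℝ k g x := h
  rw [h']
  exact (norm_add_le _ _).trans (add_le_add (hf.2 k x) (hg.2 k x))

theorem DB.const_mul {f : V → ℝ} {C : ℕ → ℝ} (c : ℝ) (hf : DB f C) :
    DB (fun x => c * f x) (fun k => |c| * C k) := by
  refine ⟨contDiff_const.mul hf.1, fun k x => ?_⟩
  have h := iteratedFDeriv_const_smul_apply (𝕜 := ℝ) (i := k) (a := c) (x := x)
    ((hf.1.of_le (natCast_le_top k)).contDiffAt)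
  have h' : iteratedFDeriv ℝ k (fun x => c * f x) x = c • iteratedFDeriv ℝ k f x := h
  rw [h', norm_smul, Real.norm_eq_abs]
  exact mul_le_mul_of_nonneg_left (hf.2 k x) (abs_nonneg _)

theorem DB.mono {f : V → ℝ} {C D : ℕ → ℝ} (hf : DB f C) (h : ∀ k, C k ≤ D k) : DB f D :=
  ⟨hf.1, fun k x => (hf.2 k x).trans (h k)⟩

theorem DB.affine {f : W → ℝ} {C : ℕ → ℝ} (hf : DB f C) (L : V →L[ℝ] W) (b : W) :
    DB (fun x => f (L x + b)) (fun k => C k * ‖L‖ ^ k) := by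
  have h1 : ContDiff ℝ ((⊤ : ℕ∞) : WithTop ℕ∞) (fun w : W => f (w + b)) :=
    hf.1.comp (contDiff_id.add contDiff_const)
  refine ⟨h1.comp L.contDiff, fun k x => ?_⟩
  have h2 : iteratedFDeriv ℝ k ((fun w : W => f (w + b)) ∘ L) x
      = (iteratedFDeriv ℝ k (fun w : W => f (w + b)) (L x)).compContinuousLinearMap
        fun _ => L :=
    L.iteratedFDeriv_comp_right h1 x (natCast_le_top k)
  have h3 : iteratedFDeriv ℝ k (fun x => f (L x + b)) x
      = iteratedFDeriv ℝ k ((fun w : W => f (w + b)) ∘ L) x := rfl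
  rw [h3, h2]
  refine (ContinuousMultilinearMap.norm_compContinuousLinearMap_le _ _).trans ?_
  rw [Finset.prod_const, Finset.card_univ, Fintype.card_fin]
  refine mul_le_mul_of_nonneg_right ?_ (by positivity)
  have h4 : iteratedFDeriv ℝ k (fun w : W => f (w + b)) (L x) = iteratedFDeriv ℝ k f (L x + b) := by
    rw [iteratedFDeriv_comp_add_right]
  rw [h4]
  exact hf.2 k _

/-- Smooth functions with bounded derivatives. -/
def BD (f : V → ℝ) : Prop := ∃ C : ℕ → ℝ, DB f C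

theorem BD.of_forall {f : V → ℝ} (hf : ContDiff ℝ ((⊤ : ℕ∞) : WithTop ℕ∞) f)
    (h : ∀ k : ℕ, ∃ C : ℝ, ∀ x, ‖iteratedFDeriv ℝ k f x‖ ≤ C) : BD f := by
  choose C hC using h
  exact ⟨C, hf, hC⟩

theorem BD.of_compactSupport {f : V → ℝ} (hf : ContDiff ℝ ((⊤ : ℕ∞) : WithTop ℕ∞) f)
    (hc : HasCompactSupport f) : BD f := by
  refine BD.of_forall hf fun k => ?_
  have h1 : Continuous (iteratedFDeriv ℝ k f) := hf.continuous_iteratedFDeriv (natCast_le_top k)
  have h2 : HasCompactSupport (iteratedFDeriv ℝ k f) := hc.iteratedFDeriv k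
  exact h1.bounded_above_of_compact_support h2

theorem BD.mul {f g : V → ℝ} (hf : BD f) (hg : BD g) : BD (fun x => f x * g x) := by
  obtain ⟨C, hC⟩ := hf
  obtain ⟨D, hD⟩ := hg
  refine BD.of_forall (hC.1.mul hD.1) fun k => ?_
  refine ⟨∑ i ∈ Finset.range (k + 1), (k.choose i : ℝ) * C i * D (k - i), fun x => ?_⟩
  refine (norm_iteratedFDeriv_mul_le hC.1 hD.1 x (natCast_le_top k)).trans ?_
  refine Finset.sum_le_sum fun i _ => ?_
  have h1 := hC.2 i x
  have h2 := hD.2 (k - i) x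
  have h3 : (0:ℝ) ≤ ‖iteratedFDeriv ℝ i f x‖ := norm_nonneg _
  have h4 : (0:ℝ) ≤ ‖iteratedFDeriv ℝ (k - i) g x‖ := norm_nonneg _
  have h5 : 0 ≤ C i := h3.trans h1
  gcongr

theorem BD.comp_clm {f : W → ℝ} (hf : BD f) (L : V →L[ℝ] W) : BD (fun x => f (L x)) := by
  obtain ⟨C, hC⟩ := hf
  have h := hC.affine L 0
  simp only [add_zero] at h
  exact ⟨_, h⟩

theorem iterated_bdd_of_deriv {f : ℝ → ℝ} (h : ∀ k : ℕ, ∃ C : ℝ, ∀ x, |iteratedDeriv k f x| ≤ C) :
    ∀ k : ℕ, ∃ C : ℝ, ∀ x, ‖iteratedFDeriv ℝ k f x‖ ≤ C := by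
  intro k
  obtain ⟨C, hC⟩ := h k
  refine ⟨C, fun x => ?_⟩
  rw [norm_iteratedFDeriv_eq_norm_iteratedDeriv]
  exact hC x

theorem BD.sin : BD Real.sin := by
  refine BD.of_forall Real.contDiff_sin (iterated_bdd_of_deriv fun k => ⟨1, fun x => ?_⟩)
  exact Real.abs_iteratedDeriv_sin_le_one k x

theorem BD.cos : BD Real.cos := by
  refine BD.of_forall Real.contDiff_cos (iterated_bdd_of_deriv fun k => ⟨1, fun x => ?_⟩)
  exact Real.abs_iteratedDeriv_cos_le_one k x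

theorem BD.neg {f : V → ℝ} (hf : BD f) : BD (fun x => -f x) := by
  obtain ⟨C, hC⟩ := hf
  have h := hC.const_mul (-1)
  simp only [neg_mul, one_mul] at h
  exact ⟨_, h⟩

end

end Pool.Agent.SLG.Sn
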