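import Mathlib
import Pool.Agent.SLN.P1

/-! The cut-off tail profile and the scalar cut-off. -/

namespace Pool.Agent.SLG.Sn

open Set Filter Topology

/-- Smooth cut-off: `1` for `s ≤ 0`, `0` for `1 ≤ s`. -/
noncomputable def th (s : ℝ) : ℝ := Real.smoothTransition (1 - s)

theorem th_smooth : ContDiff ℝ ((⊤ : ℕ∞) : WithTop ℕ∞) th := by
  unfold th
  exact Real.smoothTransition.contDiff.comp (contDiff_const.sub contDiff_id)

theorem th_one {s : ℝ} (h : s ≤ 0) : th s = 1 := by
  unfold th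
  exact Real.smoothTransition.one_of_one_le (by linarith)

theorem th_zero {s : ℝ} (h : 1 ≤ s) : th s = 0 := by
  unfold th
  exact Real.smoothTransition.zero_of_nonpos (by linarith)

/-- The tail profile. -/
noncomputable def al (s : ℝ) : ℝ := Real.exp (-s) * th s

theorem al_smooth : ContDiff ℝ ((⊤ : ℕ∞) : WithTop ℕ∞) al := by
  unfold al
  exact (Real.contDiff_exp.comp contDiff_neg).mul th_smooth

theorem al_left {s : ℝ} (h : s ≤ 0) : al s = Real.exp (-s) := by
  unfold al; rw [th_one h, mul_one]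

theorem al_right {s : ℝ} (h : 1 ≤ s) : al s = 0 := by
  unfold al; rw [th_zero h, mul_zero]

/-- The derivative of a smooth function is smooth. -/
theorem smooth_deriv {E : Type*} [NormedAddCommGroup E] [NormedSpace ℝ E] {f : ℝ → E}
    (hf : ContDiff ℝ ((⊤ : ℕ∞) : WithTop ℕ∞) f) : ContDiff ℝ ((⊤ : ℕ∞) : WithTop ℕ∞) (deriv f) := by
  exact (contDiff_infty_iff_deriv.mp hf).2

theorem smooth_hasDeriv {E : Type*} [NormedAddCommGroup E] [NormedSpace ℝ E] {f : ℝ → E}
    (hf : ContDiff ℝ ((⊤ : ℕ∞) : WithTop ℕ∞) f) (x : ℝ) : HasDerivAt f (deriv f x) x :=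
  (hf.differentiable (by simp) x).hasDerivAt

/-- Two smooth functions that agree on `(-∞, a)` have the same derivative on `(-∞, a]`. -/
theorem deriv_eq_left {E : Type*} [NormedAddCommGroup E] [NormedSpace ℝ E] {f g : ℝ → E}
    (hf : ContDiff ℝ ((⊤ : ℕ∞) : WithTop ℕ∞) f) (hg : ContDiff ℝ ((⊤ : ℕ∞) : WithTop ℕ∞) g)
    {a : ℝ} (h : ∀ s, s < a → f s = g s) {s : ℝ} (hs : s ≤ a) : deriv f s = deriv g s := by
  have h1 : ∀ t ∈ Iio a, deriv f t = deriv g t := by
    intro t ht
    apply Filter.EventuallyEq.deriv_eq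
    filter_upwards [Iio_mem_nhds ht] with x hx
    exact h x hx
  have h2 : EqOn (deriv f) (deriv g) (closure (Iio a)) :=
    EqOn.closure h1 (smooth_deriv hf).continuous (smooth_deriv hg).continuous
  rw [closure_Iio] at h2
  exact h2 hs

theorem deriv_eq_right {E : Type*} [NormedAddCommGroup E] [NormedSpace ℝ E] {f g : ℝ → E}
    (hf : ContDiff ℝ ((⊤ : ℕ∞) : WithTop ℕ∞) f) (hg : ContDiff ℝ ((⊤ : ℕ∞) : WithTop ℕ∞) g)
    {a : ℝ} (h : ∀ s, a < s → f s = g s) {s : ℝ} (hs : a ≤ s) : deriv f s = deriv g s := by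
  have h1 : ∀ t ∈ Ioi a, deriv f t = deriv g t := by
    intro t ht
    apply Filter.EventuallyEq.deriv_eq
    filter_upwards [Ioi_mem_nhds ht] with x hx
    exact h x hx
  have h2 : EqOn (deriv f) (deriv g) (closure (Ioi a)) :=
    EqOn.closure h1 (smooth_deriv hf).continuous (smooth_deriv hg).continuous
  rw [closure_Ioi] at h2
  exact h2 hs

theorem exp_neg_smooth : ContDiff ℝ ((⊤ : ℕ∞) : WithTop ℕ∞) (fun s : ℝ => Real.exp (-s)) :=
  Real.contDiff_exp.comp contDiff_neg

theorem deriv_exp_neg (s : ℝ) : deriv (fun s : ℝ => Real.exp (-s)) s = -Real.exp (-s) := by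
  have h : HasDerivAt (fun s : ℝ => Real.exp (-s)) (Real.exp (-s) * (-1)) s :=
    (Real.hasDerivAt_exp (-s)).comp s (hasDerivAt_neg s)
  rw [h.deriv]; ring

theorem al'_left {s : ℝ} (h : s ≤ 0) : deriv al s = -Real.exp (-s) := by
  rw [deriv_eq_left al_smooth exp_neg_smooth (a := 0) (fun t ht => al_left ht.le) h,
    deriv_exp_neg]

theorem al''_left {s : ℝ} (h : s ≤ 0) : deriv (deriv al) s = Real.exp (-s) := by
  rw [deriv_eq_left (smooth_deriv al_smooth) (exp_neg_smooth.neg) (a := 0)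
    (fun t ht => al'_left ht.le) h]
  rw [deriv.fun_neg, deriv_exp_neg, neg_neg]

theorem al'_right {s : ℝ} (h : 1 ≤ s) : deriv al s = 0 := by
  rw [deriv_eq_right al_smooth (contDiff_const (c := (0:ℝ))) (a := 1) (fun t ht => al_right ht.le) h]
  simp

theorem al''_right {s : ℝ} (h : 1 ≤ s) : deriv (deriv al) s = 0 := by
  rw [deriv_eq_right (smooth_deriv al_smooth) (contDiff_const (c := (0:ℝ))) (a := 1)
    (fun t ht => al'_right ht.le) h]
  simp

/-- The forcing profile. -/
noncomputable def eh (s : ℝ) : ℝ := deriv (deriv al) s - al s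

/-- The energy profile. -/
noncomputable def kap (s : ℝ) : ℝ := ((deriv al s) ^ 2 - (al s) ^ 2) / 2 - eh s * al s

theorem eh_smooth : ContDiff ℝ ((⊤ : ℕ∞) : WithTop ℕ∞) eh := by
  unfold eh
  exact (smooth_deriv (smooth_deriv al_smooth)).sub al_smooth

theorem kap_smooth : ContDiff ℝ ((⊤ : ℕ∞) : WithTop ℕ∞) kap := by
  unfold kap
  exact ((((smooth_deriv al_smooth).pow 2).sub (al_smooth.pow 2)).div_const 2).sub
    (eh_smooth.mul al_smooth)

theorem eh_left {s : ℝ} (h : s ≤ 0) : eh s = 0 := by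
  unfold eh; rw [al''_left h, al_left h, sub_self]

theorem eh_right {s : ℝ} (h : 1 ≤ s) : eh s = 0 := by
  unfold eh; rw [al''_right h, al_right h, sub_self]

theorem kap_left {s : ℝ} (h : s ≤ 0) : kap s = 0 := by
  unfold kap; rw [eh_left h, al'_left h, al_left h]; ring

theorem kap_right {s : ℝ} (h : 1 ≤ s) : kap s = 0 := by
  unfold kap; rw [eh_right h, al'_right h, al_right h]; ring

theorem eh'_left {s : ℝ} (h : s ≤ 0) : deriv eh s = 0 := by
  rw [deriv_eq_left eh_smooth (contDiff_const (c := (0:ℝ))) (a := 0) (fun t ht => eh_left ht.le) h]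
  simp

theorem kap'_left {s : ℝ} (h : s ≤ 0) : deriv kap s = 0 := by
  rw [deriv_eq_left kap_smooth (contDiff_const (c := (0:ℝ))) (a := 0) (fun t ht => kap_left ht.le) h]
  simp

theorem kap_deriv (s : ℝ) : deriv kap s = -(deriv eh s * al s) := by
  have h0 := smooth_hasDeriv al_smooth s
  have h1 := smooth_hasDeriv (smooth_deriv al_smooth) s
  have h2 := smooth_hasDeriv eh_smooth s
  have h3 : HasDerivAt kap
      (((2 * deriv al s * deriv (deriv al) s) - (2 * al s * deriv al s)) / 2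
        - (deriv eh s * al s + eh s * deriv al s)) s := by
    have h4 := (((h1.pow 2).sub (h0.pow 2)).div_const 2).sub (h2.mul h0)
    refine h4.congr_deriv ?_
    norm_num
  rw [h3.deriv]
  unfold eh
  ring

theorem compact_of_zero {f : ℝ → ℝ} (h1 : ∀ s, s ≤ 0 → f s = 0) (h2 : ∀ s, 1 ≤ s → f s = 0) :
    HasCompactSupport f := by
  apply HasCompactSupport.intro (isCompact_Icc (a := (0:ℝ)) (b := 1))
  intro x hx
  by_cases h : x ≤ 0
  · exact h1 x h
  · apply h2
    by_contra h3
    exact hx ⟨by linarith, by linarith⟩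

theorem eh_BD : BD eh :=
  BD.of_compactSupport eh_smooth (compact_of_zero (fun _ h => eh_left h) (fun _ h => eh_right h))

theorem kap_BD : BD kap :=
  BD.of_compactSupport kap_smooth
    (compact_of_zero (fun _ h => kap_left h) (fun _ h => kap_right h))

/-- Bounds of the profile and of its two first derivatives. -/
theorem al_bounds : ∃ C : ℝ, 1 ≤ C ∧ ∀ s, |al s| ≤ C * Real.exp (-s) ∧
    |deriv al s| ≤ C * Real.exp (-s) ∧ |deriv (deriv al) s| ≤ C * Real.exp (-s) := by
  have hb : ∀ f : ℝ → ℝ, Continuous f → ∃ C : ℝ, ∀ s ∈ Icc (0:ℝ) 1, |f s| ≤ C := by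
    intro f hf
    obtain ⟨C, hC⟩ := (isCompact_Icc (a := (0:ℝ)) (b := 1)).exists_bound_of_continuousOn
      hf.continuousOn
    exact ⟨C, fun s hs => hC s hs⟩
  obtain ⟨C0, h0⟩ := hb _ al_smooth.continuous
  obtain ⟨C1, h1⟩ := hb _ (smooth_deriv al_smooth).continuous
  obtain ⟨C2, h2⟩ := hb _ (smooth_deriv (smooth_deriv al_smooth)).continuous
  set M := max 1 (max C0 (max C1 C2)) with hM
  have hM1 : 1 ≤ M := le_max_left _ _
  have hM0 : C0 ≤ M := (le_max_left _ _).trans (le_max_right _ _)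
  have hM2 : C1 ≤ M := ((le_max_left _ _).trans (le_max_right _ _)).trans (le_max_right _ _)
  have hM3 : C2 ≤ M := ((le_max_right _ _).trans (le_max_right _ _)).trans (le_max_right _ _)
  have key : ∀ (s x C : ℝ), C ≤ M → (s ≤ 0 → |x| = Real.exp (-s)) → (1 ≤ s → x = 0) →
      (s ∈ Icc (0:ℝ) 1 → |x| ≤ C) → |x| ≤ M * Real.exp 1 * Real.exp (-s) := by
    intro s x C hC ha hb hc
    have e1 : (1:ℝ) ≤ Real.exp 1 := Real.one_le_exp (by norm_num)
    have ep := Real.exp_pos (-s)
    rcases le_or_gt s 0 with h | h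
    · rw [ha h]
      have : 1 ≤ M * Real.exp 1 := by nlinarith
      nlinarith
    · rcases le_or_gt 1 s with h' | h'
      · rw [hb h', abs_zero]; positivity
      · have h3 := hc ⟨h.le, h'.le⟩
        have h4 : 1 ≤ Real.exp 1 * Real.exp (-s) := by
          rw [← Real.exp_add]; exact Real.one_le_exp (by linarith)
        calc |x| ≤ M := h3.trans hC
          _ = M * 1 := (mul_one M).symm
          _ ≤ M * (Real.exp 1 * Real.exp (-s)) := by
              apply mul_le_mul_of_nonneg_left h4; linarith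
          _ = _ := by ring
  refine ⟨M * Real.exp 1, ?_, fun s => ⟨?_, ?_, ?_⟩⟩
  · have e1 : (1:ℝ) ≤ Real.exp 1 := Real.one_le_exp (by norm_num)
    nlinarith
  · exact key s _ _ hM0 (fun h => by rw [al_left h, abs_of_pos (Real.exp_pos _)])
      (fun h => al_right h) (h0 s)
  · exact key s _ _ hM2 (fun h => by rw [al'_left h, abs_neg, abs_of_pos (Real.exp_pos _)])
      (fun h => al'_right h) (h1 s)
  · exact key s _ _ hM3 (fun h => by rw [al''_left h, abs_of_pos (Real.exp_pos _)])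
      (fun h => al''_right h) (h2 s)

/-- A fixed bump function. -/
noncomputable def bmp : ContDiffBump (0 : ℝ) := ⟨2, 3, by norm_num, by norm_num⟩

/-- The scalar cut-off of the identity: `Sc a = a` for `|a| ≤ 2`. -/
noncomputable def Sc (a : ℝ) : ℝ := a * bmp a

theorem Sc_smooth : ContDiff ℝ ((⊤ : ℕ∞) : WithTop ℕ∞) Sc := by
  unfold Sc
  exact contDiff_id.mul bmp.contDiff

theorem Sc_id {a : ℝ} (h : |a| ≤ 2) : Sc a = a := by
  unfold Sc
  have : bmp a = 1 := bmp.one_of_mem_closedBall (by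
    rw [mem_closedBall_zero_iff, Real.norm_eq_abs]; exact h)
  rw [this, mul_one]

theorem Sc_deriv {a : ℝ} (h : |a| ≤ 1) : deriv Sc a = 1 := by
  have h1 : Sc =ᶠ[𝓝 a] fun x => x := by
    have : ∀ᶠ x in 𝓝 a, |x| < 2 := by
      have hc : ContinuousAt (fun x : ℝ => |x|) a := continuous_abs.continuousAt
      exact hc.eventually_lt continuousAt_const (by linarith)
    filter_upwards [this] with x hx
    exact Sc_id hx.le
  rw [h1.deriv_eq]
  exact (hasDerivAt_id a).deriv

theorem Sc_BD : BD Sc := by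
  apply BD.of_compactSupport Sc_smooth
  unfold Sc
  exact bmp.hasCompactSupport.mul_left

end Pool.Agent.SLG.Sn
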