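import Mathlib
import Pool.Agent.SLN.SolDefs
import Pool.Agent.SLN.P2

/-! The cut-off curve and the cut-off stress. -/

namespace Pool.Agent.SLG.Sn

open Set Filter Topology

variable {m : ℕ}

/-- The cut-off curve. -/
noncomputable def gR (g : ℝ → Fin m → ℝ) (R t : ℝ) : Fin m → ℝ :=
  (th (t - R) * th (-t - R)) • g t

/-- The cut-off stress. -/
noncomputable def pR (g p : ℝ → Fin m → ℝ) (R t : ℝ) : Fin m → ℝ :=
  p t - deriv g t + deriv (gR g R) t

theorem Sol.mono {f : MI (Fin m × Fin 2) → ℝ} {g p : ℝ → Fin m → ℝ} {vl vr : Fin m → ℝ}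
    {Y0 Y1 : ℝ} (S : Sol f g p vl vr Y0) (h : Y0 ≤ Y1) : Sol f g p vl vr Y1 where
  smf := S.smf
  spc := S.spc
  smg := S.smg
  smp := S.smp
  left := fun y hy => S.left y (by linarith)
  right := fun y hy => S.right y (by linarith)
  pout := fun y hy => S.pout y (by linarith)
  near := S.near
  val := S.val
  grd := S.grd
  nz := S.nz

theorem gR_smooth {g : ℝ → Fin m → ℝ} (hg : ContDiff ℝ ((⊤ : ℕ∞) : WithTop ℕ∞) g) (R : ℝ) :
    ContDiff ℝ ((⊤ : ℕ∞) : WithTop ℕ∞) (gR g R) := by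
  unfold gR
  have h1 : ContDiff ℝ ((⊤ : ℕ∞) : WithTop ℕ∞) (fun t : ℝ => th (t - R)) :=
    th_smooth.comp (contDiff_id.sub contDiff_const)
  have h2 : ContDiff ℝ ((⊤ : ℕ∞) : WithTop ℕ∞) (fun t : ℝ => th (-t - R)) :=
    th_smooth.comp (contDiff_neg.sub contDiff_const)
  exact (h1.mul h2).smul hg

theorem pR_smooth {g p : ℝ → Fin m → ℝ} (hg : ContDiff ℝ ((⊤ : ℕ∞) : WithTop ℕ∞) g)
    (hp : ContDiff ℝ ((⊤ : ℕ∞) : WithTop ℕ∞) p) (R : ℝ) :
    ContDiff ℝ ((⊤ : ℕ∞) : WithTop ℕ∞) (pR g p R) := by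
  unfold pR
  exact (hp.sub (smooth_deriv hg)).add (smooth_deriv (gR_smooth hg R))

theorem deriv_eq_Icc {E : Type*} [NormedAddCommGroup E] [NormedSpace ℝ E] {f g : ℝ → E}
    (hf : ContDiff ℝ ((⊤ : ℕ∞) : WithTop ℕ∞) f) (hg : ContDiff ℝ ((⊤ : ℕ∞) : WithTop ℕ∞) g)
    {a b : ℝ} (hab : a < b) (h : ∀ s, a ≤ s → s ≤ b → f s = g s) {s : ℝ} (hs : a ≤ s)
    (hs' : s ≤ b) : deriv f s = deriv g s := by
  have h1 : ∀ t ∈ Ioo a b, deriv f t = deriv g t := by
    intro t ht
    apply Filter.EventuallyEq.deriv_eq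
    filter_upwards [Ioo_mem_nhds ht.1 ht.2] with x hx
    exact h x hx.1.le hx.2.le
  have h2 : EqOn (deriv f) (deriv g) (closure (Ioo a b)) :=
    EqOn.closure h1 (smooth_deriv hf).continuous (smooth_deriv hg).continuous
  rw [closure_Ioo hab.ne] at h2
  exact h2 ⟨hs, hs'⟩

theorem gR_mid (g : ℝ → Fin m → ℝ) {R t : ℝ} (h1 : -R ≤ t) (h2 : t ≤ R) : gR g R t = g t := by
  unfold gR
  rw [th_one (by linarith), th_one (by linarith), mul_one, one_smul]

section

variable {f : MI (Fin m × Fin 2) → ℝ} {g p : ℝ → Fin m → ℝ} {vl vr : Fin m → ℝ} {Y0 : ℝ}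

theorem gR'_mid (S : Sol f g p vl vr Y0) {R t : ℝ} (hR : 0 < R) (h1 : -R ≤ t) (h2 : t ≤ R) :
    deriv (gR g R) t = deriv g t :=
  deriv_eq_Icc (gR_smooth S.smg R) S.smg (a := -R) (b := R) (by linarith)
    (fun s hs hs' => gR_mid g hs hs') h1 h2

theorem pR_mid (S : Sol f g p vl vr Y0) {R t : ℝ} (hR : 0 < R) (h1 : -R ≤ t) (h2 : t ≤ R) :
    pR g p R t = p t := by
  unfold pR
  rw [gR'_mid S hR h1 h2]; abel

theorem pR'_mid (S : Sol f g p vl vr Y0) {R t : ℝ} (hR : 0 < R) (h1 : -R ≤ t) (h2 : t ≤ R) :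
    deriv (pR g p R) t = deriv p t :=
  deriv_eq_Icc (pR_smooth S.smg S.smp R) S.smp (a := -R) (b := R) (by linarith)
    (fun _ hs hs' => pR_mid S hR hs hs') h1 h2

/-- The right tail as a function. -/
noncomputable def tl (v : Fin m → ℝ) (R t : ℝ) : Fin m → ℝ := (Real.exp (-R) * al (t - R)) • v

theorem tl_smooth (v : Fin m → ℝ) (R : ℝ) : ContDiff ℝ ((⊤ : ℕ∞) : WithTop ℕ∞) (tl v R) := by
  unfold tl
  have h1 : ContDiff ℝ ((⊤ : ℕ∞) : WithTop ℕ∞) (fun t : ℝ => al (t - R)) :=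
    al_smooth.comp (contDiff_id.sub contDiff_const)
  exact (contDiff_const.mul h1).smul contDiff_const

theorem tl_deriv (v : Fin m → ℝ) (R t : ℝ) :
    HasDerivAt (tl v R) ((Real.exp (-R) * deriv al (t - R)) • v) t := by
  have h1 : HasDerivAt (fun t : ℝ => al (t - R)) (deriv al (t - R)) t := by
    have := (smooth_hasDeriv al_smooth (t - R)).comp t ((hasDerivAt_id t).sub_const R)
    simpa [Function.comp_def] using this
  exact (h1.const_mul (Real.exp (-R))).smul_const v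

theorem tl_deriv2 (v : Fin m → ℝ) (R t : ℝ) :
    HasDerivAt (deriv (tl v R)) ((Real.exp (-R) * deriv (deriv al) (t - R)) • v) t := by
  have e : deriv (tl v R) = fun t => (Real.exp (-R) * deriv al (t - R)) • v := by
    funext t; exact (tl_deriv v R t).deriv
  rw [e]
  have h1 : HasDerivAt (fun t : ℝ => deriv al (t - R)) (deriv (deriv al) (t - R)) t := by
    have := (smooth_hasDeriv (smooth_deriv al_smooth) (t - R)).comp t
      ((hasDerivAt_id t).sub_const R)
    simpa [Function.comp_def] using this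
  exact (h1.const_mul (Real.exp (-R))).smul_const v

theorem gR_right (S : Sol f g p vl vr Y0) {R t : ℝ} (hR : 0 ≤ R) (hY : 0 ≤ Y0) (h : Y0 ≤ t) :
    gR g R t = tl vr R t := by
  unfold gR tl al
  rw [th_one (s := -t - R) (by linarith), S.right t h, smul_smul]
  congr 1
  have : Real.exp (-t) = Real.exp (-R) * Real.exp (-(t - R)) := by
    rw [← Real.exp_add]; congr 1; ring
  rw [this]; ring

theorem gR'_right (S : Sol f g p vl vr Y0) {R t : ℝ} (hR : 0 ≤ R) (hY : 0 ≤ Y0) (h : Y0 ≤ t) :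
    deriv (gR g R) t = (Real.exp (-R) * deriv al (t - R)) • vr := by
  rw [deriv_eq_right (gR_smooth S.smg R) (tl_smooth vr R)
    (fun s hs => gR_right S hR hY (le_of_lt hs)) h]
  exact (tl_deriv vr R t).deriv

theorem gR''_right (S : Sol f g p vl vr Y0) {R t : ℝ} (hR : 0 ≤ R) (hY : 0 ≤ Y0) (h : Y0 ≤ t) :
    deriv (deriv (gR g R)) t = (Real.exp (-R) * deriv (deriv al) (t - R)) • vr := by
  rw [deriv_eq_right (smooth_deriv (gR_smooth S.smg R)) (smooth_deriv (tl_smooth vr R))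
    (fun s hs => by rw [gR'_right S hR hY (le_of_lt hs), (tl_deriv vr R s).deriv]) h]
  exact (tl_deriv2 vr R t).deriv

/-- The left tail as a function. -/
noncomputable def tr (v : Fin m → ℝ) (R t : ℝ) : Fin m → ℝ := (Real.exp (-R) * al (-t - R)) • v

theorem tr_smooth (v : Fin m → ℝ) (R : ℝ) : ContDiff ℝ ((⊤ : ℕ∞) : WithTop ℕ∞) (tr v R) := by
  unfold tr
  have h1 : ContDiff ℝ ((⊤ : ℕ∞) : WithTop ℕ∞) (fun t : ℝ => al (-t - R)) :=
    al_smooth.comp (contDiff_neg.sub contDiff_const)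
  exact (contDiff_const.mul h1).smul contDiff_const

theorem tr_deriv (v : Fin m → ℝ) (R t : ℝ) :
    HasDerivAt (tr v R) ((Real.exp (-R) * -deriv al (-t - R)) • v) t := by
  have h1 : HasDerivAt (fun t : ℝ => al (-t - R)) (-deriv al (-t - R)) t := by
    have := (smooth_hasDeriv al_smooth (-t - R)).comp t ((hasDerivAt_neg t).sub_const R)
    simpa [Function.comp_def] using this
  exact (h1.const_mul (Real.exp (-R))).smul_const v

theorem tr_deriv2 (v : Fin m → ℝ) (R t : ℝ) :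
    HasDerivAt (deriv (tr v R)) ((Real.exp (-R) * deriv (deriv al) (-t - R)) • v) t := by
  have e : deriv (tr v R) = fun t => (Real.exp (-R) * -deriv al (-t - R)) • v := by
    funext t; exact (tr_deriv v R t).deriv
  rw [e]
  have h1 : HasDerivAt (fun t : ℝ => -deriv al (-t - R)) (deriv (deriv al) (-t - R)) t := by
    have h0 := (smooth_hasDeriv (smooth_deriv al_smooth) (-t - R)).comp t
      ((hasDerivAt_neg t).sub_const R)
    have h2 := h0.neg
    simp only [mul_neg, mul_one, neg_neg] at h2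
    exact h2
  exact (h1.const_mul (Real.exp (-R))).smul_const v

theorem gR_left (S : Sol f g p vl vr Y0) {R t : ℝ} (hR : 0 ≤ R) (hY : 0 ≤ Y0) (h : t ≤ -Y0) :
    gR g R t = tr vl R t := by
  unfold gR tr al
  rw [th_one (s := t - R) (by linarith), S.left t h, smul_smul]
  congr 1
  have : Real.exp t = Real.exp (-R) * Real.exp (-(-t - R)) := by
    rw [← Real.exp_add]; congr 1; ring
  rw [this]; ring

theorem gR'_left (S : Sol f g p vl vr Y0) {R t : ℝ} (hR : 0 ≤ R) (hY : 0 ≤ Y0) (h : t ≤ -Y0) :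
    deriv (gR g R) t = (Real.exp (-R) * -deriv al (-t - R)) • vl := by
  rw [deriv_eq_left (gR_smooth S.smg R) (tr_smooth vl R)
    (fun s hs => gR_left S hR hY (le_of_lt hs)) h]
  exact (tr_deriv vl R t).deriv

theorem gR''_left (S : Sol f g p vl vr Y0) {R t : ℝ} (hR : 0 ≤ R) (hY : 0 ≤ Y0) (h : t ≤ -Y0) :
    deriv (deriv (gR g R)) t = (Real.exp (-R) * deriv (deriv al) (-t - R)) • vl := by
  rw [deriv_eq_left (smooth_deriv (gR_smooth S.smg R)) (smooth_deriv (tr_smooth vl R))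
    (fun s hs => by rw [gR'_left S hR hY (le_of_lt hs), (tr_deriv vl R s).deriv]) h]
  exact (tr_deriv2 vl R t).deriv

theorem pR_out (S : Sol f g p vl vr Y0) {R t : ℝ} (h : Y0 ≤ |t|) :
    pR g p R t = deriv (gR g R) t := by
  unfold pR
  rw [S.pout t h]; abel

theorem pR'_right (S : Sol f g p vl vr Y0) {R t : ℝ} (hY : 0 ≤ Y0) (h : Y0 ≤ t) :
    deriv (pR g p R) t = deriv (deriv (gR g R)) t :=
  deriv_eq_right (pR_smooth S.smg S.smp R) (smooth_deriv (gR_smooth S.smg R))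
    (fun s hs => pR_out S (by rw [abs_of_nonneg (by linarith)]; exact le_of_lt hs)) h

theorem pR'_left (S : Sol f g p vl vr Y0) {R t : ℝ} (hY : 0 ≤ Y0) (h : t ≤ -Y0) :
    deriv (pR g p R) t = deriv (deriv (gR g R)) t :=
  deriv_eq_left (pR_smooth S.smg S.smp R) (smooth_deriv (gR_smooth S.smg R))
    (fun s hs => pR_out S (by rw [abs_of_nonpos (by linarith)]; linarith)) h

/-- Everything vanishes for `R + 1 ≤ |t|`. -/
theorem R_zero (S : Sol f g p vl vr Y0) {R t : ℝ} (hR : 0 ≤ R) (hY : 0 ≤ Y0) (hYR : Y0 ≤ R)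
    (h : R + 1 ≤ |t|) : gR g R t = 0 ∧ deriv (gR g R) t = 0 ∧ pR g p R t = 0 ∧
      deriv (pR g p R) t = 0 := by
  rcases le_abs.mp h with h1 | h1
  · have hy : Y0 ≤ t := by linarith
    have h2 : (1:ℝ) ≤ t - R := by linarith
    have e1 : deriv (gR g R) t = 0 := by rw [gR'_right S hR hY hy, al'_right h2]; simp
    refine ⟨?_, e1, ?_, ?_⟩
    · rw [gR_right S hR hY hy]; unfold tl; rw [al_right h2]; simp
    · rw [pR_out S (by rw [abs_of_nonneg (by linarith)]; exact hy), e1]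
    · rw [pR'_right S hY hy, gR''_right S hR hY hy, al''_right h2]; simp
  · have hy : t ≤ -Y0 := by linarith
    have h2 : (1:ℝ) ≤ -t - R := by linarith
    have e1 : deriv (gR g R) t = 0 := by rw [gR'_left S hR hY hy, al'_right h2]; simp
    refine ⟨?_, e1, ?_, ?_⟩
    · rw [gR_left S hR hY hy]; unfold tr; rw [al_right h2]; simp
    · rw [pR_out S (by rw [abs_of_nonpos (by linarith)]; linarith), e1]
    · rw [pR'_left S hY hy, gR''_left S hR hY hy, al''_right h2]; simp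

/-- Uniform bounds. -/
theorem R_bounds (S : Sol f g p vl vr Y0) (hY : 0 ≤ Y0) : ∃ C : ℝ, 0 ≤ C ∧
    (∀ R t : ℝ, 0 < R → Y0 ≤ R → ‖gR g R t‖ ≤ C ∧ ‖deriv (gR g R) t‖ ≤ C ∧ ‖pR g p R t‖ ≤ C ∧
      ‖deriv (pR g p R) t‖ ≤ C) ∧
    (∀ R t : ℝ, 0 < R → Y0 ≤ R → R ≤ |t| → ‖gR g R t‖ ≤ C * Real.exp (-R) ∧
      ‖deriv (gR g R) t‖ ≤ C * Real.exp (-R)) := by
  have hb : ∀ F : ℝ → Fin m → ℝ, Continuous F → ∃ C : ℝ, 0 ≤ C ∧ ∀ s, -Y0 ≤ s → s ≤ Y0 →
      ‖F s‖ ≤ C := by
    intro F hF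
    obtain ⟨C, hC⟩ := (isCompact_Icc (a := -Y0) (b := Y0)).exists_bound_of_continuousOn
      hF.continuousOn
    exact ⟨max C 0, le_max_right _ _, fun s h1 h2 => (hC s ⟨h1, h2⟩).trans (le_max_left _ _)⟩
  obtain ⟨C0, h00, h0⟩ := hb _ S.smg.continuous
  obtain ⟨C1, h10, h1⟩ := hb _ (smooth_deriv S.smg).continuous
  obtain ⟨C2, h20, h2⟩ := hb _ S.smp.continuous
  obtain ⟨C3, h30, h3⟩ := hb _ (smooth_deriv S.smp).continuous
  obtain ⟨A, hA1, hA⟩ := al_bounds
  set V := ‖vl‖ + ‖vr‖ with hV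
  have hV0 : 0 ≤ V := by positivity
  set C := C0 + C1 + C2 + C3 + A * V with hC
  have hAV : 0 ≤ A * V := by positivity
  have hCAV : A * V ≤ C := by rw [hC]; linarith
  -- the tails
  have tail : ∀ R s : ℝ, ∀ x : ℝ, ∀ v : Fin m → ℝ, ‖v‖ ≤ V → |x| ≤ A * Real.exp (-s) →
      ‖(Real.exp (-R) * x) • v‖ ≤ A * V * (Real.exp (-R) * Real.exp (-s)) := by
    intro R s x v hv hx
    rw [norm_smul, norm_mul, Real.norm_eq_abs, Real.norm_eq_abs, abs_of_pos (Real.exp_pos _)]
    have h5 : Real.exp (-R) * |x| ≤ Real.exp (-R) * (A * Real.exp (-s)) :=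
      mul_le_mul_of_nonneg_left hx (Real.exp_pos _).le
    calc Real.exp (-R) * |x| * ‖v‖ ≤ (Real.exp (-R) * (A * Real.exp (-s))) * V := by
          apply mul_le_mul h5 hv (norm_nonneg _)
          have := Real.exp_pos (-R); have := Real.exp_pos (-s); positivity
      _ = _ := by ring
  have hvl : ‖vl‖ ≤ V := by rw [hV]; linarith [norm_nonneg vr]
  have hvr : ‖vr‖ ≤ V := by rw [hV]; linarith [norm_nonneg vl]
  -- right tail bounds
  have rt : ∀ R t : ℝ, 0 < R → Y0 ≤ t → ‖gR g R t‖ ≤ A * V * Real.exp (-t) ∧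
      ‖deriv (gR g R) t‖ ≤ A * V * Real.exp (-t) ∧
      ‖deriv (deriv (gR g R)) t‖ ≤ A * V * Real.exp (-t) := by
    intro R t hR ht
    have e : Real.exp (-R) * Real.exp (-(t - R)) = Real.exp (-t) := by
      rw [← Real.exp_add]; congr 1; ring
    refine ⟨?_, ?_, ?_⟩
    · rw [gR_right S hR.le hY ht, ← e]
      exact tail R (t - R) _ vr hvr (hA (t - R)).1
    · rw [gR'_right S hR.le hY ht, ← e]
      exact tail R (t - R) _ vr hvr (hA (t - R)).2.1
    · rw [gR''_right S hR.le hY ht, ← e]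
      exact tail R (t - R) _ vr hvr (hA (t - R)).2.2
  have lt : ∀ R t : ℝ, 0 < R → t ≤ -Y0 → ‖gR g R t‖ ≤ A * V * Real.exp t ∧
      ‖deriv (gR g R) t‖ ≤ A * V * Real.exp t ∧
      ‖deriv (deriv (gR g R)) t‖ ≤ A * V * Real.exp t := by
    intro R t hR ht
    have e : Real.exp (-R) * Real.exp (-(-t - R)) = Real.exp t := by
      rw [← Real.exp_add]; congr 1; ring
    refine ⟨?_, ?_, ?_⟩
    · rw [gR_left S hR.le hY ht, ← e]
      exact tail R (-t - R) _ vl hvl (hA (-t - R)).1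
    · rw [gR'_left S hR.le hY ht, ← e]
      exact tail R (-t - R) _ vl hvl (by rw [abs_neg]; exact (hA (-t - R)).2.1)
    · rw [gR''_left S hR.le hY ht, ← e]
      exact tail R (-t - R) _ vl hvl (hA (-t - R)).2.2
  refine ⟨C, by rw [hC]; positivity, ?_, ?_⟩
  · intro R t hR hYR
    rcases le_or_gt Y0 t with ht | ht
    · have he : Real.exp (-t) ≤ 1 := Real.exp_le_one_iff.mpr (by linarith)
      have hm : A * V * Real.exp (-t) ≤ C :=
        (mul_le_of_le_one_right hAV he).trans hCAV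
      obtain ⟨a1, a2, a3⟩ := rt R t hR ht
      refine ⟨a1.trans hm, a2.trans hm, ?_, ?_⟩
      · rw [pR_out S (by rw [abs_of_nonneg (by linarith)]; exact ht)]; exact a2.trans hm
      · rw [pR'_right S hY ht]; exact a3.trans hm
    · rcases le_or_gt t (-Y0) with ht' | ht'
      · have he : Real.exp t ≤ 1 := Real.exp_le_one_iff.mpr (by linarith)
        have hm : A * V * Real.exp t ≤ C :=
          (mul_le_of_le_one_right hAV he).trans hCAV
        obtain ⟨a1, a2, a3⟩ := lt R t hR ht'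
        refine ⟨a1.trans hm, a2.trans hm, ?_, ?_⟩
        · rw [pR_out S (by rw [abs_of_nonpos (by linarith)]; linarith)]; exact a2.trans hm
        · rw [pR'_left S hY ht']; exact a3.trans hm
      · have ha : -R ≤ t := by linarith
        have hb' : t ≤ R := by linarith
        refine ⟨?_, ?_, ?_, ?_⟩
        · rw [gR_mid g ha hb']
          exact (h0 t ht'.le ht.le).trans (by rw [hC]; linarith)
        · rw [gR'_mid S hR ha hb']
          exact (h1 t ht'.le ht.le).trans (by rw [hC]; linarith)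
        · rw [pR_mid S hR ha hb']
          exact (h2 t ht'.le ht.le).trans (by rw [hC]; linarith)
        · rw [pR'_mid S hR ha hb']
          exact (h3 t ht'.le ht.le).trans (by rw [hC]; linarith)
  · intro R t hR hYR ht
    rcases le_abs.mp ht with h5 | h5
    · obtain ⟨a1, a2, -⟩ := rt R t hR (hYR.trans h5)
      have he : Real.exp (-t) ≤ Real.exp (-R) := Real.exp_le_exp.mpr (by linarith)
      have hm : A * V * Real.exp (-t) ≤ C * Real.exp (-R) :=
        mul_le_mul hCAV he (Real.exp_pos _).le (hAV.trans hCAV)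
      exact ⟨a1.trans hm, a2.trans hm⟩
    · obtain ⟨a1, a2, -⟩ := lt R t hR (by linarith)
      have he : Real.exp t ≤ Real.exp (-R) := Real.exp_le_exp.mpr (by linarith)
      have hm : A * V * Real.exp t ≤ C * Real.exp (-R) :=
        mul_le_mul hCAV he (Real.exp_pos _).le (hAV.trans hCAV)
      exact ⟨a1.trans hm, a2.trans hm⟩

end

end Pool.Agent.SLG.Sn
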