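import Mathlib
import Pool.Agent.SLN.SolDefs
import Pool.Agent.SLN.Defs
import Pool.Agent.SLN.P3

/-! The fields of one strip: layout, derivatives, the two stationarity identities. -/

namespace Pool.Agent.SLG.Sn

open Set Filter Topology

/-! ### trigonometric rows -/

theorem cs_deriv (l : Fin 2) (x : ℝ) : HasDerivAt (cs l) (sn l x) x := by
  unfold cs sn
  fin_cases l
  · simpa using Real.hasDerivAt_cos x
  · simpa using Real.hasDerivAt_sin x

theorem sn_deriv (l : Fin 2) (x : ℝ) : HasDerivAt (sn l) (-cs l x) x := by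
  unfold cs sn
  fin_cases l
  · exact (Real.hasDerivAt_sin x).neg
  · simpa using Real.hasDerivAt_cos x

theorem cs_smooth (l : Fin 2) : ContDiff ℝ ((⊤ : ℕ∞) : WithTop ℕ∞) (cs l) := by
  unfold cs
  fin_cases l
  · simpa using Real.contDiff_cos
  · simpa using Real.contDiff_sin

theorem sn_smooth (l : Fin 2) : ContDiff ℝ ((⊤ : ℕ∞) : WithTop ℕ∞) (sn l) := by
  unfold sn
  fin_cases l
  · simpa using Real.contDiff_sin.neg
  · simpa using Real.contDiff_cos

theorem sum_sn_sn (x : ℝ) : ∑ l, sn l x * sn l x = 1 := by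
  rw [Fin.sum_univ_two]; unfold sn; simp only [if_true, one_ne_zero, if_false]
  nlinarith [Real.sin_sq_add_cos_sq x]

theorem sum_cs_cs (x : ℝ) : ∑ l, cs l x * cs l x = 1 := by
  rw [Fin.sum_univ_two]; unfold cs; simp only [if_true, one_ne_zero, if_false]
  nlinarith [Real.sin_sq_add_cos_sq x]

theorem sum_sn_cs (x : ℝ) : ∑ l, sn l x * cs l x = 0 := by
  rw [Fin.sum_univ_two]; unfold cs sn; simp only [if_true, one_ne_zero, if_false]
  ring

theorem abs_cs_le (l : Fin 2) (x : ℝ) : |cs l x| ≤ 1 := by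
  unfold cs; split_ifs
  · exact Real.abs_cos_le_one x
  · exact Real.abs_sin_le_one x

theorem abs_sn_le (l : Fin 2) (x : ℝ) : |sn l x| ≤ 1 := by
  unfold sn; split_ifs
  · rw [abs_neg]; exact Real.abs_sin_le_one x
  · exact Real.abs_cos_le_one x

/-! ### layout -/

section

variable {m n : ℕ}

/-- The integrand on `Mat n`. -/
noncomputable def fe (e : Fin n ≃ Fin m × Fin 2) (f : MI (Fin m × Fin 2) → ℝ) (X : Mat n) : ℝ :=
  f (fun kl => X (e.symm kl))

/-- Reindexing as a continuous linear map. -/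
noncomputable def rx (e : Fin n ≃ Fin m × Fin 2) : Mat n →L[ℝ] MI (Fin m × Fin 2) :=
  LinearMap.toContinuousLinearMap
    { toFun := fun X kl => X (e.symm kl)
      map_add' := fun _ _ => rfl
      map_smul' := fun _ _ => rfl }

theorem rx_apply (e : Fin n ≃ Fin m × Fin 2) (X : Mat n) : rx e X = fun kl => X (e.symm kl) := rfl

theorem fe_eq (e : Fin n ≃ Fin m × Fin 2) (f : MI (Fin m × Fin 2) → ℝ) :
    fe e f = fun X => f (rx e X) := rfl

theorem fe_smooth (e : Fin n ≃ Fin m × Fin 2) {f : MI (Fin m × Fin 2) → ℝ}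
    (hf : ContDiff ℝ ((⊤ : ℕ∞) : WithTop ℕ∞) f) :
    ContDiff ℝ ((⊤ : ℕ∞) : WithTop ℕ∞) (fe e f) := by
  rw [fe_eq]; exact hf.comp (rx e).contDiff

theorem fe_grd (e : Fin n ≃ Fin m × Fin 2) {f : MI (Fin m × Fin 2) → ℝ}
    (hf : ContDiff ℝ ((⊤ : ℕ∞) : WithTop ℕ∞) f) (X : Mat n) (i : Fin n) (j : Fin 2) :
    Grd (fe e f) X i j = GrdI f (fun kl => X (e.symm kl)) (e i) j := by
  unfold Grd GrdI
  have h1 : HasFDerivAt f (fderiv ℝ f (rx e X)) (rx e X) :=
    (hf.differentiable (by simp) _).hasFDerivAt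
  have h2 : HasFDerivAt (fe e f) ((fderiv ℝ f (rx e X)).comp (rx e)) X :=
    h1.comp X (rx e).hasFDerivAt
  rw [h2.fderiv]
  have h3 : rx e (Pi.single i (Pi.single j 1)) = Pi.single (e i) (Pi.single j (1:ℝ)) := by
    rw [rx_apply]
    funext kl j'
    by_cases h : kl = e i
    · subst h; simp
    · have h' : e.symm kl ≠ i := fun h'' => h (by rw [← h'']; simp)
      rw [Pi.single_eq_of_ne h', Pi.single_eq_of_ne h]
  show (fderiv ℝ f (rx e X)) (rx e (Pi.single i (Pi.single j 1))) = _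
  rw [h3]
  rfl

theorem fe_spc (e : Fin n ≃ Fin m × Fin 2) {f : MI (Fin m × Fin 2) → ℝ} (hf : SPC f) :
    StronglyPolyconvex (fe e f) := by
  obtain ⟨γ, hγ, g, hg, h⟩ := hf
  let T : Mat n × (Fin n → Fin n → ℝ) →ₗ[ℝ]
      MI (Fin m × Fin 2) × (Fin m × Fin 2 → Fin m × Fin 2 → ℝ) :=
    { toFun := fun q => (fun kl => q.1 (e.symm kl), fun p r => q.2 (e.symm p) (e.symm r))
      map_add' := fun _ _ => rfl
      map_smul' := fun _ _ => rfl }
  refine ⟨γ, hγ, fun q => g (T q), ?_, fun X => ?_⟩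
  · have := hg.comp_linearMap T
    simpa [Function.comp_def] using this
  · have hs : sq X = sq (fun kl => X (e.symm kl)) := by
      unfold sq
      exact (Equiv.sum_comp e.symm (fun i => ∑ j, X i j ^ 2)).symm
    show f (fun kl => X (e.symm kl)) - γ * sq X = _
    rw [hs, h]
    rfl

/-! ### the generic field -/

/-- The field `(i e^{ix/h} a(t), e^{ix/h} c(t))`, `t = (y - b) / h`. -/
noncomputable def Qf (e : Fin n ≃ Fin m × Fin 2) (a c : ℝ → Fin m → ℝ) (h b : ℝ) (z : E2) :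
    Mat n :=
  fun i j => St (a ((z 1 - b) / h)) (c ((z 1 - b) / h)) (z 0 / h) (e i) j

theorem smooth_coord (j : Fin 2) : ContDiff ℝ ((⊤ : ℕ∞) : WithTop ℕ∞) (fun z : E2 => z j) := by
  fun_prop

theorem smooth_t (h b : ℝ) :
    ContDiff ℝ ((⊤ : ℕ∞) : WithTop ℕ∞) (fun z : E2 => (z 1 - b) / h) :=
  ((smooth_coord 1).sub contDiff_const).div_const h

theorem smooth_x (h : ℝ) :
    ContDiff ℝ ((⊤ : ℕ∞) : WithTop ℕ∞) (fun z : E2 => z 0 / h) :=
  (smooth_coord 0).div_const h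

theorem smooth_comp_k {a : ℝ → Fin m → ℝ} (ha : ContDiff ℝ ((⊤ : ℕ∞) : WithTop ℕ∞) a) (h b : ℝ)
    (k : Fin m) :
    ContDiff ℝ ((⊤ : ℕ∞) : WithTop ℕ∞) (fun z : E2 => a ((z 1 - b) / h) k) := by
  have h1 : ContDiff ℝ ((⊤ : ℕ∞) : WithTop ℕ∞) (fun z : E2 => a ((z 1 - b) / h)) :=
    ha.comp (smooth_t h b)
  exact contDiff_pi.mp h1 k

theorem Qf_smooth (e : Fin n ≃ Fin m × Fin 2) {a c : ℝ → Fin m → ℝ}
    (ha : ContDiff ℝ ((⊤ : ℕ∞) : WithTop ℕ∞) a) (hc : ContDiff ℝ ((⊤ : ℕ∞) : WithTop ℕ∞) c)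
    (h b : ℝ) : ContDiff ℝ ((⊤ : ℕ∞) : WithTop ℕ∞) (Qf e a c h b) := by
  rw [contDiff_pi]; intro i
  rw [contDiff_pi]; intro j
  unfold Qf St
  by_cases hj : j = 0
  · simp only [hj, if_true]
    exact ((sn_smooth _).comp (smooth_x h)).mul (smooth_comp_k ha h b _)
  · simp only [hj, if_false]
    exact ((cs_smooth _).comp (smooth_x h)).mul (smooth_comp_k hc h b _)

theorem line0 (z : E2) (τ : ℝ) : (z + τ • ee 0) 0 = z 0 + τ ∧ (z + τ • ee 0) 1 = z 1 := by
  constructor <;> simp [ee]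

theorem line1 (z : E2) (τ : ℝ) : (z + τ • ee 1) 0 = z 0 ∧ (z + τ • ee 1) 1 = z 1 + τ := by
  constructor <;> simp [ee]

theorem fderiv_line {E : Type*} [NormedAddCommGroup E] [NormedSpace ℝ E] {Q : E2 → E}
    (hQ : ContDiff ℝ ((⊤ : ℕ∞) : WithTop ℕ∞) Q) (z w : E2) :
    HasDerivAt (fun τ : ℝ => Q (z + τ • w)) (fderiv ℝ Q z w) 0 := by
  have h1 : HasFDerivAt Q (fderiv ℝ Q z) z := (hQ.differentiable (by simp) z).hasFDerivAt
  exact h1.hasLineDerivAt w

theorem div_deriv (x0 h : ℝ) : HasDerivAt (fun τ : ℝ => (x0 + τ) / h) (1 / h) 0 := by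
  have h1 : HasDerivAt (fun τ : ℝ => x0 + τ) 1 0 := by
    simpa using (hasDerivAt_id (0:ℝ)).const_add x0
  exact h1.div_const h

theorem comp_deriv0 {E : Type*} [NormedAddCommGroup E] [NormedSpace ℝ E] {F : ℝ → E} {F' : E}
    {x0 h : ℝ} (hF : HasDerivAt F F' (x0 / h)) :
    HasDerivAt (fun τ : ℝ => F ((x0 + τ) / h)) ((1 / h) • F') 0 := by
  have h1 := div_deriv x0 h
  have h2 : HasDerivAt F F' ((x0 + 0) / h) := by rw [add_zero]; exact hF
  exact HasDerivAt.scomp (0:ℝ) h2 h1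

theorem Qf_d0 (e : Fin n ≃ Fin m × Fin 2) {a c : ℝ → Fin m → ℝ}
    (ha : ContDiff ℝ ((⊤ : ℕ∞) : WithTop ℕ∞) a) (hc : ContDiff ℝ ((⊤ : ℕ∞) : WithTop ℕ∞) c)
    (h b : ℝ) (z : E2) (i : Fin n) (j : Fin 2) :
    fderiv ℝ (Qf e a c h b) z (ee 0) i j = 1 / h * (if j = 0 then
      -cs (e i).2 (z 0 / h) * a ((z 1 - b) / h) (e i).1
      else sn (e i).2 (z 0 / h) * c ((z 1 - b) / h) (e i).1) := by
  have h1 := fderiv_line (Qf_smooth e ha hc h b) z (ee 0)
  have h2 := hasDerivAt_pi.mp (hasDerivAt_pi.mp h1 i) j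
  refine h2.unique ?_
  unfold Qf St
  by_cases hj : j = 0
  · simp only [hj, if_true, (line0 z _).1, (line0 z _).2]
    have h3 := (comp_deriv0 (F := sn (e i).2) (sn_deriv (e i).2 (z 0 / h))).mul_const
      (a ((z 1 - b) / h) (e i).1)
    refine h3.congr_deriv ?_
    rw [smul_eq_mul]; ring
  · simp only [hj, if_false, (line0 z _).1, (line0 z _).2]
    have h3 := (comp_deriv0 (F := cs (e i).2) (cs_deriv (e i).2 (z 0 / h))).mul_const
      (c ((z 1 - b) / h) (e i).1)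
    refine h3.congr_deriv ?_
    rw [smul_eq_mul]; ring

theorem comp_deriv1 {a : ℝ → Fin m → ℝ} (ha : ContDiff ℝ ((⊤ : ℕ∞) : WithTop ℕ∞) a) (y0 b h : ℝ)
    (k : Fin m) :
    HasDerivAt (fun τ : ℝ => a ((y0 + τ - b) / h) k) (1 / h * deriv a ((y0 - b) / h) k) 0 := by
  have h1 := smooth_hasDeriv ha ((y0 - b) / h)
  have h2 := comp_deriv0 (F := a) (x0 := y0 - b) (h := h) h1
  have h3 := hasDerivAt_pi.mp h2 k
  have e1 : (fun τ : ℝ => a ((y0 + τ - b) / h) k) = fun τ : ℝ => a ((y0 - b + τ) / h) k := by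
    funext τ; congr 2; ring
  rw [e1]
  exact h3

theorem Qf_d1 (e : Fin n ≃ Fin m × Fin 2) {a c : ℝ → Fin m → ℝ}
    (ha : ContDiff ℝ ((⊤ : ℕ∞) : WithTop ℕ∞) a) (hc : ContDiff ℝ ((⊤ : ℕ∞) : WithTop ℕ∞) c)
    (h b : ℝ) (z : E2) (i : Fin n) (j : Fin 2) :
    fderiv ℝ (Qf e a c h b) z (ee 1) i j = 1 / h * (if j = 0 then
      sn (e i).2 (z 0 / h) * deriv a ((z 1 - b) / h) (e i).1
      else cs (e i).2 (z 0 / h) * deriv c ((z 1 - b) / h) (e i).1) := by
  have h1 := fderiv_line (Qf_smooth e ha hc h b) z (ee 1)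
  have h2 := hasDerivAt_pi.mp (hasDerivAt_pi.mp h1 i) j
  refine h2.unique ?_
  unfold Qf St
  by_cases hj : j = 0
  · simp only [hj, if_true, (line1 z _).1, (line1 z _).2]
    have h3 := (comp_deriv1 ha (z 1) b h (e i).1).const_mul (sn (e i).2 (z 0 / h))
    refine h3.congr_deriv ?_
    ring
  · simp only [hj, if_false, (line1 z _).1, (line1 z _).2]
    have h3 := (comp_deriv1 hc (z 1) b h (e i).1).const_mul (cs (e i).2 (z 0 / h))
    refine h3.congr_deriv ?_
    ring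

/-- The map of one strip. -/
noncomputable def vS (e : Fin n ≃ Fin m × Fin 2) (G : ℝ → Fin m → ℝ) (h b : ℝ) (z : E2) :
    Fin n → ℝ :=
  fun i => h * (cs (e i).2 (z 0 / h) * G ((z 1 - b) / h) (e i).1)

theorem vS_smooth (e : Fin n ≃ Fin m × Fin 2) {G : ℝ → Fin m → ℝ}
    (hG : ContDiff ℝ ((⊤ : ℕ∞) : WithTop ℕ∞) G) (h b : ℝ) :
    ContDiff ℝ ((⊤ : ℕ∞) : WithTop ℕ∞) (vS e G h b) := by
  rw [contDiff_pi]; intro i
  unfold vS
  exact contDiff_const.mul (((cs_smooth _).comp (smooth_x h)).mul (smooth_comp_k hG h b _))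

theorem Jac_vS (e : Fin n ≃ Fin m × Fin 2) {G : ℝ → Fin m → ℝ}
    (hG : ContDiff ℝ ((⊤ : ℕ∞) : WithTop ℕ∞) G) {h : ℝ} (hh : h ≠ 0) (b : ℝ) :
    Jac (vS e G h b) = Qf e G (deriv G) h b := by
  funext z i j
  have hs := vS_smooth e hG h b
  unfold Jac
  fin_cases j
  · have h1 := fderiv_line hs z (ee 0)
    have h2 := hasDerivAt_pi.mp h1 i
    refine h2.unique ?_
    unfold vS Qf St
    simp only [(line0 z _).1, (line0 z _).2]
    have h3 := ((comp_deriv0 (F := cs (e i).2) (cs_deriv (e i).2 (z 0 / h))).mul_const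
      (G ((z 1 - b) / h) (e i).1)).const_mul h
    refine h3.congr_deriv ?_
    simp only [Fin.zero_eta, if_true, smul_eq_mul]
    field_simp
  · have h1 := fderiv_line hs z (ee 1)
    have h2 := hasDerivAt_pi.mp h1 i
    refine h2.unique ?_
    unfold vS Qf St
    simp only [(line1 z _).1, (line1 z _).2]
    have h3 := ((comp_deriv1 hG (z 1) b h (e i).1).const_mul (cs (e i).2 (z 0 / h))).const_mul h
    refine h3.congr_deriv ?_
    simp only [Fin.mk_one, one_ne_zero, if_false]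
    field_simp

/-- The energy of one strip. -/
noncomputable def FS (P G : ℝ → Fin m → ℝ) (h b : ℝ) (z : E2) : ℝ :=
  ∑ k, P ((z 1 - b) / h) k * deriv G ((z 1 - b) / h) k

theorem FS_smooth {P G : ℝ → Fin m → ℝ} (hP : ContDiff ℝ ((⊤ : ℕ∞) : WithTop ℕ∞) P)
    (hG : ContDiff ℝ ((⊤ : ℕ∞) : WithTop ℕ∞) G) (h b : ℝ) :
    ContDiff ℝ ((⊤ : ℕ∞) : WithTop ℕ∞) (FS P G h b) := by
  unfold FS
  exact ContDiff.sum fun k _ => (smooth_comp_k hP h b k).mul (smooth_comp_k (smooth_deriv hG) h b k)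

theorem sum_rows (e : Fin n ≃ Fin m × Fin 2) (F : Fin m × Fin 2 → ℝ) :
    ∑ i, F (e i) = ∑ k, ∑ l, F (k, l) := by
  rw [Equiv.sum_comp e F, Fintype.sum_prod_type]

theorem divY_strip (e : Fin n ≃ Fin m × Fin 2) {P : ℝ → Fin m → ℝ}
    (hP : ContDiff ℝ ((⊤ : ℕ∞) : WithTop ℕ∞) P) (h b : ℝ) (z : E2) (i : Fin n) :
    ∑ j, fderiv ℝ (Qf e (deriv P) P h b) z (ee j) i j = 0 := by
  rw [Fin.sum_univ_two, Qf_d0 e (smooth_deriv hP) hP, Qf_d1 e (smooth_deriv hP) hP]
  simp only [if_true, one_ne_zero, if_false]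
  ring

theorem dF_strip (e : Fin n ≃ Fin m × Fin 2) {P G : ℝ → Fin m → ℝ}
    (hP : ContDiff ℝ ((⊤ : ℕ∞) : WithTop ℕ∞) P) (hG : ContDiff ℝ ((⊤ : ℕ∞) : WithTop ℕ∞) G)
    {h : ℝ} (hh : h ≠ 0) (b : ℝ) (z : E2) (k : Fin 2) :
    fderiv ℝ (FS P G h b) z (ee k) = ∑ i, ∑ j, Qf e (deriv P) P h b z i j *
      fderiv ℝ (Jac (vS e G h b)) z (ee k) i j := by
  rw [Jac_vS e hG hh b]
  have hs := FS_smooth hP hG h b
  have hG' := smooth_deriv hG
  have hsplit : ∀ A : Fin n → Fin 2 → ℝ, ∑ i, ∑ j, A i j = ∑ i, (A i 0 + A i 1) :=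
    fun A => Finset.sum_congr rfl fun i _ => Fin.sum_univ_two _
  rw [hsplit]
  set t := (z 1 - b) / h with ht
  set x := z 0 / h with hx
  fin_cases k
  · simp only [Fin.zero_eta]
    have h1 := fderiv_line hs z (ee 0)
    have h2 : HasDerivAt (fun τ : ℝ => FS P G h b (z + τ • ee 0)) 0 0 := by
      have : (fun τ : ℝ => FS P G h b (z + τ • ee 0)) = fun _ => FS P G h b z := by
        funext τ; unfold FS; rw [(line0 z τ).2]
      rw [this]; exact hasDerivAt_const _ _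
    rw [h1.unique h2]
    have h3 : ∀ i, Qf e (deriv P) P h b z i 0 * fderiv ℝ (Qf e G (deriv G) h b) z (ee 0) i 0
        + Qf e (deriv P) P h b z i 1 * fderiv ℝ (Qf e G (deriv G) h b) z (ee 0) i 1
        = (fun kl : Fin m × Fin 2 => 1 / h * (sn kl.2 x * cs kl.2 x) *
          (P t kl.1 * deriv G t kl.1 - deriv P t kl.1 * G t kl.1)) (e i) := by
      intro i
      rw [Qf_d0 e hG hG', Qf_d0 e hG hG']
      unfold Qf St
      simp only [if_true, one_ne_zero, if_false]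
      rw [← ht, ← hx]
      ring
    refine Eq.trans ?_ (Finset.sum_congr rfl fun i _ => (h3 i).symm)
    refine Eq.trans ?_ (sum_rows e (fun kl : Fin m × Fin 2 => 1 / h * (sn kl.2 x * cs kl.2 x) *
          (P t kl.1 * deriv G t kl.1 - deriv P t kl.1 * G t kl.1))).symm
    symm
    apply Finset.sum_eq_zero
    intro k _
    have h4 : ∑ l, 1 / h * (sn l x * cs l x) * (P t k * deriv G t k - deriv P t k * G t k)
        = 1 / h * (P t k * deriv G t k - deriv P t k * G t k) * ∑ l, sn l x * cs l x := by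
      rw [Finset.mul_sum]; exact Finset.sum_congr rfl fun l _ => by ring
    show ∑ l, 1 / h * (sn l x * cs l x) * (P t k * deriv G t k - deriv P t k * G t k) = 0
    rw [h4, sum_sn_cs, mul_zero]
  · simp only [Fin.mk_one]
    have h1 := fderiv_line hs z (ee 1)
    have h2 : HasDerivAt (fun τ : ℝ => FS P G h b (z + τ • ee 1))
        (∑ k, (1 / h * deriv P t k * deriv G t k + P t k * (1 / h * deriv (deriv G) t k))) 0 := by
      have e1 : (fun τ : ℝ => FS P G h b (z + τ • ee 1)) = fun τ : ℝ =>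
          ∑ k, P ((z 1 + τ - b) / h) k * deriv G ((z 1 + τ - b) / h) k := by
        funext τ; unfold FS; rw [(line1 z τ).2]
      rw [e1]
      have h5 : ∀ k ∈ (Finset.univ : Finset (Fin m)), HasDerivAt
          (fun τ : ℝ => P ((z 1 + τ - b) / h) k * deriv G ((z 1 + τ - b) / h) k)
          (1 / h * deriv P t k * deriv G t k + P t k * (1 / h * deriv (deriv G) t k)) 0 := by
        intro k _
        have h6 := comp_deriv1 hP (z 1) b h k
        have h7 := comp_deriv1 hG' (z 1) b h k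
        have h8 := h6.mul h7
        simp only [add_zero] at h8
        exact h8
      have h9 := HasDerivAt.fun_sum h5
      exact h9
    rw [h1.unique h2]
    have h3 : ∀ i, Qf e (deriv P) P h b z i 0 * fderiv ℝ (Qf e G (deriv G) h b) z (ee 1) i 0
        + Qf e (deriv P) P h b z i 1 * fderiv ℝ (Qf e G (deriv G) h b) z (ee 1) i 1
        = (fun kl : Fin m × Fin 2 => 1 / h * ((sn kl.2 x * sn kl.2 x) *
          (deriv P t kl.1 * deriv G t kl.1) + (cs kl.2 x * cs kl.2 x) *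
          (P t kl.1 * deriv (deriv G) t kl.1))) (e i) := by
      intro i
      rw [Qf_d1 e hG hG', Qf_d1 e hG hG']
      unfold Qf St
      simp only [if_true, one_ne_zero, if_false]
      rw [← ht, ← hx]
      ring
    refine Eq.trans ?_ (Finset.sum_congr rfl fun i _ => (h3 i).symm)
    refine Eq.trans ?_ (sum_rows e (fun kl : Fin m × Fin 2 => 1 / h * ((sn kl.2 x * sn kl.2 x) *
          (deriv P t kl.1 * deriv G t kl.1) + (cs kl.2 x * cs kl.2 x) *
          (P t kl.1 * deriv (deriv G) t kl.1)))).symm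
    apply Finset.sum_congr rfl
    intro k _
    have h4 : ∑ l, 1 / h * ((sn l x * sn l x) * (deriv P t k * deriv G t k)
        + (cs l x * cs l x) * (P t k * deriv (deriv G) t k))
        = 1 / h * ((deriv P t k * deriv G t k) * ∑ l, sn l x * sn l x
          + (P t k * deriv (deriv G) t k) * ∑ l, cs l x * cs l x) := by
      rw [Finset.mul_sum, Finset.mul_sum, ← Finset.sum_add_distrib, Finset.mul_sum]
      exact Finset.sum_congr rfl fun l _ => by ring
    show _ = ∑ l, 1 / h * ((sn l x * sn l x) * (deriv P t k * deriv G t k)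
        + (cs l x * cs l x) * (P t k * deriv (deriv G) t k))
    rw [h4, sum_sn_sn, sum_cs_cs]
    ring

end

end Pool.Agent.SLG.Sn
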