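import Mathlib
import Pool.Agent.SLN.P4

/-! The corrector of one end of a strip: bounds of all derivatives, value and derivative. -/

namespace Pool.Agent.SLG.Sn

open Set Filter Topology

variable {m n : ℕ}

/-- One half of the corrector. -/
noncomputable def hf (e : Fin n ≃ Fin m × Fin 2) (v : Fin m → ℝ) (σ h b R : ℝ)
    (q : E2 × Mat n) : ℝ :=
  Real.exp (-R) * (Real.exp (-R) * (∑ k, v k ^ 2) * kap (σ * ((q.1 1 - b) / h) - R)
    + ∑ l, eh (σ * ((q.1 1 - b) / h) - R) *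
      (sn l (q.1 0 / h) * Sc (∑ k, v k * q.2 (e.symm (k, l)) 0)))

/-- The profile in three variables. -/
noncomputable def T3 (l : Fin 2) (p : ℝ × ℝ × ℝ) : ℝ := eh p.1 * (sn l p.2.1 * Sc p.2.2)

theorem sn_BD (l : Fin 2) : BD (sn l) := by
  unfold sn
  fin_cases l
  · simpa using BD.sin.neg
  · simpa using BD.cos

theorem T3_BD (l : Fin 2) : BD (T3 l) := by
  unfold T3
  have h1 := eh_BD.comp_clm (ContinuousLinearMap.fst ℝ ℝ (ℝ × ℝ))
  have h2 := (sn_BD l).comp_clm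
    ((ContinuousLinearMap.fst ℝ ℝ ℝ).comp (ContinuousLinearMap.snd ℝ ℝ (ℝ × ℝ)))
  have h3 := Sc_BD.comp_clm
    ((ContinuousLinearMap.snd ℝ ℝ ℝ).comp (ContinuousLinearMap.snd ℝ ℝ (ℝ × ℝ)))
  exact h1.mul (h2.mul h3)

/-- The linear part of the arguments. -/
noncomputable def L3 (e : Fin n ≃ Fin m × Fin 2) (v : Fin m → ℝ) (σ h : ℝ) (l : Fin 2) :
    E2 × Mat n →L[ℝ] ℝ × ℝ × ℝ :=
  LinearMap.toContinuousLinearMap
    { toFun := fun q => (σ * (q.1 1 / h), q.1 0 / h, ∑ k, v k * q.2 (e.symm (k, l)) 0)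
      map_add' := by
        intro q r
        simp only [Prod.fst_add, PiLp.add_apply, Prod.snd_add, Pi.add_apply, Prod.mk_add_mk,
          Prod.mk.injEq]
        refine ⟨by ring, by ring, ?_⟩
        rw [← Finset.sum_add_distrib]
        exact Finset.sum_congr rfl fun k _ => by ring
      map_smul' := by
        intro c q
        simp only [Prod.smul_fst, PiLp.smul_apply, Prod.smul_snd, Pi.smul_apply, smul_eq_mul,
          RingHom.id_apply, Prod.smul_mk, Prod.mk.injEq]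
        refine ⟨by ring, by ring, ?_⟩
        rw [Finset.mul_sum]
        exact Finset.sum_congr rfl fun k _ => by ring }

theorem L3_apply (e : Fin n ≃ Fin m × Fin 2) (v : Fin m → ℝ) (σ h : ℝ) (l : Fin 2)
    (q : E2 × Mat n) :
    L3 e v σ h l q = (σ * (q.1 1 / h), q.1 0 / h, ∑ k, v k * q.2 (e.symm (k, l)) 0) := rfl

theorem coord_le (z : E2) (j : Fin 2) : |z j| ≤ ‖z‖ := by
  have := PiLp.norm_apply_le z j
  simpa using this

theorem entry_le (X : Mat n) (i : Fin n) (j : Fin 2) : |X i j| ≤ ‖X‖ := by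
  have h1 := norm_le_pi_norm (X i) j
  have h2 := norm_le_pi_norm X i
  exact h1.trans h2

theorem L3_norm (e : Fin n ≃ Fin m × Fin 2) (v : Fin m → ℝ) {σ h : ℝ} (hσ : |σ| = 1) (hh : 0 < h)
    (hh1 : h ≤ 1) (l : Fin 2) : ‖L3 e v σ h l‖ ≤ (1 + ∑ k, |v k|) * (1 / h) := by
  have hs : 0 ≤ ∑ k, |v k| := Finset.sum_nonneg fun k _ => abs_nonneg _
  have hi : 1 ≤ 1 / h := by rw [le_div_iff₀ hh]; linarith
  apply ContinuousLinearMap.opNorm_le_bound _ (by positivity)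
  intro q
  rw [L3_apply]
  have hq1 : ‖q.1‖ ≤ ‖q‖ := norm_fst_le q
  have hq2 : ‖q.2‖ ≤ ‖q‖ := norm_snd_le q
  have hq : 0 ≤ ‖q‖ := norm_nonneg q
  have hA : 1 / h ≤ (1 + ∑ k, |v k|) * (1 / h) := by nlinarith
  have hB : ∑ k, |v k| ≤ (1 + ∑ k, |v k|) * (1 / h) := by nlinarith
  refine max_le ?_ (max_le ?_ ?_)
  · rw [Real.norm_eq_abs, abs_mul, hσ, one_mul, abs_div, abs_of_pos hh]
    calc |q.1 1| / h ≤ ‖q‖ / h := by
          apply div_le_div_of_nonneg_right ((coord_le _ _).trans hq1) hh.le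
      _ = 1 / h * ‖q‖ := by ring
      _ ≤ _ := mul_le_mul_of_nonneg_right hA hq
  · rw [Real.norm_eq_abs, abs_div, abs_of_pos hh]
    calc |q.1 0| / h ≤ ‖q‖ / h := by
          apply div_le_div_of_nonneg_right ((coord_le _ _).trans hq1) hh.le
      _ = 1 / h * ‖q‖ := by ring
      _ ≤ _ := mul_le_mul_of_nonneg_right hA hq
  · rw [Real.norm_eq_abs]
    calc |∑ k, v k * q.2 (e.symm (k, l)) 0| ≤ ∑ k, |v k * q.2 (e.symm (k, l)) 0| :=
          Finset.abs_sum_le_sum_abs _ _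
      _ ≤ ∑ k, |v k| * ‖q‖ := by
          apply Finset.sum_le_sum
          intro k _
          rw [abs_mul]
          exact mul_le_mul_of_nonneg_left ((entry_le _ _ _).trans hq2) (abs_nonneg _)
      _ = (∑ k, |v k|) * ‖q‖ := by rw [Finset.sum_mul]
      _ ≤ _ := mul_le_mul_of_nonneg_right hB hq

theorem hf_eq (e : Fin n ≃ Fin m × Fin 2) (v : Fin m → ℝ) (σ h b R : ℝ) :
    hf e v σ h b R = fun q => Real.exp (-R) * (Real.exp (-R) * (∑ k, v k ^ 2) *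
      kap (((ContinuousLinearMap.fst ℝ ℝ (ℝ × ℝ)).comp (L3 e v σ h 0)) q + (-(σ * b / h) - R))
      + (T3 0 (L3 e v σ h 0 q + (-(σ * b / h) - R, 0, 0))
        + T3 1 (L3 e v σ h 1 q + (-(σ * b / h) - R, 0, 0)))) := by
  funext q
  unfold hf T3
  rw [Fin.sum_univ_two]
  simp only [ContinuousLinearMap.comp_apply, ContinuousLinearMap.coe_fst', L3_apply,
    Prod.mk_add_mk, add_zero]
  have e1 : σ * (q.1 1 / h) + (-(σ * b / h) - R) = σ * ((q.1 1 - b) / h) - R := by ring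
  rw [e1]

theorem hf_DB (e : Fin n ≃ Fin m × Fin 2) (v : Fin m → ℝ) : ∃ C : ℕ → ℝ, (∀ k, 0 ≤ C k) ∧
    ∀ σ h b R : ℝ, |σ| = 1 → 0 < h → h ≤ 1 → 0 ≤ R →
      DB (hf e v σ h b R) (fun k => Real.exp (-R) * (C k * (1 / h) ^ k)) := by
  obtain ⟨C0, h0⟩ := kap_BD
  obtain ⟨C1, h1⟩ := T3_BD 0
  obtain ⟨C2, h2⟩ := T3_BD 1
  have n0 : ∀ k, 0 ≤ C0 k := fun k => (norm_nonneg _).trans (h0.2 k 0)
  have n1 : ∀ k, 0 ≤ C1 k := fun k => (norm_nonneg _).trans (h1.2 k 0)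
  have n2 : ∀ k, 0 ≤ C2 k := fun k => (norm_nonneg _).trans (h2.2 k 0)
  set V := ∑ k, v k ^ 2 with hV
  have hV0 : 0 ≤ V := Finset.sum_nonneg fun k _ => sq_nonneg _
  set A := 1 + ∑ k, |v k| with hA
  have hA0 : 0 ≤ A := by
    have : 0 ≤ ∑ k, |v k| := Finset.sum_nonneg fun k _ => abs_nonneg _
    rw [hA]; linarith
  refine ⟨fun k => (V * C0 k + (C1 k + C2 k)) * A ^ k, fun k => by
    have := n0 k; have := n1 k; have := n2 k; positivity, ?_⟩
  intro σ h b R hσ hh hh1 hR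
  have hi : 0 ≤ 1 / h := by positivity
  have hpow : ∀ (k : ℕ) (x : ℝ), 0 ≤ x → x ≤ A * (1 / h) → x ^ k ≤ A ^ k * (1 / h) ^ k := by
    intro k x hx hx'
    rw [← mul_pow]; exact pow_le_pow_left₀ hx hx' k
  have hLf : ‖(ContinuousLinearMap.fst ℝ ℝ (ℝ × ℝ)).comp (L3 e v σ h 0)‖ ≤ A * (1 / h) := by
    refine (ContinuousLinearMap.opNorm_comp_le _ _).trans ?_
    have h5 : ‖ContinuousLinearMap.fst ℝ ℝ (ℝ × ℝ)‖ ≤ 1 := ContinuousLinearMap.norm_fst_le _ _ _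
    have h6 := L3_norm e v hσ hh hh1 0
    calc _ ≤ 1 * ‖L3 e v σ h 0‖ := mul_le_mul_of_nonneg_right h5 (norm_nonneg _)
      _ ≤ _ := by rw [one_mul]; exact h6
  have a0 := (h0.affine ((ContinuousLinearMap.fst ℝ ℝ (ℝ × ℝ)).comp (L3 e v σ h 0))
    (-(σ * b / h) - R)).const_mul (Real.exp (-R) * V)
  have a1 := h1.affine (L3 e v σ h 0) (-(σ * b / h) - R, 0, 0)
  have a2 := h2.affine (L3 e v σ h 1) (-(σ * b / h) - R, 0, 0)
  have a3 := (a0.add (a1.add a2)).const_mul (Real.exp (-R))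
  rw [hf_eq]
  refine a3.mono fun k => ?_
  have he : 0 < Real.exp (-R) := Real.exp_pos _
  have he1 : Real.exp (-R) ≤ 1 := Real.exp_le_one_iff.mpr (by linarith)
  rw [abs_of_pos he, abs_of_nonneg (by positivity)]
  apply mul_le_mul_of_nonneg_left _ he.le
  have b0 := hpow k _ (norm_nonneg _) hLf
  have b1 := hpow k _ (norm_nonneg _) (L3_norm e v hσ hh hh1 0)
  have b2 := hpow k _ (norm_nonneg _) (L3_norm e v hσ hh hh1 1)
  have hP : 0 ≤ A ^ k * (1 / h) ^ k := by positivity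
  have c0 : Real.exp (-R) * V * (C0 k * ‖(ContinuousLinearMap.fst ℝ ℝ (ℝ × ℝ)).comp
      (L3 e v σ h 0)‖ ^ k) ≤ V * (C0 k * (A ^ k * (1 / h) ^ k)) := by
    apply mul_le_mul
    · exact mul_le_of_le_one_left hV0 he1
    · exact mul_le_mul_of_nonneg_left b0 (n0 k)
    · have := n0 k; positivity
    · exact hV0
  have c1 : C1 k * ‖L3 e v σ h 0‖ ^ k ≤ C1 k * (A ^ k * (1 / h) ^ k) :=
    mul_le_mul_of_nonneg_left b1 (n1 k)
  have c2 : C2 k * ‖L3 e v σ h 1‖ ^ k ≤ C2 k * (A ^ k * (1 / h) ^ k) :=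
    mul_le_mul_of_nonneg_left b2 (n2 k)
  calc _ ≤ V * (C0 k * (A ^ k * (1 / h) ^ k)) + (C1 k * (A ^ k * (1 / h) ^ k)
        + C2 k * (A ^ k * (1 / h) ^ k)) := by linarith
    _ = _ := by ring

theorem hf_smooth (e : Fin n ≃ Fin m × Fin 2) (v : Fin m → ℝ) (σ h b R : ℝ) :
    ContDiff ℝ ((⊤ : ℕ∞) : WithTop ℕ∞) (hf e v σ h b R) := by
  obtain ⟨C0, h0⟩ := kap_BD
  obtain ⟨C1, h1⟩ := T3_BD 0
  obtain ⟨C2, h2⟩ := T3_BD 1
  rw [hf_eq]
  exact (((h0.affine ((ContinuousLinearMap.fst ℝ ℝ (ℝ × ℝ)).comp (L3 e v σ h 0))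
    (-(σ * b / h) - R)).const_mul (Real.exp (-R) * ∑ k, v k ^ 2)).add
      ((h1.affine (L3 e v σ h 0) (-(σ * b / h) - R, 0, 0)).add
      (h2.affine (L3 e v σ h 1) (-(σ * b / h) - R, 0, 0)))).const_mul (Real.exp (-R)) |>.1

/-- Directional derivative of the corrector. -/
theorem hf_line (e : Fin n ≃ Fin m × Fin 2) (v : Fin m → ℝ) (σ h b R : ℝ) (q w : E2 × Mat n) :
    fderiv ℝ (hf e v σ h b R) q w =
      Real.exp (-R) * (Real.exp (-R) * (∑ k, v k ^ 2) *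
        (deriv kap (σ * ((q.1 1 - b) / h) - R) * (σ * (w.1 1 / h)))
      + ∑ l, (deriv eh (σ * ((q.1 1 - b) / h) - R) * (σ * (w.1 1 / h)) *
          (sn l (q.1 0 / h) * Sc (∑ k, v k * q.2 (e.symm (k, l)) 0))
        + eh (σ * ((q.1 1 - b) / h) - R) *
          (-cs l (q.1 0 / h) * (w.1 0 / h) * Sc (∑ k, v k * q.2 (e.symm (k, l)) 0)
          + sn l (q.1 0 / h) * (deriv Sc (∑ k, v k * q.2 (e.symm (k, l)) 0) *
              ∑ k, v k * w.2 (e.symm (k, l)) 0)))) := by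
  have h1 : HasDerivAt (fun τ : ℝ => hf e v σ h b R (q + τ • w))
      (fderiv ℝ (hf e v σ h b R) q w) 0 :=
    ((hf_smooth e v σ h b R).differentiable (by simp) q).hasFDerivAt.hasLineDerivAt w
  refine h1.unique ?_
  unfold hf
  simp only [Prod.fst_add, Prod.smul_fst, PiLp.add_apply, PiLp.smul_apply, Prod.snd_add,
    Prod.smul_snd, Pi.add_apply, Pi.smul_apply, smul_eq_mul]
  have ds : HasDerivAt (fun τ : ℝ => σ * ((q.1 1 + τ * w.1 1 - b) / h) - R) (σ * (w.1 1 / h)) 0 := by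
    have h2 : HasDerivAt (fun τ : ℝ => q.1 1 + τ * w.1 1 - b) (w.1 1) 0 := by
      have := (((hasDerivAt_id (0:ℝ)).mul_const (w.1 1)).const_add (q.1 1)).sub_const b
      simpa using this
    exact ((h2.div_const h).const_mul σ).sub_const R
  have dx : HasDerivAt (fun τ : ℝ => (q.1 0 + τ * w.1 0) / h) (w.1 0 / h) 0 := by
    have h2 : HasDerivAt (fun τ : ℝ => q.1 0 + τ * w.1 0) (w.1 0) 0 := by
      have := ((hasDerivAt_id (0:ℝ)).mul_const (w.1 0)).const_add (q.1 0)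
      simpa using this
    exact h2.div_const h
  have dc : ∀ l : Fin 2, HasDerivAt (fun τ : ℝ => ∑ k, v k * (q.2 (e.symm (k, l)) 0
      + τ * w.2 (e.symm (k, l)) 0)) (∑ k, v k * w.2 (e.symm (k, l)) 0) 0 := by
    intro l
    apply HasDerivAt.fun_sum
    intro k _
    have h2 : HasDerivAt (fun τ : ℝ => q.2 (e.symm (k, l)) 0 + τ * w.2 (e.symm (k, l)) 0)
        (w.2 (e.symm (k, l)) 0) 0 := by
      have := ((hasDerivAt_id (0:ℝ)).mul_const (w.2 (e.symm (k, l)) 0)).const_add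
        (q.2 (e.symm (k, l)) 0)
      simpa using this
    exact h2.const_mul (v k)
  have z1 : σ * ((q.1 1 + 0 * w.1 1 - b) / h) - R = σ * ((q.1 1 - b) / h) - R := by
    rw [zero_mul, add_zero]
  have z0 : (q.1 0 + 0 * w.1 0) / h = q.1 0 / h := by rw [zero_mul, add_zero]
  have zc : ∀ l : Fin 2, ∑ k, v k * (q.2 (e.symm (k, l)) 0 + 0 * w.2 (e.symm (k, l)) 0)
      = ∑ k, v k * q.2 (e.symm (k, l)) 0 := by
    intro l; exact Finset.sum_congr rfl fun k _ => by rw [zero_mul, add_zero]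
  have dk : HasDerivAt (fun τ : ℝ => kap (σ * ((q.1 1 + τ * w.1 1 - b) / h) - R))
      (deriv kap (σ * ((q.1 1 - b) / h) - R) * (σ * (w.1 1 / h))) 0 := by
    have h2 := smooth_hasDeriv kap_smooth (σ * ((q.1 1 + 0 * w.1 1 - b) / h) - R)
    have h3 := HasDerivAt.comp (0:ℝ) h2 ds
    rw [z1] at h3
    exact h3
  have de : HasDerivAt (fun τ : ℝ => eh (σ * ((q.1 1 + τ * w.1 1 - b) / h) - R))
      (deriv eh (σ * ((q.1 1 - b) / h) - R) * (σ * (w.1 1 / h))) 0 := by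
    have h2 := smooth_hasDeriv eh_smooth (σ * ((q.1 1 + 0 * w.1 1 - b) / h) - R)
    have h3 := HasDerivAt.comp (0:ℝ) h2 ds
    rw [z1] at h3
    exact h3
  have dn : ∀ l : Fin 2, HasDerivAt (fun τ : ℝ => sn l ((q.1 0 + τ * w.1 0) / h))
      (-cs l (q.1 0 / h) * (w.1 0 / h)) 0 := by
    intro l
    have h2 := sn_deriv l ((q.1 0 + 0 * w.1 0) / h)
    have h3 := HasDerivAt.comp (0:ℝ) h2 dx
    rw [z0] at h3
    exact h3
  have dS : ∀ l : Fin 2, HasDerivAt (fun τ : ℝ => Sc (∑ k, v k * (q.2 (e.symm (k, l)) 0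
      + τ * w.2 (e.symm (k, l)) 0))) (deriv Sc (∑ k, v k * q.2 (e.symm (k, l)) 0) *
        ∑ k, v k * w.2 (e.symm (k, l)) 0) 0 := by
    intro l
    have h2 := smooth_hasDeriv Sc_smooth (∑ k, v k * (q.2 (e.symm (k, l)) 0
      + 0 * w.2 (e.symm (k, l)) 0))
    have h3 := HasDerivAt.comp (0:ℝ) h2 (dc l)
    rw [zc l] at h3
    exact h3
  have hsum : ∀ l ∈ (Finset.univ : Finset (Fin 2)), HasDerivAt (fun τ : ℝ =>
      eh (σ * ((q.1 1 + τ * w.1 1 - b) / h) - R) * (sn l ((q.1 0 + τ * w.1 0) / h) *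
        Sc (∑ k, v k * (q.2 (e.symm (k, l)) 0 + τ * w.2 (e.symm (k, l)) 0))))
      (deriv eh (σ * ((q.1 1 - b) / h) - R) * (σ * (w.1 1 / h)) *
          (sn l (q.1 0 / h) * Sc (∑ k, v k * q.2 (e.symm (k, l)) 0))
        + eh (σ * ((q.1 1 - b) / h) - R) *
          (-cs l (q.1 0 / h) * (w.1 0 / h) * Sc (∑ k, v k * q.2 (e.symm (k, l)) 0)
          + sn l (q.1 0 / h) * (deriv Sc (∑ k, v k * q.2 (e.symm (k, l)) 0) *
              ∑ k, v k * w.2 (e.symm (k, l)) 0))) 0 := by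
    intro l _
    have h3 := de.mul ((dn l).mul (dS l))
    simp only [Pi.mul_apply, z1, z0, zc l] at h3
    exact h3
  have h4 := HasDerivAt.fun_sum hsum
  exact ((dk.const_mul (Real.exp (-R) * ∑ k, v k ^ 2)).add h4).const_mul (Real.exp (-R))

theorem hf_out (e : Fin n ≃ Fin m × Fin 2) (v : Fin m → ℝ) {σ h b R : ℝ} {q : E2 × Mat n}
    (hs : σ * ((q.1 1 - b) / h) - R ≤ 0) :
    hf e v σ h b R q = 0 ∧ ∀ w, fderiv ℝ (hf e v σ h b R) q w = 0 := by
  constructor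
  · unfold hf
    rw [kap_left hs, eh_left hs]
    simp
  · intro w
    rw [hf_line, kap'_left hs, eh'_left hs, eh_left hs]
    simp

theorem hf_out_right (e : Fin n ≃ Fin m × Fin 2) (v : Fin m → ℝ) {σ h b R : ℝ} {q : E2 × Mat n}
    (hs : 1 ≤ σ * ((q.1 1 - b) / h) - R) : hf e v σ h b R q = 0 := by
  unfold hf
  rw [kap_right hs, eh_right hs]
  simp

theorem hf_in (e : Fin n ≃ Fin m × Fin 2) (v : Fin m → ℝ) {σ h b R : ℝ} {q : E2 × Mat n}
    (hc : ∀ l, ∑ k, v k * q.2 (e.symm (k, l)) 0 = sn l (q.1 0 / h) *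
      (Real.exp (-R) * al (σ * ((q.1 1 - b) / h) - R) * ∑ k, v k ^ 2))
    (hsm : |Real.exp (-R) * al (σ * ((q.1 1 - b) / h) - R) * ∑ k, v k ^ 2| ≤ 1) :
    hf e v σ h b R q = Real.exp (-R) ^ 2 * (∑ k, v k ^ 2) *
      ((deriv al (σ * ((q.1 1 - b) / h) - R) ^ 2 - al (σ * ((q.1 1 - b) / h) - R) ^ 2) / 2) ∧
    ∀ w, fderiv ℝ (hf e v σ h b R) q w = Real.exp (-R) * eh (σ * ((q.1 1 - b) / h) - R) *
      ∑ l, sn l (q.1 0 / h) * ∑ k, v k * w.2 (e.symm (k, l)) 0 := by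
  set s := σ * ((q.1 1 - b) / h) - R with hs
  set x := q.1 0 / h with hx
  set V := ∑ k, v k ^ 2 with hV
  have hle : ∀ l, |sn l x * (Real.exp (-R) * al s * V)| ≤ 1 := by
    intro l
    rw [abs_mul]
    exact mul_le_one₀ (abs_sn_le l x) (abs_nonneg _) hsm
  have hS : ∀ l, Sc (sn l x * (Real.exp (-R) * al s * V)) = sn l x * (Real.exp (-R) * al s * V) :=
    fun l => Sc_id ((hle l).trans (by norm_num))
  have hS' : ∀ l, deriv Sc (sn l x * (Real.exp (-R) * al s * V)) = 1 := fun l => Sc_deriv (hle l)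
  constructor
  · unfold hf
    rw [← hs, ← hx, ← hV]
    have h1 : ∑ l, eh s * (sn l x * Sc (∑ k, v k * q.2 (e.symm (k, l)) 0))
        = eh s * (Real.exp (-R) * al s * V) * ∑ l, sn l x * sn l x := by
      rw [Finset.mul_sum]
      apply Finset.sum_congr rfl
      intro l _
      rw [hc l, hS l]; ring
    rw [h1, sum_sn_sn]
    unfold kap
    ring
  · intro w
    rw [hf_line, ← hs, ← hx, ← hV]
    clear_value V
    have h1 : ∑ l, (deriv eh s * (σ * (w.1 1 / h)) *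
          (sn l x * Sc (∑ k, v k * q.2 (e.symm (k, l)) 0))
        + eh s * (-cs l x * (w.1 0 / h) * Sc (∑ k, v k * q.2 (e.symm (k, l)) 0)
          + sn l x * (deriv Sc (∑ k, v k * q.2 (e.symm (k, l)) 0) *
              ∑ k, v k * w.2 (e.symm (k, l)) 0)))
        = deriv eh s * (σ * (w.1 1 / h)) * (Real.exp (-R) * al s * V) * ∑ l, sn l x * sn l x
          - eh s * (w.1 0 / h) * (Real.exp (-R) * al s * V) * ∑ l, sn l x * cs l x
          + eh s * ∑ l, sn l x * ∑ k, v k * w.2 (e.symm (k, l)) 0 := by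
      rw [Finset.mul_sum, Finset.mul_sum, Finset.mul_sum, ← Finset.sum_sub_distrib,
        ← Finset.sum_add_distrib]
      apply Finset.sum_congr rfl
      intro l _
      rw [hc l, hS l, hS' l]; ring
    rw [h1, sum_sn_sn, sum_sn_cs, kap_deriv]
    ring

end Pool.Agent.SLG.Sn
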