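import Mathlib
import Pool.Agent.SLN.P5

/-! The strips: value and derivative of the corrector along the graph, bounds, existence. -/

namespace Pool.Agent.SLG.Sn

open Set Filter Topology

variable {m n : ℕ}

/-! ### choice of the scale -/

theorem choose_u {c δ : ℝ} (A B : ℝ) (D : ℕ → ℝ) (K : ℕ) (hc : 0 < c) (hδ : 0 < δ)
    (hD : ∀ k, 0 ≤ D k) :
    ∃ u : ℝ, B ≤ u ∧ 1 ≤ u ∧ ∀ k ≤ K, Real.exp (-(c * u - A)) * (D k * u ^ k) ≤ δ := by
  have h1 : ∀ k : ℕ, ∀ᶠ u : ℝ in atTop, Real.exp (-(c * u - A)) * (D k * u ^ k) ≤ δ := by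
    intro k
    have h2 := isLittleO_pow_exp_pos_mul_atTop (k := k) hc
    set η := δ / (Real.exp A * (D k + 1)) with hη
    have hη0 : 0 < η := by have := hD k; have := Real.exp_pos A; positivity
    have h3 := h2.def hη0
    filter_upwards [h3, eventually_ge_atTop (0:ℝ)] with u hu hu0
    rw [Real.norm_eq_abs, Real.norm_eq_abs, abs_of_pos (Real.exp_pos _),
      abs_of_nonneg (by positivity)] at hu
    have e1 : Real.exp (-(c * u - A)) * Real.exp (c * u) = Real.exp A := by
      rw [← Real.exp_add]; congr 1; ring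
    have hD0 := hD k
    have hE := Real.exp_pos (-(c * u - A))
    calc Real.exp (-(c * u - A)) * (D k * u ^ k)
        ≤ Real.exp (-(c * u - A)) * (D k * (η * Real.exp (c * u))) := by
          apply mul_le_mul_of_nonneg_left _ hE.le
          exact mul_le_mul_of_nonneg_left hu hD0
      _ = (Real.exp (-(c * u - A)) * Real.exp (c * u)) * (D k * η) := by ring
      _ = Real.exp A * (D k * η) := by rw [e1]
      _ ≤ Real.exp A * ((D k + 1) * η) := by
          apply mul_le_mul_of_nonneg_left _ (Real.exp_pos _).le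
          apply mul_le_mul_of_nonneg_right _ hη0.le
          linarith
      _ = δ := by
          rw [hη]
          have h4 := Real.exp_pos A
          have h5 : D k + 1 ≠ 0 := by positivity
          field_simp
  have h2 : ∀ᶠ u : ℝ in atTop, ∀ k ∈ Finset.range (K + 1),
      Real.exp (-(c * u - A)) * (D k * u ^ k) ≤ δ :=
    (Finset.eventually_all _).mpr fun k _ => h1 k
  obtain ⟨u, hu, hB, h1'⟩ := (h2.and ((eventually_ge_atTop B).and (eventually_ge_atTop 1))).exists
  exact ⟨u, hB, h1', fun k hk => hu k (Finset.mem_range.mpr (Nat.lt_succ_of_le hk))⟩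

/-! ### states -/

theorem St_norm {a c : Fin m → ℝ} {C : ℝ} (ha : ‖a‖ ≤ C) (hc : ‖c‖ ≤ C) (x : ℝ) :
    ‖St a c x‖ ≤ C := by
  have hC : 0 ≤ C := (norm_nonneg a).trans ha
  rw [pi_norm_le_iff_of_nonneg hC]; intro kl
  rw [pi_norm_le_iff_of_nonneg hC]; intro j
  unfold St
  split_ifs
  · rw [Real.norm_eq_abs, abs_mul]
    calc |sn kl.2 x| * |a kl.1| ≤ 1 * ‖a‖ :=
          mul_le_mul (abs_sn_le _ _) (norm_le_pi_norm a kl.1) (abs_nonneg _) zero_le_one
      _ ≤ C := by rw [one_mul]; exact ha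
  · rw [Real.norm_eq_abs, abs_mul]
    calc |cs kl.2 x| * |c kl.1| ≤ 1 * ‖c‖ :=
          mul_le_mul (abs_cs_le _ _) (norm_le_pi_norm c kl.1) (abs_nonneg _) zero_le_one
      _ ≤ C := by rw [one_mul]; exact hc

theorem Qf_norm (e : Fin n ≃ Fin m × Fin 2) {a c : ℝ → Fin m → ℝ} {C h b : ℝ} {z : E2}
    (ha : ‖a ((z 1 - b) / h)‖ ≤ C) (hc : ‖c ((z 1 - b) / h)‖ ≤ C) :
    ‖Qf e a c h b z‖ ≤ C := by
  have hC : 0 ≤ C := (norm_nonneg _).trans ha
  have h1 := St_norm ha hc (z 0 / h)
  rw [pi_norm_le_iff_of_nonneg hC]; intro i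
  rw [pi_norm_le_iff_of_nonneg hC]; intro j
  have h2 := norm_le_pi_norm (St (a ((z 1 - b) / h)) (c ((z 1 - b) / h)) (z 0 / h) (e i)) j
  have h3 := norm_le_pi_norm (St (a ((z 1 - b) / h)) (c ((z 1 - b) / h)) (z 0 / h)) (e i)
  exact (h2.trans h3).trans h1

theorem rx_Qf (e : Fin n ≃ Fin m × Fin 2) (a c : ℝ → Fin m → ℝ) (h b : ℝ) (z : E2) :
    (fun kl => Qf e a c h b z (e.symm kl))
      = St (a ((z 1 - b) / h)) (c ((z 1 - b) / h)) (z 0 / h) := by
  funext kl j
  unfold Qf
  rw [Equiv.apply_symm_apply]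

theorem sq_St (a c : Fin m → ℝ) (x : ℝ) : sq (St a c x) = ∑ k, (a k ^ 2 + c k ^ 2) := by
  unfold sq St
  rw [Fintype.sum_prod_type]
  apply Finset.sum_congr rfl
  intro k _
  have h1 : ∀ l : Fin 2, ∑ j : Fin 2, (if j = 0 then sn l x * a k else cs l x * c k) ^ 2
      = a k ^ 2 * (sn l x * sn l x) + c k ^ 2 * (cs l x * cs l x) := by
    intro l
    rw [Fin.sum_univ_two]
    simp only [if_true, one_ne_zero, if_false]
    ring
  rw [Finset.sum_congr rfl fun l _ => h1 l, Finset.sum_add_distrib, ← Finset.mul_sum,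
    ← Finset.mul_sum, sum_sn_sn, sum_cs_cs]
  ring

/-- Near the origin `f` is half the square. -/
theorem near_ball {f : MI (Fin m × Fin 2) → ℝ}
    (hf : ∀ᶠ X in 𝓝 (0 : MI (Fin m × Fin 2)), f X = 1 / 2 * sq X) :
    ∃ ρ : ℝ, 0 < ρ ∧ ∀ X : MI (Fin m × Fin 2), ‖X‖ < ρ → f X = 1 / 2 * sq X ∧ GrdI f X = X := by
  obtain ⟨ρ, hρ, h⟩ := Metric.eventually_nhds_iff_ball.mp hf
  refine ⟨ρ, hρ, fun X hX => ?_⟩
  have hX' : X ∈ Metric.ball (0 : MI (Fin m × Fin 2)) ρ := by rwa [mem_ball_zero_iff]
  refine ⟨h X hX', ?_⟩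
  have h1 : f =ᶠ[𝓝 X] fun X => 1 / 2 * sq X := by
    filter_upwards [Metric.isOpen_ball.mem_nhds hX'] with Y hY
    exact h Y hY
  funext i j
  unfold GrdI
  rw [h1.fderiv_eq]
  have hs : ContDiff ℝ ((⊤ : ℕ∞) : WithTop ℕ∞) (fun X : MI (Fin m × Fin 2) => 1 / 2 * sq X) := by
    unfold sq
    fun_prop
  set w : MI (Fin m × Fin 2) := Pi.single i (Pi.single j 1) with hw
  have h2 : HasDerivAt (fun τ : ℝ => 1 / 2 * sq (X + τ • w))
      (fderiv ℝ (fun X : MI (Fin m × Fin 2) => 1 / 2 * sq X) X w) 0 :=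
    (hs.differentiable (by simp) X).hasFDerivAt.hasLineDerivAt w
  refine h2.unique ?_
  have h3 : (fun τ : ℝ => 1 / 2 * sq (X + τ • w))
      = fun τ : ℝ => 1 / 2 * sq X + τ * X i j + 1 / 2 * τ ^ 2 := by
    funext τ
    have e1 : sq (X + τ • w) = sq X + 2 * τ * (∑ a, ∑ b, X a b * w a b)
        + τ ^ 2 * ∑ a, ∑ b, w a b ^ 2 := by
      unfold sq
      simp only [Finset.mul_sum]
      rw [← Finset.sum_add_distrib, ← Finset.sum_add_distrib]
      apply Finset.sum_congr rfl; intro a _
      rw [← Finset.sum_add_distrib, ← Finset.sum_add_distrib]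
      apply Finset.sum_congr rfl; intro b _
      simp only [Pi.add_apply, Pi.smul_apply, smul_eq_mul]
      ring
    have e2 : ∑ a, ∑ b, X a b * w a b = X i j := by
      rw [Finset.sum_eq_single i]
      · rw [Finset.sum_eq_single j]
        · rw [hw]; simp
        · intro b _ hb; rw [hw]; simp [hb]
        · simp
      · intro a _ ha
        apply Finset.sum_eq_zero; intro b _
        rw [hw, Pi.single_eq_of_ne ha]; simp
      · simp
    have e3 : ∑ a, ∑ b, w a b ^ 2 = 1 := by
      rw [Finset.sum_eq_single i]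
      · rw [Finset.sum_eq_single j]
        · rw [hw]; simp
        · intro b _ hb; rw [hw]; simp [hb]
        · simp
      · intro a _ ha
        apply Finset.sum_eq_zero; intro b _
        rw [hw, Pi.single_eq_of_ne ha]; simp
      · simp
    rw [e1, e2, e3]; ring
  rw [h3]
  have h4 : HasDerivAt (fun τ : ℝ => 1 / 2 * sq X + τ * X i j + 1 / 2 * τ ^ 2)
      (0 + 1 * X i j + 1 / 2 * (2 * 0)) 0 := by
    have a1 := ((hasDerivAt_id (0:ℝ)).mul_const (X i j)).const_add (1 / 2 * sq X)
    have a2 := (hasDerivAt_pow 2 (0:ℝ)).const_mul (1 / 2 : ℝ)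
    refine (a1.add a2).congr_deriv ?_
    norm_num
  refine h4.congr_deriv ?_
  ring

/-- The corrector. -/
noncomputable def gam (e : Fin n ≃ Fin m × Fin 2) (vl vr : Fin m → ℝ) (h b R : ℝ)
    (q : E2 × Mat n) : ℝ :=
  hf e vr 1 h b R q + hf e vl (-1) h b R q

theorem gam_smooth (e : Fin n ≃ Fin m × Fin 2) (vl vr : Fin m → ℝ) (h b R : ℝ) :
    ContDiff ℝ ((⊤ : ℕ∞) : WithTop ℕ∞) (gam e vl vr h b R) :=
  (hf_smooth e vr 1 h b R).add (hf_smooth e vl (-1) h b R)

theorem gam_fderiv (e : Fin n ≃ Fin m × Fin 2) (vl vr : Fin m → ℝ) (h b R : ℝ)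
    (q w : E2 × Mat n) :
    fderiv ℝ (gam e vl vr h b R) q w
      = fderiv ℝ (hf e vr 1 h b R) q w + fderiv ℝ (hf e vl (-1) h b R) q w := by
  have h1 := ((hf_smooth e vr 1 h b R).differentiable (by simp) q).hasFDerivAt
  have h2 := ((hf_smooth e vl (-1) h b R).differentiable (by simp) q).hasFDerivAt
  have h3 : HasFDerivAt (gam e vl vr h b R) _ q := h1.add h2
  rw [h3.fderiv]
  rfl

theorem gam_supp (e : Fin n ≃ Fin m × Fin 2) (vl vr : Fin m → ℝ) {h b R : ℝ} (hR : 0 ≤ R)
    {z : E2} (X : Mat n) (hz : R + 1 ≤ |(z 1 - b) / h|) : gam e vl vr h b R (z, X) = 0 := by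
  unfold gam
  rcases le_abs.mp hz with h1 | h1
  · rw [hf_out_right e vr (q := (z, X)) (by simp only [one_mul]; linarith),
      (hf_out e vl (σ := -1) (q := (z, X)) (by simp only; linarith)).1, add_zero]
  · rw [hf_out_right e vl (σ := -1) (q := (z, X)) (by simp only; linarith),
      (hf_out e vr (σ := 1) (q := (z, X)) (by simp only; linarith)).1, add_zero]

section

variable {f : MI (Fin m × Fin 2) → ℝ} {g p : ℝ → Fin m → ℝ} {vl vr : Fin m → ℝ} {Y0 : ℝ}

/-- Algebra on one tail: `G = ε a v`, `G' = ε a1 v`. -/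
theorem tail_val {v : Fin m → ℝ} {ρ E a a1 x : ℝ}
    (hρ : ∀ X : MI (Fin m × Fin 2), ‖X‖ < ρ → f X = 1 / 2 * sq X ∧ GrdI f X = X)
    (hX : ‖St ((E * a) • v) ((E * a1) • v) x‖ < ρ) :
    (∑ k, ((E * a1) • v) k * ((E * a1) • v) k) - f (St ((E * a) • v) ((E * a1) • v) x)
      = E ^ 2 * (∑ k, v k ^ 2) * ((a1 ^ 2 - a ^ 2) / 2) := by
  rw [(hρ _ hX).1, sq_St]
  simp only [Pi.smul_apply, smul_eq_mul]
  have h1 : ∑ k, (E * a1 * v k * (E * a1 * v k)) = E ^ 2 * a1 ^ 2 * ∑ k, v k ^ 2 := by
    rw [Finset.mul_sum]; exact Finset.sum_congr rfl fun k _ => by ring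
  have h2 : ∑ k, ((E * a * v k) ^ 2 + (E * a1 * v k) ^ 2)
      = (E ^ 2 * a ^ 2 + E ^ 2 * a1 ^ 2) * ∑ k, v k ^ 2 := by
    rw [Finset.mul_sum]; exact Finset.sum_congr rfl fun k _ => by ring
  rw [h1, h2]; ring

theorem grad_sum (e : Fin n ≃ Fin m × Fin 2) (A : MI (Fin m × Fin 2)) (dX : Mat n) :
    ∑ i, ∑ j, A (e i) j * dX i j = ∑ k, ∑ l, ∑ j, A (k, l) j * dX (e.symm (k, l)) j := by
  have h1 := sum_rows e (fun kl => ∑ j, A kl j * dX (e.symm kl) j)
  simp only [Equiv.symm_apply_apply] at h1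
  exact h1

/-- On the graph: value. -/
theorem gam_val (e : Fin n ≃ Fin m × Fin 2) (S : Sol f g p vl vr Y0) {ρ h b R : ℝ} {z : E2}
    (hρ : ∀ X : MI (Fin m × Fin 2), ‖X‖ < ρ → f X = 1 / 2 * sq X ∧ GrdI f X = X)
    (hY : 0 ≤ Y0) (hR : 0 < R) (hYR : Y0 ≤ R)
    (hsm : R ≤ |(z 1 - b) / h| →
      ‖St (gR g R ((z 1 - b) / h)) (deriv (gR g R) ((z 1 - b) / h)) (z 0 / h)‖ < ρ)
    (hr : R ≤ (z 1 - b) / h →
      |Real.exp (-R) * al ((z 1 - b) / h - R) * ∑ k, vr k ^ 2| ≤ 1)
    (hl : R ≤ -((z 1 - b) / h) →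
      |Real.exp (-R) * al (-((z 1 - b) / h) - R) * ∑ k, vl k ^ 2| ≤ 1) :
    gam e vl vr h b R (z, Qf e (gR g R) (deriv (gR g R)) h b z)
      = FS (pR g p R) (gR g R) h b z - fe e f (Qf e (gR g R) (deriv (gR g R)) h b z) ∧
    ∀ dz dX, fderiv ℝ (gam e vl vr h b R) (z, Qf e (gR g R) (deriv (gR g R)) h b z) (dz, dX)
      = ∑ i, ∑ j, (Qf e (deriv (pR g p R)) (pR g p R) h b z i j
        - Grd (fe e f) (Qf e (gR g R) (deriv (gR g R)) h b z) i j) * dX i j := by
  have hg : ∀ i j, Grd (fe e f) (Qf e (gR g R) (deriv (gR g R)) h b z) i j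
      = GrdI f (St (gR g R ((z 1 - b) / h)) (deriv (gR g R) ((z 1 - b) / h)) (z 0 / h)) (e i) j := by
    intro i j
    rw [fe_grd e S.smf, rx_Qf]
  have hv : fe e f (Qf e (gR g R) (deriv (gR g R)) h b z)
      = f (St (gR g R ((z 1 - b) / h)) (deriv (gR g R) ((z 1 - b) / h)) (z 0 / h)) := by
    unfold fe; rw [rx_Qf]
  set t := (z 1 - b) / h with ht
  set x := z 0 / h with hx
  rcases le_or_gt |t| R with hm | hm
  · -- the middle part
    have h1 := (abs_le.mp hm).1
    have h2 := (abs_le.mp hm).2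
    have o1 := hf_out e vr (σ := 1) (h := h) (b := b) (R := R)
      (q := (z, Qf e (gR g R) (deriv (gR g R)) h b z)) (by
        show 1 * ((z 1 - b) / h) - R ≤ 0
        rw [← ht]; linarith)
    have o2 := hf_out e vl (σ := -1) (h := h) (b := b) (R := R)
      (q := (z, Qf e (gR g R) (deriv (gR g R)) h b z)) (by
        show -1 * ((z 1 - b) / h) - R ≤ 0
        rw [← ht]; linarith)
    constructor
    · unfold gam
      rw [o1.1, o2.1, hv, gR_mid g h1 h2, gR'_mid S hR h1 h2, S.val]
      unfold FS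
      rw [← ht, gR'_mid S hR h1 h2, pR_mid S hR h1 h2]
      ring
    · intro dz dX
      rw [gam_fderiv, o1.2, o2.2]
      symm
      rw [add_zero]
      apply Finset.sum_eq_zero; intro i _
      apply Finset.sum_eq_zero; intro j _
      rw [hg i j, gR_mid g h1 h2, gR'_mid S hR h1 h2, S.grd]
      unfold Qf
      rw [← ht, ← hx, pR'_mid S hR h1 h2, pR_mid S hR h1 h2, sub_self, zero_mul]
  · have hρ' := hsm hm.le
    rcases lt_abs.mp hm with h1 | h1
    · -- the right tail
      have hY1 : Y0 ≤ t := by linarith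
      have e0 : gR g R t = (Real.exp (-R) * al (t - R)) • vr := gR_right S hR.le hY hY1
      have e1 : deriv (gR g R) t = (Real.exp (-R) * deriv al (t - R)) • vr :=
        gR'_right S hR.le hY hY1
      have e2 : deriv (deriv (gR g R)) t = (Real.exp (-R) * deriv (deriv al) (t - R)) • vr :=
        gR''_right S hR.le hY hY1
      have p0 : pR g p R t = (Real.exp (-R) * deriv al (t - R)) • vr := by
        rw [pR_out S (by rw [abs_of_nonneg (by linarith)]; exact hY1), e1]
      have p1 : deriv (pR g p R) t = (Real.exp (-R) * deriv (deriv al) (t - R)) • vr := by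
        rw [pR'_right S hY hY1, e2]
      have o2 := hf_out e vl (σ := -1) (h := h) (b := b) (R := R)
        (q := (z, Qf e (gR g R) (deriv (gR g R)) h b z)) (by
          show -1 * ((z 1 - b) / h) - R ≤ 0
          rw [← ht]; linarith)
      have i1 := hf_in e vr (σ := 1) (h := h) (b := b) (R := R)
        (q := (z, Qf e (gR g R) (deriv (gR g R)) h b z)) (by
          intro l
          show ∑ k, vr k * Qf e (gR g R) (deriv (gR g R)) h b z (e.symm (k, l)) 0
            = sn l (z 0 / h) * (Real.exp (-R) * al (1 * ((z 1 - b) / h) - R) * ∑ k, vr k ^ 2)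
          unfold Qf St
          rw [← ht, ← hx, one_mul]
          simp only [Equiv.apply_symm_apply, if_true]
          rw [e0, Finset.mul_sum, Finset.mul_sum]
          apply Finset.sum_congr rfl; intro k _
          simp only [Pi.smul_apply, smul_eq_mul]; ring) (by
          show |Real.exp (-R) * al (1 * ((z 1 - b) / h) - R) * ∑ k, vr k ^ 2| ≤ 1
          rw [← ht, one_mul]; exact hr h1.le)
      rw [e0, e1] at hρ' hv hg
      constructor
      · unfold gam
        rw [o2.1, i1.1, hv, add_zero]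
        unfold FS
        rw [← ht, e1, p0, tail_val hρ hρ']
        show Real.exp (-R) ^ 2 * (∑ k, vr k ^ 2) *
          ((deriv al (1 * ((z 1 - b) / h) - R) ^ 2 - al (1 * ((z 1 - b) / h) - R) ^ 2) / 2) = _
        rw [← ht, one_mul]
      · intro dz dX
        rw [gam_fderiv, o2.2, i1.2, add_zero]
        show Real.exp (-R) * eh (1 * ((z 1 - b) / h) - R) *
          ∑ l, sn l (z 0 / h) * ∑ k, vr k * dX (e.symm (k, l)) 0 = _
        rw [← ht, ← hx, one_mul]
        have h5 : ∀ i j, (Qf e (deriv (pR g p R)) (pR g p R) h b z i j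
            - Grd (fe e f) (Qf e (gR g R) (deriv (gR g R)) h b z) i j) * dX i j
            = (fun kl (j : Fin 2) => if j = 0 then
              Real.exp (-R) * eh (t - R) * (sn kl.2 x * vr kl.1) else 0) (e i) j * dX i j := by
          intro i j
          rw [hg i j, (hρ _ hρ').2]
          unfold Qf St
          rw [← ht, ← hx, p0, p1]
          simp only [Pi.smul_apply, smul_eq_mul]
          by_cases hj : j = 0
          · simp only [hj, if_true]; unfold eh; ring
          · simp only [hj, if_false]; ring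
        have h6 : ∑ i, ∑ j, (Qf e (deriv (pR g p R)) (pR g p R) h b z i j
            - Grd (fe e f) (Qf e (gR g R) (deriv (gR g R)) h b z) i j) * dX i j
            = ∑ i, ∑ j, (fun kl (j : Fin 2) => if j = 0 then
              Real.exp (-R) * eh (t - R) * (sn kl.2 x * vr kl.1) else 0) (e i) j * dX i j :=
          Finset.sum_congr rfl fun i _ => Finset.sum_congr rfl fun j _ => h5 i j
        rw [h6, grad_sum e (fun kl (j : Fin 2) => if j = 0 then
              Real.exp (-R) * eh (t - R) * (sn kl.2 x * vr kl.1) else 0) dX, Finset.sum_comm,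
          Finset.mul_sum]
        apply Finset.sum_congr rfl; intro l _
        rw [Finset.mul_sum, Finset.mul_sum]
        apply Finset.sum_congr rfl; intro k _
        rw [Fin.sum_univ_two]
        simp only [if_true, one_ne_zero, if_false, zero_mul, add_zero]
        ring
    · -- the left tail
      have hY1 : t ≤ -Y0 := by linarith
      have e0 : gR g R t = (Real.exp (-R) * al (-t - R)) • vl := gR_left S hR.le hY hY1
      have e1 : deriv (gR g R) t = (Real.exp (-R) * -deriv al (-t - R)) • vl :=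
        gR'_left S hR.le hY hY1
      have e2 : deriv (deriv (gR g R)) t = (Real.exp (-R) * deriv (deriv al) (-t - R)) • vl :=
        gR''_left S hR.le hY hY1
      have p0 : pR g p R t = (Real.exp (-R) * -deriv al (-t - R)) • vl := by
        rw [pR_out S (by rw [abs_of_nonpos (by linarith)]; linarith), e1]
      have p1 : deriv (pR g p R) t = (Real.exp (-R) * deriv (deriv al) (-t - R)) • vl := by
        rw [pR'_left S hY hY1, e2]
      have o2 := hf_out e vr (σ := 1) (h := h) (b := b) (R := R)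
        (q := (z, Qf e (gR g R) (deriv (gR g R)) h b z)) (by
          show 1 * ((z 1 - b) / h) - R ≤ 0
          rw [← ht]; linarith)
      have i1 := hf_in e vl (σ := -1) (h := h) (b := b) (R := R)
        (q := (z, Qf e (gR g R) (deriv (gR g R)) h b z)) (by
          intro l
          show ∑ k, vl k * Qf e (gR g R) (deriv (gR g R)) h b z (e.symm (k, l)) 0
            = sn l (z 0 / h) * (Real.exp (-R) * al (-1 * ((z 1 - b) / h) - R) * ∑ k, vl k ^ 2)
          unfold Qf St
          rw [← ht, ← hx, neg_one_mul]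
          simp only [Equiv.apply_symm_apply, if_true]
          rw [e0, Finset.mul_sum, Finset.mul_sum]
          apply Finset.sum_congr rfl; intro k _
          simp only [Pi.smul_apply, smul_eq_mul]; ring) (by
          show |Real.exp (-R) * al (-1 * ((z 1 - b) / h) - R) * ∑ k, vl k ^ 2| ≤ 1
          rw [← ht, neg_one_mul]; exact hl h1.le)
      rw [e0, e1] at hρ' hv hg
      constructor
      · unfold gam
        rw [o2.1, i1.1, hv, zero_add]
        unfold FS
        rw [← ht, e1, p0, tail_val hρ hρ']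
        show Real.exp (-R) ^ 2 * (∑ k, vl k ^ 2) *
          ((deriv al (-1 * ((z 1 - b) / h) - R) ^ 2 - al (-1 * ((z 1 - b) / h) - R) ^ 2) / 2) = _
        rw [← ht, neg_one_mul]
        ring
      · intro dz dX
        rw [gam_fderiv, o2.2, i1.2, zero_add]
        show Real.exp (-R) * eh (-1 * ((z 1 - b) / h) - R) *
          ∑ l, sn l (z 0 / h) * ∑ k, vl k * dX (e.symm (k, l)) 0 = _
        rw [← ht, ← hx, neg_one_mul]
        have h5 : ∀ i j, (Qf e (deriv (pR g p R)) (pR g p R) h b z i j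
            - Grd (fe e f) (Qf e (gR g R) (deriv (gR g R)) h b z) i j) * dX i j
            = (fun kl (j : Fin 2) => if j = 0 then
              Real.exp (-R) * eh (-t - R) * (sn kl.2 x * vl kl.1) else 0) (e i) j * dX i j := by
          intro i j
          rw [hg i j, (hρ _ hρ').2]
          unfold Qf St
          rw [← ht, ← hx, p0, p1]
          simp only [Pi.smul_apply, smul_eq_mul]
          by_cases hj : j = 0
          · simp only [hj, if_true]; unfold eh; ring
          · simp only [hj, if_false]; ring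
        have h6 : ∑ i, ∑ j, (Qf e (deriv (pR g p R)) (pR g p R) h b z i j
            - Grd (fe e f) (Qf e (gR g R) (deriv (gR g R)) h b z) i j) * dX i j
            = ∑ i, ∑ j, (fun kl (j : Fin 2) => if j = 0 then
              Real.exp (-R) * eh (-t - R) * (sn kl.2 x * vl kl.1) else 0) (e i) j * dX i j :=
          Finset.sum_congr rfl fun i _ => Finset.sum_congr rfl fun j _ => h5 i j
        rw [h6, grad_sum e (fun kl (j : Fin 2) => if j = 0 then
              Real.exp (-R) * eh (-t - R) * (sn kl.2 x * vl kl.1) else 0) dX, Finset.sum_comm,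
          Finset.mul_sum]
        apply Finset.sum_congr rfl; intro l _
        rw [Finset.mul_sum, Finset.mul_sum]
        apply Finset.sum_congr rfl; intro k _
        rw [Fin.sum_univ_two]
        simp only [if_true, one_ne_zero, if_false, zero_mul, add_zero]
        ring

end

end Pool.Agent.SLG.Sn
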