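import Mathlib
import Pool.Agent.SLN.P6

/-! Existence of arbitrarily thin strips with arbitrarily small corrector. -/

namespace Pool.Agent.SLG.Sn

open Set Filter Topology

variable {m n : ℕ} {f : MI (Fin m × Fin 2) → ℝ} {g p : ℝ → Fin m → ℝ} {vl vr : Fin m → ℝ}
  {Y0 : ℝ}

theorem sn_half (x : ℝ) : ∃ l : Fin 2, 1 / 2 ≤ |sn l x| := by
  by_contra hcon
  push Not at hcon
  have h0 := hcon 0
  have h1 := hcon 1
  have h2 := sum_sn_sn x
  rw [Fin.sum_univ_two, ← pow_two, ← pow_two, ← sq_abs, ← sq_abs (sn 1 x)] at h2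
  have h3 := abs_nonneg (sn 0 x)
  have h4 := abs_nonneg (sn 1 x)
  nlinarith

theorem gam_bound (e : Fin n ≃ Fin m × Fin 2) (vl vr : Fin m → ℝ) : ∃ D : ℕ → ℝ,
    (∀ k, 0 ≤ D k) ∧ ∀ h b R : ℝ, 0 < h → h ≤ 1 → 0 ≤ R → ∀ (k : ℕ) (q : E2 × Mat n),
      ‖iteratedFDeriv ℝ k (gam e vl vr h b R) q‖ ≤ Real.exp (-R) * (D k * (1 / h) ^ k) := by
  obtain ⟨C1, h10, h1⟩ := hf_DB e vr
  obtain ⟨C2, h20, h2⟩ := hf_DB e vl
  refine ⟨fun k => C1 k + C2 k, fun k => add_nonneg (h10 k) (h20 k), ?_⟩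
  intro h b R hh hh1 hR k q
  have a := (h1 1 h b R (by norm_num) hh hh1 hR).add (h2 (-1) h b R (by norm_num) hh hh1 hR)
  refine (a.2 k q).trans (le_of_eq ?_)
  ring

/-- The strips. -/
theorem strips (e : Fin n ≃ Fin m × Fin 2) (S0 : Sol f g p vl vr Y0) :
    ∃ L c0 : ℝ, 0 < c0 ∧ ∀ (K : ℕ) (a r δ : ℝ), 0 < r → 0 < δ →
      ∃ (v : E2 → Fin n → ℝ) (Y : E2 → Mat n) (F : E2 → ℝ) (γ : E2 × Mat n → ℝ),
        IsStrip (fe e f) K L c0 a r δ v Y F γ := by
  obtain ⟨ys, hys⟩ := S0.nz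
  obtain ⟨k0, hk0⟩ : ∃ k, g ys k ≠ 0 := by
    by_contra hcon
    push Not at hcon
    exact hys (funext hcon)
  set Y1 := max Y0 0 with hY1
  have S : Sol f g p vl vr Y1 := S0.mono (le_max_left _ _)
  have hY : 0 ≤ Y1 := le_max_right _ _
  clear_value Y1
  obtain ⟨C, hC0, hC1, hC2⟩ := R_bounds S hY
  obtain ⟨ρ, hρ0, hρ⟩ := near_ball S.near
  obtain ⟨D, hD0, hD⟩ := gam_bound e vl vr
  obtain ⟨A, hA1, hA⟩ := al_bounds
  set Vr := ∑ k, vr k ^ 2 with hVr
  set Vl := ∑ k, vl k ^ 2 with hVl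
  have hVr0 : 0 ≤ Vr := Finset.sum_nonneg fun k _ => sq_nonneg _
  have hVl0 : 0 ≤ Vl := Finset.sum_nonneg fun k _ => sq_nonneg _
  -- smallness of the tails
  obtain ⟨R1, hR1⟩ : ∃ R1 : ℝ, ∀ R, R1 ≤ R → C * Real.exp (-R) < ρ ∧
      Real.exp (-R) * (A * (Vr + Vl)) ≤ 1 := by
    have t1 : Tendsto (fun R : ℝ => Real.exp (-R)) atTop (𝓝 0) :=
      Real.tendsto_exp_neg_atTop_nhds_zero
    have t2 : Tendsto (fun R : ℝ => C * Real.exp (-R)) atTop (𝓝 0) := by
      simpa using t1.const_mul C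
    have t3 : Tendsto (fun R : ℝ => Real.exp (-R) * (A * (Vr + Vl))) atTop (𝓝 0) := by
      simpa using t1.mul_const (A * (Vr + Vl))
    have e1 := (t2.eventually_lt_const hρ0).and (t3.eventually_le_const zero_lt_one)
    obtain ⟨R1, hR1⟩ := eventually_atTop.mp e1
    exact ⟨R1, fun R hR => hR1 R hR⟩
  refine ⟨C + m * C ^ 2, |g ys k0| / 2, by have := abs_pos.mpr hk0; positivity, ?_⟩
  intro K a r δ hr hδ
  have hmC : 0 ≤ (m:ℝ) * C ^ 2 := by positivity
  -- the scale
  set As := 1 + |ys| with hAs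
  set RR := max 1 (max Y1 (max R1 |ys|)) with hRR
  obtain ⟨u, hu1, hu2, hu3⟩ := choose_u (c := r / 2) (δ := δ) As
    (max ((RR + As) / (r / 2)) (C / (δ * r))) D K (by positivity) hδ hD0
  set h := 1 / u with hh
  have hu0 : 0 < u := by linarith
  have hh0 : 0 < h := by rw [hh]; positivity
  have hh1 : h ≤ 1 := by rw [hh, div_le_one hu0]; exact hu2
  have hinv : 1 / h = u := by rw [hh]; field_simp
  set R := r / 2 * u - As with hR
  have hRge : RR ≤ R := by
    have h1 : (RR + As) / (r / 2) ≤ u := (le_max_left _ _).trans hu1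
    rw [div_le_iff₀ (by positivity)] at h1
    rw [hR]; linarith
  have hR1' : 1 ≤ R := (le_max_left _ _).trans hRge
  have hRY : Y1 ≤ R := ((le_max_left _ _).trans (le_max_right _ _)).trans hRge
  have hRR1 : R1 ≤ R :=
    (((le_max_left _ _).trans (le_max_right _ _)).trans (le_max_right _ _)).trans hRge
  have hRys : |ys| ≤ R :=
    (((le_max_right _ _).trans (le_max_right _ _)).trans (le_max_right _ _)).trans hRge
  have hR0 : 0 < R := by linarith
  have hCh : h * C ≤ δ * r := by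
    have h1 : C / (δ * r) ≤ u := (le_max_right _ _).trans hu1
    rw [div_le_iff₀ (by positivity)] at h1
    rw [hh]
    rw [one_div, inv_mul_le_iff₀ hu0]
    linarith
  have hrh : h * (R + 1 + |ys|) = r / 2 := by
    rw [hh, hR, hAs]; field_simp; ring
  clear_value R
  set b := a - h * ys with hb
  -- location
  have hloc : ∀ z : E2, r / 2 ≤ |z 1 - a| → R + 1 ≤ |(z 1 - b) / h| := by
    intro z hz
    rw [abs_div, abs_of_pos hh0, le_div_iff₀ hh0]
    have h1 : |z 1 - a| ≤ |z 1 - b| + h * |ys| := by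
      have e1 : z 1 - a = (z 1 - b) + (-(h * ys)) := by rw [hb]; ring
      rw [e1]
      refine (abs_add_le _ _).trans ?_
      rw [abs_neg, abs_mul, abs_of_pos hh0]
    nlinarith
  have hcen : ∀ z : E2, z 1 = a → (z 1 - b) / h = ys := by
    intro z hz
    rw [hz, hb]; field_simp; ring
  have hgs := gR_smooth S.smg R
  have hps := pR_smooth S.smg S.smp R
  have hJ := Jac_vS e hgs hh0.ne' b
  have hsm : ∀ z : E2, R ≤ |(z 1 - b) / h| →
      ‖St (gR g R ((z 1 - b) / h)) (deriv (gR g R) ((z 1 - b) / h)) (z 0 / h)‖ < ρ := by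
    intro z hz
    obtain ⟨h1, h2⟩ := hC2 R _ hR0 hRY hz
    exact (St_norm h1 h2 _).trans_lt (hR1 R hRR1).1
  have halV : ∀ s V : ℝ, 0 ≤ s → 0 ≤ V → V ≤ Vr + Vl →
      |Real.exp (-R) * al s * V| ≤ 1 := by
    intro s V hs hV hV'
    rw [abs_mul, abs_mul, abs_of_pos (Real.exp_pos _), abs_of_nonneg hV]
    have h1 : |al s| ≤ A := by
      refine (hA s).1.trans ?_
      have : Real.exp (-s) ≤ 1 := Real.exp_le_one_iff.mpr (by linarith)
      exact mul_le_of_le_one_right (by linarith) this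
    have hE := Real.exp_pos (-R)
    calc Real.exp (-R) * |al s| * V ≤ Real.exp (-R) * A * (Vr + Vl) := by
          apply mul_le_mul _ hV' hV (by positivity)
          exact mul_le_mul_of_nonneg_left h1 hE.le
      _ = Real.exp (-R) * (A * (Vr + Vl)) := by ring
      _ ≤ 1 := (hR1 R hRR1).2
  have hgr : ∀ z : E2, _ := fun z : E2 => gam_val e S (ρ := ρ) (h := h) (b := b) (R := R) (z := z)
    hρ hY hR0 hRY (hsm z)
    (fun hz => halV _ Vr (by linarith) hVr0 (by linarith))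
    (fun hz => halV _ Vl (by linarith) hVl0 (by linarith))
  refine ⟨vS e (gR g R) h b, Qf e (deriv (pR g p R)) (pR g p R) h b, FS (pR g p R) (gR g R) h b,
    gam e vl vr h b R, ?_⟩
  have hz1 : ∀ t, R + 1 ≤ |t| → _ := fun t ht => R_zero S hR0.le hY hRY ht
  refine
    { smv := (vS_smooth e hgs h b).of_le (natCast_le_top 2)
      smY := (Qf_smooth e (smooth_deriv hps) hps h b).of_le
        (by exact_mod_cast (le_top : (1 : ℕ∞) ≤ ⊤))
      smF := (FS_smooth hps hgs h b).of_le (by exact_mod_cast (le_top : (1 : ℕ∞) ≤ ⊤))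
      divY := fun z i => divY_strip e hps h b z i
      dF := fun z k => dF_strip e hps hgs hh0.ne' b z k
      suppv := ?_
      suppY := ?_
      suppF := ?_
      suppγ := ?_
      bv := ?_
      bJ := ?_
      bY := ?_
      bF := ?_
      low := ?_
      smγ := gam_smooth e vl vr h b R
      bγ := ?_
      val := ?_
      der := ?_ }
  · intro z hz
    funext i
    unfold vS
    rw [(hz1 _ (hloc z hz)).1]
    simp
  · intro z hz
    funext i j
    unfold Qf St
    rw [(hz1 _ (hloc z hz)).2.2.1, (hz1 _ (hloc z hz)).2.2.2]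
    simp
  · intro z hz
    unfold FS
    rw [(hz1 _ (hloc z hz)).2.2.1]
    simp
  · intro z X hz
    exact gam_supp e vl vr hR0.le X (hloc z hz)
  · intro z
    obtain ⟨h1, -⟩ := hC1 R ((z 1 - b) / h) hR0 hRY
    rw [pi_norm_le_iff_of_nonneg (by positivity)]
    intro i
    unfold vS
    rw [Real.norm_eq_abs, abs_mul, abs_mul, abs_of_pos hh0]
    calc h * (|cs (e i).2 (z 0 / h)| * |gR g R ((z 1 - b) / h) (e i).1|)
        ≤ h * (1 * C) := by
          apply mul_le_mul_of_nonneg_left _ hh0.le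
          exact mul_le_mul (abs_cs_le _ _) ((norm_le_pi_norm _ _).trans h1) (abs_nonneg _)
            zero_le_one
      _ = h * C := by ring
      _ ≤ δ * r := hCh
  · intro z
    obtain ⟨h1, h2, -, -⟩ := hC1 R ((z 1 - b) / h) hR0 hRY
    rw [hJ]
    exact (Qf_norm e h1 h2).trans (by linarith)
  · intro z
    obtain ⟨-, -, h3, h4⟩ := hC1 R ((z 1 - b) / h) hR0 hRY
    exact (Qf_norm e h4 h3).trans (by linarith)
  · intro z
    obtain ⟨-, h2, h3, -⟩ := hC1 R ((z 1 - b) / h) hR0 hRY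
    unfold FS
    calc |∑ k, pR g p R ((z 1 - b) / h) k * deriv (gR g R) ((z 1 - b) / h) k|
        ≤ ∑ k, |pR g p R ((z 1 - b) / h) k * deriv (gR g R) ((z 1 - b) / h) k| :=
          Finset.abs_sum_le_sum_abs _ _
      _ ≤ ∑ _k : Fin m, C * C := by
          apply Finset.sum_le_sum
          intro k _
          rw [abs_mul]
          exact mul_le_mul ((norm_le_pi_norm _ _).trans h3) ((norm_le_pi_norm _ _).trans h2)
            (abs_nonneg _) hC0
      _ = m * C ^ 2 := by rw [Finset.sum_const, Finset.card_univ, Fintype.card_fin]; ring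
      _ ≤ C + m * C ^ 2 := by linarith
  · intro z hz
    rw [hJ]
    obtain ⟨l, hl⟩ := sn_half (z 0 / h)
    have h1 := entry_le (Qf e (gR g R) (deriv (gR g R)) h b z) (e.symm (k0, l)) 0
    refine le_trans ?_ h1
    unfold Qf St
    rw [hcen z hz]
    simp only [Equiv.apply_symm_apply, if_true]
    have h2 := abs_le.mp hRys
    rw [gR_mid g h2.1 h2.2, abs_mul]
    have h3 := abs_nonneg (g ys k0)
    nlinarith
  · intro k hk q
    refine (hD h b R hh0 hh1 hR0.le k q).trans ?_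
    rw [hinv]
    exact hu3 k hk
  · intro z
    rw [hJ]
    exact (hgr z).1
  · intro z dz dX
    rw [hJ]
    exact (hgr z).2 dz dX

end Pool.Agent.SLG.Sn
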