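import Mathlib
import Pool.Agent.SLN.Defs

/-! Strong polyconvexity implies strong quasiconvexity (two columns). -/

namespace Pool.Agent.SLG.Sn

open MeasureTheory

/-- `f` is strongly quasiconvex: for some `γ > 0`, all matrices `X` and all smooth `φ` with compact
support in the unit disc `B`, `∫_B f(X + Dφ) ≥ ∫_B (f(X) + γ |Dφ|²)`. -/
def StronglyQuasiconvex {n : ℕ} (f : Mat n → ℝ) : Prop :=
  ∃ γ : ℝ, 0 < γ ∧ ∀ (X : Mat n) (φ : E2 → Fin n → ℝ),
    ContDiff ℝ ((⊤ : ℕ∞) : WithTop ℕ∞) φ → HasCompactSupport φ →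
    tsupport φ ⊆ Metric.ball 0 1 →
    ∫ x in Metric.ball (0 : E2) 1, (f X + γ * sq (Jac φ x))
      ≤ ∫ x in Metric.ball (0 : E2) 1, f (X + Jac φ x)

/-- Partial derivatives of a smooth function of compact support. -/
lemma q2_pd {φ : E2 → ℝ} (hφ : ContDiff ℝ ((⊤ : ℕ∞) : WithTop ℕ∞) φ) (hc : HasCompactSupport φ)
    (v : E2) : ContDiff ℝ ((⊤ : ℕ∞) : WithTop ℕ∞) (fun x => fderiv ℝ φ x v) ∧
      HasCompactSupport (fun x => fderiv ℝ φ x v) := by
  constructor
  · exact (hφ.fderiv_right (m := ((⊤ : ℕ∞) : WithTop ℕ∞)) (by exact_mod_cast le_top)).clm_apply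
      contDiff_const
  · exact (hc.fderiv ℝ).comp_left (g := fun L : E2 →L[ℝ] ℝ => L v) (by simp)

/-- The integral of a partial derivative vanishes. -/
lemma q2_int_pd {φ : E2 → ℝ} (hφ : ContDiff ℝ ((⊤ : ℕ∞) : WithTop ℕ∞) φ)
    (hc : HasCompactSupport φ) (v : E2) : ∫ x, fderiv ℝ φ x v = 0 := by
  obtain ⟨h1, h2⟩ := q2_pd hφ hc v
  have hd : Differentiable ℝ φ := hφ.differentiable (by simp)
  have key := integral_mul_fderiv_eq_neg_fderiv_mul_of_integrable (𝕜 := ℝ) (μ := (volume : Measure E2))
    (f := fun _ : E2 => (1 : ℝ)) (g := φ) (v := v)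
    (by simp)
    (by simpa using h1.continuous.integrable_of_hasCompactSupport h2)
    (by simpa using hφ.continuous.integrable_of_hasCompactSupport hc)
    (fun x _ => differentiableAt_const _) (fun x _ => hd x)
  simpa using key

/-- The integral of a minor vanishes. -/
lemma q2_int_minor {φ ψ : E2 → ℝ} (hφ : ContDiff ℝ ((⊤ : ℕ∞) : WithTop ℕ∞) φ)
    (hcφ : HasCompactSupport φ) (hψ : ContDiff ℝ ((⊤ : ℕ∞) : WithTop ℕ∞) ψ)
    (hcψ : HasCompactSupport ψ) (v w : E2) :
    ∫ x, (fderiv ℝ φ x v * fderiv ℝ ψ x w - fderiv ℝ φ x w * fderiv ℝ ψ x v) = 0 := by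
  have hdφ : Differentiable ℝ φ := hφ.differentiable (by simp)
  have key : ∀ a b : E2, ∫ x, fderiv ℝ φ x a * fderiv ℝ ψ x b
      = - ∫ x, φ x * fderiv ℝ (fun y => fderiv ℝ ψ y b) x a := by
    intro a b
    obtain ⟨h1, h2⟩ := q2_pd hψ hcψ b
    obtain ⟨h3, h4⟩ := q2_pd h1 h2 a
    obtain ⟨h5, h6⟩ := q2_pd hφ hcφ a
    have h := integral_mul_fderiv_eq_neg_fderiv_mul_of_integrable (𝕜 := ℝ)
      (μ := (volume : Measure E2)) (f := φ) (g := fun y => fderiv ℝ ψ y b) (v := a)
      ((h5.continuous.mul h1.continuous).integrable_of_hasCompactSupport h6.mul_right)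
      ((hφ.continuous.mul h3.continuous).integrable_of_hasCompactSupport hcφ.mul_right)
      ((hφ.continuous.mul h1.continuous).integrable_of_hasCompactSupport hcφ.mul_right)
      (fun x _ => hdφ x) (fun x _ => h1.differentiable (by simp) x)
    rw [h, neg_neg]
  have hint : ∀ a b : E2, Integrable (fun x => fderiv ℝ φ x a * fderiv ℝ ψ x b) := by
    intro a b
    obtain ⟨h1, h2⟩ := q2_pd hψ hcψ b
    obtain ⟨h5, h6⟩ := q2_pd hφ hcφ a
    exact (h5.continuous.mul h1.continuous).integrable_of_hasCompactSupport h6.mul_right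
  rw [integral_sub (hint v w) (hint w v), key v w, key w v]
  have hsym : ∀ x, fderiv ℝ (fun y => fderiv ℝ ψ y w) x v = fderiv ℝ (fun y => fderiv ℝ ψ y v) x w := by
    intro x
    have hd2 : DifferentiableAt ℝ (fderiv ℝ ψ) x :=
      ((hψ.fderiv_right (m := ((⊤ : ℕ∞) : WithTop ℕ∞)) (by exact_mod_cast le_top)).differentiable
        (by simp)) x
    have e1 : ∀ a b : E2, fderiv ℝ (fun y => fderiv ℝ ψ y b) x a = fderiv ℝ (fderiv ℝ ψ) x a b := by
      intro a b
      rw [fderiv_clm_apply hd2 (differentiableAt_const b)]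
      simp
    rw [e1 v w, e1 w v]
    have hs : IsSymmSndFDerivAt ℝ ψ x :=
      ContDiffAt.isSymmSndFDerivAt (n := ((⊤ : ℕ∞) : WithTop ℕ∞)) hψ.contDiffAt
        (by simp only [minSmoothness_of_isRCLikeNormedField]; exact WithTop.coe_le_coe.2 (le_top : (2 : ℕ∞) ≤ ⊤))
    exact hs.eq v w
  simp only [hsym]
  ring

/-- Components of the Jacobian. -/
lemma q2_jac {n : ℕ} {φ : E2 → Fin n → ℝ} (hφ : ContDiff ℝ ((⊤ : ℕ∞) : WithTop ℕ∞) φ) (x : E2)
    (i : Fin n) (j : Fin 2) : Jac φ x i j = fderiv ℝ (fun y => φ y i) x (ee j) := by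
  have h : HasFDerivAt φ (fderiv ℝ φ x) x := (hφ.differentiable (by simp) x).hasFDerivAt
  have h2 := (hasFDerivAt_pi'.1 h) i
  rw [h2.fderiv]
  rfl

/-- A strongly polyconvex function is strongly quasiconvex. -/
theorem spc_sqc_of {n : ℕ} {f : Mat n → ℝ} (h : StronglyPolyconvex f) :
    StronglyQuasiconvex f := by
  obtain ⟨γ, hγ, g, hg, hfg⟩ := h
  refine ⟨γ, hγ, fun X φ hφ hc hs => ?_⟩
  -- smooth components
  have hφi : ∀ i, ContDiff ℝ ((⊤ : ℕ∞) : WithTop ℕ∞) (fun y => φ y i) := fun i =>
    contDiff_pi.1 hφ i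
  have hci : ∀ i, HasCompactSupport (fun y => φ y i) := fun i =>
    hc.comp_left (g := fun u : Fin n → ℝ => u i) rfl
  have hJ : ∀ x i j, Jac φ x i j = fderiv ℝ (fun y => φ y i) x (ee j) := q2_jac hφ
  have hJc : ∀ i j, Continuous (fun x => Jac φ x i j) := by
    intro i j
    simp only [hJ]
    exact (q2_pd (hφi i) (hci i) (ee j)).1.continuous
  have hJcont : Continuous (Jac φ) := by
    refine continuous_pi fun i => continuous_pi fun j => hJc i j
  -- integrals over the ball and over the plane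
  have hz : ∀ x, x ∉ Metric.ball (0 : E2) 1 → Jac φ x = 0 := by
    intro x hx
    have h1 : x ∉ tsupport φ := fun h => hx (hs h)
    have h2 : φ =ᶠ[nhds x] 0 := notMem_tsupport_iff_eventuallyEq.1 h1
    have h3 : fderiv ℝ φ x = 0 := by
      rw [h2.fderiv_eq]
      simp
    ext i j
    simp [Jac, h3]
  have hball : ∀ F : E2 → ℝ, (∀ x, x ∉ Metric.ball (0 : E2) 1 → F x = 0) →
      ∫ x in Metric.ball (0 : E2) 1, F x = ∫ x, F x := fun F hF =>
    setIntegral_eq_integral_of_forall_compl_eq_zero hF
  have hIJ : ∀ i j, ∫ x in Metric.ball (0 : E2) 1, Jac φ x i j = 0 := by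
    intro i j
    rw [hball _ (fun x hx => by rw [hz x hx]; rfl)]
    simp only [hJ]
    exact q2_int_pd (hφi i) (hci i) (ee j)
  have hIm : ∀ p q, ∫ x in Metric.ball (0 : E2) 1, minor (Jac φ x) p q = 0 := by
    intro p q
    rw [hball _ (fun x hx => by rw [hz x hx]; simp [minor])]
    simp only [minor, hJ]
    exact q2_int_minor (hφi p) (hci p) (hφi q) (hci q) (ee 0) (ee 1)
  -- integrability on the ball of continuous functions
  have hint : ∀ {F : Type} [NormedAddCommGroup F] [NormedSpace ℝ F] (G : E2 → F), Continuous G →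
      IntegrableOn G (Metric.ball (0 : E2) 1) := by
    intro F _ _ G hG
    exact (hG.continuousOn.integrableOn_compact (isCompact_closedBall (0 : E2) 1)).mono_set
      Metric.ball_subset_closedBall
  have hvol : (volume (Metric.ball (0 : E2) 1)) ≠ 0 :=
    (Metric.measure_ball_pos volume (0 : E2) one_pos).ne'
  have hvol2 : (volume (Metric.ball (0 : E2) 1)) ≠ ⊤ := measure_ball_lt_top.ne
  -- continuity of the minors
  have hminc : Continuous (fun M : Mat n => minor M) := by
    refine continuous_pi fun p => continuous_pi fun q => ?_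
    unfold minor
    fun_prop
  obtain ⟨P, hP⟩ : ∃ P : E2 → Mat n × (Fin n → Fin n → ℝ),
      P = fun x => (X + Jac φ x, minor (X + Jac φ x)) := ⟨_, rfl⟩
  have hPc : Continuous P := by
    rw [hP]
    exact (continuous_const.add hJcont).prodMk (hminc.comp (continuous_const.add hJcont))
  have hgc : Continuous g := by
    have := hg.continuousOn isOpen_univ
    rwa [continuousOn_univ] at this
  have hav : ⨍ x in Metric.ball (0 : E2) 1, P x = (X, minor X) := by
    have hPi : IntegrableOn P (Metric.ball (0 : E2) 1) := hint P hPc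
    obtain ⟨V, hV⟩ : ∃ V : ℝ, V = (volume : Measure E2).real (Metric.ball (0 : E2) 1) := ⟨_, rfl⟩
    have hVpos : V ≠ 0 := by
      rw [hV]
      exact (ENNReal.toReal_pos hvol hvol2).ne'
    have key : ∀ L : (Mat n × (Fin n → Fin n → ℝ)) →L[ℝ] ℝ,
        L (⨍ x in Metric.ball (0 : E2) 1, P x) = V⁻¹ * ∫ x in Metric.ball (0 : E2) 1, L (P x) := by
      intro L
      rw [setAverage_eq, L.map_smul, ← hV, smul_eq_mul, L.integral_comp_comm hPi]
    have hconst : ∀ c : ℝ, ∀ G : E2 → ℝ, Continuous G →
        ∫ x in Metric.ball (0 : E2) 1, G x = 0 →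
        V⁻¹ * ∫ x in Metric.ball (0 : E2) 1, (c + G x) = c := by
      intro c G hG h0
      rw [integral_add (hint (fun _ => c) continuous_const) (hint G hG), h0, setIntegral_const,
        ← hV, smul_eq_mul, add_zero]
      field_simp
    have e1 : ∀ i j, (⨍ x in Metric.ball (0 : E2) 1, P x).1 i j = X i j := by
      intro i j
      have := key ((ContinuousLinearMap.proj (R := ℝ) (φ := fun _ : Fin 2 => ℝ) j).comp
        ((ContinuousLinearMap.proj (R := ℝ) (φ := fun _ : Fin n => Fin 2 → ℝ) i).comp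
          (ContinuousLinearMap.fst ℝ (Mat n) (Fin n → Fin n → ℝ))))
      simp only [ContinuousLinearMap.comp_apply, ContinuousLinearMap.coe_fst',
        ContinuousLinearMap.proj_apply] at this
      rw [this, hP]
      exact hconst (X i j) (fun x => Jac φ x i j) (hJc i j) (hIJ i j)
    have e2 : ∀ p q, (⨍ x in Metric.ball (0 : E2) 1, P x).2 p q = minor X p q := by
      intro p q
      have := key ((ContinuousLinearMap.proj (R := ℝ) (φ := fun _ : Fin n => ℝ) q).comp
        ((ContinuousLinearMap.proj (R := ℝ) (φ := fun _ : Fin n => Fin n → ℝ) p).comp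
          (ContinuousLinearMap.snd ℝ (Mat n) (Fin n → Fin n → ℝ))))
      simp only [ContinuousLinearMap.comp_apply, ContinuousLinearMap.coe_snd',
        ContinuousLinearMap.proj_apply] at this
      rw [this, hP]
      have hc1 : Continuous fun x => X p 0 * Jac φ x q 1 + X q 1 * Jac φ x p 0
          - X p 1 * Jac φ x q 0 - X q 0 * Jac φ x p 1 :=
        (((continuous_const.mul (hJc q 1)).add (continuous_const.mul (hJc p 0))).sub
          (continuous_const.mul (hJc q 0))).sub (continuous_const.mul (hJc p 1))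
      have hc2 : Continuous fun x => minor (Jac φ x) p q :=
        ((hJc p 0).mul (hJc q 1)).sub ((hJc p 1).mul (hJc q 0))
      have h0 : ∫ x in Metric.ball (0 : E2) 1, (X p 0 * Jac φ x q 1 + X q 1 * Jac φ x p 0
          - X p 1 * Jac φ x q 0 - X q 0 * Jac φ x p 1 + minor (Jac φ x) p q) = 0 := by
        have k1 : Continuous fun x => X p 0 * Jac φ x q 1 := continuous_const.mul (hJc q 1)
        have k2 : Continuous fun x => X q 1 * Jac φ x p 0 := continuous_const.mul (hJc p 0)
        have k3 : Continuous fun x => X p 1 * Jac φ x q 0 := continuous_const.mul (hJc q 0)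
        have k4 : Continuous fun x => X q 0 * Jac φ x p 1 := continuous_const.mul (hJc p 1)
        have k5 : Continuous fun x => X p 0 * Jac φ x q 1 + X q 1 * Jac φ x p 0 := k1.add k2
        have k6 : Continuous fun x => X p 0 * Jac φ x q 1 + X q 1 * Jac φ x p 0
          - X p 1 * Jac φ x q 0 := k5.sub k3
        rw [integral_add (hint (fun x => X p 0 * Jac φ x q 1 + X q 1 * Jac φ x p 0
            - X p 1 * Jac φ x q 0 - X q 0 * Jac φ x p 1) hc1)
            (hint (fun x => minor (Jac φ x) p q) hc2), hIm p q,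
          integral_sub (hint (fun x => X p 0 * Jac φ x q 1 + X q 1 * Jac φ x p 0
            - X p 1 * Jac φ x q 0) k6) (hint (fun x => X q 0 * Jac φ x p 1) k4),
          integral_sub (hint (fun x => X p 0 * Jac φ x q 1 + X q 1 * Jac φ x p 0) k5)
            (hint (fun x => X p 1 * Jac φ x q 0) k3),
          integral_add (hint (fun x => X p 0 * Jac φ x q 1) k1)
            (hint (fun x => X q 1 * Jac φ x p 0) k2),
          integral_const_mul, integral_const_mul, integral_const_mul, integral_const_mul,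
          hIJ, hIJ, hIJ, hIJ]
        ring
      have h3 := hconst (minor X p q) _ (hc1.add hc2) h0
      rw [← h3]
      congr 1
      refine integral_congr_ae (Filter.Eventually.of_forall fun x => ?_)
      simp only [minor, Pi.add_apply]
      ring
    exact Prod.ext (funext fun i => funext fun j => e1 i j) (funext fun p => funext fun q => e2 p q)
  have hJen := hg.map_set_average_le (μ := (volume : Measure E2)) hgc.continuousOn isClosed_univ
    hvol hvol2 (Filter.Eventually.of_forall fun _ => Set.mem_univ _) (hint P hPc)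
    (hint (g ∘ P) (hgc.comp hPc))
  rw [hav] at hJen
  obtain ⟨V, hV⟩ : ∃ V : ℝ, V = (volume : Measure E2).real (Metric.ball (0 : E2) 1) := ⟨_, rfl⟩
  have hVpos : 0 < V := by
    rw [hV]
    exact ENNReal.toReal_pos hvol hvol2
  rw [setAverage_eq, ← hV, smul_eq_mul] at hJen
  have hJen2 : V * g (X, minor X) ≤ ∫ x in Metric.ball (0 : E2) 1, g (P x) := by
    have := mul_le_mul_of_nonneg_left hJen hVpos.le
    rwa [← mul_assoc, mul_inv_cancel₀ hVpos.ne', one_mul] at this
  -- the right-hand side
  have hsqc : Continuous fun x => sq (Jac φ x) := by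
    unfold sq
    exact continuous_finsetSum _ fun i _ => continuous_finsetSum _ fun j _ => (hJc i j).pow 2
  have hlin : Continuous fun x => ∑ i, ∑ j, 2 * X i j * Jac φ x i j :=
    continuous_finsetSum _ fun i _ => continuous_finsetSum _ fun j _ =>
      continuous_const.mul (hJc i j)
  have hlin0 : ∫ x in Metric.ball (0 : E2) 1, ∑ i, ∑ j, 2 * X i j * Jac φ x i j = 0 := by
    have k1 : ∀ i j, Continuous fun x => 2 * X i j * Jac φ x i j := fun i j =>
      continuous_const.mul (hJc i j)
    have k2 : ∀ i, Continuous fun x => ∑ j, 2 * X i j * Jac φ x i j := fun i =>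
      continuous_finsetSum _ fun j _ => k1 i j
    rw [integral_finsetSum _ fun i _ => hint (fun x => ∑ j, 2 * X i j * Jac φ x i j) (k2 i)]
    refine Finset.sum_eq_zero fun i _ => ?_
    rw [integral_finsetSum _ fun j _ => hint (fun x => 2 * X i j * Jac φ x i j) (k1 i j)]
    refine Finset.sum_eq_zero fun j _ => ?_
    rw [integral_const_mul, hIJ, mul_zero]
  have hsq : ∀ x, sq (X + Jac φ x) = sq X + (∑ i, ∑ j, 2 * X i j * Jac φ x i j) + sq (Jac φ x) := by
    intro x
    simp only [sq, ← Finset.sum_add_distrib, Pi.add_apply]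
    refine Finset.sum_congr rfl fun i _ => Finset.sum_congr rfl fun j _ => ?_
    ring
  have hR : ∀ x, f (X + Jac φ x) = γ * sq X + γ * (∑ i, ∑ j, 2 * X i j * Jac φ x i j)
      + γ * sq (Jac φ x) + g (P x) := by
    intro x
    have h1 := hfg (X + Jac φ x)
    rw [hP]
    simp only
    rw [← h1, hsq x]
    ring
  have hL : ∀ x, f X + γ * sq (Jac φ x) = (γ * sq X + g (X, minor X)) + γ * sq (Jac φ x) := by
    intro x
    have h1 := hfg X
    rw [← h1]
    ring
  simp only [hL, hR]
  have c1 : Continuous fun x => γ * sq (Jac φ x) := continuous_const.mul hsqc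
  have c2 : Continuous fun x => γ * ∑ i, ∑ j, 2 * X i j * Jac φ x i j := continuous_const.mul hlin
  have c3 : Continuous fun x => γ * sq X + γ * ∑ i, ∑ j, 2 * X i j * Jac φ x i j :=
    continuous_const.add c2
  have c4 : Continuous fun x => γ * sq X + γ * (∑ i, ∑ j, 2 * X i j * Jac φ x i j)
      + γ * sq (Jac φ x) := c3.add c1
  have c5 : Continuous fun x => g (P x) := hgc.comp hPc
  rw [integral_add (hint (fun _ => γ * sq X + g (X, minor X)) continuous_const)
      (hint (fun x => γ * sq (Jac φ x)) c1),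
    integral_add (hint (fun x => γ * sq X + γ * (∑ i, ∑ j, 2 * X i j * Jac φ x i j)
      + γ * sq (Jac φ x)) c4) (hint (fun x => g (P x)) c5),
    integral_add (hint (fun x => γ * sq X + γ * ∑ i, ∑ j, 2 * X i j * Jac φ x i j) c3)
      (hint (fun x => γ * sq (Jac φ x)) c1),
    integral_add (hint (fun _ => γ * sq X) continuous_const)
      (hint (fun x => γ * ∑ i, ∑ j, 2 * X i j * Jac φ x i j) c2),
    setIntegral_const, setIntegral_const, ← hV, smul_eq_mul, smul_eq_mul,
    integral_const_mul γ (fun x => ∑ i, ∑ j, 2 * X i j * Jac φ x i j), hlin0]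
  nlinarith [hJen2]

/-- A strongly polyconvex continuous function is strongly quasiconvex. -/
theorem spc_sqc {n : ℕ} {f : Mat n → ℝ} (_hf : Continuous f) (h : StronglyPolyconvex f) :
    StronglyQuasiconvex f := spc_sqc_of h

end Pool.Agent.SLG.Sn
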