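import Mathlib
import Pool.Agent.SLN.P7
import Pool.Agent.SLN.A8
import Pool.Agent.SLN.Q2
import Pool.Agent.SLN.Ec8

/-! MP_73203d_an: assembly of the blocks. `Ec.exists_sol`: a strip soliton with its integrand
exists; `strips`: it gives arbitrarily thin strips with arbitrarily small correctors; `assembly`:
infinitely many strips give the counterexample. -/

namespace Pool.Agent.SLG.Sn

open MeasureTheory

theorem main : ∃ (n : ℕ) (f : Mat n → ℝ), ContDiff ℝ ((⊤ : ℕ∞) : WithTop ℕ∞) f ∧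
      StronglyPolyconvex f ∧ StronglyQuasiconvex f ∧
      ∃ (Ω : Set E2) (u : E2 → Fin n → ℝ), IsOpen Ω ∧ Bornology.IsBounded Ω ∧
        (∃ K : NNReal, LipschitzOnWith K u Ω) ∧ Stationary f Ω u ∧ ¬ PartiallyRegular Ω u := by
  obtain ⟨m, f, g, p, vl, vr, Y0, S⟩ := Ec.exists_sol
  obtain ⟨L, c0, hc0, h⟩ := strips (finProdFinEquiv (m := m) (n := 2)).symm S
  obtain ⟨F, Ω, u, hF, hp, hΩ, hb, hL, hst, hn⟩ := assembly
    (fe (finProdFinEquiv (m := m) (n := 2)).symm f) (fe_smooth _ S.smf) (fe_spc _ S.spc) L c0 hc0 h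
  exact ⟨2 + m * 2, F, hF, hp, spc_sqc_of hp, Ω, u, hΩ, hb, hL, hst, hn⟩

end Pool.Agent.SLG.Sn
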