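import Mathlib

/-!
# The soliton block, part 1: groups of three components

A group is a triple `(h, χ, ρ)` of scalar functions with the symmetric form
`-(s_h u_h) + (s_χ u_ρ + s_ρ u_χ) / 2`.
-/

open Real Set

noncomputable section

namespace SLN

/-! ### The smooth transition -/

lemma S_contDiff : ContDiff ℝ (⊤ : ℕ∞) Real.smoothTransition := Real.smoothTransition.contDiff

lemma S_diff : Differentiable ℝ Real.smoothTransition :=
  S_contDiff.differentiable (by simp)

lemma dS_nonneg (x : ℝ) : 0 ≤ deriv Real.smoothTransition x :=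
  Real.smoothTransition.monotone.deriv_nonneg

lemma dS_of_nonpos {x : ℝ} (h : x ≤ 0) : deriv Real.smoothTransition x = 0 := by
  apply IsLocalMin.deriv_eq_zero
  refine Filter.Eventually.of_forall fun y => ?_
  rw [Real.smoothTransition.zero_of_nonpos h]
  exact Real.smoothTransition.nonneg y

lemma dS_of_one_le {x : ℝ} (h : 1 ≤ x) : deriv Real.smoothTransition x = 0 := by
  apply IsLocalMax.deriv_eq_zero
  refine Filter.Eventually.of_forall fun y => ?_
  rw [Real.smoothTransition.one_of_one_le h]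
  exact Real.smoothTransition.le_one y

lemma dS_bound : ∃ C : ℝ, 0 < C ∧ ∀ x, deriv Real.smoothTransition x ≤ C := by
  have hc : Continuous (deriv Real.smoothTransition) :=
    S_contDiff.continuous_deriv (by simp)
  obtain ⟨x0, _, hx0⟩ := isCompact_Icc.exists_isMaxOn (s := Icc (0:ℝ) 1) ⟨0, by simp⟩
    hc.continuousOn
  refine ⟨deriv Real.smoothTransition x0 + 1, by linarith [dS_nonneg x0], fun x => ?_⟩
  rcases le_total x 0 with h | h
  · rw [dS_of_nonpos h]; linarith [dS_nonneg x0]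
  rcases le_total 1 x with h1 | h1
  · rw [dS_of_one_le h1]; linarith [dS_nonneg x0]
  have := hx0 (show x ∈ Icc (0:ℝ) 1 from ⟨h, h1⟩)
  simp only [Set.mem_ofPred_eq] at this
  linarith

/-! ### Groups -/

/-- The form of a group of three components. -/
def N3 (h χ ρ : ℝ → ℝ) (ε t y : ℝ) : ℝ :=
  -((h t - ε * h y) * (deriv h t - ε * deriv h y))
  + 1/2 * ((χ t - ε * χ y) * (deriv ρ t - ε * deriv ρ y)
    + (ρ t - ε * ρ y) * (deriv χ t - ε * deriv χ y))

/-- The weight. -/
def Wt (ε t y : ℝ) : ℝ := min 1 ((t - y) ^ 2 + (1 - ε))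

lemma Wt_le_one (ε t y : ℝ) : Wt ε t y ≤ 1 := min_le_left _ _

lemma Wt_nonneg {ε : ℝ} (hε : ε = 1 ∨ ε = -1) (t y : ℝ) : 0 ≤ Wt ε t y := by
  unfold Wt
  rcases hε with h | h <;> subst h <;> exact le_min zero_le_one (by nlinarith [sq_nonneg (t - y)])

/-- If `χ, ρ` vanish at the base and `χ = 1` on the support of `ρ`, the form is simple. -/
lemma N3_eq {h χ ρ : ℝ → ℝ} (hχ : Differentiable ℝ χ) (hρ : Differentiable ℝ ρ)
    (hχρ : ∀ t, χ t * ρ t = ρ t) {y : ℝ} (h1 : χ y = 0) (h2 : ρ y = 0)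
    (h3 : deriv χ y = 0) (h4 : deriv ρ y = 0) (ε t : ℝ) :
    N3 h χ ρ ε t y = -((h t - ε * h y) * (deriv h t - ε * deriv h y)) + 1/2 * deriv ρ t := by
  have e : (fun t => χ t * ρ t) = ρ := funext hχρ
  have e2 : deriv ρ t = deriv χ t * ρ t + χ t * deriv ρ t := by
    conv_lhs => rw [← e]
    exact deriv_mul (hχ t) (hρ t)
  unfold N3
  rw [h1, h2, h3, h4]
  simp only [mul_zero, sub_zero]
  linarith

/-- The core estimate. -/
theorem core (h : ℝ → ℝ) (hs : ContDiff ℝ (⊤ : ℕ∞) h) (α β D E q : ℝ) (hαβ : α ≤ β)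
    (hDα : -D ≤ α) (hβE : β < E) (hq : q < exp α)
    (h1 : ∀ t ≤ -D, 0 ≤ h t ∧ h t ≤ q ∧ 0 ≤ deriv h t ∧ deriv h t ≤ q)
    (h2 : ∀ t, -D ≤ t → t ≤ E → h t = exp t ∧ deriv h t = exp t)
    (h3 : ∀ t, E + 1 ≤ t → h t = 0 ∧ deriv h t = 0) :
    ∃ χ ρ : ℝ → ℝ, ∃ R c : ℝ, E + 1 < R ∧ 0 < c ∧ ContDiff ℝ (⊤ : ℕ∞) χ ∧
      ContDiff ℝ (⊤ : ℕ∞) ρ ∧ (∀ t ≤ β, χ t = 0 ∧ ρ t = 0) ∧ (∀ t, R ≤ t → χ t = 0 ∧ ρ t = 0) ∧
      ∀ y ∈ Icc α β, ∀ t ε : ℝ, (ε = 1 ∨ ε = -1) → N3 h χ ρ ε t y ≤ -c * Wt ε t y := by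
  obtain ⟨C, hC, hdS⟩ := dS_bound
  have hdh : Continuous (deriv h) := hs.continuous_deriv (by simp)
  obtain ⟨K1, hK1⟩ := isCompact_Icc.exists_bound_of_continuousOn (s := Icc E (E+1))
    hs.continuous.continuousOn
  obtain ⟨K2, hK2⟩ := isCompact_Icc.exists_bound_of_continuousOn (s := Icc E (E+1))
    hdh.continuousOn
  set K := max K1 K2 with hK
  have hK0 : 0 ≤ K := le_trans (norm_nonneg _) ((hK1 E ⟨le_refl _, by linarith⟩).trans
    (le_max_left _ _))
  set a0 := exp α with ha0
  set a1 := exp β with ha1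
  have ha0p : 0 < a0 := exp_pos _
  have ha1p : 0 < a1 := exp_pos _
  set b := (β + E) / 2 with hb
  have hβb : β < b := by rw [hb]; linarith
  have hbE : b < E := by rw [hb]; linarith
  set P := 2 * ((K + a1) ^ 2 + 1) with hP
  have hPp : 0 < P := by positivity
  set M := P * exp (E + 1 - b) with hM
  have hMp : 0 < M := by positivity
  set l := M * C / a0 ^ 2 + 1 with hl
  have hlp : 0 < l := by positivity
  have hMl : M * C / l ≤ a0 ^ 2 := by
    rw [div_le_iff₀ hlp, hl]
    have : a0 ^ 2 * (M * C / a0 ^ 2 + 1) = M * C + a0 ^ 2 := by field_simp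
    rw [this]; nlinarith [sq_nonneg a0]
  set R0 := E + 1 + l with hR0
  -- the functions
  set s1 : ℝ → ℝ := fun t => Real.smoothTransition ((t - b) / (E - b)) with hs1
  set s2 : ℝ → ℝ := fun t => Real.smoothTransition ((R0 - t) / l) with hs2
  set ρ : ℝ → ℝ := fun t => -M * (1 - exp (b - t)) * s1 t * s2 t with hρ
  set χ : ℝ → ℝ := fun t => Real.smoothTransition ((t - β) / (b - β)) *
    Real.smoothTransition (R0 + 1 - t) with hχ
  have hEb : 0 < E - b := by linarith
  have hbβ : 0 < b - β := by linarith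
  have cs1 : ContDiff ℝ (⊤ : ℕ∞) s1 := S_contDiff.comp (by fun_prop)
  have cs2 : ContDiff ℝ (⊤ : ℕ∞) s2 := S_contDiff.comp (by fun_prop)
  have cρ : ContDiff ℝ (⊤ : ℕ∞) ρ := by
    refine ContDiff.mul (ContDiff.mul ?_ cs1) cs2
    fun_prop
  have cχ : ContDiff ℝ (⊤ : ℕ∞) χ := by
    refine ContDiff.mul (S_contDiff.comp (by fun_prop)) (S_contDiff.comp (by fun_prop))
  have ds1 : ∀ t, HasDerivAt s1 (deriv Real.smoothTransition ((t - b) / (E - b)) * (1 / (E - b))) t := by
    intro t
    have e1 : HasDerivAt (fun t : ℝ => (t - b) / (E - b)) (1 / (E - b)) t :=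
      ((hasDerivAt_id t).sub_const b).div_const _
    exact (S_diff _).hasDerivAt.comp t e1
  have ds2 : ∀ t, HasDerivAt s2 (deriv Real.smoothTransition ((R0 - t) / l) * (-1 / l)) t := by
    intro t
    have e1 : HasDerivAt (fun t : ℝ => (R0 - t) / l) (-1 / l) t :=
      ((hasDerivAt_id t).const_sub R0).div_const _
    exact (S_diff _).hasDerivAt.comp t e1
  have dρ : ∀ t, deriv ρ t = -M * (exp (b - t) * s1 t * s2 t
      + (1 - exp (b - t)) * (deriv Real.smoothTransition ((t - b) / (E - b)) * (1 / (E - b))) * s2 t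
      + (1 - exp (b - t)) * s1 t * (deriv Real.smoothTransition ((R0 - t) / l) * (-1 / l))) := by
    intro t
    have e0 : HasDerivAt (fun t : ℝ => -M * (1 - exp (b - t))) (-M * exp (b - t)) t := by
      have e1 : HasDerivAt (fun t : ℝ => exp (b - t)) (exp (b - t) * (-1)) t :=
        ((hasDerivAt_id' t).const_sub b).exp
      exact ((e1.const_sub 1).const_mul (-M)).congr_deriv (by ring)
    have e3 := ((e0.mul (ds1 t)).mul (ds2 t)).deriv
    rw [hρ]
    rw [show (fun t => -M * (1 - exp (b - t)) * s1 t * s2 t) =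
      (((fun t => -M * (1 - exp (b - t))) * s1) * s2) from rfl, e3]
    simp only [Pi.mul_apply]
    ring
  have s1n : ∀ t, 0 ≤ s1 t := fun t => Real.smoothTransition.nonneg _
  have s1l : ∀ t, s1 t ≤ 1 := fun t => Real.smoothTransition.le_one _
  have s2n : ∀ t, 0 ≤ s2 t := fun t => Real.smoothTransition.nonneg _
  have s2l : ∀ t, s2 t ≤ 1 := fun t => Real.smoothTransition.le_one _
  -- region facts
  have r0 : ∀ t ≤ b, ρ t = 0 ∧ deriv ρ t = 0 := by
    intro t ht
    have q1 : (t - b) / (E - b) ≤ 0 := div_nonpos_of_nonpos_of_nonneg (by linarith) hEb.le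
    have q2 : s1 t = 0 := Real.smoothTransition.zero_of_nonpos q1
    refine ⟨by simp [hρ, q2], ?_⟩
    rw [dρ, q2, dS_of_nonpos q1]; ring
  have r1 : ∀ t ≤ E + 1, deriv ρ t ≤ 0 := by
    intro t ht
    rcases le_total t b with h | h
    · rw [(r0 t h).2]
    have q1 : 1 ≤ (R0 - t) / l := by rw [le_div_iff₀ hlp, hR0]; linarith
    have q2 : s2 t = 1 := Real.smoothTransition.one_of_one_le q1
    have q3 : exp (b - t) ≤ 1 := exp_le_one_iff.2 (by linarith)
    rw [dρ, q2, dS_of_one_le q1]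
    have q4 : 0 ≤ exp (b - t) * s1 t := mul_nonneg (exp_pos _).le (s1n t)
    have q5 : 0 ≤ (1 - exp (b - t)) * (deriv Real.smoothTransition ((t - b) / (E - b)) * (1 / (E - b))) := by
      apply mul_nonneg (by linarith)
      exact mul_nonneg (dS_nonneg _) (by positivity)
    nlinarith
  have r2 : ∀ t, E ≤ t → t ≤ E + 1 → deriv ρ t ≤ -P := by
    intro t ht ht'
    have q1 : 1 ≤ (R0 - t) / l := by rw [le_div_iff₀ hlp, hR0]; linarith
    have q2 : s2 t = 1 := Real.smoothTransition.one_of_one_le q1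
    have q1' : 1 ≤ (t - b) / (E - b) := by rw [le_div_iff₀ hEb]; linarith
    have q2' : s1 t = 1 := Real.smoothTransition.one_of_one_le q1'
    rw [dρ, q2, q2', dS_of_one_le q1, dS_of_one_le q1']
    have q3 : exp (b - (E + 1)) ≤ exp (b - t) := exp_le_exp.2 (by linarith)
    have q4 : M * exp (b - (E + 1)) = P := by
      rw [hM, mul_assoc, ← exp_add]
      simp
    nlinarith
  have r3 : ∀ t, E + 1 ≤ t → deriv ρ t ≤ a0 ^ 2 := by
    intro t ht
    have q1' : 1 ≤ (t - b) / (E - b) := by rw [le_div_iff₀ hEb]; linarith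
    have q2' : s1 t = 1 := Real.smoothTransition.one_of_one_le q1'
    rw [dρ, q2', dS_of_one_le q1']
    have q3 : exp (b - t) ≤ 1 := exp_le_one_iff.2 (by linarith)
    have q3' : 0 < exp (b - t) := exp_pos _
    have q4 : 0 ≤ M * (exp (b - t) * s2 t) := mul_nonneg hMp.le (mul_nonneg q3'.le (s2n t))
    have q5 : M * ((1 - exp (b - t)) * (deriv Real.smoothTransition ((R0 - t) / l) * (1 / l)))
        ≤ M * (1 * (C * (1 / l))) := by
      apply mul_le_mul_of_nonneg_left _ hMp.le
      apply mul_le_mul (by linarith) _ (mul_nonneg (dS_nonneg _) (by positivity)) zero_le_one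
      exact mul_le_mul_of_nonneg_right (hdS _) (by positivity)
    have q6 : M * (1 * (C * (1 / l))) = M * C / l := by ring
    rw [q6] at q5
    calc _ = -(M * (exp (b - t) * s2 t)) + M * ((1 - exp (b - t)) *
          (deriv Real.smoothTransition ((R0 - t) / l) * (1 / l))) := by ring
      _ ≤ a0 ^ 2 := by linarith
  have χ0 : ∀ t ≤ β, χ t = 0 := by
    intro t ht
    have : (t - β) / (b - β) ≤ 0 := div_nonpos_of_nonpos_of_nonneg (by linarith) hbβ.le
    simp [hχ, Real.smoothTransition.zero_of_nonpos this]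
  have χn : ∀ t, 0 ≤ χ t := fun t =>
    mul_nonneg (Real.smoothTransition.nonneg _) (Real.smoothTransition.nonneg _)
  have dχ0 : ∀ t ≤ β, deriv χ t = 0 := by
    intro t ht
    apply IsLocalMin.deriv_eq_zero
    refine Filter.Eventually.of_forall fun y => ?_
    rw [χ0 t ht]; exact χn y
  have hχρ : ∀ t, χ t * ρ t = ρ t := by
    intro t
    rcases le_total t b with h | h
    · rw [(r0 t h).1, mul_zero]
    rcases le_total R0 t with h' | h'
    · have : (R0 - t) / l ≤ 0 := div_nonpos_of_nonpos_of_nonneg (by linarith) hlp.le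
      have : s2 t = 0 := Real.smoothTransition.zero_of_nonpos this
      simp [hρ, this]
    · have e1 : 1 ≤ (t - β) / (b - β) := by rw [le_div_iff₀ hbβ]; linarith
      have : χ t = 1 := by
        simp only [hχ]
        rw [Real.smoothTransition.one_of_one_le e1, Real.smoothTransition.one_of_one_le
          (by linarith), mul_one]
      rw [this, one_mul]
  -- the constant
  have hq0 : 0 ≤ q := (h1 (-D) le_rfl).1.trans (h1 (-D) le_rfl).2.1
  set c := min (min ((a0 - q) ^ 2) (exp (-D) ^ 2)) (min 1 (a0 ^ 2 / 2)) with hc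
  have hcp : 0 < c := by
    rw [hc]
    refine lt_min (lt_min ?_ (by positivity)) (lt_min one_pos (by positivity))
    have : 0 < a0 - q := by linarith
    positivity
  have hc1 : c ≤ (a0 - q) ^ 2 := (min_le_left _ _).trans (min_le_left _ _)
  have hc2 : c ≤ exp (-D) ^ 2 := (min_le_left _ _).trans (min_le_right _ _)
  have hc3 : c ≤ 1 := (min_le_right _ _).trans (min_le_left _ _)
  have hc4 : c ≤ a0 ^ 2 / 2 := (min_le_right _ _).trans (min_le_right _ _)
  refine ⟨χ, ρ, R0 + 1, c, by linarith, hcp, cχ, cρ, fun t ht => ⟨χ0 t ht, (r0 t (by linarith)).1⟩,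
    ?_, ?_⟩
  · intro t ht
    refine ⟨?_, ?_⟩
    · simp only [hχ]
      rw [Real.smoothTransition.zero_of_nonpos (show R0 + 1 - t ≤ 0 by linarith), mul_zero]
    · have : (R0 - t) / l ≤ 0 := div_nonpos_of_nonpos_of_nonneg (by linarith) hlp.le
      have : s2 t = 0 := Real.smoothTransition.zero_of_nonpos this
      simp [hρ, this]
  intro y hy t ε hε
  have hyb : y ≤ b := hy.2.trans hβb.le
  rw [N3_eq (cχ.differentiable (by simp)) (cρ.differentiable (by simp)) hχρ (χ0 y hy.2)
    (r0 y hyb).1 (dχ0 y hy.2) (r0 y hyb).2]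
  obtain ⟨hy1, hy2⟩ := h2 y (hDα.trans hy.1) (hy.2.trans hβE.le)
  rw [hy1, hy2]
  set a := exp y with ha
  have haa0 : a0 ≤ a := exp_le_exp.2 hy.1
  have haa1 : a ≤ a1 := exp_le_exp.2 hy.2
  have hap : 0 < a := exp_pos _
  have hW1 := Wt_le_one ε t y
  have hW0 := Wt_nonneg hε t y
  -- it is enough to bound by `-c` where the weight is not used
  have fin : ∀ x : ℝ, x ≤ -c → x ≤ -c * Wt ε t y := by
    intro x hx
    nlinarith
  rcases le_total t (-D) with hr | hr
  · -- region I
    apply fin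
    obtain ⟨u1, u2, u3, u4⟩ := h1 t hr
    rw [(r0 t (by linarith [hy.1, hy.2])).2]
    rcases hε with rfl | rfl
    · have : (a0 - q) ^ 2 ≤ (a - h t) * (a - deriv h t) := by
        rw [sq]; apply mul_le_mul <;> linarith
      nlinarith
    · have : a0 ^ 2 ≤ (h t + a) * (deriv h t + a) := by
        rw [sq]; apply mul_le_mul <;> linarith
      have : a0 ^ 2 / 2 ≤ a0 ^ 2 := by nlinarith
      nlinarith
  rcases le_total t E with hr2 | hr2
  · -- region II, III
    obtain ⟨u1, u2⟩ := h2 t hr hr2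
    rw [u1, u2]
    have hρn := r1 t (by linarith)
    have hDt : exp (-D) ≤ exp t := exp_le_exp.2 hr
    have hDy : exp (-D) ≤ a := exp_le_exp.2 (hDα.trans hy.1)
    have hDp : 0 < exp (-D) := exp_pos _
    rcases hε with rfl | rfl
    · have key : exp (-D) ^ 2 * (t - y) ^ 2 ≤ (exp t - a) ^ 2 := by
        rcases le_total y t with hyt | hyt
        · have e1 : a * (t - y) ≤ exp t - a := by
            have := add_one_le_exp (t - y)
            have e2 : exp t = a * exp (t - y) := by rw [ha, ← exp_add]; ring_nf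
            rw [e2]; nlinarith
          have e3 : exp (-D) * (t - y) ≤ exp t - a := by nlinarith
          have e4 : 0 ≤ exp (-D) * (t - y) := mul_nonneg hDp.le (by linarith)
          calc _ = (exp (-D) * (t - y)) ^ 2 := by ring
            _ ≤ _ := by gcongr
        · have e1 : exp t * (y - t) ≤ a - exp t := by
            have := add_one_le_exp (y - t)
            have e2 : a = exp t * exp (y - t) := by rw [ha, ← exp_add]; ring_nf
            rw [e2]; nlinarith [exp_pos t]
          have e3 : exp (-D) * (y - t) ≤ a - exp t := by nlinarith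
          have e4 : 0 ≤ exp (-D) * (y - t) := mul_nonneg hDp.le (by linarith)
          calc _ = (exp (-D) * (y - t)) ^ 2 := by ring
            _ ≤ (a - exp t) ^ 2 := by gcongr
            _ = _ := by ring
      have w1 : Wt 1 t y ≤ (t - y) ^ 2 := by
        unfold Wt; refine (min_le_right _ _).trans (by linarith)
      have w2 : c * Wt 1 t y ≤ exp (-D) ^ 2 * (t - y) ^ 2 := by
        apply mul_le_mul hc2 w1 hW0 (by positivity)
      nlinarith
    · apply fin
      have : a0 ^ 2 ≤ (exp t + a) ^ 2 := by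
        have := exp_pos t
        apply pow_le_pow_left₀ ha0p.le; linarith
      nlinarith
  rcases le_total t (E + 1) with hr3 | hr3
  · -- region IV
    apply fin
    have hρn := r2 t hr2 hr3
    have k1 : |h t| ≤ K := (hK1 t ⟨hr2, hr3⟩).trans (le_max_left _ _)
    have k2 : |deriv h t| ≤ K := (hK2 t ⟨hr2, hr3⟩).trans (le_max_right _ _)
    have hε' : |ε| = 1 := by rcases hε with rfl | rfl <;> simp
    have k3 : |h t - ε * a| ≤ K + a1 := by
      calc _ ≤ |h t| + |ε * a| := abs_sub _ _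
        _ = |h t| + a := by rw [abs_mul, hε', one_mul, abs_of_pos hap]
        _ ≤ _ := by linarith
    have k4 : |deriv h t - ε * a| ≤ K + a1 := by
      calc _ ≤ |deriv h t| + |ε * a| := abs_sub _ _
        _ = |deriv h t| + a := by rw [abs_mul, hε', one_mul, abs_of_pos hap]
        _ ≤ _ := by linarith
    have k5 : |(h t - ε * a) * (deriv h t - ε * a)| ≤ (K + a1) ^ 2 := by
      rw [abs_mul, sq]
      exact mul_le_mul k3 k4 (abs_nonneg _) (by positivity)
    have k6 := neg_le_of_abs_le k5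
    rw [hP] at hρn
    linarith
  · -- region V
    apply fin
    have hρn := r3 t hr3
    obtain ⟨u1, u2⟩ := h3 t hr3
    rw [u1, u2]
    have hε' : ε ^ 2 = 1 := by rcases hε with rfl | rfl <;> norm_num
    have : a0 ^ 2 ≤ a ^ 2 := by gcongr
    have e : (0 - ε * a) * (0 - ε * a) = a ^ 2 := by
      calc _ = ε ^ 2 * a ^ 2 := by ring
        _ = _ := by rw [hε', one_mul]
    rw [e]
    linarith

end SLN
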