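import Pool.Agent.SLN.Om1

/-!
# The soliton block, part 2: interior groups, tail groups, translation, mirror image
-/

open Real Set

noncomputable section

namespace SLN

lemma dh_formula (e1 e2 : ℝ) (t : ℝ) :
    HasDerivAt (fun t : ℝ => exp t * Real.smoothTransition (t + e1) * Real.smoothTransition (e2 - t))
      (exp t * Real.smoothTransition (t + e1) * Real.smoothTransition (e2 - t)
        + exp t * deriv Real.smoothTransition (t + e1) * Real.smoothTransition (e2 - t)
        - exp t * Real.smoothTransition (t + e1) * deriv Real.smoothTransition (e2 - t)) t := by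
  have h1 : HasDerivAt (fun t : ℝ => Real.smoothTransition (t + e1))
      (deriv Real.smoothTransition (t + e1) * 1) t :=
    (S_diff _).hasDerivAt.comp t ((hasDerivAt_id' t).add_const e1)
  have h2 : HasDerivAt (fun t : ℝ => Real.smoothTransition (e2 - t))
      (deriv Real.smoothTransition (e2 - t) * (-1)) t :=
    (S_diff _).hasDerivAt.comp t ((hasDerivAt_id' t).const_sub e2)
  exact (((Real.hasDerivAt_exp t).mul h1).mul h2).congr_deriv (by
    simp only [Pi.mul_apply]; ring)

/-- The interior group. -/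
theorem interior_group : ∃ (h χ ρ : ℝ → ℝ) (T c : ℝ), 1 ≤ T ∧ 0 < c ∧ ContDiff ℝ (⊤ : ℕ∞) h ∧
    ContDiff ℝ (⊤ : ℕ∞) χ ∧ ContDiff ℝ (⊤ : ℕ∞) ρ ∧
    (∀ t ≤ -T, h t = 0 ∧ χ t = 0 ∧ ρ t = 0) ∧ (∀ t, T ≤ t → h t = 0 ∧ χ t = 0 ∧ ρ t = 0) ∧
    ∀ y ∈ Icc (-1 : ℝ) 1, ∀ t ε : ℝ, (ε = 1 ∨ ε = -1) → N3 h χ ρ ε t y ≤ -c * Wt ε t y := by
  obtain ⟨C, hC, hdS⟩ := dS_bound
  set D := Real.log (1 + C) + 2 with hD
  have hlog : 0 ≤ Real.log (1 + C) := Real.log_nonneg (by linarith)
  set h : ℝ → ℝ := fun t => exp t * Real.smoothTransition (t + (D + 1)) *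
    Real.smoothTransition (3 - t) with hh
  have hs : ContDiff ℝ (⊤ : ℕ∞) h := by
    refine ContDiff.mul (ContDiff.mul (by fun_prop) (S_contDiff.comp (by fun_prop)))
      (S_contDiff.comp (by fun_prop))
  have hd : ∀ t, deriv h t = exp t * Real.smoothTransition (t + (D + 1)) * Real.smoothTransition (3 - t)
        + exp t * deriv Real.smoothTransition (t + (D + 1)) * Real.smoothTransition (3 - t)
        - exp t * Real.smoothTransition (t + (D + 1)) * deriv Real.smoothTransition (3 - t) :=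
    fun t => (dh_formula (D + 1) 3 t).deriv
  have hexpD : exp (-D) * (1 + C) = exp (-2) := by
    rw [hD, neg_add, exp_add, exp_neg, exp_log (by linarith)]
    have : (1 + C) ≠ 0 := by linarith
    field_simp
  obtain ⟨χ, ρ, R, c, hR, hc, cχ, cρ, hχρ, hχρ', hcert⟩ := core h hs (-1) 1 D 2 (exp (-2))
    (by norm_num) (by linarith) (by norm_num) (exp_lt_exp.2 (by norm_num))
    (by
      intro t ht
      have q1 : Real.smoothTransition (3 - t) = 1 :=
        Real.smoothTransition.one_of_one_le (by linarith)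
      have q2 : deriv Real.smoothTransition (3 - t) = 0 := dS_of_one_le (by linarith)
      rw [hd, q1, q2]
      simp only [hh, q1]
      have q3 := Real.smoothTransition.nonneg (t + (D + 1))
      have q4 := Real.smoothTransition.le_one (t + (D + 1))
      have q5 := dS_nonneg (t + (D + 1))
      have q6 := hdS (t + (D + 1))
      have q7 : exp t ≤ exp (-D) := exp_le_exp.2 ht
      have q8 := exp_pos t
      have q9 : exp t * Real.smoothTransition (t + (D + 1)) ≤ exp (-D) := by nlinarith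
      have q10 : exp t * deriv Real.smoothTransition (t + (D + 1)) ≤ exp (-D) * C :=
        mul_le_mul q7 q6 q5 (exp_pos _).le
      have q11 : 0 ≤ exp t * Real.smoothTransition (t + (D + 1)) := mul_nonneg q8.le q3
      have q12 : 0 ≤ exp t * deriv Real.smoothTransition (t + (D + 1)) := mul_nonneg q8.le q5
      have q13 := exp_pos (-D)
      refine ⟨by linarith, ?_, by linarith, ?_⟩
      · rw [← hexpD]; nlinarith
      · rw [← hexpD]; nlinarith)
    (by
      intro t ht ht2
      have q1 : Real.smoothTransition (3 - t) = 1 :=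
        Real.smoothTransition.one_of_one_le (by linarith)
      have q2 : deriv Real.smoothTransition (3 - t) = 0 := dS_of_one_le (by linarith)
      have q3 : Real.smoothTransition (t + (D + 1)) = 1 :=
        Real.smoothTransition.one_of_one_le (by linarith)
      have q4 : deriv Real.smoothTransition (t + (D + 1)) = 0 := dS_of_one_le (by linarith)
      rw [hd, q1, q2, q3, q4]
      simp only [hh, q1, q3]
      constructor <;> ring)
    (by
      intro t ht
      have q1 : Real.smoothTransition (3 - t) = 0 :=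
        Real.smoothTransition.zero_of_nonpos (by linarith)
      have q2 : deriv Real.smoothTransition (3 - t) = 0 := dS_of_nonpos (by linarith)
      rw [hd, q1, q2]
      simp only [hh, q1]
      constructor <;> ring)
  set T := max R (D + 1) with hT
  have hTR : R ≤ T := le_max_left _ _
  have hTD : D + 1 ≤ T := le_max_right _ _
  refine ⟨h, χ, ρ, T, c, by linarith, hc, hs, cχ, cρ, ?_, ?_, hcert⟩
  · intro t ht
    refine ⟨?_, hχρ t (by linarith)⟩
    simp only [hh]
    rw [Real.smoothTransition.zero_of_nonpos (show t + (D + 1) ≤ 0 by linarith)]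
    ring
  · intro t ht
    refine ⟨?_, hχρ' t (by linarith)⟩
    simp only [hh]
    rw [Real.smoothTransition.zero_of_nonpos (show 3 - t ≤ 0 by linarith)]
    ring

/-- The left tail group. -/
theorem left_group (B : ℝ) (hB : 0 ≤ B) : ∃ (h χ ρ : ℝ → ℝ) (R c : ℝ), B + 1 < R ∧ 0 < c ∧
    ContDiff ℝ (⊤ : ℕ∞) h ∧ ContDiff ℝ (⊤ : ℕ∞) χ ∧ ContDiff ℝ (⊤ : ℕ∞) ρ ∧
    (∀ t ≤ B, h t = exp t ∧ χ t = 0 ∧ ρ t = 0) ∧ (∀ t, R ≤ t → h t = 0 ∧ χ t = 0 ∧ ρ t = 0) ∧
    ∀ y ∈ Icc (-2 : ℝ) B, ∀ t ε : ℝ, (ε = 1 ∨ ε = -1) → N3 h χ ρ ε t y ≤ -c * Wt ε t y := by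
  set h : ℝ → ℝ := fun t => exp t * Real.smoothTransition (B + 2 - t) with hh
  have hs : ContDiff ℝ (⊤ : ℕ∞) h := by
    refine ContDiff.mul (by fun_prop) (S_contDiff.comp (by fun_prop))
  have hd : ∀ t, deriv h t = exp t * Real.smoothTransition (B + 2 - t)
        - exp t * deriv Real.smoothTransition (B + 2 - t) := by
    intro t
    have h2 : HasDerivAt (fun t : ℝ => Real.smoothTransition (B + 2 - t))
        (deriv Real.smoothTransition (B + 2 - t) * (-1)) t :=
      (S_diff _).hasDerivAt.comp t ((hasDerivAt_id' t).const_sub (B + 2))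
    have h3 := ((Real.hasDerivAt_exp t).mul h2).deriv
    rw [hh]
    rw [show (fun t => exp t * Real.smoothTransition (B + 2 - t)) =
      (exp * fun t => Real.smoothTransition (B + 2 - t)) from rfl, h3]
    ring
  have q1 : ∀ t ≤ B + 1, Real.smoothTransition (B + 2 - t) = 1 ∧
      deriv Real.smoothTransition (B + 2 - t) = 0 := fun t ht =>
    ⟨Real.smoothTransition.one_of_one_le (by linarith), dS_of_one_le (by linarith)⟩
  obtain ⟨χ, ρ, R, c, hR, hc, cχ, cρ, hχρ, hχρ', hcert⟩ := core h hs (-2) B 3 (B + 1) (exp (-3))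
    (by linarith) (by norm_num) (by linarith) (exp_lt_exp.2 (by norm_num))
    (by
      intro t ht
      obtain ⟨q2, q3⟩ := q1 t (by linarith)
      rw [hd, q2, q3]
      simp only [hh, q2]
      have q7 : exp t ≤ exp (-3) := exp_le_exp.2 ht
      have q8 := exp_pos t
      refine ⟨by linarith, by linarith, by linarith, by linarith⟩)
    (by
      intro t _ ht
      obtain ⟨q2, q3⟩ := q1 t ht
      rw [hd, q2, q3]
      simp only [hh, q2]
      constructor <;> ring)
    (by
      intro t ht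
      have q2 : Real.smoothTransition (B + 2 - t) = 0 :=
        Real.smoothTransition.zero_of_nonpos (by linarith)
      have q3 : deriv Real.smoothTransition (B + 2 - t) = 0 := dS_of_nonpos (by linarith)
      rw [hd, q2, q3]
      simp only [hh, q2]
      constructor <;> ring)
  refine ⟨h, χ, ρ, R, c, by linarith, hc, hs, cχ, cρ, ?_, ?_, hcert⟩
  · intro t ht
    refine ⟨?_, hχρ t (by linarith)⟩
    simp only [hh]
    rw [(q1 t (by linarith)).1, mul_one]
  · intro t ht
    refine ⟨?_, hχρ' t (by linarith)⟩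
    simp only [hh]
    rw [Real.smoothTransition.zero_of_nonpos (show B + 2 - t ≤ 0 by linarith), mul_zero]

/-! ### Translation and mirror image -/

lemma Wt_trans (ε t y x : ℝ) : Wt ε (t - x) (y - x) = Wt ε t y := by
  unfold Wt; ring_nf

lemma Wt_trans' (ε t y x : ℝ) : Wt ε (t + x) (y + x) = Wt ε t y := by
  unfold Wt; ring_nf

lemma Wt_mirror (ε t y x : ℝ) : Wt ε (x - t) (x - y) = Wt ε t y := by
  unfold Wt; ring_nf

lemma N3_trans (h χ ρ : ℝ → ℝ) (x ε t y : ℝ) :
    N3 (fun t => h (t - x)) (fun t => χ (t - x)) (fun t => ρ (t - x)) ε t y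
      = N3 h χ ρ ε (t - x) (y - x) := by
  unfold N3
  simp only [deriv_comp_sub_const]

lemma N3_trans' (h χ ρ : ℝ → ℝ) (x ε t y : ℝ) :
    N3 (fun t => h (t + x)) (fun t => χ (t + x)) (fun t => ρ (t + x)) ε t y
      = N3 h χ ρ ε (t + x) (y + x) := by
  unfold N3
  simp only [deriv_comp_add_const]

lemma N3_mirror (h χ ρ : ℝ → ℝ) (x ε t y : ℝ) :
    N3 (fun t => h (x - t)) (fun t => χ (x - t)) (fun t => ρ (x - t)) ε t y
      = -N3 h χ ρ ε (x - t) (x - y) := by
  unfold N3
  simp only [deriv_comp_const_sub]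
  ring

/-! ### Exponential tails -/

/-- Exact exponential tails. -/
def Tail (f : ℝ → ℝ) (L A B : ℝ) : Prop :=
  (∀ t, t ≤ -L → f t = A * exp t) ∧ (∀ t, L ≤ t → f t = B * exp (-t))

lemma Tail.mono {f : ℝ → ℝ} {L L' A B : ℝ} (h : Tail f L A B) (hL : L ≤ L') : Tail f L' A B :=
  ⟨fun t ht => h.1 t (by linarith), fun t ht => h.2 t (by linarith)⟩

lemma Tail.deriv {f : ℝ → ℝ} {L A B : ℝ} (h : Tail f L A B) : Tail (deriv f) (L + 1) A (-B) := by
  constructor
  · intro t ht
    have e : f =ᶠ[nhds t] fun t => A * exp t := by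
      filter_upwards [Iio_mem_nhds (show t < -L by linarith)] with s hs
      exact h.1 s (le_of_lt hs)
    rw [e.deriv_eq]
    exact ((Real.hasDerivAt_exp t).const_mul A).deriv
  · intro t ht
    have e : f =ᶠ[nhds t] fun t => B * exp (-t) := by
      filter_upwards [Ioi_mem_nhds (show L < t by linarith)] with s hs
      exact h.2 s (le_of_lt hs)
    rw [e.deriv_eq]
    have h2 : HasDerivAt (fun t : ℝ => B * exp (-t)) (B * (exp (-t) * (-1))) t :=
      ((hasDerivAt_id' t).neg.exp).const_mul B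
    rw [h2.deriv]; ring

lemma Tail.bdd {f : ℝ → ℝ} {L A B : ℝ} (h : Tail f L A B) (hL : 0 ≤ L) (hf : Continuous f) :
    ∃ M, 0 ≤ M ∧ ∀ t, |f t| ≤ M := by
  obtain ⟨K, hK⟩ := isCompact_Icc.exists_bound_of_continuousOn (s := Icc (-L) L) hf.continuousOn
  refine ⟨max (max |A| |B|) K, le_max_of_le_left (le_max_of_le_left (abs_nonneg _)), fun t => ?_⟩
  rcases le_total t (-L) with h1 | h1
  · rw [h.1 t h1, abs_mul, abs_of_pos (exp_pos t)]
    have : exp t ≤ 1 := exp_le_one_iff.2 (by linarith)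
    refine le_trans ?_ ((le_max_left |A| |B|).trans (le_max_left _ _))
    nlinarith [abs_nonneg A]
  rcases le_total L t with h2 | h2
  · rw [h.2 t h2, abs_mul, abs_of_pos (exp_pos _)]
    have : exp (-t) ≤ 1 := exp_le_one_iff.2 (by linarith)
    refine le_trans ?_ ((le_max_right |A| |B|).trans (le_max_left _ _))
    nlinarith [abs_nonneg B]
  · exact (hK t ⟨h1, h2⟩).trans (le_max_right _ _)

lemma lip_of_deriv {f : ℝ → ℝ} (hf : Differentiable ℝ f) {M : ℝ} (hM : ∀ t, |deriv f t| ≤ M)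
    (t y : ℝ) : |f t - f y| ≤ M * |t - y| := by
  have := Convex.norm_image_sub_le_of_norm_deriv_le (f := f) (C := M) (s := univ) (x := y) (y := t)
    (fun x _ => hf x) (fun x _ => hM x) convex_univ (mem_univ _) (mem_univ _)
  simpa using this

lemma sq_sub_le {p q M : ℝ} (hp : |p| ≤ M) (hq : |q| ≤ M) {ε : ℝ} (hε : ε = 1 ∨ ε = -1) :
    (p - ε * q) ^ 2 ≤ 4 * M ^ 2 := by
  have h1 := abs_le.1 hp
  have h2 := abs_le.1 hq
  have : |p - ε * q| ≤ 2 * M := by
    rcases hε with rfl | rfl
    · rw [abs_le]; constructor <;> linarith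
    · rw [abs_le]; constructor <;> linarith
  calc (p - ε * q) ^ 2 = |p - ε * q| ^ 2 := (sq_abs _).symm
    _ ≤ (2 * M) ^ 2 := by gcongr
    _ = _ := by ring

lemma half_bound {f : ℝ → ℝ} (hf : Differentiable ℝ f) {M : ℝ} (hM0 : ∀ t, |f t| ≤ M)
    (hM : ∀ t, |deriv f t| ≤ M) {ε : ℝ} (hε : ε = 1 ∨ ε = -1) (t y : ℝ) :
    (f t - ε * f y) ^ 2 ≤ 4 * M ^ 2 * Wt ε t y := by
  have hM' : 0 ≤ M := (abs_nonneg _).trans (hM0 0)
  unfold Wt
  rcases le_total 1 ((t - y) ^ 2 + (1 - ε)) with h | h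
  · rw [min_eq_left h, mul_one]
    exact sq_sub_le (hM0 t) (hM0 y) hε
  · rw [min_eq_right h]
    rcases hε with rfl | rfl
    · have := lip_of_deriv hf hM t y
      calc (f t - 1 * f y) ^ 2 = |f t - f y| ^ 2 := by rw [sq_abs]; ring
        _ ≤ (M * |t - y|) ^ 2 := by gcongr
        _ = M ^ 2 * (t - y) ^ 2 := by rw [mul_pow, sq_abs]
        _ ≤ _ := by nlinarith [mul_nonneg (sq_nonneg M) (sq_nonneg (t - y))]
    · exfalso; nlinarith [sq_nonneg (t - y)]

/-- The squared distance of two states is bounded by the weight. -/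
lemma Tail.dist_bound {f : ℝ → ℝ} {L A B : ℝ} (h : Tail f L A B) (hL : 0 ≤ L)
    (hf : ContDiff ℝ (⊤ : ℕ∞) f) : ∃ M, 0 ≤ M ∧ ∀ ε t y : ℝ, (ε = 1 ∨ ε = -1) →
      (f t - ε * f y) ^ 2 + (_root_.deriv f t - ε * _root_.deriv f y) ^ 2 ≤ M * Wt ε t y := by
  have hf1 : ContDiff ℝ (⊤ : ℕ∞) (_root_.deriv f) := by
    have : ContDiff ℝ ((⊤ : ℕ∞) + 1 : WithTop ℕ∞) f := by simpa using hf
    exact (contDiff_succ_iff_deriv.1 this).2.2
  have hf2 : Continuous (_root_.deriv (_root_.deriv f)) := hf1.continuous_deriv (by simp)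
  obtain ⟨M0, hM0, h0⟩ := h.bdd hL hf.continuous
  obtain ⟨M1, hM1, h1⟩ := h.deriv.bdd (by linarith) hf1.continuous
  obtain ⟨M2, hM2, h2⟩ := h.deriv.deriv.bdd (by linarith) hf2
  set M := max M0 (max M1 M2) with hM
  have hMM0 : M0 ≤ M := le_max_left _ _
  have hMM1 : M1 ≤ M := (le_max_left _ _).trans (le_max_right _ _)
  have hMM2 : M2 ≤ M := (le_max_right _ _).trans (le_max_right _ _)
  refine ⟨8 * M ^ 2, by positivity, fun ε t y hε => ?_⟩
  have k1 := half_bound (hf.differentiable (by simp)) (fun t => (h0 t).trans hMM0)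
    (fun t => (h1 t).trans hMM1) hε t y
  have k2 := half_bound (hf1.differentiable (by simp)) (fun t => (h1 t).trans hMM1)
    (fun t => (h2 t).trans hMM2) hε t y
  linarith

end SLN
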