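import Pool.Agent.SLN.Om2

/-!
# The soliton block, part 3: assembly
-/

open Real Set

noncomputable section

namespace SLN

/-! ### The matrices -/

/-- The symmetric form of one group. -/
def z3 (a b : Fin 3) : ℝ :=
  if a = 0 ∧ b = 0 then -1 else if (a = 1 ∧ b = 2) ∨ (a = 2 ∧ b = 1) then 1 / 2 else 0

/-- The matrix which sees the group `k` only. -/
def Zm {κ : Type} [DecidableEq κ] (k : κ) (σ : ℝ) : (κ × Fin 3) ⊕ Bool → (κ × Fin 3) ⊕ Bool → ℝ
  | Sum.inl p, Sum.inl q => if p.1 = k then (if q.1 = k then σ * z3 p.2 q.2 else 0) else 0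
  | Sum.inl _, Sum.inr _ => 0
  | Sum.inr _, _ => 0

lemma z3_symm (a b : Fin 3) : z3 a b = z3 b a := by
  fin_cases a <;> fin_cases b <;> simp [z3]

lemma z3_le (a b : Fin 3) : |z3 a b| ≤ 1 := by
  unfold z3
  split_ifs <;> norm_num [abs_of_pos]

lemma Zm_symm {κ : Type} [DecidableEq κ] (k : κ) (σ : ℝ) (i j : (κ × Fin 3) ⊕ Bool) :
    Zm k σ i j = Zm k σ j i := by
  rcases i with ⟨k1, a⟩ | i <;> rcases j with ⟨k2, b⟩ | j
  · simp only [Zm]
    by_cases h1 : k1 = k <;> by_cases h2 : k2 = k <;> simp [h1, h2, z3_symm a b]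
  · rfl
  · rfl
  · rfl

lemma Zm_le {κ : Type} [DecidableEq κ] (k : κ) {σ : ℝ} (hσ : |σ| ≤ 1) (i j : (κ × Fin 3) ⊕ Bool) :
    |Zm k σ i j| ≤ 1 := by
  rcases i with ⟨k1, a⟩ | i <;> rcases j with ⟨k2, b⟩ | j
  · simp only [Zm]
    by_cases h1 : k1 = k <;> by_cases h2 : k2 = k <;> simp [h1, h2, abs_mul]
    exact mul_le_one₀ hσ (abs_nonneg _) (z3_le a b)
  · simp [Zm]
  · simp [Zm]
  · simp [Zm]

lemma Zm_form {κ : Type} [Fintype κ] [DecidableEq κ] (k : κ) (σ : ℝ)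
    (s u : (κ × Fin 3) ⊕ Bool → ℝ) :
    ∑ i, ∑ j, Zm k σ i j * (s i * u j) =
      σ * (-(s (Sum.inl (k, 0)) * u (Sum.inl (k, 0)))
        + 1/2 * (s (Sum.inl (k, 1)) * u (Sum.inl (k, 2)) + s (Sum.inl (k, 2)) * u (Sum.inl (k, 1)))) := by
  have e1 : ∀ p : κ × Fin 3, ∑ j, Zm k σ (Sum.inl p) j * (s (Sum.inl p) * u j) =
      if p.1 = k then ∑ b : Fin 3, σ * z3 p.2 b * (s (Sum.inl p) * u (Sum.inl (k, b))) else 0 := by
    intro p
    rw [Fintype.sum_sum_type]
    simp only [Zm, zero_mul, Finset.sum_const_zero, add_zero]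
    by_cases h : p.1 = k
    · simp only [h, if_true]
      rw [Fintype.sum_prod_type, Finset.sum_eq_single k]
      · simp
      · intro k2 _ hk2
        simp [hk2]
      · intro hk; exact absurd (Finset.mem_univ k) hk
    · simp [h]
  have e2 : ∀ b : Bool, ∑ j, Zm k σ (Sum.inr b) j * (s (Sum.inr b) * u j) = 0 := by
    intro b
    simp only [Zm, zero_mul, Finset.sum_const_zero]
  rw [Fintype.sum_sum_type, Finset.sum_congr rfl (fun p _ => e1 p),
    Finset.sum_congr rfl (fun b _ => e2 b), Finset.sum_const_zero, add_zero]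
  rw [Fintype.sum_prod_type, Finset.sum_eq_single k]
  · simp only [if_true, Fin.sum_univ_three, z3]
    simp
    ring
  · intro k2 _ hk2
    simp [hk2]
  · intro hk; exact absurd (Finset.mem_univ k) hk

/-! ### The inert chart component -/

/-- The chart component: `exp t` up to `1`, `exp (4 - t)` from `2` on, positive. -/
def kL (t : ℝ) : ℝ :=
  (1 - Real.smoothTransition (t - 1)) * exp t + Real.smoothTransition (t - 1) * exp (4 - t)

lemma kL_contDiff : ContDiff ℝ (⊤ : ℕ∞) kL := by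
  unfold kL
  have : ContDiff ℝ (⊤ : ℕ∞) fun t : ℝ => Real.smoothTransition (t - 1) :=
    S_contDiff.comp (by fun_prop)
  fun_prop

lemma kL_pos (t : ℝ) : 0 < kL t := by
  unfold kL
  have h1 := Real.smoothTransition.nonneg (t - 1)
  have h2 := Real.smoothTransition.le_one (t - 1)
  have h3 := exp_pos t
  have h4 := exp_pos (4 - t)
  rcases h1.eq_or_lt with h | h
  · rw [← h]; simpa using h3
  · have : 0 < Real.smoothTransition (t - 1) * exp (4 - t) := mul_pos h h4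
    have : 0 ≤ (1 - Real.smoothTransition (t - 1)) * exp t := mul_nonneg (by linarith) h3.le
    linarith

lemma kL_left {t : ℝ} (ht : t ≤ 1) : kL t = exp t := by
  unfold kL
  rw [Real.smoothTransition.zero_of_nonpos (show t - 1 ≤ 0 by linarith)]; ring

lemma kL_right {t : ℝ} (ht : 2 ≤ t) : kL t = exp (4 - t) := by
  unfold kL
  rw [Real.smoothTransition.one_of_one_le (show 1 ≤ t - 1 by linarith)]; ring

lemma kL_ge {t : ℝ} (ht : 1 ≤ t) : exp (2 - t) ≤ kL t := by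
  unfold kL
  have h1 := Real.smoothTransition.nonneg (t - 1)
  have h2 := Real.smoothTransition.le_one (t - 1)
  have h3 : exp (2 - t) ≤ exp t := exp_le_exp.2 (by linarith)
  have h4 : exp (2 - t) ≤ exp (4 - t) := exp_le_exp.2 (by linarith)
  nlinarith

lemma kL_tail : Tail kL 2 1 (exp 4) := by
  constructor
  · intro t ht; rw [kL_left (by linarith)]; ring
  · intro t ht; rw [kL_right ht, sub_eq_add_neg, exp_add]

lemma Tail.neg {f : ℝ → ℝ} {L A B : ℝ} (h : Tail f L A B) : Tail (fun t => f (-t)) L B A := by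
  constructor
  · intro t ht
    simp only
    rw [h.2 (-t) (by linarith), neg_neg]
  · intro t ht
    simp only
    rw [h.1 (-t) (by linarith)]

/-! ### The real form of the theorem, with an arbitrary index type -/

theorem omega_real : ∃ (N : ℕ) (G : ((Fin N ⊕ Bool) × Fin 3) ⊕ Bool → ℝ → ℝ) (L c : ℝ),
    0 < c ∧ 2 ≤ L ∧ (∀ i, ContDiff ℝ (⊤ : ℕ∞) (G i)) ∧ (∀ i, ∃ A B, Tail (G i) L A B) ∧
    (G (Sum.inr false) = kL) ∧ (G (Sum.inr true) = fun t => kL (-t)) ∧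
    ∀ y, -L - 1 ≤ y → y ≤ L + 1 → ∃ (k : Fin N ⊕ Bool) (σ : ℝ), |σ| ≤ 1 ∧
      ∀ t ε : ℝ, (ε = 1 ∨ ε = -1) →
        ∑ i, ∑ j, Zm k σ i j * ((G i t - ε * G i y) * (deriv (G j) t - ε * deriv (G j) y)) ≤
          -c * ∑ i, ((G i t - ε * G i y) ^ 2 + (deriv (G i) t - ε * deriv (G i) y) ^ 2) := by
  obtain ⟨h0, χ0, ρ0, T, c0, hT, hc0, sh0, sχ0, sρ0, z0, z0', cert0⟩ := interior_group
  obtain ⟨h1, χ1, ρ1, R, c1, hR, hc1, sh1, sχ1, sρ1, z1, z1', cert1⟩ :=
    left_group (T + 2) (by linarith)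
  obtain ⟨K, hK⟩ := exists_nat_ge R
  have hK3 : 4 ≤ (K : ℝ) := by linarith
  set L := T + K with hL
  -- the functions
  set G : ((Fin (2 * K + 1) ⊕ Bool) × Fin 3) ⊕ Bool → ℝ → ℝ := fun i =>
    match i with
    | Sum.inl (Sum.inl k, a) => fun t => ![h0, χ0, ρ0] a (t - ((k : ℕ) - K : ℝ))
    | Sum.inl (Sum.inr false, a) => fun t => ![h1, χ1, ρ1] a (t + L)
    | Sum.inl (Sum.inr true, a) => fun t => ![h1, χ1, ρ1] a (L - t)
    | Sum.inr false => kL
    | Sum.inr true => fun t => kL (-t) with hG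
  have sm0 : ∀ a, ContDiff ℝ (⊤ : ℕ∞) (![h0, χ0, ρ0] a) := by
    intro a; fin_cases a <;> simpa
  have sm1 : ∀ a, ContDiff ℝ (⊤ : ℕ∞) (![h1, χ1, ρ1] a) := by
    intro a; fin_cases a <;> simpa
  have v0 : ∀ a, ∀ t ≤ -T, (![h0, χ0, ρ0] a) t = 0 := by
    intro a t ht
    obtain ⟨p1, p2, p3⟩ := z0 t ht
    fin_cases a <;> simpa
  have v0' : ∀ a, ∀ t, T ≤ t → (![h0, χ0, ρ0] a) t = 0 := by
    intro a t ht
    obtain ⟨p1, p2, p3⟩ := z0' t ht
    fin_cases a <;> simpa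
  have v1 : ∀ a, ∀ t, R ≤ t → (![h1, χ1, ρ1] a) t = 0 := by
    intro a t ht
    obtain ⟨p1, p2, p3⟩ := z1' t ht
    fin_cases a <;> simpa
  have v1' : ∀ a, ∃ A, ∀ t ≤ T + 2, (![h1, χ1, ρ1] a) t = A * exp t := by
    intro a
    fin_cases a
    · exact ⟨1, fun t ht => by simpa using (z1 t ht).1⟩
    · exact ⟨0, fun t ht => by simpa using (z1 t ht).2.1⟩
    · exact ⟨0, fun t ht => by simpa using (z1 t ht).2.2⟩
  have smG : ∀ i, ContDiff ℝ (⊤ : ℕ∞) (G i) := by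
    intro i
    rcases i with ⟨k | b, a⟩ | b
    · exact (sm0 a).comp (by fun_prop)
    · cases b
      · exact (sm1 a).comp (by fun_prop)
      · exact (sm1 a).comp (by fun_prop)
    · cases b
      · exact kL_contDiff
      · exact kL_contDiff.comp (by fun_prop)
  have tlG : ∀ i, ∃ A B, Tail (G i) L A B := by
    intro i
    rcases i with ⟨k | b, a⟩ | b
    · refine ⟨0, 0, ?_, ?_⟩
      · intro t ht
        have hk : (0:ℝ) ≤ (k : ℕ) := Nat.cast_nonneg _
        simp only [hG, zero_mul]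
        exact v0 a _ (by linarith)
      · intro t ht
        have hk : ((k : ℕ) : ℝ) ≤ 2 * K := by
          have : (k : ℕ) ≤ 2 * K := by omega
          exact_mod_cast this
        simp only [hG, zero_mul]
        exact v0' a _ (by linarith)
    · obtain ⟨A, hA⟩ := v1' a
      cases b
      · refine ⟨A * exp L, 0, ?_, ?_⟩
        · intro t ht
          simp only [hG]
          rw [hA _ (by linarith), exp_add]; ring
        · intro t ht
          simp only [hG, zero_mul]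
          exact v1 a _ (by linarith)
      · refine ⟨0, A * exp L, ?_, ?_⟩
        · intro t ht
          simp only [hG, zero_mul]
          exact v1 a _ (by linarith)
        · intro t ht
          simp only [hG]
          rw [hA _ (by linarith), sub_eq_add_neg, exp_add]; ring
    · cases b
      · exact ⟨1, exp 4, kL_tail.mono (by linarith)⟩
      · exact ⟨exp 4, 1, kL_tail.neg.mono (by linarith)⟩
  -- the total constant
  have hD : ∀ i, ∃ M, 0 ≤ M ∧ ∀ ε t y : ℝ, (ε = 1 ∨ ε = -1) →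
      (G i t - ε * G i y) ^ 2 + (deriv (G i) t - ε * deriv (G i) y) ^ 2 ≤ M * Wt ε t y := by
    intro i
    obtain ⟨A, B, hAB⟩ := tlG i
    exact hAB.dist_bound (by linarith) (smG i)
  choose M hM0 hM using hD
  set MM := ∑ i, M i + 1 with hMM
  have hMMp : 0 < MM := by
    have : 0 ≤ ∑ i, M i := Finset.sum_nonneg fun i _ => hM0 i
    linarith
  have hsum : ∀ ε t y : ℝ, (ε = 1 ∨ ε = -1) →
      ∑ i, ((G i t - ε * G i y) ^ 2 + (deriv (G i) t - ε * deriv (G i) y) ^ 2) ≤ MM * Wt ε t y := by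
    intro ε t y hε
    calc _ ≤ ∑ i, M i * Wt ε t y := Finset.sum_le_sum fun i _ => hM i ε t y hε
      _ = (∑ i, M i) * Wt ε t y := by rw [Finset.sum_mul]
      _ ≤ MM * Wt ε t y := mul_le_mul_of_nonneg_right (by linarith) (Wt_nonneg hε t y)
  set cc := min c0 c1 with hcc
  have hccp : 0 < cc := lt_min hc0 hc1
  have fin : ∀ (k : Fin (2 * K + 1) ⊕ Bool) (σ y : ℝ), (∀ t ε : ℝ, (ε = 1 ∨ ε = -1) →
      σ * N3 (G (Sum.inl (k, 0))) (G (Sum.inl (k, 1))) (G (Sum.inl (k, 2))) ε t y ≤ -cc * Wt ε t y) →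
      ∀ t ε : ℝ, (ε = 1 ∨ ε = -1) →
        ∑ i, ∑ j, Zm k σ i j * ((G i t - ε * G i y) * (deriv (G j) t - ε * deriv (G j) y)) ≤
          -(cc / MM) * ∑ i, ((G i t - ε * G i y) ^ 2 + (deriv (G i) t - ε * deriv (G i) y) ^ 2) := by
    intro k σ y hk t ε hε
    rw [Zm_form k σ (fun i => G i t - ε * G i y) (fun j => deriv (G j) t - ε * deriv (G j) y)]
    have e1 := hk t ε hε
    unfold N3 at e1
    refine e1.trans ?_
    have e2 := hsum ε t y hε
    have e3 : (cc / MM) * ∑ i, ((G i t - ε * G i y) ^ 2 + (deriv (G i) t - ε * deriv (G i) y) ^ 2)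
        ≤ (cc / MM) * (MM * Wt ε t y) := mul_le_mul_of_nonneg_left e2 (by positivity)
    have e4 : (cc / MM) * (MM * Wt ε t y) = cc * Wt ε t y := by field_simp
    rw [e4] at e3
    linarith
  have wk : ∀ c x ε t y : ℝ, (ε = 1 ∨ ε = -1) → cc ≤ c → x ≤ -c * Wt ε t y → x ≤ -cc * Wt ε t y := by
    intro c x ε t y hε hc hx
    have := Wt_nonneg hε t y
    nlinarith
  refine ⟨2 * K + 1, G, L, cc / MM, by positivity, by linarith, smG, tlG, rfl, rfl, ?_⟩
  intro y hy1 hy2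
  rcases lt_or_ge y (-K) with hyK | hyK
  · -- left tail group
    refine ⟨Sum.inr false, 1, by simp, fin _ _ _ ?_⟩
    intro t ε hε
    apply wk c1 _ ε t y hε (min_le_right _ _)
    have e := cert1 (y + L) ⟨by linarith, by linarith⟩ (t + L) ε hε
    rw [Wt_trans'] at e
    have e2 : N3 (G (Sum.inl (Sum.inr false, 0))) (G (Sum.inl (Sum.inr false, 1)))
        (G (Sum.inl (Sum.inr false, 2))) ε t y = N3 h1 χ1 ρ1 ε (t + L) (y + L) :=
      N3_trans' h1 χ1 ρ1 L ε t y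
    rw [e2, one_mul]
    exact e
  rcases lt_or_ge (K : ℝ) y with hyK' | hyK'
  · -- right tail group
    refine ⟨Sum.inr true, -1, by simp, fin _ _ _ ?_⟩
    intro t ε hε
    apply wk c1 _ ε t y hε (min_le_right _ _)
    have e := cert1 (L - y) ⟨by linarith, by linarith⟩ (L - t) ε hε
    rw [Wt_mirror] at e
    have e2 : N3 (G (Sum.inl (Sum.inr true, 0))) (G (Sum.inl (Sum.inr true, 1)))
        (G (Sum.inl (Sum.inr true, 2))) ε t y = -N3 h1 χ1 ρ1 ε (L - t) (L - y) :=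
      N3_mirror h1 χ1 ρ1 L ε t y
    rw [e2]
    linarith
  · -- interior groups
    have hy0 : 0 ≤ y + K := by linarith
    have f1 : (⌊y + K⌋₊ : ℝ) ≤ y + K := Nat.floor_le hy0
    have f2 : y + K < ⌊y + K⌋₊ + 1 := Nat.lt_floor_add_one _
    have f3 : ⌊y + K⌋₊ < 2 * K + 1 := by
      have : (⌊y + K⌋₊ : ℝ) < 2 * K + 1 := by linarith
      exact_mod_cast this
    refine ⟨Sum.inl ⟨⌊y + K⌋₊, f3⟩, 1, by simp, fin _ _ _ ?_⟩
    intro t ε hε
    apply wk c0 _ ε t y hε (min_le_left _ _)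
    have e := cert0 (y - ((⌊y + K⌋₊ : ℕ) - K : ℝ)) ⟨by linarith, by linarith⟩
      (t - ((⌊y + K⌋₊ : ℕ) - K : ℝ)) ε hε
    rw [Wt_trans] at e
    have e2 : N3 (G (Sum.inl (Sum.inl ⟨⌊y + K⌋₊, f3⟩, 0))) (G (Sum.inl (Sum.inl ⟨⌊y + K⌋₊, f3⟩, 1)))
        (G (Sum.inl (Sum.inl ⟨⌊y + K⌋₊, f3⟩, 2))) ε t y
        = N3 h0 χ0 ρ0 ε (t - ((⌊y + K⌋₊ : ℕ) - K : ℝ)) (y - ((⌊y + K⌋₊ : ℕ) - K : ℝ)) :=
      N3_trans h0 χ0 ρ0 _ ε t y
    rw [e2, one_mul]
    exact e

end SLN
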